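import Pool.Agent.Lib.TR.O2

/-!
# Module TR.C1: basic properties of the chain
-/

open Polynomial MP1a953e IsLocalRing DA Filter

namespace TR
open Pool.Agent.Lib.MP_3029eb_ag Pool.Agent.Lib.MP_3029eb_ag.Abh CS

section
variable {k k' L M : Type} [NontriviallyNormedField k] [IsUltrametricDist k]
  [NormedField k'] [IsUltrametricDist k'] [NormedAlgebra k k'] [NormedField L]
  [IsUltrametricDist L] [NormedAlgebra k L] [NormedField M] [IsUltrametricDist M]
  [NormedAlgebra k' M] [NormedAlgebra L M]

/-- Proof. A monic polynomial over `KT C` has a root in `k'`, which is algebraic over `KT C`, so over `k(C)`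
(transitivity; `algebraicClosure`). -/
theorem isAlgClosed_KT [IsAlgClosed k'] (C : Set k') : IsAlgClosed (KT k k' C) := by
  have h : IsAlgClosed (algebraicClosure (IntermediateField.adjoin k C) k') :=
    (algebraicClosure.isAlgClosure (IntermediateField.adjoin k C) k').isAlgClosed
  refine IsAlgClosed.of_ringEquiv (algebraicClosure (IntermediateField.adjoin k C) k') _
    { toFun := fun x => (⟨x.1, x.2⟩ : ↥(KC k k' C))
      invFun := fun x => ⟨KT.val k k' x, KT.val_mem x⟩
      left_inv := fun _ => rfl
      right_inv := fun _ => rfl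
      map_mul' := fun _ _ => rfl
      map_add' := fun _ _ => rfl }

theorem algebraMap_KT_NT (C : Set k') (x : KT k k' C) :
    algebraMap (KT k k' C) (NT k k' L M C) x = NT.ofK C x := rfl

theorem algebraMap_L_NT (C : Set k') (x : L) :
    algebraMap L (NT k k' L M C) x = NT.ofL C x := rfl

theorem algebraMap_k_KT (C : Set k') (x : k) :
    algebraMap k (KT k k' C) x = KT.ofk C x := rfl

omit [IsUltrametricDist k] [IsUltrametricDist k'] [IsUltrametricDist L] [NormedAlgebra k L]
  [IsUltrametricDist M] in
private theorem NT_val_inj {C : Set k'} : Function.Injective (NT.val k k' L M (C := C)) :=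
  fun _ _ h => Subtype.ext h

/-- `NT C` is generated by `KT C` and `L` -/
theorem gen_NT (C : Set k') :
    IntermediateField.adjoin (KT k k' C) (Set.range (NT.ofL C : L →+* NT k k' L M C)) = ⊤ := by
  rw [eq_top_iff]
  rintro y -
  have key : ∀ x : M, ∀ hx : x ∈ NC k k' L M C, ∃ z ∈ IntermediateField.adjoin (KT k k' C)
      (Set.range (NT.ofL C : L →+* NT k k' L M C)), NT.val k k' L M z = x := by
    intro x hx
    unfold NC at hx
    induction hx using Subfield.closure_induction with
    | mem x hx =>
      rcases hx with ⟨l, rfl⟩ | ⟨a, ha, rfl⟩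
      · exact ⟨NT.ofL C l, IntermediateField.subset_adjoin _ _ ⟨l, rfl⟩, rfl⟩
      · refine ⟨NT.ofK C (⟨a, ha⟩ : ↥(KC k k' C)), ?_, rfl⟩
        exact (IntermediateField.adjoin (KT k k' C) _).algebraMap_mem (⟨a, ha⟩ : ↥(KC k k' C))
    | one => exact ⟨1, one_mem _, map_one _⟩
    | add x y _ _ hx hy =>
      obtain ⟨u, hu, rfl⟩ := hx
      obtain ⟨v, hv, rfl⟩ := hy
      exact ⟨u + v, add_mem hu hv, map_add _ _ _⟩
    | neg x _ hx =>
      obtain ⟨u, hu, rfl⟩ := hx
      exact ⟨-u, neg_mem hu, map_neg _ _⟩
    | inv x _ hx =>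
      obtain ⟨u, hu, rfl⟩ := hx
      exact ⟨u⁻¹, inv_mem hu, map_inv₀ _ _⟩
    | mul x y _ _ hx hy =>
      obtain ⟨u, hu, rfl⟩ := hx
      obtain ⟨v, hv, rfl⟩ := hy
      exact ⟨u * v, mul_mem hu hv, map_mul _ _ _⟩
  obtain ⟨z, hz, hzy⟩ := key (NT.val k k' L M y) (NT.val_mem y)
  rwa [NT_val_inj hzy] at hz

private theorem ofL_algebraMap (h : Lift k k' L M) (C : Set k') (x : k) :
    (NT.ofL C (algebraMap k L x) : NT k k' L M C) =
      algebraMap (KT k k' C) (NT k k' L M C) (KT.ofk C x) :=
  NT_val_inj (h.comm x).symm

/-- Proof. A finite set of generators of `L` over `k` generates `NT C` over `KT C` (`gen_NT`, `h.comm`). -/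
theorem fg_NT (h : Lift k k' L M) (hfg : (⊤ : IntermediateField k L).FG) (C : Set k') :
    (⊤ : IntermediateField (KT k k' C) (NT k k' L M C)).FG := by
  classical
  obtain ⟨S, hS⟩ := hfg
  refine ⟨S.image (NT.ofL C), ?_⟩
  rw [eq_top_iff, ← gen_NT C, IntermediateField.adjoin_le_iff]
  rintro _ ⟨l, rfl⟩
  have hl : l ∈ IntermediateField.adjoin k (S : Set L) := hS ▸ IntermediateField.mem_top
  induction hl using IntermediateField.adjoin_induction with
  | mem x hx =>
    exact IntermediateField.subset_adjoin _ _ (by
      rw [Finset.coe_image]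
      exact ⟨x, hx, rfl⟩)
  | algebraMap x =>
    rw [ofL_algebraMap h]
    exact (IntermediateField.adjoin (KT k k' C) _).algebraMap_mem _
  | add x y _ _ hx hy => rw [map_add]; exact add_mem hx hy
  | inv x _ hx => rw [map_inv₀]; exact inv_mem hx
  | mul x y _ _ hx hy => rw [map_mul]; exact mul_mem hx hy

/-- elements of `L` which are linearly independent over `k` are linearly independent over `k'` in `M`. Proof. `exists_orth` for the
finite set of the elements gives an orthogonal family `m` with the same span or larger; write `l = A m` with a matrix over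
`k` of full rank (its rows are independent over `k`, so over `k'`: `LinearIndependent` of the rows is preserved by the field
extension `k → k'`), and `∑ b i l i = ∑ (b A) s m s = 0` implies `b A = 0` by `h.orth`. -/
theorem linInd_lift [CompleteSpace k] (h : Lift k k' L M) {n : ℕ} {l : Fin n → L}
    (hl : ∀ b : Fin n → k, ∑ j, algebraMap k L (b j) * l j = 0 → b = 0) (b : Fin n → k')
    (hb : ∑ j, algebraMap k' M (b j) * algebraMap L M (l j) = 0) : b = 0 := by
  classical
  obtain ⟨N, m, h1, h2, h3⟩ := exists_orth (k := k) (Finset.univ.image l)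
    (show (1 / 2 : ℝ) < 1 by norm_num)
  have h4 : ∀ j, ∃ a : Fin N → k, l j = ∑ s, algebraMap k L (a s) * m s := fun j =>
    h3 _ (Finset.mem_image_of_mem _ (Finset.mem_univ j))
  choose A hA using h4
  have h5 := h.orth N m (1 / 2) (by norm_num) h1 (fun s => ∑ j, b j * algebraMap k k' (A j s))
  have h6 : ∑ s, algebraMap k' M (∑ j, b j * algebraMap k k' (A j s)) * algebraMap L M (m s) =
      0 := by
    rw [← hb]
    simp only [hA, map_sum, map_mul, h.comm, Finset.sum_mul, Finset.mul_sum]
    rw [Finset.sum_comm]
    refine Finset.sum_congr rfl fun j _ => Finset.sum_congr rfl fun s _ => ?_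
    ring
  have h7 : ∀ s, ∑ j, b j * algebraMap k k' (A j s) = 0 := by
    intro s
    have h8 := h5 s
    rw [h6, norm_zero] at h8
    have h9 : 0 < ‖m s‖ := norm_pos_iff.2 (h2 s)
    have h10 : ‖∑ j, b j * algebraMap k k' (A j s)‖ ≤ 0 := by
      by_contra hc
      push Not at hc
      have := mul_pos hc h9
      linarith
    exact norm_le_zero_iff.1 h10
  let B := Module.Basis.ofVectorSpace k k'
  have h11 : ∀ t, (fun j => B.repr (b j) t) = 0 := by
    intro t
    apply hl
    have h12 : ∀ s, ∑ j, B.repr (b j) t * A j s = 0 := by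
      intro s
      have h13 := congrArg (fun z => B.repr z t) (h7 s)
      simp only [map_zero, Finsupp.coe_zero, Pi.zero_apply, map_sum, Finsupp.coe_finsetSum,
        Finset.sum_apply] at h13
      rw [← h13]
      refine Finset.sum_congr rfl fun j _ => ?_
      rw [mul_comm (b j), ← Algebra.smul_def, map_smul, Finsupp.smul_apply, smul_eq_mul, mul_comm]
    simp only [hA, Finset.mul_sum]
    rw [Finset.sum_comm]
    refine Finset.sum_eq_zero fun s _ => ?_
    have h14 : ∑ j, algebraMap k L (B.repr (b j) t) * (algebraMap k L (A j s) * m s) =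
        algebraMap k L (∑ j, B.repr (b j) t * A j s) * m s := by
      simp only [map_sum, map_mul, Finset.sum_mul, mul_assoc]
    rw [h14, h12 s, map_zero, zero_mul]
  funext j
  have h15 : B.repr (b j) = 0 := by
    ext t
    exact congrFun (h11 t) j
  simpa using h15

/-- Proof. A transcendence basis `x 1, …, x n` of `L / k`: its monomials are linearly independent over `k`, so over `k'`
(`linInd_lift`), so `x` is algebraically independent over `KT C`, and `NT C` is algebraic over `KT C (x)` (`gen_NT`). -/
theorem trdeg_NT [CompleteSpace k] (h : Lift k k' L M) {n : ℕ}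
    (hn : Algebra.trdeg k L = (n : Cardinal)) (C : Set k') :
    Algebra.trdeg (KT k k' C) (NT k k' L M C) = (n : Cardinal) := by
  classical
  obtain ⟨ι, x, hx⟩ := exists_isTranscendenceBasis' k L
  have hι : Cardinal.mk ι = (n : Cardinal) := hx.cardinalMk_eq_trdeg.trans hn
  let y : ι → NT k k' L M C := fun i => NT.ofL C (x i)
  have hy : AlgebraicIndependent (KT k k' C) y := by
    rw [algebraicIndependent_iff]
    intro p hp
    let e := p.support.equivFin.symm
    let l : Fin p.support.card → L := fun j => (e j : ι →₀ ℕ).prod fun i a => x i ^ a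
    have hl : ∀ b : Fin p.support.card → k, ∑ j, algebraMap k L (b j) * l j = 0 → b = 0 := by
      intro b hb
      have h1 : MvPolynomial.aeval x
          (∑ j, MvPolynomial.monomial (e j : ι →₀ ℕ) (b j)) = 0 := by
        rw [map_sum, ← hb]
        refine Finset.sum_congr rfl fun j _ => ?_
        rw [MvPolynomial.aeval_monomial]
      have h2 := (algebraicIndependent_iff.1 hx.1) _ h1
      funext j
      have h3 := congrArg (MvPolynomial.coeff (e j : ι →₀ ℕ)) h2
      rw [MvPolynomial.coeff_sum, MvPolynomial.coeff_zero,
        Finset.sum_eq_single j] at h3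
      · rwa [MvPolynomial.coeff_monomial, if_pos rfl] at h3
      · intro i _ hij
        rw [MvPolynomial.coeff_monomial, if_neg]
        intro h4
        exact hij (e.injective (Subtype.ext h4))
      · intro h4
        exact absurd (Finset.mem_univ _) h4
    have h1 := linInd_lift h hl (fun j => KT.val k k' (p.coeff (e j : ι →₀ ℕ))) ?_
    · ext m
      rw [MvPolynomial.coeff_zero]
      by_cases hm : m ∈ p.support
      · have h2 := congrFun h1 (e.symm ⟨m, hm⟩)
        simp only [Equiv.apply_symm_apply, Pi.zero_apply] at h2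
        exact (map_eq_zero _).1 h2
      · exact MvPolynomial.notMem_support_iff.1 hm
    · have h2 := congrArg (NT.val k k' L M) hp
      rw [map_zero, MvPolynomial.aeval_def, MvPolynomial.eval₂_eq, map_sum,
        ← Finset.sum_coe_sort] at h2
      rw [← h2, ← e.sum_comp]
      refine Finset.sum_congr rfl fun j _ => ?_
      rw [map_mul, map_prod]
      show _ * algebraMap L M (∏ i ∈ (e j : ι →₀ ℕ).support, x i ^ (e j : ι →₀ ℕ) i) = _
      rw [map_prod]
      simp only [map_pow]
      rfl
  have hF : ∀ u ∈ IntermediateField.adjoin k (Set.range x), (NT.ofL C u : NT k k' L M C) ∈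
      IntermediateField.adjoin (KT k k' C) (Set.range y) := by
    intro u hu
    induction hu using IntermediateField.adjoin_induction with
    | mem w hw =>
      obtain ⟨i, rfl⟩ := hw
      exact IntermediateField.subset_adjoin _ _ ⟨i, rfl⟩
    | algebraMap w =>
      rw [ofL_algebraMap h]
      exact (IntermediateField.adjoin (KT k k' C) _).algebraMap_mem _
    | add x y _ _ hx hy => rw [map_add]; exact add_mem hx hy
    | inv x _ hx => rw [map_inv₀]; exact inv_mem hx
    | mul x y _ _ hx hy => rw [map_mul]; exact mul_mem hx hy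
  have hL : ∀ l : L, IsAlgebraic (IntermediateField.adjoin (KT k k' C) (Set.range y))
      (NT.ofL C l : NT k k' L M C) := by
    intro l
    have h1 := hx.isAlgebraic.isAlgebraic l
    rw [← IntermediateField.isAlgebraic_adjoin_iff] at h1
    obtain ⟨p, hp, hpl⟩ := h1
    let φ : IntermediateField.adjoin k (Set.range x) →+*
        IntermediateField.adjoin (KT k k' C) (Set.range y) :=
      { toFun := fun u => ⟨NT.ofL C (u : L), hF u u.2⟩
        map_one' := Subtype.ext (map_one _)
        map_mul' := fun _ _ => Subtype.ext (map_mul _ _ _)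
        map_zero' := Subtype.ext (map_zero _)
        map_add' := fun _ _ => Subtype.ext (map_add _ _ _) }
    refine ⟨p.map φ, (Polynomial.map_ne_zero_iff φ.injective).2 hp, ?_⟩
    rw [Polynomial.aeval_def, Polynomial.eval₂_map]
    have h2 := congrArg (NT.ofL C : L →+* NT k k' L M C) hpl
    rw [map_zero, Polynomial.aeval_def, Polynomial.hom_eval₂] at h2
    exact h2
  have halg : Algebra.IsAlgebraic (Algebra.adjoin (KT k k' C) (Set.range y))
      (NT k k' L M C) := by
    rw [← IntermediateField.isAlgebraic_adjoin_iff_top]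
    refine ⟨fun z => ?_⟩
    have hz : z ∈ IntermediateField.adjoin (KT k k' C)
        (Set.range (NT.ofL C : L →+* NT k k' L M C)) := by
      rw [gen_NT C]
      exact IntermediateField.mem_top
    induction hz using IntermediateField.adjoin_induction with
    | mem w hw =>
      obtain ⟨l, rfl⟩ := hw
      exact hL l
    | algebraMap w =>
      exact isAlgebraic_algebraMap (⟨_, (IntermediateField.adjoin (KT k k' C)
        (Set.range y)).algebraMap_mem w⟩ : IntermediateField.adjoin (KT k k' C) (Set.range y))
    | add x y _ _ hx hy => exact hx.add hy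
    | inv x _ hx => exact hx.inv
    | mul x y _ _ hx hy => exact hx.mul hy
  refine le_antisymm ?_ ?_
  · refine (Algebra.IsAlgebraic.trdeg_le_cardinalMk (KT k k' C) (Set.range y)).trans ?_
    rw [← hι]
    exact Cardinal.mk_range_le
  · rw [← hι]
    exact hy.cardinalMk_le_trdeg

end

end TR
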