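import Pool.Agent.Lib.TR.Defs

/-!
# Module TR.O1: almost orthogonal bases
-/

open Polynomial MP1a953e IsLocalRing DA Filter

namespace TR
open Pool.Agent.Lib.MP_3029eb_ag Pool.Agent.Lib.MP_3029eb_ag.Abh CS

/-- Proof. Induction on `S` (or on the dimension of the span), for all `α < 1`. Let `Λ` be the span of `l`, `x` a new element not in
`Λ`. `Λ` is finite dimensional over the complete field `k`, so it is closed (`Submodule.closed_of_finiteDimensional`) and the
distance `δ` of `x` to `Λ` is positive. Let `α < β < 1` with `β ^ 2 ≥ α` (and the induction hypothesis for `β`); choose `y ∈ Λ`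
with `‖x - y‖ < δ / β`, `x' = x - y`. For `z ∈ Λ`, `b ∈ k`: `‖z + b x'‖ ≥ ‖b‖ δ ≥ β ‖b x'‖`, and `‖z‖ ≤ max ‖z + b x'‖ ‖b x'‖ ≤
β⁻¹ ‖z + b x'‖`; so `l` together with `x'` is `β ^ 2`-orthogonal. -/
theorem exists_orth {k L : Type} [NontriviallyNormedField k] [CompleteSpace k]
    [IsUltrametricDist k] [NormedField L] [IsUltrametricDist L] [NormedAlgebra k L]
    (S : Finset L) {α : ℝ} (hα : α < 1) : ∃ (n : ℕ) (l : Fin n → L),
      (∀ (b : Fin n → k) (i : Fin n),
        α * (‖b i‖ * ‖l i‖) ≤ ‖∑ j, algebraMap k L (b j) * l j‖) ∧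
      (∀ i, l i ≠ 0) ∧ ∀ x ∈ S, ∃ b : Fin n → k, x = ∑ j, algebraMap k L (b j) * l j := by
  classical
  induction S using Finset.induction_on generalizing α with
  | empty =>
    refine ⟨0, fun i => i.elim0, fun b i => i.elim0, fun i => i.elim0, ?_⟩
    intro x hx
    simp at hx
  | insert x S hxS ih =>
    set a := max α 0 with ha
    have ha0 : 0 ≤ a := le_max_right _ _
    have ha1 : a < 1 := max_lt hα one_pos
    have haα : α ≤ a := le_max_left _ _
    set β := Real.sqrt ((1 + a) / 2) with hβ
    have hβsq : β * β = (1 + a) / 2 := Real.mul_self_sqrt (by linarith)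
    have hβ0 : 0 < β := Real.sqrt_pos.2 (by linarith)
    have hβ1 : β < 1 := by
      by_contra h
      push Not at h
      nlinarith
    have hαβ2 : α ≤ β * β := by rw [hβsq]; linarith
    have hβ2 : β * β ≤ β := by nlinarith
    obtain ⟨n, l, h1, h2, h3⟩ := ih hβ1
    by_cases hx : x ∈ Submodule.span k (Set.range l)
    · refine ⟨n, l, ?_, h2, ?_⟩
      · intro b i
        refine le_trans ?_ (h1 b i)
        exact mul_le_mul_of_nonneg_right (hαβ2.trans hβ2) (by positivity)
      · intro y hy
        rcases Finset.mem_insert.1 hy with rfl | hy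
        · obtain ⟨c, hc⟩ := (Submodule.mem_span_range_iff_exists_fun k).1 hx
          refine ⟨c, ?_⟩
          rw [← hc]
          exact Finset.sum_congr rfl fun j _ => Algebra.smul_def _ _
        · exact h3 y hy
    · set Λ := Submodule.span k (Set.range l) with hΛ
      have : FiniteDimensional k Λ := FiniteDimensional.span_of_finite k (Set.finite_range l)
      have hcl : IsClosed (Λ : Set L) := Submodule.closed_of_finiteDimensional Λ
      have hne : (Λ : Set L).Nonempty := ⟨0, Λ.zero_mem⟩
      set δ := Metric.infDist x (Λ : Set L) with hδ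
      have hδ0 : 0 < δ := (hcl.notMem_iff_infDist_pos hne).1 hx
      have hlt : δ < δ / β := by
        rw [lt_div_iff₀ hβ0]
        nlinarith
      obtain ⟨y, hyΛ, hy⟩ := (Metric.infDist_lt_iff hne).1 hlt
      set x' := x - y with hx'
      have hx'n : ‖x'‖ < δ / β := by
        rw [hx', ← dist_eq_norm]; exact hy
      have hx'0 : x' ≠ 0 := by
        intro h
        apply hx
        have : x = y := sub_eq_zero.1 h
        rw [this]; exact hyΛ
      have key : ∀ z ∈ Λ, ∀ b : k, β * (‖b‖ * ‖x'‖) ≤ ‖z + b • x'‖ := by
        intro z hz b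
        by_cases hb : b = 0
        · subst hb; simp
        · have hb0 : 0 < ‖b‖ := norm_pos_iff.2 hb
          have h4 : ‖b‖ * δ ≤ ‖z + b • x'‖ := by
            have h5 : z + b • x' = b • (x - (y - b⁻¹ • z)) := by
              rw [hx', smul_sub, smul_sub, smul_sub, smul_smul, mul_inv_cancel₀ hb, one_smul]
              abel
            rw [h5, norm_smul]
            refine mul_le_mul_of_nonneg_left ?_ hb0.le
            rw [← dist_eq_norm]
            exact Metric.infDist_le_dist_of_mem (Λ.sub_mem hyΛ (Λ.smul_mem _ hz))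
          refine le_trans ?_ h4
          have h6 : β * ‖x'‖ ≤ δ := by
            have := (lt_div_iff₀ hβ0).1 hx'n
            linarith
          calc β * (‖b‖ * ‖x'‖) = ‖b‖ * (β * ‖x'‖) := by ring
            _ ≤ ‖b‖ * δ := mul_le_mul_of_nonneg_left h6 hb0.le
      have key2 : ∀ z ∈ Λ, ∀ b : k, β * ‖z‖ ≤ ‖z + b • x'‖ := by
        intro z hz b
        have h7 : ‖z‖ ≤ max ‖z + b • x'‖ ‖b • x'‖ := by
          have h70 := IsUltrametricDist.norm_add_le_max (z + b • x') (-(b • x'))
          rw [norm_neg, add_neg_cancel_right] at h70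
          exact h70
        rcases le_max_iff.1 h7 with h8 | h8
        · exact le_trans (by nlinarith [norm_nonneg z]) h8
        · have h9 := key z hz b
          rw [← norm_smul] at h9
          refine le_trans ?_ h9
          exact mul_le_mul_of_nonneg_left h8 hβ0.le
      have hsum : ∀ b : Fin (n + 1) → k, (∑ j, algebraMap k L (b j) * (Fin.snoc l x' : Fin (n+1) → L) j)
          = (∑ j : Fin n, algebraMap k L (b j.castSucc) * l j) + b (Fin.last n) • x' := by
        intro b
        rw [Fin.sum_univ_castSucc]
        simp [Algebra.smul_def]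
      have hmem : ∀ b : Fin n → k, (∑ j : Fin n, algebraMap k L (b j) * l j) ∈ Λ := by
        intro b
        refine Λ.sum_mem fun j _ => ?_
        rw [← Algebra.smul_def]
        exact Λ.smul_mem _ (Submodule.subset_span ⟨j, rfl⟩)
      refine ⟨n + 1, Fin.snoc l x', ?_, ?_, ?_⟩
      · intro b i
        rw [hsum]
        have hm := hmem (fun j => b j.castSucc)
        refine Fin.lastCases ?_ (fun i => ?_) i
        · rw [Fin.snoc_last]
          refine le_trans ?_ (key _ hm _)
          exact mul_le_mul_of_nonneg_right (hαβ2.trans hβ2) (by positivity)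
        · rw [Fin.snoc_castSucc]
          refine le_trans ?_ (key2 _ hm (b (Fin.last n)))
          have h10 := h1 (fun j => b j.castSucc) i
          have h11 : 0 ≤ ‖b i.castSucc‖ * ‖l i‖ := by positivity
          calc α * (‖b i.castSucc‖ * ‖l i‖) ≤ (β * β) * (‖b i.castSucc‖ * ‖l i‖) :=
                mul_le_mul_of_nonneg_right hαβ2 h11
            _ = β * (β * (‖b i.castSucc‖ * ‖l i‖)) := by ring
            _ ≤ _ := mul_le_mul_of_nonneg_left h10 hβ0.le
      · intro i
        refine Fin.lastCases ?_ (fun i => ?_) i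
        · rw [Fin.snoc_last]; exact hx'0
        · rw [Fin.snoc_castSucc]; exact h2 i
      · intro w hw
        rcases Finset.mem_insert.1 hw with rfl | hw
        · obtain ⟨c, hc⟩ := (Submodule.mem_span_range_iff_exists_fun k).1 hyΛ
          refine ⟨Fin.snoc c 1, ?_⟩
          rw [hsum]
          simp only [Fin.snoc_castSucc, Fin.snoc_last, one_smul]
          have : (∑ j : Fin n, algebraMap k L (c j) * l j) = y := by
            rw [← hc]
            exact Finset.sum_congr rfl fun j _ => (Algebra.smul_def _ _).symm
          rw [this, hx']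
          abel
        · obtain ⟨c, hc⟩ := h3 w hw
          refine ⟨Fin.snoc c 0, ?_⟩
          rw [hsum]
          simp only [Fin.snoc_castSucc, Fin.snoc_last, zero_smul, add_zero]
          exact hc

end TR
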