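import Pool.Agent.Lib.TR.CDefs
import Pool.Agent.Lib.TR.O1

/-!
# Module TR.O2: polynomials over `NT C`
-/

open Polynomial MP1a953e IsLocalRing DA Filter

namespace TR
open Pool.Agent.Lib.MP_3029eb_ag Pool.Agent.Lib.MP_3029eb_ag.Abh CS

section aux
variable {k k' L M : Type} [NontriviallyNormedField k]
  [NormedField k'] [NormedAlgebra k k'] [NormedField L]
  [NormedAlgebra k L] [NormedField M]
  [NormedAlgebra k' M] [NormedAlgebra L M]

/-- the ring generated by `L` and `KT C` -/
private noncomputable def oR (C : Set k') : Subring (NT k k' L M C) :=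
  (Algebra.adjoin (KT k k' C) (Set.range (NT.ofL C : L →+* NT k k' L M C))).toSubring

private theorem oR_ofK (C : Set k') (x : KT k k' C) : NT.ofK C x ∈ (oR C : Subring (NT k k' L M C)) :=
  (Algebra.adjoin (KT k k' C) (Set.range (NT.ofL C : L →+* NT k k' L M C))).algebraMap_mem x

private theorem oR_ofL (C : Set k') (x : L) : NT.ofL C x ∈ (oR C : Subring (NT k k' L M C)) :=
  Algebra.subset_adjoin ⟨x, rfl⟩

private theorem oR_frac (C : Set k') (x : NT k k' L M C) :
    ∃ e : NT k k' L M C, e ≠ 0 ∧ e ∈ (oR C : Subring (NT k k' L M C)) ∧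
      e * x ∈ (oR C : Subring (NT k k' L M C)) := by
  have hle : Subring.closure (Set.range (algebraMap L M) ∪ algebraMap k' M '' (KC k k' C : Set k')) ≤
      (oR C : Subring (NT k k' L M C)).map (NT.val k k' L M) := by
    rw [Subring.closure_le]
    rintro _ (⟨l, rfl⟩ | ⟨y, hy, rfl⟩)
    · exact ⟨NT.ofL C l, oR_ofL C l, rfl⟩
    · exact ⟨NT.ofK C (⟨y, hy⟩ : ↥(KC k k' C)), oR_ofK C _, rfl⟩
  obtain ⟨y, hy, z, hz, hyz⟩ := Subfield.mem_closure_iff.1 (NT.val_mem x)
  obtain ⟨y', hy', rfl⟩ := hle hy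
  obtain ⟨z', hz', rfl⟩ := hle hz
  have hinj : Function.Injective (NT.val k k' L M : NT k k' L M C →+* M) := RingHom.injective _
  by_cases h0 : z' = 0
  · refine ⟨1, one_ne_zero, Subring.one_mem _, ?_⟩
    rw [h0, map_zero, div_zero] at hyz
    have : x = 0 := by
      apply hinj
      rw [← hyz, map_zero]
    rw [this, mul_zero]
    exact Subring.zero_mem _
  · refine ⟨z', h0, hz', ?_⟩
    have : z' * x = y' := by
      apply hinj
      rw [map_mul, ← hyz]
      have h1 : NT.val k k' L M z' ≠ 0 := fun h => h0 (hinj (by rw [h, map_zero]))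
      field_simp
    rw [this]
    exact hy'

private theorem oR_frac_fin (C : Set k') (f : ℕ → NT k k' L M C) (T : Finset ℕ) :
    ∃ e : NT k k' L M C, e ≠ 0 ∧ e ∈ (oR C : Subring (NT k k' L M C)) ∧
      ∀ i ∈ T, e * f i ∈ (oR C : Subring (NT k k' L M C)) := by
  classical
  induction T using Finset.induction_on with
  | empty => exact ⟨1, one_ne_zero, Subring.one_mem _, by simp⟩
  | insert a s ha ih =>
    obtain ⟨e, he, heR, hs⟩ := ih
    obtain ⟨e', he', heR', ha'⟩ := oR_frac C (f a)
    refine ⟨e * e', mul_ne_zero he he', Subring.mul_mem _ heR heR', ?_⟩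
    intro i hi
    rcases Finset.mem_insert.1 hi with rfl | hi
    · rw [mul_assoc]
      exact Subring.mul_mem _ heR ha'
    · have : e * e' * f i = e' * (e * f i) := by ring
      rw [this]
      exact Subring.mul_mem _ heR' (hs i hi)

/-- the polynomials which can be expressed by a family which spans `S` -/
private def oH (C : Set k') (S : Finset L) (P : (NT k k' L M C)[X]) : Prop :=
  ∀ (n : ℕ) (l : Fin n → L), (∀ x ∈ S, ∃ b : Fin n → k, x = ∑ j, algebraMap k L (b j) * l j) →
    ∃ Q : Fin n → (KT k k' C)[X],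
      P = ∑ i, Polynomial.C (NT.ofL C (l i)) * (Q i).map (NT.ofK C)

private theorem oH_mono {C : Set k'} {S T : Finset L} (hST : S ⊆ T) {P : (NT k k' L M C)[X]}
    (h : oH C S P) : oH C T P :=
  fun n l hl => h n l fun x hx => hl x (hST hx)

private theorem oH_add {C : Set k'} {S : Finset L} {P P' : (NT k k' L M C)[X]}
    (h : oH C S P) (h' : oH C S P') : oH C S (P + P') := by
  intro n l hl
  obtain ⟨Q, hQ⟩ := h n l hl
  obtain ⟨Q', hQ'⟩ := h' n l hl
  refine ⟨fun i => Q i + Q' i, ?_⟩
  rw [hQ, hQ', ← Finset.sum_add_distrib]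
  refine Finset.sum_congr rfl fun i _ => ?_
  rw [Polynomial.map_add, mul_add]

private theorem oH_zero {C : Set k'} {S : Finset L} : oH C S (0 : (NT k k' L M C)[X]) := by
  intro n l hl
  exact ⟨fun _ => 0, by simp⟩

private theorem oH_mul {C : Set k'} {S : Finset L} {P : (NT k k' L M C)[X]}
    (h : oH C S P) (R : (KT k k' C)[X]) : oH C S (P * R.map (NT.ofK C)) := by
  intro n l hl
  obtain ⟨Q, hQ⟩ := h n l hl
  refine ⟨fun i => Q i * R, ?_⟩
  rw [hQ, Finset.sum_mul]
  refine Finset.sum_congr rfl fun i _ => ?_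
  rw [Polynomial.map_mul, mul_assoc]

private theorem oH_L (h : Lift k k' L M) {C : Set k'} (x : L) :
    oH C {x} (Polynomial.C (NT.ofL C x) : (NT k k' L M C)[X]) := by
  intro n l hl
  obtain ⟨b, hb⟩ := hl x (Finset.mem_singleton_self x)
  refine ⟨fun i => Polynomial.C (KT.ofk C (b i)), ?_⟩
  have hc : ∀ y : k, (NT.ofL C (algebraMap k L y) : NT k k' L M C) = NT.ofK C (KT.ofk C y) := by
    intro y
    have hinj : Function.Injective (NT.val k k' L M : NT k k' L M C →+* M) := RingHom.injective _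
    apply hinj
    exact (h.comm y).symm
  rw [hb, map_sum, map_sum]
  refine Finset.sum_congr rfl fun i _ => ?_
  rw [Polynomial.map_C, map_mul, map_mul, hc, mul_comm]

private theorem oH_R (h : Lift k k' L M) {C : Set k'} {r : NT k k' L M C}
    (hr : r ∈ (oR C : Subring (NT k k' L M C))) :
    ∃ S : Finset L, oH C S (Polynomial.C r : (NT k k' L M C)[X]) := by
  classical
  have h1 : r ∈ Submodule.span (KT k k' C) (Set.range (NT.ofL C : L →+* NT k k' L M C)) := by
    have h2 : r ∈ Subalgebra.toSubmodule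
      (Algebra.adjoin (KT k k' C) (Set.range (NT.ofL C : L →+* NT k k' L M C))) := hr
    rw [Algebra.adjoin_eq_span] at h2
    have h3 : ((Submonoid.closure (Set.range (NT.ofL C : L →+* NT k k' L M C)) :
        Submonoid (NT k k' L M C)) : Set (NT k k' L M C)) =
        Set.range (NT.ofL C : L →+* NT k k' L M C) := by
      have h4 : Set.range (NT.ofL C : L →+* NT k k' L M C) =
          ((MonoidHom.mrange (NT.ofL C : L →+* NT k k' L M C).toMonoidHom :
            Submonoid (NT k k' L M C)) : Set (NT k k' L M C)) := rfl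
      rw [h4, Submonoid.closure_eq]
    rwa [h3] at h2
  clear hr
  induction h1 using Submodule.span_induction with
  | mem x hx =>
    obtain ⟨l, rfl⟩ := hx
    exact ⟨{l}, oH_L h l⟩
  | zero => exact ⟨∅, by rw [map_zero]; exact oH_zero⟩
  | add x y _ _ hx hy =>
    obtain ⟨S, hS⟩ := hx
    obtain ⟨T, hT⟩ := hy
    refine ⟨S ∪ T, ?_⟩
    rw [map_add]
    exact oH_add (oH_mono Finset.subset_union_left hS) (oH_mono Finset.subset_union_right hT)
  | smul a x _ hx =>
    obtain ⟨S, hS⟩ := hx
    refine ⟨S, ?_⟩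
    have h4 := oH_mul hS (Polynomial.C a)
    have h5 : (Polynomial.C (a • x) : (NT k k' L M C)[X]) =
        Polynomial.C x * (Polynomial.C a).map (NT.ofK C) := by
      rw [Polynomial.map_C, ← map_mul, mul_comm]
      rfl
    rw [h5]
    exact h4

private theorem oH_poly (h : Lift k k' L M) {C : Set k'} {P : (NT k k' L M C)[X]}
    (hP : ∀ i ∈ P.support, P.coeff i ∈ (oR C : Subring (NT k k' L M C))) :
    ∃ S : Finset L, oH C S P := by
  classical
  have h1 : ∀ i : ℕ, ∃ S : Finset L, i ∈ P.support → oH C S (Polynomial.C (P.coeff i)) := by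
    intro i
    by_cases hi : i ∈ P.support
    · obtain ⟨S, hS⟩ := oH_R h (hP i hi)
      exact ⟨S, fun _ => hS⟩
    · exact ⟨∅, fun h' => absurd h' hi⟩
  choose S hS using h1
  refine ⟨P.support.biUnion S, ?_⟩
  have h2 : P = ∑ i ∈ P.support, Polynomial.C (P.coeff i) * (X ^ i : (KT k k' C)[X]).map (NT.ofK C) := by
    conv_lhs => rw [P.as_sum_support_C_mul_X_pow]
    refine Finset.sum_congr rfl fun i _ => ?_
    rw [Polynomial.map_pow, Polynomial.map_X]
  have h3 : ∀ T ⊆ P.support, oH C (P.support.biUnion S)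
      (∑ i ∈ T, Polynomial.C (P.coeff i) * (X ^ i : (KT k k' C)[X]).map (NT.ofK C)) := by
    intro T
    induction T using Finset.induction_on with
    | empty =>
      intro _
      rw [Finset.sum_empty]
      exact oH_zero
    | insert a s ha ih =>
      intro hs
      rw [Finset.sum_insert ha]
      refine oH_add (oH_mul (oH_mono ?_ (hS a (hs (Finset.mem_insert_self _ _)))) _)
        (ih fun i hi => hs (Finset.mem_insert_of_mem hi))
      exact Finset.subset_biUnion_of_mem S (hs (Finset.mem_insert_self _ _))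
  have h4 := h3 _ (Finset.Subset.refl _)
  rwa [← h2] at h4


end aux

section
variable {k k' L M : Type} [NontriviallyNormedField k] [CompleteSpace k] [IsUltrametricDist k]
  [NormedField k'] [IsUltrametricDist k'] [NormedAlgebra k k'] [NormedField L]
  [IsUltrametricDist L] [NormedAlgebra k L] [NormedField M] [IsUltrametricDist M]
  [NormedAlgebra k' M] [NormedAlgebra L M]

/-- Every polynomial over `NT C` is, up to a nonzero factor in `NT C`, of the form `∑ s, l s * Q s` with `Q s` over `KT C` and `l` a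
given almost orthogonal family of elements of `L`. Proof. `NT C` is the field of fractions of the ring generated by `L` and
`KT C` (`Subfield.mem_closure_iff` or closure induction); a common denominator; the finitely many elements of `L` which occur are
combinations of a family `l` as in `exists_orth` with coefficients in `k ⊆ KT C` (`h.comm`). -/
theorem exists_dec (h : Lift k k' L M) (C : Set k') (P : (NT k k' L M C)[X]) {α : ℝ}
    (hα : α < 1) : ∃ (e : NT k k' L M C) (n : ℕ) (l : Fin n → L) (Q : Fin n → (KT k k' C)[X]),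
      e ≠ 0 ∧ (∀ i, l i ≠ 0) ∧
      (∀ (b : Fin n → k) (i : Fin n),
        α * (‖b i‖ * ‖l i‖) ≤ ‖∑ j, algebraMap k L (b j) * l j‖) ∧
      Polynomial.C e * P = ∑ i, Polynomial.C (NT.ofL C (l i)) * (Q i).map (NT.ofK C) := by
  obtain ⟨e, he, heR, hP⟩ := oR_frac_fin C P.coeff P.support
  obtain ⟨S, hS⟩ := oH_poly h (P := Polynomial.C e * P) (C := C) (by
    intro i hi
    rw [Polynomial.coeff_C_mul]
    apply hP i
    rw [Polynomial.mem_support_iff] at hi ⊢
    intro h0
    apply hi
    rw [Polynomial.coeff_C_mul, h0, mul_zero])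
  obtain ⟨n, l, h1, h2, h3⟩ := exists_orth (k := k) S hα
  obtain ⟨Q, hQ⟩ := hS n l h3
  exact ⟨e, n, l, Q, he, h2, h1, hQ⟩

/-- Proof. `exists_dec` for `α < 1`. Let `P ≠ 0`, so some `Q i ≠ 0`. By `h.orth`,
`α * max ‖Q i(c)‖ ‖l i‖ ≤ ‖e P(c)‖ ≤ max ‖Q i(c)‖ ‖l i‖`, and the same for `a j` instead of `c` (`KT C ⊆ k'`); `‖Q i(a j)‖ = ‖Q i(c)‖`
eventually, so `α ≤ ‖P(a j)‖ / ‖P(c)‖ ≤ α⁻¹` eventually. This holds for all `α < 1`, `0 < α`. -/
theorem fs_chain (h : Lift k k' L M) (C : Set k') (c : k') (a : ℕ → KT k k' C)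
    (hQ : ∀ Q : (KT k k' C)[X], Q ≠ 0 → Q.eval₂ (KT.val k k') c ≠ 0 ∧
      ∀ᶠ j in atTop, ‖Q.eval (a j)‖ = ‖Q.eval₂ (KT.val k k') c‖)
    (P : (NT k k' L M C)[X]) :
    Tendsto (fun j => ‖P.eval (NT.ofK C (a j))‖) atTop
      (nhds ‖P.eval₂ (NT.val k k' L M) (algebraMap k' M c)‖) ∧
    (P ≠ 0 → P.eval₂ (NT.val k k' L M) (algebraMap k' M c) ≠ 0) := by
  have hinj : Function.Injective (NT.val k k' L M : NT k k' L M C →+* M) := RingHom.injective _
  -- the estimates for one `α`
  have key : P ≠ 0 → ∀ α : ℝ, 0 < α → α < 1 →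
      P.eval₂ (NT.val k k' L M) (algebraMap k' M c) ≠ 0 ∧
      ∀ᶠ j in atTop, α * ‖P.eval₂ (NT.val k k' L M) (algebraMap k' M c)‖ ≤
        ‖P.eval (NT.ofK C (a j))‖ ∧ α * ‖P.eval (NT.ofK C (a j))‖ ≤
        ‖P.eval₂ (NT.val k k' L M) (algebraMap k' M c)‖ := by
    intro hP α hα0 hα1
    obtain ⟨e, n, l, Q, he, hl, horth, hdec⟩ := exists_dec h C P hα1
    -- evaluation at an element of `k'`
    have hev : ∀ x : k', NT.val k k' L M e * P.eval₂ (NT.val k k' L M) (algebraMap k' M x) =
        ∑ i, algebraMap k' M ((Q i).eval₂ (KT.val k k') x) * algebraMap L M (l i) := by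
      intro x
      have h1 := congrArg (Polynomial.eval₂ (NT.val k k' L M) (algebraMap k' M x)) hdec
      rw [Polynomial.eval₂_mul, Polynomial.eval₂_C, Polynomial.eval₂_finsetSum] at h1
      rw [h1]
      refine Finset.sum_congr rfl fun i _ => ?_
      rw [Polynomial.eval₂_mul, Polynomial.eval₂_C, Polynomial.eval₂_map, mul_comm]
      congr 1
      rw [Polynomial.hom_eval₂]
      rfl
    have hval : ∀ j, NT.val k k' L M (P.eval (NT.ofK C (a j))) =
        P.eval₂ (NT.val k k' L M) (algebraMap k' M (KT.val k k' (a j))) := by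
      intro j
      rw [← Polynomial.eval₂_hom]
      rfl
    have hQval : ∀ i j, (Q i).eval₂ (KT.val k k') (KT.val k k' (a j)) =
        KT.val k k' ((Q i).eval (a j)) := by
      intro i j
      rw [Polynomial.eval₂_hom]
    have hQ0 : ∃ i, Q i ≠ 0 := by
      by_contra hcon
      push Not at hcon
      have : Polynomial.C e * P = 0 := by
        rw [hdec]
        exact Finset.sum_eq_zero fun i _ => by rw [hcon i, Polynomial.map_zero, mul_zero]
      rcases mul_eq_zero.1 this with h1 | h1
      · exact he (Polynomial.C_eq_zero.1 h1)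
      · exact hP h1
    obtain ⟨i1, hi1⟩ := hQ0
    obtain ⟨i0, -, hi0⟩ := Finset.exists_max_image Finset.univ
      (fun i => ‖(Q i).eval₂ (KT.val k k') c‖ * ‖l i‖) ⟨i1, Finset.mem_univ _⟩
    set m := ‖(Q i0).eval₂ (KT.val k k') c‖ * ‖l i0‖ with hm
    have hm0 : 0 < m := by
      refine lt_of_lt_of_le ?_ (hi0 i1 (Finset.mem_univ _))
      exact mul_pos (norm_pos_iff.2 (hQ _ hi1).1) (norm_pos_iff.2 (hl i1))
    have hen : 0 < ‖e‖ := norm_pos_iff.2 he
    have hc1 : α * m ≤ ‖e‖ * ‖P.eval₂ (NT.val k k' L M) (algebraMap k' M c)‖ := by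
      have h1 := h.orth n l α hα0 horth (fun i => (Q i).eval₂ (KT.val k k') c) i0
      rw [← hev c, norm_mul, NT.norm_val] at h1
      exact h1
    have hub : ∀ b : Fin n → k', (∀ i, ‖b i‖ * ‖l i‖ ≤ m) →
        ‖∑ j, algebraMap k' M (b j) * algebraMap L M (l j)‖ ≤ m := by
      intro b hb
      refine IsUltrametricDist.norm_sum_le_of_forall_le_of_nonneg hm0.le fun i _ => ?_
      rw [norm_mul, norm_algebraMap', norm_algebraMap']
      exact hb i
    have hc2 : ‖e‖ * ‖P.eval₂ (NT.val k k' L M) (algebraMap k' M c)‖ ≤ m := by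
      rw [← NT.norm_val e, ← norm_mul, hev c]
      exact hub _ fun i => hi0 i (Finset.mem_univ _)
    refine ⟨?_, ?_⟩
    · intro h0
      rw [h0, norm_zero, mul_zero] at hc1
      exact absurd hc1 (not_le.2 (mul_pos hα0 hm0))
    · have hall : ∀ᶠ j in atTop, ∀ i, ‖(Q i).eval (a j)‖ = ‖(Q i).eval₂ (KT.val k k') c‖ := by
        rw [eventually_all]
        intro i
        by_cases hQi : Q i = 0
        · rw [hQi]
          exact Eventually.of_forall fun j => by simp
        · exact (hQ _ hQi).2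
      refine hall.mono fun j hj => ?_
      have hb : ∀ i, ‖(Q i).eval₂ (KT.val k k') (KT.val k k' (a j))‖ =
          ‖(Q i).eval₂ (KT.val k k') c‖ := by
        intro i
        rw [hQval, KT.norm_val, hj]
      have hn : ‖P.eval (NT.ofK C (a j))‖ =
          ‖P.eval₂ (NT.val k k' L M) (algebraMap k' M (KT.val k k' (a j)))‖ := by
        rw [← hval, NT.norm_val]
      have ha1 : α * m ≤ ‖e‖ * ‖P.eval (NT.ofK C (a j))‖ := by
        have h1 := h.orth n l α hα0 horth
          (fun i => (Q i).eval₂ (KT.val k k') (KT.val k k' (a j))) i0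
        rw [← hev, norm_mul, NT.norm_val, ← hn] at h1
        have h2 : ‖(Q i0).eval₂ (KT.val k k') (KT.val k k' (a j))‖ * ‖l i0‖ = m := by
          rw [hb, hm]
        simp only [h2] at h1
        exact h1
      have ha2 : ‖e‖ * ‖P.eval (NT.ofK C (a j))‖ ≤ m := by
        rw [hn, ← NT.norm_val e, ← norm_mul, hev]
        refine hub _ fun i => ?_
        rw [hb]
        exact hi0 i (Finset.mem_univ _)
      constructor
      · have h3 : ‖e‖ * (α * ‖P.eval₂ (NT.val k k' L M) (algebraMap k' M c)‖) ≤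
            ‖e‖ * ‖P.eval (NT.ofK C (a j))‖ := by
          calc _ = α * (‖e‖ * ‖P.eval₂ (NT.val k k' L M) (algebraMap k' M c)‖) := by ring
            _ ≤ α * m := mul_le_mul_of_nonneg_left hc2 hα0.le
            _ ≤ _ := ha1
        exact le_of_mul_le_mul_left h3 hen
      · have h3 : ‖e‖ * (α * ‖P.eval (NT.ofK C (a j))‖) ≤
            ‖e‖ * ‖P.eval₂ (NT.val k k' L M) (algebraMap k' M c)‖ := by
          calc _ = α * (‖e‖ * ‖P.eval (NT.ofK C (a j))‖) := by ring
            _ ≤ α * m := mul_le_mul_of_nonneg_left ha2 hα0.le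
            _ ≤ _ := hc1
        exact le_of_mul_le_mul_left h3 hen
  refine ⟨?_, fun hP => (key hP (1 / 2) (by norm_num) (by norm_num)).1⟩
  by_cases hP : P = 0
  · rw [hP]
    simp
  set r := ‖P.eval₂ (NT.val k k' L M) (algebraMap k' M c)‖ with hr
  have hr0 : 0 < r := norm_pos_iff.2 (key hP (1 / 2) (by norm_num) (by norm_num)).1
  rw [tendsto_order]
  constructor
  · intro b hb
    -- `α` with `b < α r`
    have h1 : max (b / r) (1 / 2) < 1 := max_lt ((div_lt_one hr0).2 hb) (by norm_num)
    obtain ⟨α, hα1, hα2⟩ := exists_between h1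
    have h2 : 0 < α := lt_of_lt_of_le (by norm_num) ((le_max_right _ _).trans hα1.le)
    have h3 : b < α * r := (div_lt_iff₀ hr0).1 (lt_of_le_of_lt (le_max_left _ _) hα1)
    exact (key hP α h2 hα2).2.mono fun j hj => h3.trans_le hj.1
  · intro b hb
    have hb0 : 0 < b := hr0.trans hb
    have h1 : r / b < 1 := (div_lt_one hb0).2 hb
    obtain ⟨α, hα1, hα2⟩ := exists_between h1
    have h2 : 0 < α := (div_pos hr0 hb0).trans hα1
    have h3 : r < α * b := (div_lt_iff₀ hb0).1 hα1
    refine (key hP α h2 hα2).2.mono fun j hj => ?_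
    have h4 : α * ‖P.eval (NT.ofK C (a j))‖ < α * b := hj.2.trans_lt h3
    exact lt_of_mul_lt_mul_left h4 h2.le

end

end TR
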