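import Pool.Agent.Lib.TR.Defs
import Pool.Agent.Lib.DS.N3
import Pool.Agent.Lib.DS.Et
import Pool.Agent.Lib.DS.Fr
import Pool.Agent.Lib.DS.Al

/-!
# Module TR.S3: the ring of a chart is smooth over the semistable model ring
-/

open Polynomial MP1a953e IsLocalRing DA Filter

namespace TR
open Pool.Agent.Lib.MP_3029eb_ag Pool.Agent.Lib.MP_3029eb_ag.Abh CS

/-- A monogenic algebra over an integrally closed domain, with `f'(a)` inverted, is standard etale. Proof. Let `R` be integrally
closed with fraction field in `L`, `a ∈ L` a root of the monic polynomial `f`; the minimal polynomial `m` of `a` over the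
fraction field has coefficients in `R` (`minpoly.isIntegrallyClosed_eq_field_fractions`, `minpoly.isIntegrallyClosed_dvd`):
`m = minpoly R a` divides `f`, `f = m * H`. `R[X]/(m) → R[a]` is an isomorphism (`minpoly.IsIntegrallyClosed.adjoin...`,
`minpoly.equivAdjoin`). `f' = m' * H + m * H'`; with `t = T(a)`, `T ∈ R[X]`, the pair `(m, f' * T)` is a standard etale pair
(`p₁ = H * T`, `p₂ = H' * T`, `n = 1`), and its ring is `R[X]/(m)[1/(f' T)] = R[a, 1/s]` (`StandardEtalePair.equivAwayAdjoinRoot`),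
`s = f'(a) * t ≠ 0`. -/
theorem etale_mono {R L : Type} [CommRing R] [IsDomain R] [IsIntegrallyClosed R] [Field L]
    [Algebra R L] [FaithfulSMul R L] {a : L} {f : R[X]} (hf : f.Monic) (ha : aeval a f = 0)
    {t : L} (ht : t ∈ Algebra.adjoin R ({a} : Set L)) {s : L} (hs : s = aeval a (derivative f) * t)
    (hs0 : s ≠ 0) : Algebra.Etale R ↥(Algebra.adjoin R ({a, s⁻¹} : Set L)) := by
  have hint : IsIntegral R a := ⟨f, hf, by rwa [← aeval_def]⟩
  have hm := minpoly.monic hint
  obtain ⟨H, hH⟩ := minpoly.isIntegrallyClosed_dvd hint ha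
  obtain ⟨T, hT⟩ : ∃ T : R[X], aeval a T = t := by
    rw [Algebra.adjoin_singleton_eq_range_aeval] at ht
    exact ht
  let P : StandardEtalePair R := ⟨minpoly R a, hm, derivative f * T, H * T, derivative H * T, 1, by
    rw [congrArg derivative hH, derivative_mul]
    ring⟩
  have hg : aeval a P.g = s := by
    show aeval a (derivative f * T) = s
    rw [map_mul, hT, hs]
  let B : Subalgebra R L := Algebra.adjoin R ({a, s⁻¹} : Set L)
  let a' : B := ⟨a, Algebra.subset_adjoin (Set.mem_insert _ _)⟩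
  let r' : B := ⟨s⁻¹, Algebra.subset_adjoin (Set.mem_insert_of_mem _ rfl)⟩
  have e1 : ∀ p : R[X], ((aeval a' p : B) : L) = aeval a p := fun p =>
    (Polynomial.aeval_algHom_apply B.val a' p).symm
  have hmap : P.HasMap a' := by
    refine ⟨Subtype.ext ?_, IsUnit.of_mul_eq_one r' (Subtype.ext ?_)⟩
    · rw [e1]
      exact minpoly.aeval R a
    · show ((aeval a' P.g : B) : L) * s⁻¹ = 1
      rw [e1, hg, mul_inv_cancel₀ hs0]
  let φ : P.Ring →ₐ[R] B := P.lift a' hmap
  have hX : φ P.X = a' := P.lift_X _ _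
  have hφ : ∀ p : R[X], (φ (aeval P.X p) : L) = aeval a p := fun p => by
    rw [← Polynomial.aeval_algHom_apply φ, hX, e1]
  have hinj : Function.Injective φ := by
    rw [injective_iff_map_eq_zero]
    intro x hx
    let Q : StandardEtalePresentation R P.Ring := ⟨P, P.X, P.hasMap_X, by
      simpa [StandardEtalePair.lift_X_left] using Function.bijective_id⟩
    obtain ⟨p, n, hp⟩ := Q.exists_mul_aeval_x_g_pow_eq_aeval_x x
    have hp' : x * (aeval P.X P.g) ^ n = aeval P.X p := hp
    have h1 : aeval a p = 0 := by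
      rw [← hφ, ← hp', map_mul, hx, zero_mul]
      rfl
    obtain ⟨q, hq⟩ := minpoly.isIntegrallyClosed_dvd hint h1
    have h2 : aeval P.X p = 0 := by
      rw [hq, map_mul]
      have h3 : aeval P.X (minpoly R a) = 0 := P.hasMap_X.1
      rw [h3, zero_mul]
    rw [h2] at hp'
    exact ((P.hasMap_X.2.pow n).mul_left_eq_zero).1 hp'
  have hsurj : Function.Surjective φ := by
    have h1 : B ≤ (B.val.comp φ).range := by
      refine Algebra.adjoin_le ?_
      rintro y (rfl | rfl)
      · exact ⟨P.X, congrArg Subtype.val hX⟩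
      · obtain ⟨u, hu⟩ := P.hasMap_X.2
        refine ⟨((u⁻¹ : (P.Ring)ˣ) : P.Ring), ?_⟩
        have h2 : (φ (u : P.Ring) : L) = s := by
          rw [hu, hφ, hg]
        have h3 : (φ (u : P.Ring) : L) * (φ ((u⁻¹ : (P.Ring)ˣ) : P.Ring) : L) = 1 := by
          have h4 : φ (u : P.Ring) * φ ((u⁻¹ : (P.Ring)ˣ) : P.Ring) = 1 := by
            rw [← map_mul, Units.mul_inv, map_one]
          exact congrArg Subtype.val h4
        rw [h2] at h3
        exact (inv_eq_of_mul_eq_one_right h3).symm
    intro y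
    obtain ⟨x, hx⟩ := h1 y.2
    exact ⟨x, Subtype.ext hx⟩
  exact Algebra.Etale.of_equiv (AlgEquiv.ofBijective φ ⟨hinj, hsurj⟩)

/-- Proof. The homomorphism `SS d ϖ → CR` (`DS.SS.lift`) extends to `ψ : QQ d q ϖ → CR`, `X i ↦ v i`. Its composition with
the inclusion in `L` is injective: by `hN`, `hfr` the family `x 1, …, x d, v` generates a field over which `L` is algebraic
(`a` is integral over `CR0`, `s ∈ CR0[a]`), so it is algebraically independent over `k` (`DS.indep_of_trdeg`,
`DS.injective_of_fam`, `DS.mem_adjoin_fam`). So `CR0` is isomorphic to `QQ d q ϖ`, an integrally closed domain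
(`DS.isIntegrallyClosed_pp` for `c = 0` or its proof; `DS.N3`, `DA.isIntegrallyClosed_mvPolynomial`). By `etale_mono` for
`R = CR0` the ring `CR` is etale over `CR0`, so over `QQ d q ϖ`, which is smooth over `SS d ϖ` (polynomial ring). -/
theorem smooth_of_CD {k L : Type} [NormedField k] [IsUltrametricDist k] [Field L] [Algebra k L]
    {V : ValuationSubring L} (hVk : ∀ c : k, ‖c‖ ≤ 1 → algebraMap k L c ∈ V) {d q N : ℕ}
    {ϖ : O k} {x : Fin (d + 1) → L} {v : Fin q → L} {a s : L} (h : CD k V ϖ x v a s)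
    (hN : Algebra.trdeg k L = (N : Cardinal)) (hdq : d + q = N)
    (hfr : ∀ y : L, ∃ z ∈ CR k x v a s, ∃ w ∈ CR k x v a s, w ≠ 0 ∧ y = z / w) :
    ∃ φ : DS.SS d ϖ →ₐ[O k] ↥(CR k x v a s), φ.toRingHom.Smooth ∧
      ∀ i, (φ (DS.SS.x i) : L) = x i := by
  classical
  -- the homomorphism to `L`
  have hx : ∏ i, x i = algebraMap (O k) L ϖ := h.prod
  let χ : DS.QQ d q ϖ →ₐ[O k] L := MvPolynomial.aevalTower (DS.SS.lift x hx) v
  have hχx : ∀ i, χ (MvPolynomial.C (DS.SS.x i)) = x i := fun i => by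
    show MvPolynomial.aevalTower (DS.SS.lift x hx) v (MvPolynomial.C (DS.SS.x i)) = x i
    rw [MvPolynomial.aevalTower_C, DS.SS.lift_x]
  have hχv : ∀ i, χ (MvPolynomial.X i) = v i := fun i =>
    MvPolynomial.aevalTower_X _ _ _
  have hχ0 : ∀ z, χ z ∈ CR0 k x v := by
    intro z
    induction z using MvPolynomial.induction_on with
    | C y =>
      obtain ⟨y, rfl⟩ := DS.SS.mk_surjective d ϖ y
      induction y using MvPolynomial.induction_on with
      | C c =>
        have h1 : DS.SS.mk d ϖ (MvPolynomial.C c) = algebraMap (O k) (DS.SS d ϖ) c :=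
          (DS.SS.mk d ϖ).commutes c
        have h2 : (MvPolynomial.C (DS.SS.mk d ϖ (MvPolynomial.C c)) : DS.QQ d q ϖ) =
            algebraMap (O k) _ c := by
          rw [h1]
          rfl
        rw [h2, χ.commutes]
        exact Subalgebra.algebraMap_mem _ _
      | add p q hp hq =>
        rw [map_add, map_add, map_add]
        exact add_mem hp hq
      | mul_X p i hp =>
        rw [map_mul, map_mul, map_mul, DS.SS.mk_X, hχx]
        exact mul_mem hp (Algebra.subset_adjoin (Or.inl ⟨i, rfl⟩))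
    | add p q hp hq =>
      rw [map_add]
      exact add_mem hp hq
    | mul_X p i hp =>
      rw [map_mul, hχv]
      exact mul_mem hp (Algebra.subset_adjoin (Or.inr ⟨i, rfl⟩))
  have hrange : χ.range = CR0 k x v := by
    apply le_antisymm
    · rintro _ ⟨z, rfl⟩
      exact hχ0 z
    · refine Algebra.adjoin_le ?_
      rintro _ (⟨i, rfl⟩ | ⟨i, rfl⟩)
      · exact ⟨_, hχx i⟩
      · exact ⟨_, hχv i⟩
  -- algebraic independence
  let M : IntermediateField k L := IntermediateField.adjoin k (Set.range (DS.fam χ))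
  have hM0 : ∀ z ∈ CR0 k x v, z ∈ M := by
    intro z hz
    rw [← hrange] at hz
    obtain ⟨y, rfl⟩ := hz
    exact DS.mem_adjoin_fam h.ne χ y
  obtain ⟨f, hf, hfa, t, ht, hst⟩ := h.eqn
  have hs0 : s ≠ 0 := by
    intro h0
    have h1 := h.sval
    rw [h0, map_zero] at h1
    exact zero_ne_one h1
  have hMa : IsAlgebraic M a := by
    let j : ↥(CR0 k x v) →+* M := ((CR0 k x v).toSubring.subtype).codRestrict M.toSubring
      (fun z => hM0 z z.2)
    have hj : (algebraMap M L).comp j = algebraMap ↥(CR0 k x v) L := rfl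
    have h1 : (f.map j).Monic := hf.map j
    refine ⟨f.map j, h1.ne_zero, ?_⟩
    rw [aeval_def, eval₂_map, hj]
    exact hfa
  let AC : Subalgebra M L := Subalgebra.algebraicClosure M L
  have hAC0 : ∀ z ∈ M, z ∈ AC := fun z hz =>
    isAlgebraic_algebraMap (⟨z, hz⟩ : M)
  have hACO : ∀ c : O k, algebraMap (O k) L c ∈ AC := fun c =>
    hAC0 _ (M.algebraMap_mem (c : k))
  have hACx : ∀ i, x i ∈ AC := fun i => hAC0 _ (hM0 _ (Algebra.subset_adjoin (Or.inl ⟨i, rfl⟩)))
  have hACv : ∀ i, v i ∈ AC := fun i => hAC0 _ (hM0 _ (Algebra.subset_adjoin (Or.inr ⟨i, rfl⟩)))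
  let AC' : Subalgebra (O k) L :=
    { AC.toSubsemiring with algebraMap_mem' := hACO }
  have ht' : t ∈ AC' := by
    have h1 : Algebra.adjoin (O k) (Set.range x ∪ Set.range v ∪ {a}) ≤ AC' := by
      refine Algebra.adjoin_le ?_
      rintro _ ((⟨i, rfl⟩ | ⟨i, rfl⟩) | rfl)
      · exact hACx i
      · exact hACv i
      · exact hMa
    exact h1 ht
  have hsAC : s ∈ AC := by
    have h1 : aeval a (derivative f) ∈ AC := by
      rw [aeval_eq_sum_range]
      refine sum_mem fun i _ => ?_
      have h2 : (f.derivative.coeff i : ↥(CR0 k x v)) • a ^ i =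
          ((f.derivative.coeff i : ↥(CR0 k x v)) : L) * a ^ i := rfl
      rw [h2]
      exact mul_mem (hAC0 _ (hM0 _ (f.derivative.coeff i).2)) (pow_mem hMa i)
    rw [hst]
    exact mul_mem h1 ht'
  have hCR : ∀ z ∈ CR k x v a s, z ∈ AC := by
    have h1 : CR k x v a s ≤ AC' := by
      refine Algebra.adjoin_le ?_
      rintro _ ((⟨i, rfl⟩ | ⟨i, rfl⟩) | (rfl | rfl))
      · exact hACx i
      · exact hACv i
      · exact hMa
      · exact IsAlgebraic.inv hsAC
    exact fun z hz => h1 hz
  have halg : Algebra.IsAlgebraic M L := by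
    constructor
    intro y
    obtain ⟨z, hz, w, hw, -, rfl⟩ := hfr y
    rw [div_eq_mul_inv]
    exact (hCR z hz).mul (hCR w hw).inv
  have hind : AlgebraicIndependent k (DS.fam χ) := by
    refine DS.indep_of_trdeg (DS.fam χ) ?_ halg
    rw [hN, Fintype.card_sum, Fintype.card_fin, Fintype.card_fin, hdq]
  have hinj : Function.Injective χ := DS.injective_of_fam h.ne χ hind
  -- `CR0` is integrally closed
  have hic : IsIntegrallyClosed ↥(CR0 k x v) := by
    letI : NontriviallyNormedField k :=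
      { ‹NormedField k› with
        non_trivial := ⟨((ϖ : k))⁻¹, by
          have h0 : (ϖ : k) ≠ 0 := fun h0 => h.ne (Subtype.ext h0)
          rw [norm_inv]
          exact (one_lt_inv₀ (norm_pos_iff.2 h0)).2 h.norm⟩ }
    have h1 : IsDomain (DS.SS d ϖ) := DS.isDomain_ss d h.ne
    have h2 : IsIntegrallyClosed (DS.SS d ϖ) := DS.isIntegrallyClosed_ss d h.ne h.norm
    have h3 : IsIntegrallyClosed (DS.QQ d q ϖ) := isIntegrallyClosed_mvPolynomial (DS.SS d ϖ) q
    rw [← hrange]
    exact IsIntegrallyClosed.of_equiv (AlgEquiv.ofInjective χ hinj).toRingEquiv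
  have ht2 : t ∈ Algebra.adjoin ↥(CR0 k x v) ({a} : Set L) := by
    have h1 := ht
    rw [Algebra.adjoin_union_eq_adjoin_adjoin] at h1
    exact h1
  have het := etale_mono hf hfa ht2 hst hs0
  -- the ring
  let E : Subalgebra ↥(CR0 k x v) L := Algebra.adjoin ↥(CR0 k x v) ({a, s⁻¹} : Set L)
  have hE : CR k x v a s = E.restrictScalars (O k) :=
    Algebra.adjoin_union_eq_adjoin_adjoin (O k) (Set.range x ∪ Set.range v) {a, s⁻¹}
  let ι : DS.QQ d q ϖ →+* ↥(CR0 k x v) := (χ.codRestrict (CR0 k x v) hχ0).toRingHom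
  have hι : Function.Bijective ι := by
    constructor
    · intro y z hyz
      exact hinj (congrArg Subtype.val hyz)
    · intro y
      have h1 : (y : L) ∈ χ.range := by
        rw [hrange]
        exact y.2
      obtain ⟨z, hz⟩ := h1
      exact ⟨z, Subtype.ext hz⟩
  let e : ↥E →+* ↥(CR k x v a s) := (E.toSubring.subtype).codRestrict (CR k x v a s).toSubring
    (fun z => by
      show (z : L) ∈ CR k x v a s
      rw [hE]
      exact z.2)
  have he : Function.Bijective e := by
    constructor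
    · intro y z hyz
      have h2 : ((e y : ↥(CR k x v a s)) : L) = ((e z : ↥(CR k x v a s)) : L) := congrArg Subtype.val hyz
      exact Subtype.ext h2
    · intro y
      have h1 : (y : L) ∈ E.restrictScalars (O k) := by
        rw [← hE]
        exact y.2
      exact ⟨⟨y, h1⟩, rfl⟩
  have hxC : ∀ i, x i ∈ CR k x v a s := fun i => Algebra.subset_adjoin (Or.inl (Or.inl ⟨i, rfl⟩))
  have hxC2 : (∏ i, (⟨x i, hxC i⟩ : ↥(CR k x v a s))) = algebraMap (O k) ↥(CR k x v a s) ϖ := by
    apply Subtype.ext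
    have h1 : (((∏ i, (⟨x i, hxC i⟩ : ↥(CR k x v a s))) : ↥(CR k x v a s)) : L) = ∏ i, x i :=
      map_prod (CR k x v a s).val _ _
    rw [h1, hx]
    rfl
  let φ : DS.SS d ϖ →ₐ[O k] ↥(CR k x v a s) := DS.SS.lift (fun i => ⟨x i, hxC i⟩) hxC2
  have hφx : ∀ i, (φ (DS.SS.x i) : L) = x i := fun i =>
    congrArg Subtype.val (DS.SS.lift_x _ _ i)
  have hφ : φ.toRingHom = e.comp ((algebraMap ↥(CR0 k x v) ↥E).comp
      (ι.comp (MvPolynomial.C : DS.SS d ϖ →+* DS.QQ d q ϖ))) := by
    have h1 : ((CR k x v a s).val.comp φ) =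
        χ.comp (IsScalarTower.toAlgHom (O k) (DS.SS d ϖ) (DS.QQ d q ϖ)) := by
      apply DS.SS.hom_ext
      intro i
      exact (hφx i).trans (hχx i).symm
    ext y
    exact DFunLike.congr_fun h1 y
  refine ⟨φ, ?_, hφx⟩
  rw [hφ]
  have h1 : (MvPolynomial.C : DS.SS d ϖ →+* DS.QQ d q ϖ).Smooth :=
    RingHom.smooth_algebraMap.2 ⟨inferInstance, inferInstance⟩
  have h2 : @RingHom.Smooth ↥(CR0 k x v) ↥E _ _ (algebraMap ↥(CR0 k x v) ↥E) := by
    have h0 : Algebra.Smooth ↥(CR0 k x v) ↥E := by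
      have := het
      infer_instance
    exact RingHom.smooth_algebraMap.2 h0
  have h3 : ι.Smooth := RingHom.Smooth.of_bijective hι
  have h4 : @RingHom.Smooth ↥E ↥(CR k x v a s) _ _ e := RingHom.Smooth.of_bijective he
  have h5 : (ι.comp (MvPolynomial.C : DS.SS d ϖ →+* DS.QQ d q ϖ)).Smooth := h1.comp h3
  have h6 := RingHom.Smooth.comp h5 h2
  have h7 := RingHom.Smooth.comp h6 h4
  exact h7

end TR
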