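import Pool.Agent.Lib.TR.S1

/-!
# Module TR.S4: specialization of the data of a chart
-/

open Polynomial MP1a953e IsLocalRing DA Filter

namespace TR
open Pool.Agent.Lib.MP_3029eb_ag Pool.Agent.Lib.MP_3029eb_ag.Abh CS

private theorem s4_aeval {R K : Type} [CommRing R] [CommRing K] [Algebra R K] (n : ℕ)
    (c : ℕ → R) (a : K) :
    aeval a (X ^ n + ∑ i ∈ Finset.range n, C (c i) * X ^ i : R[X]) =
      a ^ n + ∑ i ∈ Finset.range n, algebraMap R K (c i) * a ^ i := by
  rw [map_add, map_pow, aeval_X, map_sum]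
  congr 1
  refine Finset.sum_congr rfl fun i _ => ?_
  rw [map_mul, aeval_C, map_pow, aeval_X]

private theorem s4_deriv {R K : Type} [CommRing R] [CommRing K] [Algebra R K] (n : ℕ)
    (c : ℕ → R) (a : K) :
    aeval a (derivative (X ^ n + ∑ i ∈ Finset.range n, C (c i) * X ^ i : R[X])) =
      (n : K) * a ^ (n - 1) +
        ∑ i ∈ Finset.range n, algebraMap R K (c i) * ((i : K) * a ^ (i - 1)) := by
  rw [derivative_add, derivative_X_pow, derivative_sum, map_add, map_mul, map_pow, aeval_X,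
    aeval_C, map_natCast, map_sum]
  congr 1
  refine Finset.sum_congr rfl fun i _ => ?_
  rw [derivative_C_mul, derivative_X_pow, map_mul, map_mul, map_pow, aeval_X, aeval_C, aeval_C,
    map_natCast]

private theorem s4_monic {R : Type} [CommRing R] (n : ℕ) (c : ℕ → R) :
    (X ^ n + ∑ i ∈ Finset.range n, C (c i) * X ^ i : R[X]).Monic := by
  apply monic_X_pow_add
  rw [degree_lt_iff_coeff_zero]
  intro m hm
  rw [finsetSum_coeff]
  refine Finset.sum_eq_zero fun i hi => ?_
  have hi' := Finset.mem_range.1 hi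
  rw [coeff_C_mul_X_pow, if_neg (by omega)]

/-- Proof. `ϖ`: `h.con` gives a sequence in `k` with the norm of `ϖ`. Choose sequences for `x, v, a, s` (`St.mk_surjective`). The
coefficients of `f` are in `CR0 k1 x v`: `exists_seq_CR0` gives sequences, so monic polynomials `f j` over
`CR0 k (x j) (v j)` of the same degree; `Φ (f(a)) = St.mk fun j => (f j)(a j)`, the same for the derivative; `t`:
`exists_seq_CR1`. Now all conditions of `CD` are true for almost all `j` (`St.mk_eq`, `St.val_lt`, `St.mem_val`,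
`St.val_eq_one`, `comap_lt_one`, `comap_eq_one`). -/
theorem ev_CD {k k1 L M1 : Type} [NontriviallyNormedField k] [IsUltrametricDist k]
    [NormedField k1] [IsUltrametricDist k1] [NormedAlgebra k k1]
    [NormedField L] [IsUltrametricDist L] [NormedAlgebra k L]
    [NormedField M1] [IsUltrametricDist M1] [NormedAlgebra k1 M1] [NormedAlgebra L M1]
    {Φ : M1 →+* St L} (h : TrData k k1 L M1 Φ) {V : ValuationSubring L} {d q : ℕ} {ϖ : O k1}
    {x : Fin (d + 1) → M1} {v : Fin q → M1} {a s : M1}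
    (hcd : CD k1 ((St.val V).comap Φ) ϖ x v a s) (X : Fin (d + 1) → ℕ → L)
    (Y : Fin q → ℕ → L) (A S : ℕ → L) (hX : ∀ i, Φ (x i) = St.mk (X i))
    (hY : ∀ i, Φ (v i) = St.mk (Y i)) (hA : Φ a = St.mk A) (hS : Φ s = St.mk S) :
    ∃ w : ℕ → O k, (Φ (algebraMap k1 M1 (ϖ : k1)) = St.mk fun j => algebraMap k L (w j : k)) ∧
      ∀ᶠ j in (U : Filter ℕ), CD k V (w j) (fun i => X i j) (fun i => Y i j) (A j) (S j) := by
  classical
  obtain ⟨b, hb, hb'⟩ := h.con (ϖ : k1)
  have hbO : ∀ j, b j ∈ O k := fun j => mem_O.2 (by rw [hb j]; exact mem_O.1 ϖ.2)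
  refine ⟨fun j => ⟨b j, hbO j⟩, hb', ?_⟩
  have hϖ0 : (ϖ : k1) ≠ 0 := fun h0 => hcd.ne (Subtype.ext h0)
  -- the product
  have e1 : ∀ᶠ j in (U : Filter ℕ), ∏ i, X i j = algebraMap k L (b j) := by
    have h1 : St.mk (∏ i, X i) = St.mk fun j => algebraMap k L (b j) := by
      rw [map_prod, ← hb', ← hcd.prod, map_prod]
      exact Finset.prod_congr rfl fun i _ => (hX i).symm
    rw [St.mk_eq] at h1
    filter_upwards [h1] with j hj
    rw [← hj, Finset.prod_apply]
  have e2 : ∀ᶠ j in (U : Filter ℕ), ∀ i, V.valuation (X i j) < 1 := by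
    rw [Filter.eventually_all]
    intro i
    have h1 := hcd.lt i
    rw [comap_lt_one, hX i, St.val_lt] at h1
    exact h1
  have e3 : ∀ᶠ j in (U : Filter ℕ), ∀ i, Y i j ∈ V := by
    rw [Filter.eventually_all]
    intro i
    have h1 := hcd.vmem i
    rw [ValuationSubring.mem_comap, hY i, St.mem_val] at h1
    exact h1
  have e4 : ∀ᶠ j in (U : Filter ℕ), A j ∈ V := by
    have h1 := hcd.amem
    rw [ValuationSubring.mem_comap, hA, St.mem_val] at h1
    exact h1
  have e5 : ∀ᶠ j in (U : Filter ℕ), V.valuation (S j) = 1 := by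
    have h1 := hcd.sval
    rw [comap_eq_one, hS, St.val_eq_one] at h1
    exact h1
  -- the equation
  obtain ⟨f, hfm, hf0, t, ht, hst⟩ := hcd.eqn
  set n := f.natDegree with hn
  have hfs : f = Polynomial.X ^ n + ∑ i ∈ Finset.range n, C (f.coeff i) * Polynomial.X ^ i := hfm.as_sum
  choose c hc hc' using fun i => exists_seq_CR0 h x v X Y hX hY (f.coeff i).2
  obtain ⟨T, hT, hT'⟩ := exists_seq_CR1 h x v a X Y A hX hY hA ht
  have h6 : St.mk (A ^ n + ∑ i ∈ Finset.range n, c i * A ^ i) = St.mk (0 : ℕ → L) := by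
    rw [map_add, map_pow, map_sum, map_zero, ← hA]
    have h7 : ∑ i ∈ Finset.range n, St.mk (c i * A ^ i) =
        Φ (∑ i ∈ Finset.range n, algebraMap (CR0 k1 x v) M1 (f.coeff i) * a ^ i) := by
      rw [map_sum]
      refine Finset.sum_congr rfl fun i _ => ?_
      rw [map_mul, map_mul, map_pow, map_pow, ← hA, ← hc' i]
      rfl
    rw [h7, ← map_pow, ← map_add, ← s4_aeval, ← hfs, hf0, map_zero]
  have h8 : St.mk S = St.mk (((n : ℕ → L) * A ^ (n - 1) +
      ∑ i ∈ Finset.range n, c i * ((i : ℕ → L) * A ^ (i - 1))) * T) := by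
    rw [map_mul, map_add, map_mul, map_pow, map_natCast, map_sum, ← hA, ← hS, ← hT']
    have h7 : ∑ i ∈ Finset.range n, St.mk (c i * ((i : ℕ → L) * A ^ (i - 1))) =
        Φ (∑ i ∈ Finset.range n, algebraMap (CR0 k1 x v) M1 (f.coeff i) *
          ((i : M1) * a ^ (i - 1))) := by
      rw [map_sum]
      refine Finset.sum_congr rfl fun i _ => ?_
      rw [map_mul, map_mul, map_mul, map_mul, map_pow, map_pow, map_natCast, map_natCast, ← hA,
        ← hc' i]
      rfl
    rw [h7, hst, map_mul]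
    congr 1
    conv_lhs => rw [hfs]
    rw [s4_deriv, map_add, map_mul, map_natCast, map_pow]
  rw [St.mk_eq] at h6 h8
  filter_upwards [e1, e2, e3, e4, e5, h6, h8] with j hj1 hj2 hj3 hj4 hj5 hj6 hj8
  refine ⟨?_, ?_, hj1, hj2, hj3, hj4, hj5, ?_⟩
  · intro h0
    have h1 : b j = 0 := congrArg Subtype.val h0
    have h2 := hb j
    rw [h1, norm_zero] at h2
    exact hϖ0 (norm_eq_zero.1 h2.symm)
  · show ‖b j‖ < 1
    rw [hb j]
    exact hcd.norm
  · refine ⟨Polynomial.X ^ n + ∑ i ∈ Finset.range n, C (⟨c i j, hc i j⟩ : CR0 k (fun i => X i j)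
      (fun i => Y i j)) * Polynomial.X ^ i, s4_monic _ _, ?_, T j, hT j, ?_⟩
    · rw [s4_aeval n (fun i => (⟨c i j, hc i j⟩ : CR0 k (fun i => X i j) (fun i => Y i j)))]
      simp only [Pi.add_apply, Pi.pow_apply, Finset.sum_apply, Pi.mul_apply, Pi.zero_apply] at hj6
      exact hj6
    · rw [s4_deriv n (fun i => (⟨c i j, hc i j⟩ : CR0 k (fun i => X i j) (fun i => Y i j)))]
      simp only [Pi.add_apply, Pi.pow_apply, Finset.sum_apply, Pi.mul_apply, Pi.natCast_apply] at hj8
      exact hj8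

end TR
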