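import Pool.Agent.Lib.TR.S2
import Pool.Agent.Lib.TR.S3
import Pool.Agent.Lib.TR.S4
import Pool.Agent.Lib.DS.Ad1

/-!
# Module TR.S5: specialization of charts
-/

open Polynomial MP1a953e IsLocalRing DA Filter

namespace TR
open Pool.Agent.Lib.MP_3029eb_ag Pool.Agent.Lib.MP_3029eb_ag.Abh CS

section
variable {k L : Type} [NormedField k] [IsUltrametricDist k] [Field L] [Algebra k L]

/-- one element of an admissible extension -/
def Adm1 (A D : Subalgebra (O k) L) (x : L) : Prop :=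
  ∃ n ∈ A, ∃ s ∈ A, ∃ s' ∈ D, ∃ c : k, c ≠ 0 ∧ s * s' = algebraMap k L c ∧ x * s = n

/-- Proof. The elements `x ∈ D` with `Adm1 A D x` form a subalgebra containing the generators (products of the
denominators; constants: `s = s' = 1`). -/
theorem adm_of_gen {A D : Subalgebra (O k) L} (hAD : A ≤ D) {X : Set L}
    (hD : D = Algebra.adjoin (O k) X) (hX : ∀ x ∈ X, Adm1 A D x) : DS.Adm A D := by
  refine ⟨hAD, fun x hx => ?_⟩
  have hx' : x ∈ Algebra.adjoin (O k) X := hD ▸ hx
  show Adm1 A D x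
  clear hx
  induction hx' using Algebra.adjoin_induction with
  | mem x hx => exact hX x hx
  | algebraMap r =>
    refine ⟨algebraMap (O k) L r, A.algebraMap_mem r, 1, A.one_mem, 1, D.one_mem, 1, one_ne_zero,
      ?_, ?_⟩
    · rw [mul_one, map_one]
    · rw [mul_one]
  | add x y _ _ hx hy =>
    obtain ⟨n, hn, s, hs, s', hs', c, hc, h1, h2⟩ := hx
    obtain ⟨m, hm, t, ht, t', ht', e, he, h3, h4⟩ := hy
    refine ⟨n * t + m * s, A.add_mem (A.mul_mem hn ht) (A.mul_mem hm hs), s * t, A.mul_mem hs ht,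
      s' * t', D.mul_mem hs' ht', c * e, mul_ne_zero hc he, ?_, ?_⟩
    · rw [map_mul, ← h1, ← h3]
      ring
    · rw [← h2, ← h4]
      ring
  | mul x y _ _ hx hy =>
    obtain ⟨n, hn, s, hs, s', hs', c, hc, h1, h2⟩ := hx
    obtain ⟨m, hm, t, ht, t', ht', e, he, h3, h4⟩ := hy
    refine ⟨n * m, A.mul_mem hn hm, s * t, A.mul_mem hs ht,
      s' * t', D.mul_mem hs' ht', c * e, mul_ne_zero hc he, ?_, ?_⟩
    · rw [map_mul, ← h1, ← h3]
      ring
    · rw [← h2, ← h4]
      ring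

/-- admissibility of the localization: if `Adm A B`, `b ∈ B`, `b ≠ 0`, then `Adm A B[1/b]` (`DS.Adm.trans`, `DS.Adm.adj1`) -/
theorem adm_adj1 {A B : Subalgebra (O k) L} (h : DS.Adm A B) {b : L} (hb : b ∈ B) (hb0 : b ≠ 0) :
    DS.Adm A (DS.adj1 B b⁻¹) :=
  h.trans (DS.Adm.adj1 hb (mul_inv_cancel₀ hb0))

/-- a subalgebra of which every element of `L` is a quotient -/
private theorem s5_isFrac {A : Subalgebra (O k) L}
    (h : ∀ x : L, ∃ y ∈ A, ∃ z ∈ A, z ≠ 0 ∧ x = y / z) : IsFractionRing A L := by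
  apply IsFractionRing.of_field
  intro z
  obtain ⟨y, hy, w, hw, _, rfl⟩ := h z
  exact ⟨⟨y, hy⟩, ⟨w, hw⟩, rfl⟩

private theorem s5_frac {A B : Subalgebra (O k) L} (hA : IsFractionRing A L) (hAB : A ≤ B)
    (x : L) : ∃ y ∈ B, ∃ z ∈ B, z ≠ 0 ∧ x = y / z := by
  obtain ⟨a, b, hb, rfl⟩ := IsFractionRing.div_surjective (A := A) x
  refine ⟨a, hAB a.2, b, hAB b.2, ?_, rfl⟩
  intro h0
  exact nonZeroDivisors.ne_zero hb (Subtype.ext h0)

end

section
variable {k k1 L M1 : Type} [NontriviallyNormedField k] [IsUltrametricDist k]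
    [NormedField k1] [IsUltrametricDist k1] [NormedAlgebra k k1]
    [NormedField L] [IsUltrametricDist L] [NormedAlgebra k L]
    [NormedField M1] [IsUltrametricDist M1] [NormedAlgebra k1 M1] [NormedAlgebra L M1]
    {Φ : M1 →+* St L}

/-- the model over `k1` -/
private noncomputable def s5_A1 (k1 M1 : Type) [NormedField k1] [IsUltrametricDist k1]
    [NormedField M1] [NormedAlgebra k1 M1] [NormedAlgebra L M1] (A : Subalgebra (O k) L) :
    Subalgebra (O k1) M1 :=
  Algebra.adjoin (O k1) (algebraMap L M1 '' (A : Set L))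

private theorem s5_fg (h : TrData k k1 L M1 Φ) {A : Subalgebra (O k) L} (hA : A.FG) :
    (s5_A1 k1 M1 A).FG := by
  classical
  obtain ⟨t, ht⟩ := hA
  refine ⟨t.image (algebraMap L M1), ?_⟩
  apply le_antisymm
  · apply Algebra.adjoin_mono
    rw [Finset.coe_image]
    apply Set.image_mono
    rw [← ht]
    exact Algebra.subset_adjoin
  · unfold s5_A1
    rw [Algebra.adjoin_le_iff]
    rintro _ ⟨x, hx, rfl⟩
    rw [SetLike.mem_coe, ← ht] at hx
    rw [SetLike.mem_coe]
    induction hx using Algebra.adjoin_induction with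
    | mem x hx =>
      apply Algebra.subset_adjoin
      rw [Finset.coe_image]
      exact Set.mem_image_of_mem _ hx
    | algebraMap r =>
      have hr : ‖algebraMap k k1 (r : k)‖ ≤ 1 := by
        rw [norm_algebraMap']
        exact mem_O.1 r.2
      have h1 : algebraMap L M1 (algebraMap (O k) L r) =
          algebraMap (O k1) M1 ⟨algebraMap k k1 (r : k), mem_O.2 hr⟩ := (h.comm (r : k)).symm
      rw [h1]
      exact Subalgebra.algebraMap_mem _ _
    | add x y _ _ hx hy =>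
      rw [map_add]
      exact Subalgebra.add_mem _ hx hy
    | mul x y _ _ hx hy =>
      rw [map_mul]
      exact Subalgebra.mul_mem _ hx hy

private theorem s5_const (h : TrData k k1 L M1 Φ) {V : ValuationSubring L} (hV : OvR k V)
    (c : k1) (hc : ‖c‖ ≤ 1) : Φ (algebraMap k1 M1 c) ∈ St.val V := by
  obtain ⟨b, hb, hb'⟩ := h.con c
  rw [hb', St.mem_val]
  exact Filter.Eventually.of_forall fun j => hV.const _ (by rw [hb j]; exact hc)

private theorem s5_le (h : TrData k k1 L M1 Φ) {V : ValuationSubring L} (hV : OvR k V)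
    {A : Subalgebra (O k) L} (hA : ∀ a ∈ A, a ∈ V) :
    ∀ a ∈ s5_A1 k1 M1 A, a ∈ (St.val V).comap Φ := by
  intro a ha
  unfold s5_A1 at ha
  rw [ValuationSubring.mem_comap]
  induction ha using Algebra.adjoin_induction with
  | mem x hx =>
    obtain ⟨y, hy, rfl⟩ := hx
    rw [h.cst, St.cst_mem]
    exact hA y hy
  | algebraMap r =>
    exact s5_const h hV (r : k1) (mem_O.1 r.2)
  | add x y _ _ hx hy =>
    rw [map_add]
    exact (St.val V).add_mem _ _ hx hy
  | mul x y _ _ hx hy =>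
    rw [map_mul]
    exact (St.val V).mul_mem _ _ hx hy

private theorem s5_quot (h : TrData k k1 L M1 Φ) {A : Subalgebra (O k) L}
    (hA : IsFractionRing A L) (x : M1) :
    ∃ y ∈ s5_A1 k1 M1 A, ∃ z ∈ s5_A1 k1 M1 A, z ≠ 0 ∧ x = y / z := by
  have hx : x ∈ IntermediateField.adjoin k1 (Set.range (algebraMap L M1)) := by
    rw [h.gen]
    exact IntermediateField.mem_top
  induction hx using IntermediateField.adjoin_induction with
  | mem x hx =>
    obtain ⟨l, rfl⟩ := hx
    obtain ⟨y, hy, z, hz, hz0, rfl⟩ := s5_frac hA le_rfl l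
    refine ⟨algebraMap L M1 y, Algebra.subset_adjoin ⟨y, hy, rfl⟩, algebraMap L M1 z,
      Algebra.subset_adjoin ⟨z, hz, rfl⟩, ?_, map_div₀ _ _ _⟩
    exact (_root_.map_ne_zero _).2 hz0
  | algebraMap c =>
    rcases le_total ‖c‖ 1 with hc | hc
    · refine ⟨algebraMap k1 M1 c, ?_, 1, Subalgebra.one_mem _, one_ne_zero, (div_one _).symm⟩
      exact Subalgebra.algebraMap_mem (s5_A1 k1 M1 A) ⟨c, mem_O.2 hc⟩
    · have hc0 : c ≠ 0 := by
        rintro rfl
        rw [norm_zero] at hc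
        linarith
      have hc1 : ‖c⁻¹‖ ≤ 1 := by
        rw [norm_inv]
        exact inv_le_one_of_one_le₀ hc
      refine ⟨1, Subalgebra.one_mem _, algebraMap k1 M1 c⁻¹, ?_, ?_, ?_⟩
      · exact Subalgebra.algebraMap_mem (s5_A1 k1 M1 A) ⟨c⁻¹, mem_O.2 hc1⟩
      · exact (_root_.map_ne_zero _).2 (inv_ne_zero hc0)
      · rw [map_inv₀, one_div, inv_inv]
  | add x y _ _ hx hy =>
    obtain ⟨a, ha, b, hb, hb0, rfl⟩ := hx
    obtain ⟨c, hc, d, hd, hd0, rfl⟩ := hy
    exact ⟨a * d + b * c, Subalgebra.add_mem _ (Subalgebra.mul_mem _ ha hd)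
      (Subalgebra.mul_mem _ hb hc), b * d, Subalgebra.mul_mem _ hb hd, mul_ne_zero hb0 hd0,
      div_add_div _ _ hb0 hd0⟩
  | inv x _ hx =>
    obtain ⟨a, ha, b, hb, hb0, rfl⟩ := hx
    rcases eq_or_ne a 0 with rfl | ha0
    · refine ⟨0, Subalgebra.zero_mem _, 1, Subalgebra.one_mem _, one_ne_zero, ?_⟩
      rw [zero_div, inv_zero, zero_div]
    · exact ⟨b, hb, a, ha, ha0, inv_div _ _⟩
  | mul x y _ _ hx hy =>
    obtain ⟨a, ha, b, hb, hb0, rfl⟩ := hx
    obtain ⟨c, hc, d, hd, hd0, rfl⟩ := hy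
    exact ⟨a * c, Subalgebra.mul_mem _ ha hc, b * d, Subalgebra.mul_mem _ hb hd,
      mul_ne_zero hb0 hd0, div_mul_div_comm _ _ _ _⟩

private theorem s5_seqA (h : TrData k k1 L M1 Φ) (A : Subalgebra (O k) L) {r : M1}
    (hr : r ∈ s5_A1 k1 M1 A) : ∃ f : ℕ → L, (∀ j, f j ∈ A) ∧ Φ r = St.mk f := by
  have hr' : r ∈ Algebra.adjoin (O k1) (Set.range fun a : A => algebraMap L M1 (a : L)) := by
    unfold s5_A1 at hr
    rw [Set.image_eq_range] at hr
    exact hr
  obtain ⟨f, hf, hf'⟩ := exists_seq_adjoin h (fun a : A => algebraMap L M1 (a : L))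
    (fun a _ => (a : L)) (fun a => by rw [h.cst, St.cst_apply]) hr'
  refine ⟨f, fun j => ?_, hf'⟩
  have h1 := hf j
  have h2 : Algebra.adjoin (O k) (Set.range fun a : A => (a : L)) ≤ A := by
    rw [Algebra.adjoin_le_iff]
    rintro _ ⟨a, rfl⟩
    exact a.2
  exact h2 h1

end

/-- Specialization of charts.
Proof. Let `A`, `S` be given, `A = O k [a 1, …, a N] ⊆ V`. Let `A1` be the `O k1`-subalgebra of `M1` generated by the images of the
`a i` (`= Algebra.adjoin (O k1) (algebraMap L M1 '' A)`); it is finitely generated, contained in `(St.val V).comap Φ`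
(`h.con`, `h.cst`) and `M1` is its fraction field (`h.gen`; `k1` is the fraction field of `O k1`, `L` that of `A`).
`H` gives a chart `B1`, `φ1`; `exists_CD` gives `x, v, a, s` and `b ∈ B1` with `CR = B1[1/b]`, which is admissible over `A1`
(`adm_adj1`). Choose sequences; `ev_CD`. The following finitely many facts hold for almost all `j`: `CD`; the generators
`a i` of `A` are in `CR (j)` (`exists_seq_CR`, `h.cst`); for every generator `y` of `CR` (`x i, v i, a, s⁻¹`) the relation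
`Adm1 A (CR j) (y j)`: `y * s' = n` etc. with `n, s ∈ A1`, which are classes of sequences in `A` (elements of `A1` are sums of
products of constants and elements of `A`: `exists_seq_adjoin` for the constant sequences `a i`), `s' ∈ CR`, and a
constant; for `t ∈ S` the relation `MonU` (constants: `exists_seq_const`). Take such a `j` and `B = CR (j)`: it is
finitely generated, `Adm A B` (`adm_of_gen`), contained in `V` (`CD`), `smooth_of_CD` (`L` is the fraction field of `A ⊆ B`)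
gives `φ`. -/
theorem charts_spec {k k1 L M1 : Type} [NontriviallyNormedField k] [IsUltrametricDist k]
    [NormedField k1] [IsUltrametricDist k1] [NormedAlgebra k k1]
    [NormedField L] [IsUltrametricDist L] [NormedAlgebra k L]
    [NormedField M1] [IsUltrametricDist M1] [NormedAlgebra k1 M1] [NormedAlgebra L M1]
    {Φ : M1 →+* St L} (h : TrData k k1 L M1 Φ) {N : ℕ}
    (hN : Algebra.trdeg k L = (N : Cardinal)) {V : ValuationSubring L} (hV : OvR k V) {d : ℕ}
    (H : DS.Charts k1 ((St.val V).comap Φ) d) : DS.Charts k V d := by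
  classical
  intro A hAfg hAV hAfr S hS
  have hS1 : ∀ x ∈ S.image (algebraMap L M1), x ≠ 0 := by
    intro x hx
    obtain ⟨y, hy, rfl⟩ := Finset.mem_image.1 hx
    exact (_root_.map_ne_zero _).2 (hS y hy)
  obtain ⟨B1, hB1fg, hadm1, hB1V, ϖ1, hϖ0, hϖ1, φ1, hsm1, hlt1, hmon1⟩ :=
    H (s5_A1 k1 M1 A) (s5_fg h hAfg) (s5_le h hV hAV) (s5_isFrac (s5_quot h hAfr))
      (S.image (algebraMap L M1)) hS1
  have hfr1 : ∀ x : M1, ∃ y ∈ B1, ∃ z ∈ B1, z ≠ 0 ∧ x = y / z := by
    intro x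
    obtain ⟨y, hy, z, hz, hz0, hx⟩ := s5_quot h hAfr x
    exact ⟨y, hadm1.1 hy, z, hadm1.1 hz, hz0, hx⟩
  have hN1 : Algebra.trdeg k1 M1 = (N : Cardinal) := by rw [h.trd, hN]
  obtain ⟨q, v, a, s, hcd, hdq, b, hb1, hCR⟩ :=
    exists_CD hN1 hB1V hfr1 hϖ0 hϖ1 φ1 hsm1 hlt1
  set x : Fin (d + 1) → M1 := fun i => (φ1 (DS.SS.x i) : M1) with hx
  have hb0 : (b : M1) ≠ 0 := by
    intro h0
    rw [h0, map_zero] at hb1
    exact zero_ne_one hb1
  have hadm2 : DS.Adm (s5_A1 k1 M1 A) (CR k1 x v a s) := by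
    have h1 : CR k1 x v a s = DS.adj1 B1 (b : M1)⁻¹ := SetLike.coe_injective hCR
    rw [h1]
    exact adm_adj1 hadm1 b.2 hb0
  have hB1CR : B1 ≤ CR k1 x v a s := by
    have h1 : CR k1 x v a s = DS.adj1 B1 (b : M1)⁻¹ := SetLike.coe_injective hCR
    rw [h1]
    exact DS.le_adj1 _ _
  choose X hX using fun i => St.mk_surjective (Φ (x i))
  choose Y hY using fun i => St.mk_surjective (Φ (v i))
  obtain ⟨A', hA'⟩ := St.mk_surjective (Φ a)
  obtain ⟨S', hS'⟩ := St.mk_surjective (Φ s)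
  obtain ⟨w, hw, hev⟩ := ev_CD h hcd X Y A' S' (fun i => (hX i).symm) (fun i => (hY i).symm)
    hA'.symm hS'.symm
  have hseq : ∀ r ∈ CR k1 x v a s, ∃ f : ℕ → L,
      (∀ j, f j ∈ CR k (fun i => X i j) (fun i => Y i j) (A' j) (S' j)) ∧ Φ r = St.mk f :=
    fun r hr => exists_seq_CR h x v a s X Y A' S' (fun i => (hX i).symm) (fun i => (hY i).symm)
      hA'.symm hS'.symm hr
  -- the generators of `A`
  obtain ⟨T, hT⟩ := hAfg
  have hevA : ∀ᶠ j in (U : Filter ℕ), ∀ t ∈ T,
      t ∈ CR k (fun i => X i j) (fun i => Y i j) (A' j) (S' j) := by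
    rw [Filter.eventually_all_finset]
    intro t ht
    have htA : t ∈ A := by
      rw [← hT]
      exact Algebra.subset_adjoin ht
    obtain ⟨f, hf, hf'⟩ := hseq (algebraMap L M1 t)
      (hadm2.1 (Algebra.subset_adjoin ⟨t, htA, rfl⟩))
    rw [h.cst, St.cst_apply, St.mk_eq] at hf'
    filter_upwards [hf'] with j hj
    rw [hj]
    exact hf j
  -- the generators of the ring of the chart
  have hadm3 : ∀ r ∈ CR k1 x v a s, ∀ R : ℕ → L, Φ r = St.mk R →
      ∀ᶠ j in (U : Filter ℕ),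
        Adm1 A (CR k (fun i => X i j) (fun i => Y i j) (A' j) (S' j)) (R j) := by
    intro r hr R hR
    obtain ⟨n, hn, s0, hs0, s', hs', c, hc, h1, h2⟩ := hadm2.2 r hr
    obtain ⟨fn, hfn, hfn'⟩ := s5_seqA h A hn
    obtain ⟨fs, hfs, hfs'⟩ := s5_seqA h A hs0
    obtain ⟨ft, hft, hft'⟩ := hseq s' hs'
    obtain ⟨fc, hfc, hfc'⟩ := exists_seq_const h c
    have e1 : St.mk (fs * ft) = St.mk fun j => algebraMap k L (fc j) := by
      rw [map_mul, ← hfs', ← hft', ← hfc', ← map_mul, h1]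
    have e2 : St.mk (R * fs) = St.mk fn := by
      rw [map_mul, ← hR, ← hfs', ← hfn', ← map_mul, h2]
    rw [St.mk_eq] at e1 e2
    filter_upwards [e1, e2] with j hj1 hj2
    refine ⟨fn j, hfn j, fs j, hfs j, ft j, hft j, fc j, ?_, hj1, hj2⟩
    intro h0
    have := hfc j
    rw [h0, norm_zero] at this
    exact hc (norm_eq_zero.1 this.symm)
  have hevX : ∀ᶠ j in (U : Filter ℕ), ∀ i,
      Adm1 A (CR k (fun i => X i j) (fun i => Y i j) (A' j) (S' j)) (X i j) := by
    rw [Filter.eventually_all]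
    intro i
    exact hadm3 (x i) (Algebra.subset_adjoin (Or.inl (Or.inl ⟨i, rfl⟩))) (X i) (hX i).symm
  have hevY : ∀ᶠ j in (U : Filter ℕ), ∀ i,
      Adm1 A (CR k (fun i => X i j) (fun i => Y i j) (A' j) (S' j)) (Y i j) := by
    rw [Filter.eventually_all]
    intro i
    exact hadm3 (v i) (Algebra.subset_adjoin (Or.inl (Or.inr ⟨i, rfl⟩))) (Y i) (hY i).symm
  have hevA' : ∀ᶠ j in (U : Filter ℕ),
      Adm1 A (CR k (fun i => X i j) (fun i => Y i j) (A' j) (S' j)) (A' j) :=
    hadm3 a (Algebra.subset_adjoin (Or.inr (Or.inl rfl))) A' hA'.symm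
  have hs0 : s ≠ 0 := by
    intro h0
    have := hcd.sval
    rw [h0, map_zero] at this
    exact zero_ne_one this
  have hSinv : Φ s⁻¹ = St.mk fun j => (S' j)⁻¹ := by
    have h1 : St.mk S' ≠ 0 := by
      rw [hS']
      exact (_root_.map_ne_zero Φ).2 hs0
    rw [map_inv₀, ← hS']
    refine inv_eq_of_mul_eq_one_right ?_
    rw [← map_mul, ← map_one (St.mk (L := L)), St.mk_eq]
    rw [St.mk_ne_zero] at h1
    exact h1.mono fun j hj => mul_inv_cancel₀ hj
  have hevS : ∀ᶠ j in (U : Filter ℕ),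
      Adm1 A (CR k (fun i => X i j) (fun i => Y i j) (A' j) (S' j)) (S' j)⁻¹ :=
    hadm3 s⁻¹ (Algebra.subset_adjoin (Or.inr (Or.inr rfl))) (fun j => (S' j)⁻¹) hSinv
  -- monomials
  have hevM : ∀ᶠ j in (U : Filter ℕ), ∀ t ∈ S,
      DS.MonU (CR k (fun i => X i j) (fun i => Y i j) (A' j) (S' j)) (fun i => X i j) t := by
    rw [Filter.eventually_all_finset]
    intro t ht
    obtain ⟨n, m, e, u, u', he, hu, hu', huu, hmon⟩ :=
      hmon1 (algebraMap L M1 t) (Finset.mem_image_of_mem _ ht)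
    obtain ⟨fu, hfu, hfu'⟩ := hseq u (hB1CR hu)
    obtain ⟨fu1, hfu1, hfu1'⟩ := hseq u' (hB1CR hu')
    obtain ⟨fe, hfe, hfe'⟩ := exists_seq_const h e
    have e1 : St.mk (fu * fu1) = St.mk (1 : ℕ → L) := by
      rw [map_mul, ← hfu', ← hfu1', ← map_mul, huu, map_one, map_one]
    have hprod : ∀ p : Fin (d + 1) → ℕ,
        Φ (∏ i, (φ1 (DS.SS.x i) : M1) ^ p i) = St.mk (∏ i, X i ^ p i) := by
      intro p
      rw [map_prod, map_prod]
      refine Finset.prod_congr rfl fun i _ => ?_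
      rw [map_pow, map_pow, hX i]
    have e2 : St.mk ((fun _ => t) * ∏ i, X i ^ n i) =
        St.mk ((fun j => algebraMap k L (fe j)) * (∏ i, X i ^ m i) * fu) := by
      rw [map_mul, map_mul, map_mul, ← hprod, ← hprod, ← hfe', ← hfu', ← St.cst_apply,
        ← h.cst, ← map_mul, ← map_mul, ← map_mul]
      exact congrArg Φ hmon
    rw [St.mk_eq] at e1 e2
    filter_upwards [e1, e2] with j hj1 hj2
    refine ⟨n, m, fe j, fu j, fu1 j, ?_, hfu j, hfu1 j, hj1, ?_⟩
    · intro h0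
      have := hfe j
      rw [h0, norm_zero] at this
      exact he (norm_eq_zero.1 this.symm)
    · simpa only [Pi.mul_apply, Finset.prod_apply, Pi.pow_apply] using hj2
  obtain ⟨j, hj1, hj2, hj3, hj4, hj5, hj6, hj7⟩ :=
    (hev.and (hevA.and (hevX.and (hevY.and (hevA'.and (hevS.and hevM)))))).exists
  have hAB : A ≤ CR k (fun i => X i j) (fun i => Y i j) (A' j) (S' j) := by
    rw [← hT, Algebra.adjoin_le_iff]
    intro t ht
    exact hj2 t ht
  obtain ⟨φ, hφsm, hφx⟩ := smooth_of_CD hV.const hj1 hN hdq (s5_frac hAfr hAB)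
  have hφx' : (fun i => (φ (DS.SS.x i) : L)) = fun i => X i j := funext hφx
  refine ⟨CR k (fun i => X i j) (fun i => Y i j) (A' j) (S' j), ?_, ?_, ?_, w j, hj1.ne, hj1.norm,
    φ, hφsm, ?_, ?_⟩
  · refine ⟨(Set.toFinite (Set.range (fun i => X i j) ∪ Set.range (fun i => Y i j) ∪
      {A' j, (S' j)⁻¹})).toFinset, ?_⟩
    rw [Set.Finite.coe_toFinset]
    rfl
  · refine adm_of_gen hAB rfl ?_
    rintro y ((⟨i, rfl⟩ | ⟨i, rfl⟩) | hy)
    · exact hj3 i
    · exact hj4 i
    · rcases hy with rfl | hy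
      · exact hj5
      · rw [Set.mem_singleton_iff.1 hy]
        exact hj6
  · intro y hy
    unfold CR at hy
    induction hy using Algebra.adjoin_induction with
    | mem y hy =>
      rcases hy with (⟨i, rfl⟩ | ⟨i, rfl⟩) | hy
      · exact (V.valuation_le_one_iff _).1 (hj1.lt i).le
      · exact hj1.vmem i
      · rcases hy with rfl | hy
        · exact hj1.amem
        · rw [Set.mem_singleton_iff.1 hy, ← V.valuation_le_one_iff, map_inv₀, hj1.sval, inv_one]
    | algebraMap r => exact hV.const _ (mem_O.1 r.2)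
    | add y z _ _ hy hz => exact V.add_mem _ _ hy hz
    | mul y z _ _ hy hz => exact V.mul_mem _ _ hy hz
  · intro i
    rw [hφx i]
    exact hj1.lt i
  · intro t ht
    rw [hφx']
    exact hj7 t ht

end TR
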