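import Pool.Agent.Lib.TR.Defs
import Pool.Agent.Lib.CS.VC

/-!
# Module TR.W1: refinements of small residual transcendence degree are composite
-/

open Polynomial MP1a953e IsLocalRing DA Filter

namespace TR
open Pool.Agent.Lib.MP_3029eb_ag Pool.Agent.Lib.MP_3029eb_ag.Abh CS

private theorem w1_zpow {L : Type} [Field L] {V : ValuationSubring L} {x : L}
    (hx : V.valuation x < 1) {m : ℤ} (hm : V.valuation (x ^ m) = 1) : m = 0 := by
  have hpow : ∀ n : ℕ, 0 < n → V.valuation (x ^ n) < 1 := by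
    intro n hn
    rw [map_pow]
    exact pow_lt_one₀ zero_le hx hn.ne'
  rcases m with n | n
  · rcases Nat.eq_zero_or_pos n with h | h
    · rw [h]
      rfl
    · exfalso
      have h1 := hpow n h
      rw [Int.ofNat_eq_natCast, zpow_natCast] at hm
      rw [hm] at h1
      exact lt_irrefl _ h1
  · exfalso
    have h1 := hpow (n + 1) (Nat.succ_pos n)
    rw [zpow_negSucc, map_inv₀, inv_eq_one] at hm
    rw [hm] at h1
    exact lt_irrefl _ h1

private theorem w1_trans {k : Type} {L : Type} [NormedField k] [IsUltrametricDist k]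
    [NormedField L] [IsUltrametricDist L] [NormedAlgebra k L] {V V1 : ValuationSubring L}
    (hV : OvR k V) (hle : V ≤ V1)
    (hV1 : OvR k V1) {s t : ℕ} (hs : RTV k V s) (ht : RTV k V1 t) : s ≤ t := by
  have h := RTV.add_le (r := 0) (x := Fin.elim0) hV hle hV1 (fun i => i.elim0)
    (fun m _ => funext fun i => i.elim0) hs ht
  omega

private theorem w1_ind {k : Type} {L : Type} [NormedField k] [IsUltrametricDist k]
    [NormedField L] [IsUltrametricDist L] [NormedAlgebra k L] {m : ℕ} (hRD : RDep k L m) :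
    ∀ (n : ℕ), n ≤ 2 → ∀
    (V V1 : ValuationSubring L), OvR k V → V ≤ V1 → OvR k V1 → ∀ {s t : ℕ}, RTV k V s →
    RTV k V1 t → t ≤ s + n → (∃ r, VComp k V1 r) → ∃ r, VComp k V r := by
  intro n
  induction n using Nat.strong_induction_on with
  | _ n ih =>
  intro hn2 V V1 hV hle hV1 s t hs ht hst h
  by_cases hne : V = V1
  · rw [hne]
    exact h
  obtain ⟨V', V'', h01, h12, h23, ⟨x, hx1, hx⟩, harch⟩ := exists_rank_one hle hne
  have hV' : OvR k V' := ⟨(h12.trans h23).trans hV1.le, fun c hc => h01 (hV.const c hc)⟩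
  have hV'' : OvR k V'' := ⟨h23.trans hV1.le, fun c hc => h12 (hV'.const c hc)⟩
  obtain ⟨s', -, hs'⟩ := exists_RTV hV' hRD
  obtain ⟨s'', hm'', hs''⟩ := exists_RTV hV'' hRD
  have e1 : s ≤ s' := w1_trans hV h01 hV' hs hs'
  have e2 : s'' ≤ t := w1_trans hV'' h23 hV1 hs'' ht
  have e3 : 1 + s' ≤ s'' := by
    refine RTV.add_le (x := fun _ : Fin 1 => x) hV' h12 hV'' (fun _ => hx1) (fun m hm => ?_)
      hs' hs''
    rw [Fin.prod_univ_one] at hm
    have h0 : m 0 = 0 := w1_zpow hx hm
    funext i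
    rw [Fin.eq_zero i]
    exact h0
  have hn : 0 < n := by omega
  have c2 : ∃ r, VComp k V'' r :=
    ih (n - 1) (by omega) (by omega) V'' V1 hV'' h23 hV1 hs'' ht (by omega) h
  obtain ⟨r1, hr1⟩ := c2
  obtain ⟨r, hr⟩ := exists_rankS hV' h12 hV'' hRD ⟨x, hx1, hx⟩ harch
  have hrpos := hr.pos
  have c1 : VComp k V' (r1 + r) :=
    VComp.defect V'' V' r1 r s' s'' hr1 h12 hr hs' hs'' (by omega)
  exact ih (n - 1) (by omega) (by omega) V V' hV h01 hV' hs hs' (by omega) ⟨_, c1⟩

/-- Proof. The proof of `CS.vcomp_step` (see `vc_ind` in Pool/Agent/Lib/CS/VC.lean): induction on the difference of the residual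
transcendence degrees. If `V ≠ V1`, `exists_rank_one` gives `V ≤ V' ≤ V'' ≤ V1` with a rank one step from `V''` to `V'`; their
residual transcendence degrees satisfy `s ≤ s' < s'' ≤ t` (`RTV.add_le`), the step has rational rank `r ≥ 1`
(`exists_rankS`), and `s'' ≤ t ≤ s + 2 ≤ s' + 2 ≤ r + s' + 1`, so `VComp.defect` applies. The induction hypothesis is used for
`V'' ≤ V1` and for `V ≤ V'` (the numbers `s'' - ...`: generalize the bound `t ≤ s + 2` to all pairs in between). -/
theorem vcomp_gap {k : Type} {L : Type} [NormedField k] [IsUltrametricDist k] [NormedField L]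
    [IsUltrametricDist L] [NormedAlgebra k L] {V V1 : ValuationSubring L} (hV : OvR k V)
    (hle : V ≤ V1) (hV1 : OvR k V1) {m : ℕ} (hRD : RDep k L m) {s t : ℕ} (hs : RTV k V s)
    (ht : RTV k V1 t) (hst : t ≤ s + 2) (h : ∃ r, VComp k V1 r) : ∃ r, VComp k V r :=
  w1_ind hRD 2 le_rfl V V1 hV hle hV1 hs ht hst h

end TR
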