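import Pool.Agent.Lib.TR.X1
import Pool.Agent.Lib.TR.W1

/-!
# Module TR.X2: composite valuations
-/

open Polynomial MP1a953e IsLocalRing DA Filter

namespace TR
open Pool.Agent.Lib.MP_3029eb_ag Pool.Agent.Lib.MP_3029eb_ag.Abh CS

section
variable {k k1 L M1 : Type} [NontriviallyNormedField k] [IsUltrametricDist k]
    [NormedField k1] [IsUltrametricDist k1] [NormedAlgebra k k1]
    [NormedField L] [IsUltrametricDist L] [NormedAlgebra k L]
    [NormedField M1] [IsUltrametricDist M1] [NormedAlgebra k1 M1] [NormedAlgebra L M1]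
    {Φ : M1 →+* St L}

private theorem x2_eq (h : TrData k k1 L M1 Φ) {V : ValuationSubring L} {l l' : L}
    (hl : V.valuation l = V.valuation l') :
    ((St.val V).comap Φ).valuation (algebraMap L M1 l) =
      ((St.val V).comap Φ).valuation (algebraMap L M1 l') :=
  le_antisymm (h.cst_le.2 hl.le) (h.cst_le.2 hl.ge)

private theorem x2_lt (h : TrData k k1 L M1 Φ) {V : ValuationSubring L} {l : L}
    (hl : V.valuation l < 1) :
    ((St.val V).comap Φ).valuation (algebraMap L M1 l) < 1 := by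
  rw [comap_lt_one, h.cst, St.cst_lt]
  exact hl

private theorem x2_lt_iff (h : TrData k k1 L M1 Φ) {V : ValuationSubring L} {l : L} :
    ((St.val V).comap Φ).valuation (algebraMap L M1 l) < 1 ↔ V.valuation l < 1 := by
  rw [comap_lt_one, h.cst, St.cst_lt]

omit [IsUltrametricDist L] [IsUltrametricDist M1] [NormedAlgebra L M1] in
private theorem x2_mono (Φ : M1 →+* St L) {V V1 : ValuationSubring L} (hle : V ≤ V1) :
    (St.val V).comap Φ ≤ (St.val V1).comap Φ := by
  intro x hx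
  rw [ValuationSubring.mem_comap] at hx ⊢
  exact St.val_mono hle hx

/-- Proof. `π ∈ L` of the step; `TrData.exists_unit`. -/
theorem TrData.discS (h : TrData k k1 L M1 Φ) {V V1 : ValuationSubring L} (hle : V ≤ V1)
    (hV1 : V1 ≤ ball L) (hd : DiscS V1 V) :
    DiscS ((St.val V1).comap Φ) ((St.val V).comap Φ) := by
  obtain ⟨π, h1, h2, h3⟩ := hd
  refine ⟨algebraMap L M1 π, h.cst_eq_one.2 h1, x2_lt h h2, fun z hz => ?_⟩
  obtain ⟨l, hl1, hl⟩ := h.exists_unit hle hV1 hz
  obtain ⟨n, hn⟩ := h3 l hl1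
  refine ⟨n, ?_⟩
  rw [hl, ← map_zpow₀]
  exact x2_eq h hn

/-- Proof. `TrData.exists_unit`: replace the units by elements of `L`. -/
theorem TrData.rankS (h : TrData k k1 L M1 Φ) {V V1 : ValuationSubring L} (hle : V ≤ V1)
    (hV1 : V1 ≤ ball L) {r : ℕ} (hr : RankS V1 V r) :
    RankS ((St.val V1).comap Φ) ((St.val V).comap Φ) r := by
  refine ⟨fun a b ha hb hb1 => ?_, hr.pos, ?_, fun z hz => ?_⟩
  · obtain ⟨la, hla1, hla⟩ := h.exists_unit hle hV1 ha
    obtain ⟨lb, hlb1, hlb⟩ := h.exists_unit hle hV1 hb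
    rw [hlb, x2_lt_iff h] at hb1
    obtain ⟨n, hn⟩ := hr.arch la lb hla1 hlb1 hb1
    refine ⟨n, ?_⟩
    rw [map_pow, hlb, hla, ← map_pow, ← map_pow]
    exact h.cst_le.2 hn
  · obtain ⟨x, hx1, hx⟩ := hr.ind
    refine ⟨fun i => algebraMap L M1 (x i), fun i => h.cst_eq_one.2 (hx1 i), fun m hm => ?_⟩
    refine hx m ?_
    rw [← h.cst_eq_one, map_prod]
    simpa only [map_zpow₀] using hm
  · choose l hl1 hl using fun i => h.exists_unit hle hV1 (hz i)
    obtain ⟨m, hm0, hm⟩ := hr.dep l hl1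
    refine ⟨m, hm0, ?_⟩
    rw [← h.cst_eq_one, map_prod, map_prod] at hm
    rw [map_prod, ← hm]
    refine Finset.prod_congr rfl fun i _ => ?_
    rw [map_zpow₀, hl, map_zpow₀, map_zpow₀]

/-- The base. Proof. Let `RTV k (ball L) F` (`exists_RTV`); then `RDep k L F`, so `RDep k1 M1 (F + 1)` (`h.dep`), so
`RTV k1 (ball M1) t` with `t ≤ F + 1` (`exists_RTV`), and `RTV k1 W F` for `W = (St.val (ball L)).comap Φ` (`TrData.rtv`).
`vcomp_gap` for `W ≤ ball M1` (`TrData.ovR`, `OvR.ball`, `VComp.base`). -/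
theorem TrData.base (h : TrData k k1 L M1 Φ) {m : ℕ} (hRD : RDep k L m) :
    ∃ r, VComp k1 ((St.val (ball L)).comap Φ) r := by
  obtain ⟨F, -, hF⟩ := exists_RTV (OvR.ball (k := k) (L := L)) hRD
  have hRF : RDep k L F := by
    intro u hu
    have h1 := hF.2 u hu
    unfold RI at h1
    push Not at h1
    obtain ⟨P, hP, hP1, hne⟩ := h1
    refine ⟨P, hP, hP1, ?_⟩
    have h2 : MvPolynomial.aeval u P ∈ ball L := by
      rw [MvPolynomial.aeval_def, MvPolynomial.eval₂_eq']
      exact sum_mem fun e _ => mul_mem (OvR.ball.const _ (hP e))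
        (prod_mem fun j _ => pow_mem ((mem_ball _).2 (hu j)) _)
    rw [← ball_val_lt_one]
    exact lt_of_le_of_ne (((ball L).valuation_le_one_iff _).2 h2) hne
  have hRM : RDep k1 M1 (F + 1) := h.dep F hRF
  obtain ⟨t, ht, htV⟩ := exists_RTV (OvR.ball (k := k1) (L := M1)) hRM
  have hW : OvR k1 ((St.val (ball L)).comap Φ) := h.ovR OvR.ball
  exact vcomp_gap hW hW.le OvR.ball hRM (h.rtv OvR.ball hF) htV (by omega) ⟨0, VComp.base⟩

/-- Proof. Induction over `hV`: `TrData.base`, `TrData.discS`, `TrData.rankS`, `TrData.rtv`. The hypothesis `hc` for `V` implies it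
for the larger valuation rings of the chain. -/
theorem TrData.vcomp (h : TrData k k1 L M1 Φ) {m : ℕ} (hRD : RDep k L m)
    {V : ValuationSubring L} {s : ℕ} (hV : VComp k V s)
    (hc : ∀ c : k, ‖c‖ ≤ 1 → algebraMap k L c ∈ V) :
    ∃ r, VComp k1 ((St.val V).comap Φ) r := by
  induction hV with
  | base => exact h.base hRD
  | discrete V1 V r hV1 hle hd ih =>
    obtain ⟨r', hr'⟩ := ih fun c hc' => hle (hc c hc')
    exact ⟨_, VComp.discrete _ _ _ hr' (x2_mono Φ hle) (h.discS hle hV1.le hd)⟩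
  | defect V1 V r1 r s t hV1 hle hr hs ht hst ih =>
    obtain ⟨r', hr'⟩ := ih fun c hc' => hle (hc c hc')
    have hO1 : OvR k V1 := ⟨hV1.le, fun c hc' => hle (hc c hc')⟩
    have hO : OvR k V := ⟨hle.trans hV1.le, hc⟩
    exact ⟨_, VComp.defect _ _ _ _ s t hr' (x2_mono Φ hle) (h.rankS hle hV1.le hr) (h.rtv hO hs)
      (h.rtv hO1 ht) hst⟩

end

end TR
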