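import Pool.Agent.Lib.TR.T0
import Pool.Agent.Lib.TR.X2
import Pool.Agent.Lib.TR.S5

/-!
# Module TR.P1: the transfer of charts
-/

open Polynomial MP1a953e IsLocalRing DA Filter

namespace TR
open Pool.Agent.Lib.MP_3029eb_ag Pool.Agent.Lib.MP_3029eb_ag.Abh CS

theorem pc_transfer {k k1 L M1 : Type} [NontriviallyNormedField k] [IsUltrametricDist k]
    [NormedField k1] [IsUltrametricDist k1] [NormedAlgebra k k1]
    [NormedField L] [IsUltrametricDist L] [NormedAlgebra k L]
    [NormedField M1] [IsUltrametricDist M1] [NormedAlgebra k1 M1] [NormedAlgebra L M1]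
    {Φ : M1 →+* St L} (h : TrData k k1 L M1 Φ) {N : ℕ}
    (hN : Algebra.trdeg k L = (N : Cardinal)) (H : PC k1 M1) : PC k L := by
  intro V s hV hc
  have hO : OvR k V := ⟨hV.le, hc⟩
  obtain ⟨r, hr⟩ := h.vcomp (rdep_of_trdeg (n := N) hN.le) hV hc
  obtain ⟨d, hd⟩ := H _ r hr (h.ovR hO).const
  exact ⟨d, charts_spec h hN hO hd⟩

theorem pc_step {k k1 L M1 : Type} [NontriviallyNormedField k] [IsUltrametricDist k]
    [IsAlgClosed k] [NormedField k1] [IsUltrametricDist k1] [IsAlgClosed k1] [NormedAlgebra k k1]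
    [NormedField L] [IsUltrametricDist L] [NormedAlgebra k L]
    [NormedField M1] [IsUltrametricDist M1] [NormedAlgebra k1 M1] [NormedAlgebra L M1]
    {c : k1} {a : ℕ → k} (h : Step k k1 L M1 c a) {N : ℕ}
    (hN : Algebra.trdeg k L = (N : Cardinal)) (H : PC k1 M1) : PC k L := by
  obtain ⟨Φ, hΦ⟩ := exists_trData h hN
  exact pc_transfer hΦ hN H

end TR
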