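import Pool.Agent.Lib.TR.C1
import Pool.Agent.Lib.TR.O2
import Pool.Agent.Lib.TR.P1

/-!
# Module TR.C2: one step of the chain
-/

open Polynomial MP1a953e IsLocalRing DA Filter

namespace TR
open Pool.Agent.Lib.MP_3029eb_ag Pool.Agent.Lib.MP_3029eb_ag.Abh CS

section
variable {k k' L M : Type} [NontriviallyNormedField k] [CompleteSpace k] [IsUltrametricDist k]
  [IsAlgClosed k] [NormedField k'] [IsUltrametricDist k'] [IsAlgClosed k'] [NormedAlgebra k k']
  [NormedField L] [IsUltrametricDist L] [NormedAlgebra k L] [NormedField M]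
  [IsUltrametricDist M] [NormedAlgebra k' M] [NormedAlgebra L M]

/-- Proof. Let `δ` be the infimum of `‖c - b‖`, `b ∈ KT C`. It is not attained: if `b ∈ KT C` then `c ≠ b` and by `h.imm` for `c - b`
there is a better approximation. Choose `a j` recursively with `‖c - a (j + 1)‖ < ‖c - a j‖` and `‖c - a j‖ < δ + 1 / (j + 1)`. -/
theorem exists_approx (h : Lift k k' L M) (C : Set k') {c : k'} (hc : c ∉ KC k k' C) :
    ∃ a : ℕ → KT k k' C,
      (∀ j, ‖c - KT.val k k' (a (j + 1))‖ < ‖c - KT.val k k' (a j)‖) ∧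
      ∀ b : KT k k' C, ∃ j, ‖c - KT.val k k' (a j)‖ < ‖c - KT.val k k' b‖ := by
  have h1 : ∀ b : KT k k' C, ∃ b' : KT k k' C, ‖c - KT.val k k' b'‖ < ‖c - KT.val k k' b‖ := by
    intro b
    have hne : c - KT.val k k' b ≠ 0 := by
      intro h0
      exact hc (sub_eq_zero.1 h0 ▸ KT.val_mem b)
    obtain ⟨x, hx⟩ := h.imm _ hne
    refine ⟨b + KT.ofk C x, ?_⟩
    rw [map_add, ← sub_sub]
    exact hx
  have hbd : BddBelow (Set.range fun b : KT k k' C => ‖c - KT.val k k' b‖) :=
    ⟨0, by
      rintro _ ⟨b, rfl⟩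
      exact norm_nonneg _⟩
  have hglb := isGLB_ciInf hbd
  have hnot : (⨅ b : KT k k' C, ‖c - KT.val k k' b‖) ∉
      Set.range fun b : KT k k' C => ‖c - KT.val k k' b‖ := by
    rintro ⟨b, hb⟩
    obtain ⟨b', hb'⟩ := h1 b
    have h2 : (⨅ b : KT k k' C, ‖c - KT.val k k' b‖) ≤ ‖c - KT.val k k' b'‖ := ciInf_le hbd b'
    rw [← hb] at h2
    exact absurd h2 (not_le.2 hb')
  obtain ⟨u, hu, -, hlim, hmem⟩ := hglb.exists_seq_strictAnti_tendsto_of_notMem hnot
    (Set.range_nonempty _)
  choose a ha using hmem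
  refine ⟨a, fun j => ?_, fun b => ?_⟩
  · have := hu (Nat.lt_succ_self j)
    rw [← ha, ← ha] at this
    exact this
  · obtain ⟨b', hb'⟩ := h1 b
    have h2 : (⨅ b : KT k k' C, ‖c - KT.val k k' b‖) < ‖c - KT.val k k' b‖ :=
      lt_of_le_of_lt (ciInf_le hbd b') hb'
    obtain ⟨j, hj⟩ := (hlim.eventually (gt_mem_nhds h2)).exists
    refine ⟨j, ?_⟩
    rw [← ha] at hj
    exact hj

private theorem c2_norm {x y : k'} (h : ‖y‖ < ‖x‖) : ‖x - y‖ = ‖x‖ := by
  rw [sub_eq_add_neg, IsUltrametricDist.norm_add_eq_max_of_norm_ne_norm (by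
    rw [norm_neg]
    exact h.ne'), norm_neg, max_eq_left h.le]

private theorem c2_roots (C : Set k') {c : k'}
    {a : ℕ → KT k k' C}
    (ha : ∀ j, ‖c - KT.val k k' (a (j + 1))‖ < ‖c - KT.val k k' (a j)‖)
    (hlim : ∀ b : KT k k' C, ∃ j, ‖c - KT.val k k' (a j)‖ < ‖c - KT.val k k' b‖)
    (s : Multiset (KT k k' C)) :
    ∀ᶠ j in atTop, ‖(s.map fun r => a j - r).prod‖ =
      ‖(s.map fun r => c - KT.val k k' r).prod‖ := by
  induction s using Multiset.induction_on with
  | empty =>
    refine Filter.Eventually.of_forall fun j => ?_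
    rw [Multiset.map_zero, Multiset.map_zero, Multiset.prod_zero, Multiset.prod_zero, norm_one,
      norm_one]
  | cons r s ih =>
    obtain ⟨j0, hj0⟩ := hlim r
    have hanti : StrictAnti fun j => ‖c - KT.val k k' (a j)‖ := strictAnti_nat_of_succ_lt ha
    filter_upwards [ih, eventually_ge_atTop j0] with j hj hj1
    rw [Multiset.map_cons, Multiset.map_cons, Multiset.prod_cons, Multiset.prod_cons, norm_mul,
      norm_mul, hj]
    congr 1
    have h1 : ‖c - KT.val k k' (a j)‖ < ‖c - KT.val k k' r‖ :=
      lt_of_le_of_lt (hanti.antitone hj1) hj0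
    rw [← KT.norm_val, map_sub, ← c2_norm h1]
    congr 1
    ring

/-- Proof. `KT C` is algebraically closed: `Q` is a product of linear factors and a constant, and for a root `b`:
`‖a j - b‖ = ‖c - b‖` as soon as `‖c - a j‖ < ‖c - b‖`. -/
theorem eval_eventually (C : Set k') {c : k'} (hc : c ∉ KC k k' C)
    {a : ℕ → KT k k' C}
    (ha : ∀ j, ‖c - KT.val k k' (a (j + 1))‖ < ‖c - KT.val k k' (a j)‖)
    (hlim : ∀ b : KT k k' C, ∃ j, ‖c - KT.val k k' (a j)‖ < ‖c - KT.val k k' b‖)
    (Q : (KT k k' C)[X]) (hQ : Q ≠ 0) : Q.eval₂ (KT.val k k') c ≠ 0 ∧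
      ∀ᶠ j in atTop, ‖Q.eval (a j)‖ = ‖Q.eval₂ (KT.val k k') c‖ := by
  have := isAlgClosed_KT (k := k) C
  have hs := (IsAlgClosed.splits Q).eq_prod_roots
  have hlead : Q.leadingCoeff ≠ 0 := leadingCoeff_ne_zero.2 hQ
  have h1 : Q.eval₂ (KT.val k k') c = KT.val k k' Q.leadingCoeff *
      (Q.roots.map fun r => c - KT.val k k' r).prod := by
    conv_lhs => rw [hs]
    rw [eval₂_mul, eval₂_C, eval₂_multiset_prod, Multiset.map_map]
    congr 2
    refine Multiset.map_congr rfl fun r _ => ?_
    rw [Function.comp_apply, eval₂_sub, eval₂_X, eval₂_C]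
  have h2 : ∀ j, Q.eval (a j) = Q.leadingCoeff * (Q.roots.map fun r => a j - r).prod := by
    intro j
    conv_lhs => rw [hs]
    rw [eval_mul, eval_C, eval_multiset_prod, Multiset.map_map]
    congr 2
    refine Multiset.map_congr rfl fun r _ => ?_
    rw [Function.comp_apply, eval_sub, eval_X, eval_C]
  refine ⟨?_, ?_⟩
  · rw [h1]
    refine mul_ne_zero ?_ ?_
    · rw [Ne, map_eq_zero]
      exact hlead
    · rw [Ne, Multiset.prod_eq_zero_iff, Multiset.mem_map]
      rintro ⟨r, -, hr⟩
      exact hc (sub_eq_zero.1 hr ▸ KT.val_mem r)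
  · filter_upwards [c2_roots C ha hlim Q.roots] with j hj
    rw [h1, h2, norm_mul, norm_mul, hj, KT.norm_val]

private theorem c2_codRestrict {A F : Type} [Field F] [Field A] (f : A →+* F) (K : Subfield F)
    (hf : ∀ x, f x ∈ K) (x : A) : K.subtype (f.codRestrict K hf x) = f x := rfl

private theorem c2_val_incl {C D : Set k'} (h : C ⊆ D) (x : KT k k' C) :
    KT.val k k' (KT.incl h x) = KT.val k k' x :=
  c2_codRestrict (KT.val k k') (KC k k' D) _ x

private theorem c2_norm_incl {C D : Set k'} (h : C ⊆ D) (x : KT k k' C) :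
    ‖KT.incl h x‖ = ‖x‖ := by
  rw [← KT.norm_val, c2_val_incl, KT.norm_val]

private theorem c2_valN_incl {C D : Set k'} (h : C ⊆ D) (x : NT k k' L M C) :
    NT.val k k' L M (NT.incl h x) = NT.val k k' L M x :=
  c2_codRestrict (NT.val k k' L M) (NC k k' L M D) _ x

private theorem c2_normN_incl {C D : Set k'} (h : C ⊆ D) (x : NT k k' L M C) :
    ‖NT.incl h x‖ = ‖x‖ := by
  rw [← NT.norm_val, c2_valN_incl, NT.norm_val]

private theorem c2_adjoin (C : Set k') {c : k'}
    [NormedAlgebra (KT k k' C) (KT k k' (insert c C))]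
    (hmap : ∀ x : KT k k' C, KT.val k k' (algebraMap (KT k k' C) (KT k k' (insert c C)) x) =
      KT.val k k' x) (c' : KT k k' (insert c C)) (hc' : KT.val k k' c' = c) {y : k'}
    (hy : y ∈ IntermediateField.adjoin k (insert c C)) :
    ∃ z ∈ IntermediateField.adjoin (KT k k' C) {c'}, KT.val k k' z = y := by
  have hsub : C ⊆ (KC k k' C : Set k') := fun x hx => mem_KC.2 (isAlgebraic_algebraMap
    (⟨x, IntermediateField.subset_adjoin _ _ hx⟩ : IntermediateField.adjoin k C))
  induction hy using IntermediateField.adjoin_induction with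
  | mem x hx =>
    rcases hx with rfl | hx
    · exact ⟨c', IntermediateField.mem_adjoin_simple_self _ _, hc'⟩
    · refine ⟨algebraMap (KT k k' C) _ (⟨x, hsub hx⟩ : KC k k' C), IntermediateField.algebraMap_mem _ _, ?_⟩
      exact hmap (⟨x, hsub hx⟩ : KC k k' C)
  | algebraMap x =>
    refine ⟨algebraMap _ _ (KT.ofk C x), IntermediateField.algebraMap_mem _ _, ?_⟩
    rw [hmap]
    rfl
  | add x y _ _ hx hy =>
    obtain ⟨a, ha, rfl⟩ := hx
    obtain ⟨b, hb, rfl⟩ := hy
    exact ⟨a + b, add_mem ha hb, map_add _ _ _⟩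
  | inv x _ hx =>
    obtain ⟨a, ha, rfl⟩ := hx
    exact ⟨a⁻¹, inv_mem ha, map_inv₀ _ _⟩
  | mul x y _ _ hx hy =>
    obtain ⟨a, ha, rfl⟩ := hx
    obtain ⟨b, hb, rfl⟩ := hy
    exact ⟨a * b, mul_mem ha hb, map_mul _ _ _⟩

private theorem c2_alg (C : Set k') {c : k'}
    [NormedAlgebra (KT k k' C) (KT k k' (insert c C))]
    (hmap : ∀ x : KT k k' C, KT.val k k' (algebraMap (KT k k' C) (KT k k' (insert c C)) x) =
      KT.val k k' x) (c' : KT k k' (insert c C)) (hc' : KT.val k k' c' = c)
    (x : KT k k' (insert c C)) :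
    IsAlgebraic (IntermediateField.adjoin (KT k k' C) {c'}) x := by
  obtain ⟨p, hp, hpx⟩ := mem_KC.1 (KT.val_mem x)
  choose g hg hg' using fun y : IntermediateField.adjoin k (insert c C) =>
    c2_adjoin C hmap c' hc' y.2
  let G : IntermediateField.adjoin k (insert c C) →+*
      IntermediateField.adjoin (KT k k' C) {c'} :=
    { toFun := fun y => ⟨g y, hg y⟩
      map_one' := Subtype.ext ((KT.val k k').injective (by
        rw [hg']
        exact (map_one _).symm))
      map_mul' := fun y z => Subtype.ext ((KT.val k k').injective (by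
        rw [hg']
        show _ = KT.val k k' (g y * g z)
        rw [map_mul, hg', hg']
        rfl))
      map_zero' := Subtype.ext ((KT.val k k').injective (by
        rw [hg']
        exact (map_zero _).symm))
      map_add' := fun y z => Subtype.ext ((KT.val k k').injective (by
        rw [hg']
        show _ = KT.val k k' (g y + g z)
        rw [map_add, hg', hg']
        rfl)) }
  refine ⟨p.map G, (Polynomial.map_ne_zero_iff G.injective).2 hp, ?_⟩
  apply (KT.val k k').injective
  rw [map_zero, aeval_def, eval₂_map, hom_eval₂, ← hpx, aeval_def]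
  congr 1
  refine RingHom.ext fun y => ?_
  exact hg' y

/-- One step of the chain. Proof. If `c ∈ KC C` then `KC (insert c C) = KC C` and `NC` is the same: `C` may be replaced by
`insert c C` (the instances are transported: `subst` of an equality of the subfields does not work directly for the
types; use a general statement, or `hc` only). Here `c ∉ KC C`. Let `D = insert c C`, with the normed algebra structures
`nalg (KT.incl _)`, `nalg (NT.incl _)`; `Step (KT C) (KT D) (NT C) (NT D) c a` holds: `imm` (`h.imm`), `alg` (an element of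
`KT D` is algebraic over `k(C, c)`, which is algebraic over `KT C (c)`), `gen` (`NC D` is generated by `L` and `KC D`), `anti`,
`lim` (`exists_approx`), `tr`, `fs` (`fs_chain`, `eval_eventually`). `pc_step` with `trdeg_NT`. -/
theorem step_chain (h : Lift k k' L M) {n : ℕ} (hn : Algebra.trdeg k L = (n : Cardinal))
    (C : Set k') {c : k'} (hc : c ∉ KC k k' C)
    (H : PC (KT k k' (insert c C)) (NT k k' L M (insert c C))) :
    PC (KT k k' C) (NT k k' L M C) := by
  have hCD : C ⊆ insert c C := Set.subset_insert c C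
  letI i1 : NormedAlgebra (KT k k' C) (KT k k' (insert c C)) := 
    nalg (KT.incl hCD) (c2_norm_incl hCD)
  letI i2 : NormedAlgebra (NT k k' L M C) (NT k k' L M (insert c C)) :=
    nalg (NT.incl hCD) (c2_normN_incl hCD)
  have a1 : IsAlgClosed (KT k k' C) := isAlgClosed_KT C
  have a2 : IsAlgClosed (KT k k' (insert c C)) := isAlgClosed_KT _
  have hcD : c ∈ KC k k' (insert c C) := mem_KC.2 (isAlgebraic_algebraMap
    (⟨c, IntermediateField.subset_adjoin _ _ (Set.mem_insert c C)⟩ :
      IntermediateField.adjoin k (insert c C)))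
  obtain ⟨a, ha, hlim⟩ := exists_approx h C hc
  have hQ := fun Q hQ => eval_eventually C hc ha hlim Q hQ
  obtain ⟨c', hc'⟩ : ∃ c' : KT k k' (insert c C), KT.val k k' c' = c := ⟨⟨c, hcD⟩, rfl⟩
  have hmap1 : ∀ x : KT k k' C, algebraMap (KT k k' C) (KT k k' (insert c C)) x =
      KT.incl hCD x := fun _ => rfl
  have hmapN1 : ∀ x : NT k k' L M C,
      algebraMap (NT k k' L M C) (NT k k' L M (insert c C)) x = NT.incl hCD x := fun _ => rfl
  have hmap : ∀ x : KT k k' C, KT.val k k' (algebraMap (KT k k' C) (KT k k' (insert c C)) x) =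
      KT.val k k' x := fun x => by rw [hmap1, c2_val_incl]
  have hmapN : ∀ x : NT k k' L M C, NT.val k k' L M
      (algebraMap (NT k k' L M C) (NT k k' L M (insert c C)) x) = NT.val k k' L M x :=
    fun x => by rw [hmapN1, c2_valN_incl]
  have hmapK : ∀ x : KT k k' (insert c C), NT.val k k' L M
      (algebraMap (KT k k' (insert c C)) (NT k k' L M (insert c C)) x) =
      algebraMap k' M (KT.val k k' x) := fun _ => rfl
  have hmapK' : ∀ x : KT k k' C, NT.val k k' L M
      (algebraMap (KT k k' C) (NT k k' L M C) x) =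
      algebraMap k' M (KT.val k k' x) := fun _ => rfl
  have hval : ∀ P : (NT k k' L M C)[X], NT.val k k' L M
      (aeval (algebraMap (KT k k' (insert c C)) (NT k k' L M (insert c C)) c') P) =
      P.eval₂ (NT.val k k' L M) (algebraMap k' M c) := by
    intro P
    rw [aeval_def, hom_eval₂, hmapK, hc']
    exact congrArg (fun f => eval₂ f (algebraMap k' M c) P) (RingHom.ext hmapN)
  have hstep : Step (KT k k' C) (KT k k' (insert c C)) (NT k k' L M C)
      (NT k k' L M (insert c C)) c' a := by
    refine ⟨fun x => ?_, fun x hx => ?_, c2_alg C hmap c' hc', ?_, fun j => ?_, fun b => ?_,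
      fun P hP h0 => ?_, fun P => ?_⟩
    · apply (NT.val k k' L M).injective
      rw [hmapK, hmap, hmapN, hmapK']
    · have hx' : KT.val k k' x ≠ 0 := fun h0 => hx ((KT.val k k').injective (by rw [h0, map_zero]))
      obtain ⟨b, hb⟩ := h.imm _ hx'
      refine ⟨KT.ofk C b, ?_⟩
      rw [← KT.norm_val, map_sub, hmap]
      exact hb
    · rw [eq_top_iff, ← gen_NT (k := k) (L := L) (M := M) (insert c C)]
      refine IntermediateField.adjoin.mono _ _ _ ?_
      rintro _ ⟨x, rfl⟩
      refine ⟨NT.ofL C x, (NT.val k k' L M).injective ?_⟩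
      rw [hmapN]
      exact (c2_codRestrict (algebraMap L M) (NC k k' L M C) _ x).trans
        (c2_codRestrict (algebraMap L M) (NC k k' L M (insert c C)) _ x).symm
    · rw [← KT.norm_val, ← KT.norm_val, map_sub, map_sub, hmap, hmap, hc']
      exact ha j
    · obtain ⟨j, hj⟩ := hlim b
      refine ⟨j, ?_⟩
      rw [← KT.norm_val, ← KT.norm_val, map_sub, map_sub, hmap, hmap, hc']
      exact hj
    · refine (fs_chain h C c a hQ P).2 hP ?_
      rw [← hval, h0, map_zero]
    · have h1 := (fs_chain h C c a hQ P).1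
      rw [← hval P, NT.norm_val] at h1
      exact h1
  exact pc_step hstep (trdeg_NT h hn C) H

/-- `PC` for subfields -/
private def PCs (K : Subfield k') (N : Subfield M)
    (hKN : ∀ x ∈ K, algebraMap k' M x ∈ N) : Prop :=
  letI : NormedAlgebra K N := nalg (((algebraMap k' M).comp K.subtype).codRestrict N
    fun x => hKN _ x.2) fun x => norm_algebraMap' M (x : k')
  haveI : IsUltrametricDist K :=
    ⟨fun x y z => IsUltrametricDist.dist_triangle_max (X := k') x y z⟩
  haveI : IsUltrametricDist N :=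
    ⟨fun x y z => IsUltrametricDist.dist_triangle_max (X := M) x y z⟩
  PC K N

private theorem PCs_congr {K K' : Subfield k'} {N N' : Subfield M} (hK : K = K') (hN : N = N')
    (h : ∀ x ∈ K, algebraMap k' M x ∈ N) (h' : ∀ x ∈ K', algebraMap k' M x ∈ N')
    (H : PCs K N h) : PCs K' N' h' := by
  subst hK hN
  exact H

/-- the case `c ∈ KC C`. Proof. `KC (insert c C) = KC C`, so `NC (insert c C) = NC C`; `PC` for the types of the elements of equal
subfields: state a lemma for arbitrary subfields `K₁ = K₂` of `k'`, `N₁ = N₂` of `M` (with the normed algebra structure given by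
`K ≤ comap N`) and use `subst`. -/
theorem step_chain' (C : Set k') {c : k'} (hc : c ∈ KC k k' C)
    (H : PC (KT k k' (insert c C)) (NT k k' L M (insert c C))) :
    PC (KT k k' C) (NT k k' L M C) := by
  have hK : KC k k' (insert c C) = KC k k' C := by
    refine le_antisymm ?_ (KC_mono (Set.subset_insert c C))
    intro x hx
    rw [mem_KC] at hx ⊢
    let A := algebraicClosure (IntermediateField.adjoin k C) k'
    have hA : IntermediateField.adjoin k (insert c C) ≤ A.restrictScalars k := by
      rw [IntermediateField.adjoin_le_iff]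
      rintro y (rfl | hy)
      · exact hc
      · exact mem_KC.2 (isAlgebraic_algebraMap
          (⟨y, IntermediateField.subset_adjoin _ _ hy⟩ : IntermediateField.adjoin k C))
    have hxA : IsAlgebraic A x := by
      obtain ⟨p, hp, hpx⟩ := hx
      let g : ↥(IntermediateField.adjoin k (insert c C)) →+* A :=
        { toFun := fun y => ⟨y, hA y.2⟩
          map_one' := rfl
          map_mul' := fun _ _ => rfl
          map_zero' := rfl
          map_add' := fun _ _ => rfl }
      refine ⟨p.map g, ?_, ?_⟩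
      · rw [Polynomial.map_ne_zero_iff g.injective]
        exact hp
      · rw [Polynomial.aeval_def, Polynomial.eval₂_map]
        exact hpx
    have : Algebra.IsAlgebraic (IntermediateField.adjoin k C) A := inferInstance
    exact hxA.restrictScalars (IntermediateField.adjoin k C)
  have hN : NC k k' L M (insert c C) = NC k k' L M C := by
    unfold NC
    rw [hK]
  exact PCs_congr hK hN (fun x hx => Subfield.subset_closure (Or.inr ⟨x, hx, rfl⟩))
    (fun x hx => Subfield.subset_closure (Or.inr ⟨x, hx, rfl⟩)) H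

end

end TR
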