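import Pool.Agent.Lib.TR.Defs

/-!
# Module TR.D1: the residual transcendence degree increases by at most one
-/

open Polynomial MP1a953e IsLocalRing DA Filter

namespace TR
open Pool.Agent.Lib.MP_3029eb_ag Pool.Agent.Lib.MP_3029eb_ag.Abh CS

/-- residually independent elements are algebraically independent: any `n + 1` elements of the unit ball are residually
dependent if the transcendence degree is `n`. Proof. The `n + 1` elements satisfy a polynomial relation with coefficients in
`L`, not all zero; divide by a coefficient of largest norm. -/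
theorem rdep_of_trdeg {L M : Type} [NormedField L] [IsUltrametricDist L] [NormedField M]
    [IsUltrametricDist M] [NormedAlgebra L M] {n : ℕ} (h : Algebra.trdeg L M ≤ (n : Cardinal)) :
    RDep L M n := by
  intro u _
  have h1 : ¬ AlgebraicIndependent L u := by
    intro hu
    have h2 := hu.cardinalMk_le_trdeg.trans h
    rw [Cardinal.mk_fin] at h2
    have h3 : n + 1 ≤ n := by exact_mod_cast h2
    omega
  rw [algebraicIndependent_iff] at h1
  push Not at h1
  obtain ⟨P, hP, hP0⟩ := h1
  obtain ⟨s, hs, hmax⟩ := P.support.exists_max_image (fun s => ‖P.coeff s‖)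
    (MvPolynomial.support_nonempty.2 hP0)
  have hc : P.coeff s ≠ 0 := MvPolynomial.mem_support_iff.1 hs
  have hc' : 0 < ‖P.coeff s‖ := norm_pos_iff.2 hc
  refine ⟨MvPolynomial.C (P.coeff s)⁻¹ * P, fun t => ?_, ⟨s, ?_⟩, ?_⟩
  · rw [MvPolynomial.coeff_C_mul, norm_mul, norm_inv]
    rw [inv_mul_le_iff₀ hc', mul_one]
    by_cases ht : t ∈ P.support
    · exact hmax t ht
    · rw [MvPolynomial.notMem_support_iff.1 ht, norm_zero]
      exact norm_nonneg _
  · rw [MvPolynomial.coeff_C_mul, norm_mul, norm_inv, inv_mul_cancel₀ hc'.ne']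
  · rw [map_mul, hP, mul_zero, norm_zero]
    exact one_pos

/-! ### the residue fields of the unit balls -/

private noncomputable def bm (k L : Type) [NormedField k] [IsUltrametricDist k] [NormedField L]
    [IsUltrametricDist L] [NormedAlgebra k L] : ball k →+* ball L :=
  ((algebraMap k L).comp (ball k).subtype).codRestrict (ball L).toSubring fun c => by
    show ‖algebraMap k L (c : k)‖ ≤ 1
    rw [norm_algebraMap']
    exact (mem_ball _).1 c.2

private theorem isUnit_ball {k : Type} [NormedField k] [IsUltrametricDist k] {c : ball k} :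
    IsUnit c ↔ ‖(c : k)‖ = 1 := by
  have h1 : ‖(c : k)‖ ≤ 1 := (mem_ball _).1 c.2
  constructor
  · intro hc
    obtain ⟨y, hy⟩ := hc.exists_right_inv
    have h2 : (c : k) * (y : k) = 1 := congrArg Subtype.val hy
    have h3 : ‖(c : k)‖ * ‖(y : k)‖ = 1 := by rw [← norm_mul, h2, norm_one]
    have h4 : ‖(y : k)‖ ≤ 1 := (mem_ball _).1 y.2
    nlinarith [norm_nonneg (c : k), norm_nonneg (y : k)]
  · intro hc
    have h2 : (c : k) ≠ 0 := fun h => by rw [h, norm_zero] at hc; exact zero_ne_one hc
    refine IsUnit.of_mul_eq_one (⟨(c : k)⁻¹, (mem_ball _).2 ?_⟩ : ball k) ?_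
    · rw [norm_inv, hc, inv_one]
    · exact Subtype.ext (mul_inv_cancel₀ h2)

private instance bm_local (k L : Type) [NormedField k] [IsUltrametricDist k] [NormedField L]
    [IsUltrametricDist L] [NormedAlgebra k L] : IsLocalHom (bm k L) := by
  refine ⟨fun c hc => ?_⟩
  rw [isUnit_ball] at hc ⊢
  rw [← hc]
  exact (norm_algebraMap' L (c : k)).symm

private noncomputable def rm (k L : Type) [NormedField k] [IsUltrametricDist k] [NormedField L]
    [IsUltrametricDist L] [NormedAlgebra k L] : ResidueField (ball k) →+* ResidueField (ball L) :=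
  ResidueField.map (bm k L)

section
variable {k L : Type} [NormedField k] [IsUltrametricDist k] [NormedField L]
  [IsUltrametricDist L] [NormedAlgebra k L]

private theorem rm_residue (c : ball k) : rm k L (residue (ball k) c) =
    residue (ball L) (bm k L c) := rfl

private theorem res_ne {c : ball k} : residue (ball k) c ≠ 0 ↔ ‖(c : k)‖ = 1 := by
  rw [residue_ne_zero_iff_isUnit, isUnit_ball]

private theorem res_eq {c : ball k} : residue (ball k) c = 0 ↔ ‖(c : k)‖ < 1 := by
  rw [← not_iff_not, ← Ne, res_ne, not_lt]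
  exact ⟨fun h => h.ge, fun h => le_antisymm ((mem_ball _).1 c.2) h⟩

private theorem key {n : ℕ} (u : Fin n → ball L) (P : MvPolynomial (Fin n) (ball k)) :
    ∃ y : ball L, (y : L) = MvPolynomial.aeval (fun i => (u i : L)) (P.map (ball k).subtype) ∧
      residue (ball L) y = MvPolynomial.eval₂ (rm k L) (fun i => residue (ball L) (u i))
        (P.map (residue (ball k))) := by
  refine ⟨MvPolynomial.eval₂ (bm k L) u P, ?_, ?_⟩
  · rw [MvPolynomial.aeval_def, MvPolynomial.eval₂_map]
    exact MvPolynomial.eval₂_comp_left (ball L).subtype (bm k L) u P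
  · rw [MvPolynomial.eval₂_map]
    exact MvPolynomial.eval₂_comp_left (residue (ball L)) (bm k L) u P

private theorem lift_poly {n : ℕ} (P : MvPolynomial (Fin n) k) (hP : ∀ s, ‖P.coeff s‖ ≤ 1) :
    ∃ P₀ : MvPolynomial (Fin n) (ball k), P₀.map (ball k).subtype = P := by
  have h : P ∈ Set.range (MvPolynomial.map (ball k).subtype :
      MvPolynomial (Fin n) (ball k) → _) := by
    rw [MvPolynomial.mem_range_map_iff_coeffs_subset]
    intro c hc
    obtain ⟨s, -, rfl⟩ := MvPolynomial.mem_coeffs_iff.1 hc
    exact ⟨⟨_, (mem_ball _).2 (hP s)⟩, rfl⟩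
  exact h

private theorem trdeg_of_rdep {m : ℕ} (hRD : RDep k L m) :
    letI := (rm k L).toAlgebra
    Algebra.trdeg (ResidueField (ball k)) (ResidueField (ball L)) ≤ ((m : ℕ) : Cardinal) := by
  let _ : Algebra (ResidueField (ball k)) (ResidueField (ball L)) := (rm k L).toAlgebra
  refine ciSup_le' fun ⟨s, hs⟩ => ?_
  by_contra hcon
  rw [not_le] at hcon
  have h1 : Cardinal.mk (Fin (m + 1)) ≤ Cardinal.mk s := by
    have h2 := Order.succ_le_of_lt hcon
    rw [Cardinal.mk_fin, Nat.cast_succ]
    rwa [← Cardinal.succ_natCast] at *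
  obtain ⟨e⟩ := h1
  have hind := AlgebraicIndependent.comp hs e e.injective
  choose u hu using fun i => residue_surjective (R := ball L) ((e i : s) : ResidueField (ball L))
  obtain ⟨P, hP1, ⟨t, ht⟩, hP3⟩ := hRD (fun i => (u i : L)) fun i => (mem_ball _).1 (u i).2
  obtain ⟨P₀, hP₀⟩ := lift_poly P hP1
  obtain ⟨y, hy1, hy2⟩ := key (k := k) u P₀
  rw [hP₀] at hy1
  have h2 : residue (ball L) y = 0 := by
    rw [res_eq, hy1]
    exact hP3
  rw [h2] at hy2
  have h3 : (fun i => residue (ball L) (u i)) =
      fun i => ((e i : s) : ResidueField (ball L)) := funext hu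
  rw [h3] at hy2
  have h4 := (algebraicIndependent_iff.1 hind) (P₀.map (residue (ball k))) hy2.symm
  have h5 : residue (ball k) (P₀.coeff t) = 0 := by
    rw [← MvPolynomial.coeff_map, h4, MvPolynomial.coeff_zero]
  refine res_ne.2 ?_ h5
  rw [← ht, ← hP₀, MvPolynomial.coeff_map]
  rfl

private theorem rdep_of_trdeg_res {m : ℕ}
    (h : letI := (rm k L).toAlgebra
      Algebra.trdeg (ResidueField (ball k)) (ResidueField (ball L)) ≤ ((m : ℕ) : Cardinal)) :
    RDep k L m := by
  let _ : Algebra (ResidueField (ball k)) (ResidueField (ball L)) := (rm k L).toAlgebra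
  intro v hv
  let u : Fin (m + 1) → ball L := fun i => ⟨v i, (mem_ball _).2 (hv i)⟩
  have h1 : ¬ AlgebraicIndependent (ResidueField (ball k)) fun i => residue (ball L) (u i) := by
    intro hu
    have h2 := hu.cardinalMk_le_trdeg.trans h
    rw [Cardinal.mk_fin] at h2
    have h3 : m + 1 ≤ m := by exact_mod_cast h2
    omega
  rw [algebraicIndependent_iff] at h1
  push Not at h1
  obtain ⟨P, hP, hP0⟩ := h1
  obtain ⟨P₀, rfl⟩ := MvPolynomial.map_surjective (residue (ball k)) residue_surjective P
  obtain ⟨y, hy1, hy2⟩ := key (k := k) u P₀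
  have hP' : MvPolynomial.eval₂ (rm k L) (fun i => residue (ball L) (u i))
      (P₀.map (residue (ball k))) = 0 := hP
  rw [hP', res_eq, hy1] at hy2
  obtain ⟨s, hs⟩ := MvPolynomial.ne_zero_iff.1 hP0
  rw [MvPolynomial.coeff_map] at hs
  refine ⟨P₀.map (ball k).subtype, fun s => ?_, ⟨s, ?_⟩, hy2⟩
  · rw [MvPolynomial.coeff_map]
    exact (mem_ball _).1 (P₀.coeff s).2
  · rw [MvPolynomial.coeff_map]
    exact res_ne.1 hs

end

/-- transitivity. Proof. Let `y 0, …, y (m + n)` be in the unit ball of `M` and residually independent over `k1`, so over `k`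
(`RI`-like; negation of the conclusion). By the exchange property for the algebraic dependence of the residues
in the residue field of `M` over the residue field of `k`: `trdeg(M~ / k~) ≤ trdeg(L~ / k~) + trdeg(M~ / L~) ≤ m + n`
(`Algebra.trdeg_add_eq` or `Algebra.lift_trdeg_add_eq` for the residue fields `ResidueField (O k)`, `ResidueField (O L)`,
`ResidueField (O M)`; the residue field of `k1` is that of `k` because of `himm`; compare CS/DimW.lean (`DW_trdeg`, `DW_lift`,
`DW_key`) and CS/WTr.lean for the translation of `RDep`). -/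
theorem rdep_trans {k k1 L M1 : Type} [NormedField k] [IsUltrametricDist k]
    [NormedField k1] [IsUltrametricDist k1] [NormedAlgebra k k1]
    [NormedField L] [IsUltrametricDist L] [NormedAlgebra k L]
    [NormedField M1] [IsUltrametricDist M1] [NormedAlgebra k1 M1] [NormedAlgebra L M1]
    (hcomm : ∀ x : k, algebraMap k1 M1 (algebraMap k k1 x) = algebraMap L M1 (algebraMap k L x))
    (himm : ∀ x : k1, x ≠ 0 → ∃ b : k, ‖x - algebraMap k k1 b‖ < ‖x‖) {m n : ℕ}
    (hm : RDep k L m) (hn : RDep L M1 n) : RDep k1 M1 (m + n) := by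
  have _ := himm
  have h1 := trdeg_of_rdep hm
  have h2 := trdeg_of_rdep hn
  refine rdep_of_trdeg_res ?_
  let _ : Algebra (ResidueField (ball k)) (ResidueField (ball L)) := (rm k L).toAlgebra
  let _ : Algebra (ResidueField (ball L)) (ResidueField (ball M1)) := (rm L M1).toAlgebra
  let _ : Algebra (ResidueField (ball k)) (ResidueField (ball k1)) := (rm k k1).toAlgebra
  let _ : Algebra (ResidueField (ball k1)) (ResidueField (ball M1)) := (rm k1 M1).toAlgebra
  let _ : Algebra (ResidueField (ball k)) (ResidueField (ball M1)) :=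
    ((rm L M1).comp (rm k L)).toAlgebra
  have t1 : IsScalarTower (ResidueField (ball k)) (ResidueField (ball L))
      (ResidueField (ball M1)) := IsScalarTower.of_algebraMap_eq fun _ => rfl
  have t2 : IsScalarTower (ResidueField (ball k)) (ResidueField (ball k1))
      (ResidueField (ball M1)) := IsScalarTower.of_algebraMap_eq fun z => by
    obtain ⟨c, rfl⟩ := residue_surjective z
    show rm L M1 (rm k L (residue (ball k) c)) = rm k1 M1 (rm k k1 (residue (ball k) c))
    rw [rm_residue, rm_residue, rm_residue, rm_residue]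
    congr 1
    exact Subtype.ext (hcomm (c : k)).symm
  have h3 := _root_.trdeg_add_eq (ResidueField (ball k)) (ResidueField (ball L))
    (A := ResidueField (ball M1))
  have h4 := _root_.trdeg_add_le (R := ResidueField (ball k)) (S := ResidueField (ball k1))
    (A := ResidueField (ball M1))
  have h5 : Algebra.trdeg (ResidueField (ball k1)) (ResidueField (ball M1)) ≤
      Algebra.trdeg (ResidueField (ball k)) (ResidueField (ball M1)) :=
    (self_le_add_left _ _).trans h4
  refine h5.trans ?_
  rw [← h3, Nat.cast_add]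
  exact add_le_add h1 h2

end TR
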