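import Pool.Agent.Lib.TR.G1

/-!
# Module TR.E1: limits of norms in the ultrapower
-/

open Polynomial MP1a953e IsLocalRing DA Filter

namespace TR
open Pool.Agent.Lib.MP_3029eb_ag Pool.Agent.Lib.MP_3029eb_ag.Abh CS

section
variable {L : Type} [NormedField L] {x y : St L} {r s t : ℝ}

private theorem aux_valuation_le_iff [IsUltrametricDist L] (a b : L) :
    (ball L).valuation a ≤ (ball L).valuation b ↔ ‖a‖ ≤ ‖b‖ := by
  rcases eq_or_ne b 0 with rfl | hb
  · rw [map_zero, norm_zero, le_zero_iff, Valuation.zero_iff, norm_le_zero_iff]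
  · have hb' : (ball L).valuation b ≠ 0 := (Valuation.ne_zero_iff _).2 hb
    have hn : 0 < ‖b‖ := norm_pos_iff.2 hb
    have h1 : (ball L).valuation (a / b) ≤ 1 ↔ a / b ∈ ball L :=
      (ball L).valuation_le_one_iff (a / b)
    rw [mem_ball, norm_div, div_le_one hn] at h1
    rw [← h1, map_div₀, div_le_one₀ (zero_lt_iff.2 hb')]

private theorem aux_valuation_lt_iff [IsUltrametricDist L] (a b : L) :
    (ball L).valuation a < (ball L).valuation b ↔ ‖a‖ < ‖b‖ := by
  rw [← not_le, ← not_le, aux_valuation_le_iff]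

private theorem aux_valuation_lt_one [IsUltrametricDist L] (a : L) :
    (ball L).valuation a < 1 ↔ ‖a‖ < 1 := by
  have h := aux_valuation_lt_iff a (1 : L)
  rwa [map_one, norm_one] at h

theorem StN.mk_iff {f : ℕ → L} :
    StN (St.mk f) r ↔ Tendsto (fun j => ‖f j‖) (U : Filter ℕ) (nhds r) := by
  constructor
  · rintro ⟨g, hg, ht⟩
    rw [St.mk_eq] at hg
    exact ht.congr' (hg.mono fun j hj => by rw [hj])
  · intro h
    exact ⟨f, rfl, h⟩

theorem StN.unique (h : StN x r) (h' : StN x s) : r = s := by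
  obtain ⟨f, rfl, hf⟩ := h
  exact tendsto_nhds_unique hf (StN.mk_iff.1 h')

theorem StN.nonneg (h : StN x r) : 0 ≤ r := by
  obtain ⟨f, rfl, hf⟩ := h
  exact ge_of_tendsto' hf fun j => norm_nonneg _

theorem StN.cst (l : L) : StN (St.cst l) ‖l‖ := by
  exact ⟨fun _ => l, rfl, tendsto_const_nhds⟩

theorem StN.zero : StN (0 : St L) 0 := by
  have h := StN.cst (0 : L)
  rwa [map_zero, norm_zero] at h

theorem StN.mul (h : StN x r) (h' : StN y s) : StN (x * y) (r * s) := by
  obtain ⟨f, rfl, hf⟩ := h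
  obtain ⟨g, rfl, hg⟩ := h'
  refine ⟨f * g, map_mul _ _ _, ?_⟩
  exact (hf.mul hg).congr fun j => (norm_mul _ _).symm

theorem StN.inv (h : StN x r) (hr : 0 < r) : StN x⁻¹ r⁻¹ := by
  obtain ⟨f, rfl, hf⟩ := h
  have h1 : ∀ᶠ j in (U : Filter ℕ), 0 < ‖f j‖ := hf.eventually (lt_mem_nhds hr)
  refine ⟨fun j => (f j)⁻¹, ?_, ?_⟩
  · refine (inv_eq_of_mul_eq_one_right ?_).symm
    rw [← map_mul, ← map_one (St.mk (L := L)), St.mk_eq]
    exact h1.mono fun j hj => mul_inv_cancel₀ (norm_pos_iff.1 hj)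
  · exact (hf.inv₀ hr.ne').congr fun j => (norm_inv _).symm

/-- the norms of the members of `x` are bounded, so they have a limit along the ultrafilter (compactness of
`Set.Icc 0 B`, `Ultrafilter.le_nhds_lim` or `IsCompact.ultrafilter_le_nhds`) -/
theorem exists_StN {f : ℕ → L} {B : ℝ} (h : ∀ᶠ j in (U : Filter ℕ), ‖f j‖ ≤ B) :
    ∃ r, StN (St.mk f) r := by
  have h1 : ((U.map fun j => ‖f j‖ : Ultrafilter ℝ) : Filter ℝ) ≤ 𝓟 (Set.Icc 0 B) := by
    rw [le_principal_iff, Ultrafilter.mem_coe, Ultrafilter.mem_map]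
    exact h.mono fun j hj => ⟨norm_nonneg _, hj⟩
  obtain ⟨r, -, hr⟩ := isCompact_Icc.ultrafilter_le_nhds _ h1
  exact ⟨r, f, rfl, hr⟩

variable [IsUltrametricDist L]

theorem StN.add_le (h : StN x r) (h' : StN y s) (h'' : StN (x + y) t) : t ≤ max r s := by
  obtain ⟨f, rfl, hf⟩ := h
  obtain ⟨g, rfl, hg⟩ := h'
  rw [← map_add, StN.mk_iff] at h''
  exact le_of_tendsto_of_tendsto' h'' (hf.max hg)
    fun j => IsUltrametricDist.norm_add_le_max _ _

/-- `x + y` has a limit if `x` and `y` have limits -/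
theorem StN.exists_add (h : StN x r) (h' : StN y s) : ∃ t, StN (x + y) t := by
  obtain ⟨f, rfl, hf⟩ := h
  obtain ⟨g, rfl, hg⟩ := h'
  rw [← map_add]
  refine exists_StN (B := max (r + 1) (s + 1)) ?_
  filter_upwards [hf.eventually (gt_mem_nhds (lt_add_one r)),
    hg.eventually (gt_mem_nhds (lt_add_one s))] with j h1 h2
  exact (IsUltrametricDist.norm_add_le_max _ _).trans (max_le_max h1.le h2.le)

theorem StN.exists_sum {ι : Type} (S : Finset ι) {u : ι → St L} {R : ι → ℝ} {B : ℝ} (hB : 0 ≤ B)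
    (h : ∀ i ∈ S, StN (u i) (R i)) (hR : ∀ i ∈ S, R i ≤ B) : ∃ t ≤ B, StN (∑ i ∈ S, u i) t := by
  classical
  induction S using Finset.induction_on with
  | empty =>
    refine ⟨0, hB, ?_⟩
    rw [Finset.sum_empty]
    exact StN.zero
  | insert a S ha ih =>
    obtain ⟨t, htB, ht⟩ := ih (fun i hi => h i (Finset.mem_insert_of_mem hi))
      fun i hi => hR i (Finset.mem_insert_of_mem hi)
    have h1 := h a (Finset.mem_insert_self a S)
    obtain ⟨t', ht'⟩ := h1.exists_add ht
    refine ⟨t', (StN.add_le h1 ht ht').trans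
      (max_le (hR a (Finset.mem_insert_self a S)) htB), ?_⟩
    rw [Finset.sum_insert ha]
    exact ht'

/-- elements of the ultrapower of the unit ball have limit at most one -/
theorem StN.le_one (h : StN x r) (hx : x ∈ St.val (ball L)) : r ≤ 1 := by
  obtain ⟨f, hf, rfl⟩ := hx
  exact le_of_tendsto' (StN.mk_iff.1 h) hf

theorem StN.mem_ball (h : StN x r) (hr : r < 1) : (St.val (ball L)).valuation x < 1 := by
  obtain ⟨f, rfl, hf⟩ := h
  rw [St.val_lt]
  exact (hf.eventually (gt_mem_nhds hr)).mono fun j hj => (aux_valuation_lt_one (f j)).2 hj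

/-- if the valuation in the ultrapower of the unit ball is at most that of a constant -/
theorem StN.le_of_val (h : StN x r) (h' : StN y s)
    (hxy : (St.val (ball L)).valuation x ≤ (St.val (ball L)).valuation y) : r ≤ s := by
  obtain ⟨f, rfl, hf⟩ := h
  obtain ⟨g, rfl, hg⟩ := h'
  rw [St.val_le] at hxy
  exact le_of_tendsto_of_tendsto hf hg
    (hxy.mono fun j hj => (aux_valuation_le_iff (f j) (g j)).1 hj)

theorem StN.val_lt (h : StN x r) (h' : StN y s) (hrs : r < s) :
    (St.val (ball L)).valuation x < (St.val (ball L)).valuation y := by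
  obtain ⟨f, rfl, hf⟩ := h
  obtain ⟨g, rfl, hg⟩ := h'
  rw [St.val_lt_iff]
  exact (hf.eventually_lt hg hrs).mono fun j hj => (aux_valuation_lt_iff (f j) (g j)).2 hj

end

end TR
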