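import Mathlib.RingTheory.AlgebraicIndependent.Transcendental
import Pool.Agent.Lib.TR.C1
import Pool.Agent.Lib.TR.P1
import Pool.Agent.Lib.TR.D1
import Pool.Agent.Lib.TR.E1

/-!
# Module TR.C3: the base of the chain
-/

open Polynomial MP1a953e IsLocalRing DA Filter

namespace TR
open Pool.Agent.Lib.MP_3029eb_ag Pool.Agent.Lib.MP_3029eb_ag.Abh CS

private theorem c3_KC {k k' : Type} [NontriviallyNormedField k] [IsAlgClosed k] [NormedField k']
    [NormedAlgebra k k'] {x : k'} (hx : x ∈ KC k k' ∅) : ∃ b : k, algebraMap k k' b = x := by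
  rw [mem_KC] at hx
  have h0 : Algebra.IsAlgebraic k (IntermediateField.adjoin k (∅ : Set k')) := by
    rw [IntermediateField.adjoin_empty]
    infer_instance
  have h1 : IsAlgebraic k x := hx.restrictScalars k
  have h2 := IsAlgClosed.degree_eq_one_of_irreducible k (minpoly.irreducible h1.isIntegral)
  exact minpoly.mem_range_of_degree_eq_one k x h2

private theorem c3_NC {k k' L M : Type} [NontriviallyNormedField k] [IsAlgClosed k]
    [NormedField k'] [NormedAlgebra k k'] [NormedField L] [NormedAlgebra k L] [NormedField M]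
    [NormedAlgebra k' M] [NormedAlgebra L M] (h : Lift k k' L M) {x : M}
    (hx : x ∈ NC k k' L M ∅) : ∃ l : L, algebraMap L M l = x := by
  have h1 : NC k k' L M ∅ ≤ (algebraMap L M).fieldRange := by
    unfold NC
    rw [Subfield.closure_le]
    rintro y (⟨l, rfl⟩ | ⟨z, hz, rfl⟩)
    · exact ⟨l, rfl⟩
    · obtain ⟨b, rfl⟩ := c3_KC hz
      exact ⟨algebraMap k L b, (h.comm b).symm⟩
  exact h1 hx

/-- Proof. `KC ∅` is the set of the elements of `k'` algebraic over `k`, so the image of `k` (`IsAlgClosed k`), and `NC ∅` is the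
image of `L` (`h.comm`). So `NT.ofL : L → NT ∅` is bijective; let `Φ` be its inverse followed by `St.cst`. Show
`TrData k (KT ∅) L (NT ∅) Φ` (`imm`, `con`: constant sequences; `res`: `z = l`; `dep`: `RDep k L m` gives
`RDep (KT ∅) (NT ∅) m`, so for `m + 1`; `trd`: `trdeg_NT` or the isomorphism) and use `pc_transfer`. -/
theorem pc_empty {k k' L M : Type} [NontriviallyNormedField k] [CompleteSpace k]
    [IsUltrametricDist k] [IsAlgClosed k] [NormedField k'] [IsUltrametricDist k']
    [IsAlgClosed k'] [NormedAlgebra k k'] [NormedField L] [IsUltrametricDist L]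
    [NormedAlgebra k L] [NormedField M] [IsUltrametricDist M] [NormedAlgebra k' M]
    [NormedAlgebra L M] (h : Lift k k' L M) {n : ℕ}
    (hn : Algebra.trdeg k L = (n : Cardinal)) (H : PC (KT k k' ∅) (NT k k' L M ∅)) :
    PC k L := by
  have hNv : ∀ l : L, NT.val k k' L M (NT.ofL (∅ : Set k') l) = algebraMap L M l := fun _ => rfl
  have hKv : ∀ l : k, KT.val k k' (KT.ofk (∅ : Set k') l) = algebraMap k k' l := fun _ => rfl
  have hKN : ∀ x : KT k k' ∅, NT.val k k' L M (NT.ofK (∅ : Set k') x) =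
      algebraMap k' M (KT.val k k' x) := fun _ => rfl
  have hK : ∀ x : KT k k' ∅, ∃ b : k, KT.ofk ∅ b = x := by
    intro x
    obtain ⟨b, hb⟩ := c3_KC (KT.val_mem x)
    exact ⟨b, (KT.val k k').injective (by rw [hKv, hb])⟩
  have hN : ∀ z : NT k k' L M ∅, ∃ l : L, NT.ofL ∅ l = z := by
    intro z
    obtain ⟨l, hl⟩ := c3_NC h (NT.val_mem z)
    exact ⟨l, (NT.val k k' L M).injective (by rw [hNv, hl])⟩
  have hcomm : ∀ x : k, NT.ofK (L := L) (M := M) (∅ : Set k') (KT.ofk ∅ x) =
      NT.ofL ∅ (algebraMap k L x) := by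
    intro x
    apply (NT.val k k' L M).injective
    rw [hKN, hNv, hKv, h.comm]
  have hnN : ∀ l : L, ‖(NT.ofL (∅ : Set k') l : NT k k' L M ∅)‖ = ‖l‖ := by
    intro l
    rw [← NT.norm_val, hNv, norm_algebraMap']
  have hnK : ∀ l : k, ‖(KT.ofk (∅ : Set k') l : KT k k' ∅)‖ = ‖l‖ := by
    intro l
    rw [← KT.norm_val, hKv, norm_algebraMap']
  have hinj : Function.Injective (NT.ofL ∅ : L →+* NT k k' L M ∅) := RingHom.injective _
  let e : L ≃+* NT k k' L M ∅ := RingEquiv.ofBijective (NT.ofL ∅) ⟨hinj, hN⟩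
  have he : ∀ l : L, e.symm (NT.ofL ∅ l) = l := fun l => e.symm_apply_apply l
  have himm : ∀ x : KT k k' ∅, x ≠ 0 → ∃ b : k, ‖x - algebraMap k (KT k k' ∅) b‖ < ‖x‖ := by
    intro x hx
    obtain ⟨b, rfl⟩ := hK x
    refine ⟨b, ?_⟩
    rw [algebraMap_k_KT, sub_self, norm_zero]
    exact norm_pos_iff.2 hx
  have hcomm' : ∀ x : k, algebraMap (KT k k' ∅) (NT k k' L M ∅) (algebraMap k (KT k k' ∅) x) =
      algebraMap L (NT k k' L M ∅) (algebraMap k L x) := by
    intro x
    rw [algebraMap_k_KT, algebraMap_KT_NT, algebraMap_L_NT, hcomm]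
  have hT : TrData k (KT k k' ∅) L (NT k k' L M ∅) (St.cst.comp e.symm.toRingHom) := by
    refine ⟨hcomm', himm, fun l => ?_, fun x => ?_, fun x => ?_, fun V hV z hz => ?_,
      gen_NT ∅, fun m hm => ?_, ?_⟩
    · rw [algebraMap_L_NT]
      exact congrArg St.cst (he l)
    · obtain ⟨b, rfl⟩ := hK x
      refine ⟨fun _ => b, fun _ => (hnK b).symm, ?_⟩
      rw [algebraMap_KT_NT, hcomm]
      exact congrArg St.cst (he _)
    · obtain ⟨l, rfl⟩ := hN x
      refine ⟨fun _ => l, (congrArg St.cst (he l)).symm, ?_⟩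
      rw [hnN]
      exact tendsto_const_nhds
    · obtain ⟨l, rfl⟩ := hN z
      have h1 : (St.cst.comp e.symm.toRingHom) (NT.ofL ∅ l) = St.cst l := congrArg St.cst (he l)
      rw [h1] at hz ⊢
      refine ⟨l, St.cst_mem.1 hz, ?_⟩
      rw [sub_self, map_zero]
      exact zero_lt_one
    · refine rdep_trans hcomm' himm hm (rdep_of_trdeg ?_)
      have h2 : Algebra.IsAlgebraic L (NT k k' L M ∅) := ⟨fun z => by
        obtain ⟨l, rfl⟩ := hN z
        exact isAlgebraic_algebraMap (A := NT k k' L M ∅) l⟩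
      rw [_root_.trdeg_eq_zero]
      exact zero_le
    · rw [trdeg_NT h hn ∅, hn]
  exact pc_transfer hT hn H

end TR
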