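import Pool.Agent.Lib.TR.C1
import Pool.Agent.Lib.CS.ToDS

/-!
# Module TR.C4: the defect of the lift at a finite level
-/

open Polynomial MP1a953e IsLocalRing DA Filter

namespace TR
open Pool.Agent.Lib.MP_3029eb_ag Pool.Agent.Lib.MP_3029eb_ag.Abh CS

section
variable {k k' L M : Type} [NontriviallyNormedField k]
    [IsUltrametricDist k] [IsAlgClosed k] [NormedField k'] [IsUltrametricDist k']
    [IsAlgClosed k'] [NormedAlgebra k k'] [NormedField L] [IsUltrametricDist L]
    [NormedAlgebra k L] [NormedField M] [IsUltrametricDist M] [NormedAlgebra k' M]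
    [NormedAlgebra L M]

omit [IsUltrametricDist k] [IsAlgClosed k] [IsUltrametricDist k'] [IsAlgClosed k']
  [IsUltrametricDist L] [IsUltrametricDist M] in
private theorem c4_elt (h : Lift k k' L M) (x : M) :
    ∃ C : Finset k', x ∈ NC k k' L M (C : Set k') := by
  classical
  have hx : x ∈ IntermediateField.adjoin k' (Set.range (algebraMap L M)) := by
    rw [h.gen]
    exact IntermediateField.mem_top
  induction hx using IntermediateField.adjoin_induction with
  | mem x hx => exact ⟨∅, Subfield.subset_closure (Or.inl hx)⟩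
  | algebraMap c =>
    refine ⟨{c}, Subfield.subset_closure (Or.inr ⟨c, ?_, rfl⟩)⟩
    have hc : c ∈ IntermediateField.adjoin k (({c} : Finset k') : Set k') :=
      IntermediateField.subset_adjoin _ _ (by simp)
    exact mem_KC.2 (isAlgebraic_algebraMap
      (⟨c, hc⟩ : IntermediateField.adjoin k (({c} : Finset k') : Set k')))
  | add x y _ _ ihx ihy =>
    obtain ⟨C, hC⟩ := ihx
    obtain ⟨D, hD⟩ := ihy
    exact ⟨C ∪ D, add_mem (NC_mono (by simp) hC) (NC_mono (by simp) hD)⟩
  | inv x _ ihx =>
    obtain ⟨C, hC⟩ := ihx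
    exact ⟨C, inv_mem hC⟩
  | mul x y _ _ ihx ihy =>
    obtain ⟨C, hC⟩ := ihx
    obtain ⟨D, hD⟩ := ihy
    exact ⟨C ∪ D, mul_mem (NC_mono (by simp) hC) (NC_mono (by simp) hD)⟩

/-- Proof. Every element of `M` is in `NC C` for a finite set `C` (`h.gen`: closure induction; `NC_mono`). -/
theorem exists_finite (h : Lift k k' L M) (S : Finset M) :
    ∃ C : Finset k', ∀ x ∈ S, x ∈ NC k k' L M (C : Set k') := by
  classical
  induction S using Finset.induction_on with
  | empty => exact ⟨∅, fun x hx => absurd hx (Finset.notMem_empty x)⟩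
  | insert a S ha ih =>
    obtain ⟨C, hC⟩ := ih
    obtain ⟨D, hD⟩ := c4_elt h a
    refine ⟨C ∪ D, fun x hx => ?_⟩
    rcases Finset.mem_insert.1 hx with rfl | hx
    · exact NC_mono (by simp) hD
    · exact NC_mono (by simp) (hC x hx)

private theorem c4_trdeg_le {A B R S : Type} [Field A] [Field B] [Field R] [Field S]
    [Algebra A R] [Algebra B S] (f : A →+* B) (hf : Function.Surjective f) (g : R →+* S)
    (hc : (algebraMap B S).comp f = g.comp (algebraMap A R)) :
    Algebra.trdeg A R ≤ Algebra.trdeg B S := by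
  obtain ⟨s, hs⟩ := exists_isTranscendenceBasis A R
  have h1 := hs.1.ringHom_of_comp_eq f g hf g.injective hc
  rw [← hs.cardinalMk_eq_trdeg]
  exact h1.cardinalMk_le_trdeg

private theorem c4_le_trdeg {A B R S : Type} [Field A] [Field B] [Field R] [Field S]
    [Algebra A R] [Algebra B S] (f : A →+* B) (g : R →+* S)
    (hc : (algebraMap B S).comp f = g.comp (algebraMap A R)) {m : ℕ} (y : Fin m → R)
    (hy : AlgebraicIndependent B (g ∘ y)) : (m : Cardinal) ≤ Algebra.trdeg A R := by
  have h1 := hy.of_ringHom_of_comp_eq f g f.injective hc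
  have h2 := h1.cardinalMk_le_trdeg
  rwa [Cardinal.mk_fin] at h2

private theorem c4_comm {A B R S : Type} [NormedField A] [IsUltrametricDist A] [NormedField B]
    [IsUltrametricDist B] [NormedField R] [IsUltrametricDist R] [NormedField S]
    [IsUltrametricDist S] [NormedAlgebra A B] [NormedAlgebra R S] [NormedAlgebra A R]
    [NormedAlgebra B S]
    (hc : ∀ a : A, algebraMap B S (algebraMap A B a) = algebraMap R S (algebraMap A R a)) :
    (algebraMap (ResidueField (O B)) (ResidueField (O S))).comp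
        (algebraMap (ResidueField (O A)) (ResidueField (O B))) =
      (algebraMap (ResidueField (O R)) (ResidueField (O S))).comp
        (algebraMap (ResidueField (O A)) (ResidueField (O R))) := by
  refine RingHom.ext fun a => ?_
  obtain ⟨a, rfl⟩ := residue_surjective a
  simp only [RingHom.comp_apply, ResidueField.algebraMap_residue]
  congr 1
  exact Subtype.ext (hc a)

private theorem c4_res_le {A B R S : Type} [NormedField A] [IsUltrametricDist A] [NormedField B]
    [IsUltrametricDist B] [NormedField R] [IsUltrametricDist R] [NormedField S]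
    [IsUltrametricDist S] [NormedAlgebra A B] [NormedAlgebra R S] [NormedAlgebra A R]
    [NormedAlgebra B S]
    (hc : ∀ a : A, algebraMap B S (algebraMap A B a) = algebraMap R S (algebraMap A R a))
    (himm : ∀ b : B, ‖b‖ ≤ 1 → ∃ a : A, ‖a‖ ≤ 1 ∧ ‖algebraMap A B a - b‖ < 1) :
    Algebra.trdeg (ResidueField (O A)) (ResidueField (O R)) ≤
      Algebra.trdeg (ResidueField (O B)) (ResidueField (O S)) := by
  refine c4_trdeg_le (algebraMap (ResidueField (O A)) (ResidueField (O B))) (fun b => ?_)
    (algebraMap (ResidueField (O R)) (ResidueField (O S))) (c4_comm hc)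
  obtain ⟨b, rfl⟩ := residue_surjective b
  obtain ⟨a, ha, hab⟩ := himm b (mem_O.1 b.2)
  refine ⟨residue _ ⟨a, mem_O.2 ha⟩, ?_⟩
  rw [ResidueField.algebraMap_residue, ← sub_eq_zero, ← map_sub, residue_eq_zero_iff,
    mem_maximalIdeal, mem_nonunits_iff, isUnit_O_iff]
  exact hab.ne

private theorem c4_le_res {A B R S : Type} [NormedField A] [IsUltrametricDist A] [NormedField B]
    [IsUltrametricDist B] [NormedField R] [IsUltrametricDist R] [NormedField S]
    [IsUltrametricDist S] [NormedAlgebra A B] [NormedAlgebra R S] [NormedAlgebra A R]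
    [NormedAlgebra B S]
    (hc : ∀ a : A, algebraMap B S (algebraMap A B a) = algebraMap R S (algebraMap A R a))
    {m : ℕ} (y : Fin m → O S)
    (hy : AlgebraicIndependent (ResidueField (O B)) fun i => residue (O S) (y i))
    (hyR : ∀ i, ∃ z : R, algebraMap R S z = y i) :
    (m : Cardinal) ≤ Algebra.trdeg (ResidueField (O A)) (ResidueField (O R)) := by
  choose z hz using hyR
  have hz1 : ∀ i, z i ∈ O R := fun i => by
    rw [mem_O, ← norm_algebraMap' S, hz]
    exact mem_O.1 (y i).2
  refine c4_le_trdeg (algebraMap (ResidueField (O A)) (ResidueField (O B)))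
    (algebraMap (ResidueField (O R)) (ResidueField (O S))) (c4_comm hc)
    (fun i => residue (O R) ⟨z i, hz1 i⟩) ?_
  convert! hy using 1
  funext i
  rw [Function.comp_apply, ResidueField.algebraMap_residue]
  congr 1
  exact Subtype.ext (hz i)

omit [IsUltrametricDist k] [IsAlgClosed k] [IsAlgClosed k'] [IsUltrametricDist L]
  [IsUltrametricDist M] in
private theorem c4_imm (h : Lift k k' L M) {x : k'} (hx : x ≠ 0) :
    ∃ b : k, ‖b‖ = ‖x‖ ∧ ‖algebraMap k k' b - x‖ < ‖x‖ := by
  obtain ⟨b, hb⟩ := h.imm x hx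
  have h1 : ‖algebraMap k k' b - x‖ < ‖x‖ := by rwa [norm_sub_rev]
  refine ⟨b, ?_, h1⟩
  have h2 := IsUltrametricDist.norm_add_eq_max_of_norm_ne_norm h1.ne
  rw [sub_add_cancel, norm_algebraMap', max_eq_right h1.le] at h2
  exact h2

/-- The residual transcendence degree of `NT C` over `KT C` is that of `M` over `k'` for a large finite set `C`. Proof. Let `y` be a
family of `m` elements of the unit ball of `M` with residues algebraically independent over the residue field of `k'`;
choose `C` with `y i ∈ NC C`. The residue field of `KT C` is that of `k'` (`h.imm`: both are that of `k`), and the residue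
field of `NT C` is a subfield of that of `M`, so its transcendence degree is at most `m`, and `y` shows that it is at least
`m`. -/
theorem exists_res_level (h : Lift k k' L M) {m : ℕ}
    (hres : Algebra.trdeg (ResidueField (O k')) (ResidueField (O M)) = (m : Cardinal)) :
    ∃ C₀ : Finset k', ∀ C : Finset k', C₀ ⊆ C →
      Algebra.trdeg (ResidueField (O (KT k k' (C : Set k'))))
        (ResidueField (O (NT k k' L M (C : Set k')))) = (m : Cardinal) := by
  classical
  obtain ⟨s, hs⟩ := exists_isTranscendenceBasis (ResidueField (O k')) (ResidueField (O M))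
  have hcard := hs.cardinalMk_eq_trdeg
  rw [hres, ← Cardinal.mk_fin] at hcard
  obtain ⟨e⟩ := Cardinal.eq.1 hcard
  choose y hy using fun i : Fin m => residue_surjective ((e.symm i : ResidueField (O M)))
  have hyi : AlgebraicIndependent (ResidueField (O k')) fun i => residue (O M) (y i) := by
    have h1 := hs.1.comp e.symm e.symm.injective
    convert! h1 using 1
    funext i
    exact hy i
  obtain ⟨C₀, hC₀⟩ := exists_finite h (Finset.univ.image fun i => (y i : M))
  refine ⟨C₀, fun C hC => ?_⟩
  let i1 : NormedAlgebra (KT k k' (C : Set k')) k' := nalg (KT.val k k') KT.norm_val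
  let i2 : NormedAlgebra (NT k k' L M (C : Set k')) M := nalg (NT.val k k' L M) NT.norm_val
  refine le_antisymm ?_ ?_
  · rw [← hres]
    refine c4_res_le (fun a => rfl) fun b hb => ?_
    rcases eq_or_ne b 0 with rfl | hb0
    · exact ⟨0, by rw [norm_zero]; exact zero_le_one, by
        rw [map_zero, sub_zero, norm_zero]; exact zero_lt_one⟩
    · obtain ⟨a, ha, hab⟩ := c4_imm h hb0
      have h1 : ‖KT.ofk (C : Set k') a‖ = ‖a‖ := norm_algebraMap' k' a
      exact ⟨KT.ofk (C : Set k') a, by rw [h1, ha]; exact hb, hab.trans_le hb⟩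
  · refine c4_le_res (A := KT k k' (C : Set k')) (B := k') (R := NT k k' L M (C : Set k'))
      (S := M) (fun a => rfl) y hyi fun i => ?_
    have h1 : (y i : M) ∈ NC k k' L M (C : Set k') :=
      NC_mono (Finset.coe_subset.2 hC)
        (hC₀ _ (Finset.mem_image_of_mem _ (Finset.mem_univ i)))
    exact ⟨(⟨(y i : M), h1⟩ : ↥(NC k k' L M (C : Set k'))), rfl⟩

/-- Proof. `exists_finite` for the `e i` and `exists_res_level`; `CS.charts_comp` for `KT C`, `NT C` (`isAlgClosed_KT`, `fg_NT`,
`trdeg_NT`; `‖p‖ < 1`; independence of the values of the `e i` over `KT C ⊆ k'`; for the torsion condition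
the constant of `k'` is replaced by a constant of `k` of the same norm, `h.imm`). -/
theorem exists_level [CompleteSpace k] {p : ℕ} [Fact p.Prime] (hp : ‖(p : k)‖ < 1)
    (h : Lift k k' L M) (hfg : (⊤ : IntermediateField k L).FG) {r m : ℕ} (e : Fin r → M)
    (hne : ∀ i, e i ≠ 0)
    (hind : ∀ (z : Fin r → ℤ) (c : k'), ‖c‖ = ‖∏ i, e i ^ z i‖ → z = 0)
    (htors : ∀ x : M, x ≠ 0 → ∃ n : ℕ, 0 < n ∧ ∃ (z : Fin r → ℤ) (c : k'),
      ‖x‖ ^ n = ‖c‖ * ‖∏ i, e i ^ z i‖)
    (hres : Algebra.trdeg (ResidueField (O k')) (ResidueField (O M)) = (m : Cardinal))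
    {δ : ℕ} (hδ : δ ≤ 1) (htr : Algebra.trdeg k L = ((r + m + δ : ℕ) : Cardinal)) :
    ∃ C : Finset k', PC (KT k k' (C : Set k')) (NT k k' L M (C : Set k')) := by
  classical
  obtain ⟨C₀, hC₀⟩ := exists_res_level h hres
  obtain ⟨C₁, hC₁⟩ := exists_finite h (Finset.univ.image e)
  refine ⟨C₀ ∪ C₁, ?_⟩
  set C : Finset k' := C₀ ∪ C₁ with hC
  have he : ∀ i, e i ∈ NC k k' L M (C : Set k') := fun i =>
    NC_mono (Finset.coe_subset.2 Finset.subset_union_right)
      (hC₁ _ (Finset.mem_image_of_mem _ (Finset.mem_univ i)))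
  have hres' := hC₀ C Finset.subset_union_left
  let e' : Fin r → NT k k' L M (C : Set k') := fun i =>
    (⟨e i, he i⟩ : ↥(NC k k' L M (C : Set k')))
  have hev : ∀ i, NT.val k k' L M (e' i) = e i := fun i => rfl
  have hprod : ∀ z : Fin r → ℤ, ‖∏ i, e' i ^ z i‖ = ‖∏ i, e i ^ z i‖ := by
    intro z
    rw [← NT.norm_val, map_prod]
    simp only [map_zpow₀, hev]
  have hne' : ∀ i, e' i ≠ 0 := by
    intro i h0
    refine hne i ?_
    rw [← hev i, h0, map_zero]
  have hind' : ∀ (z : Fin r → ℤ) (c : KT k k' (C : Set k')),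
      ‖c‖ = ‖∏ i, e' i ^ z i‖ → z = 0 := by
    intro z c hc
    refine hind z (KT.val k k' c) ?_
    rw [KT.norm_val, hc, hprod]
  have htors' : ∀ x : NT k k' L M (C : Set k'), x ≠ 0 → ∃ n : ℕ, 0 < n ∧
      ∃ (z : Fin r → ℤ) (c : KT k k' (C : Set k')), ‖x‖ ^ n = ‖c‖ * ‖∏ i, e' i ^ z i‖ := by
    intro x hx
    have hx' : NT.val k k' L M x ≠ 0 := by
      intro h0
      exact hx ((map_eq_zero (NT.val k k' L M)).1 h0)
    obtain ⟨n, hn, z, c, hc⟩ := htors _ hx'
    have hc0 : c ≠ 0 := by
      rintro rfl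
      rw [norm_zero, zero_mul] at hc
      exact hx' (norm_eq_zero.1 (pow_eq_zero_iff hn.ne' |>.1 hc))
    obtain ⟨b, hb, -⟩ := c4_imm h hc0
    have h1 : ‖KT.ofk (C : Set k') b‖ = ‖b‖ := norm_algebraMap' k' b
    refine ⟨n, hn, z, KT.ofk (C : Set k') b, ?_⟩
    rw [h1, hb, hprod, ← hc, NT.norm_val]
  have hp' : ‖((p : ℕ) : KT k k' (C : Set k'))‖ < 1 := by
    have h1 : ‖KT.ofk (C : Set k') (p : k)‖ = ‖(p : k)‖ := norm_algebraMap' k' (p : k)
    rw [map_natCast] at h1
    rw [h1]
    exact hp
  have := isAlgClosed_KT (k := k) (C : Set k')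
  intro V s hV hc
  exact ⟨_, charts_comp (p := p) hp' (fg_NT h hfg (C : Set k')) e' hne' hind' htors' hres' hδ
    (trdeg_NT h htr (C : Set k')) hV hc⟩

end

end TR
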