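import Pool.Agent.Lib.TR.C2
import Pool.Agent.Lib.TR.C3
import Pool.Agent.Lib.TR.C4
import Pool.Agent.Lib.DS.Un66

/-!
# Module TR.C5: the main theorem
-/

open Polynomial MP1a953e IsLocalRing DA Filter

namespace TR
open Pool.Agent.Lib.MP_3029eb_ag Pool.Agent.Lib.MP_3029eb_ag.Abh CS

section
variable {k k' L M : Type} [NontriviallyNormedField k] [CompleteSpace k]
    [IsUltrametricDist k] [IsAlgClosed k] [NormedField k'] [IsUltrametricDist k']
    [IsAlgClosed k'] [NormedAlgebra k k'] [NormedField L] [IsUltrametricDist L]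
    [NormedAlgebra k L] [NormedField M] [IsUltrametricDist M] [NormedAlgebra k' M]
    [NormedAlgebra L M]

theorem pc_down (h : Lift k k' L M) {n : ℕ} (hn : Algebra.trdeg k L = (n : Cardinal))
    (C : Finset k') (H : PC (KT k k' (C : Set k')) (NT k k' L M (C : Set k'))) : PC k L := by
  classical
  induction C using Finset.induction_on with
  | empty =>
    rw [Finset.coe_empty] at H
    exact pc_empty h hn H
  | insert c C _ ih =>
    rw [Finset.coe_insert] at H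
    by_cases hc : c ∈ KC k k' (C : Set k')
    · exact ih (step_chain' _ hc H)
    · exact ih (step_chain h hn _ hc H)

theorem pc_of_lift {p : ℕ} [Fact p.Prime] (hp : ‖(p : k)‖ < 1)
    (h : Lift k k' L M) (hfg : (⊤ : IntermediateField k L).FG) {r m : ℕ} (e : Fin r → M)
    (hne : ∀ i, e i ≠ 0)
    (hind : ∀ (z : Fin r → ℤ) (c : k'), ‖c‖ = ‖∏ i, e i ^ z i‖ → z = 0)
    (htors : ∀ x : M, x ≠ 0 → ∃ n : ℕ, 0 < n ∧ ∃ (z : Fin r → ℤ) (c : k'),
      ‖x‖ ^ n = ‖c‖ * ‖∏ i, e i ^ z i‖)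
    (hres : Algebra.trdeg (ResidueField (O k')) (ResidueField (O M)) = (m : Cardinal))
    {δ : ℕ} (hδ : δ ≤ 1) (htr : Algebra.trdeg k L = ((r + m + δ : ℕ) : Cardinal)) : PC k L := by
  obtain ⟨C, hC⟩ := exists_level hp h hfg e hne hind htors hres hδ htr
  exact pc_down h htr C hC

end

/-- Charts at the points `(P, V)`, `V` composed of a rank one valuation whose canonical lift has defect at most one and a
composite valuation of its residue field. -/
theorem charts_lift {p : ℕ} [Fact p.Prime] {k k' S T L M : Type} [NontriviallyNormedField k]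
    [CompleteSpace k] [IsUltrametricDist k] [IsAlgClosed k] (hp : ‖(p : k)‖ < 1) [NormedField k']
    [IsUltrametricDist k'] [IsAlgClosed k'] [NormedAlgebra k k'] [CommRing S] [IsDomain S]
    [Algebra k S] (P : Ideal S) [P.IsPrime] [CommRing T] [Algebra k T] [Algebra S T]
    [IsScalarTower k S T] [IsLocalization.AtPrime T P] [Algebra.FormallySmooth k T]
    [NormedField L] [IsUltrametricDist L] [NormedAlgebra k L] [Algebra T L] [IsScalarTower k T L]
    (hL : Function.Surjective (algebraMap T L)) [NormedField M] [IsUltrametricDist M]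
    [NormedAlgebra k' M] [NormedAlgebra L M] (hM : Lift k k' L M) {r m : ℕ} (e : Fin r → M)
    (hne : ∀ i, e i ≠ 0)
    (hind : ∀ (z : Fin r → ℤ) (c : k'), ‖c‖ = ‖∏ i, e i ^ z i‖ → z = 0)
    (htors : ∀ x : M, x ≠ 0 → ∃ n : ℕ, 0 < n ∧ ∃ (z : Fin r → ℤ) (c : k'),
      ‖x‖ ^ n = ‖c‖ * ‖∏ i, e i ^ z i‖)
    (hres : Algebra.trdeg (ResidueField (O k')) (ResidueField (O M)) = ((m : ℕ) : Cardinal))
    {δ : ℕ} (hδ : δ ≤ 1) (htr : Algebra.trdeg k L = ((r + m + δ : ℕ) : Cardinal))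
    {V : ValuationSubring L} {r₂ : ℕ} (hV : CS.VComp k V r₂)
    (hc : ∀ c : k, ‖c‖ ≤ 1 → algebraMap k L c ∈ V) (A : Subalgebra (O k) S) (hA : A.FG)
    (hAS : ∀ x : S, ∃ c : k, c ≠ 0 ∧ c • x ∈ A)
    (hAV : ∀ a ∈ A, algebraMap T L (algebraMap S T a) ∈ V) (E : Finset S)
    (hE : ∀ x ∈ E, x ∉ P) :
    ∃ (d n : ℕ) (f : Fin (n + 1) → S), (∀ i, f i ∈ A) ∧ f 0 ∉ P ∧
      (∃ i, ∃ c : O k, c ≠ 0 ∧ f i = algebraMap (O k) S c) ∧
      (∀ x ∈ DS.chart T A f, algebraMap T L x ∈ V) ∧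
      ∃ ϖ : O k, ϖ ≠ 0 ∧ ‖(ϖ : k)‖ < 1 ∧
        ∃ φ : DS.SS d ϖ →ₐ[O k] ↥(DS.chart T A f), φ.toRingHom.Smooth ∧
        (∀ i, V.valuation (algebraMap T L (φ (DS.SS.x i))) < 1) ∧
        ∀ t ∈ E, DS.MonU (DS.chart T A f) (fun i => (φ (DS.SS.x i) : T)) (algebraMap S T t) := by
  have hft := DS.finiteType_of_model hA fun x => by
    obtain ⟨c, hc, h⟩ := hAS x
    exact ⟨c, hc, by rwa [← Algebra.smul_def]⟩
  obtain ⟨d, hd⟩ := pc_of_lift hp hM (DS.fg_residue P hL) e hne hind htors hres hδ htr V r₂ hV hc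
  exact ⟨d, DS.charts_at' P hL A hA hAS hd (DS.pt_of_le hV.le hc) hAV E hE⟩

end TR
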