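import Pool.Agent.Lib.TR.Defs

/-!
# The chain of extensions of the constants: definitions

`k' / k` is an extension of normed fields, `M` a normed field which contains `k'` and `L`.  For `C ⊆ k'`, `KT k k' C` is the
field of the elements of `k'` which are algebraic over `k(C)`, `NT k k' L M C` is the subfield of `M` generated by `L` and
`KT k k' C`.
-/

open Polynomial MP1a953e IsLocalRing DA Filter

namespace TR
open Pool.Agent.Lib.MP_3029eb_ag Pool.Agent.Lib.MP_3029eb_ag.Abh CS

/-- an isometric homomorphism of normed fields gives the structure of a normed algebra -/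
@[reducible] noncomputable def nalg {A B : Type} [NormedField A] [NormedField B] (f : A →+* B)
    (hf : ∀ x, ‖f x‖ = ‖x‖) : NormedAlgebra A B :=
  { f.toAlgebra with
    norm_smul_le := fun a b => by
      show ‖f a * b‖ ≤ ‖a‖ * ‖b‖
      rw [norm_mul, hf] }

section
variable (k k' L M : Type) [NontriviallyNormedField k] [NormedField k'] [NormedAlgebra k k']
  [NormedField L] [NormedField M] [NormedAlgebra k' M] [NormedAlgebra L M]

/-- the elements of `k'` algebraic over `k(C)` -/
noncomputable def KC (C : Set k') : Subfield k' :=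
  (algebraicClosure (IntermediateField.adjoin k C) k').toSubfield

/-- the subfield of `M` generated by `L` and `KC` -/
noncomputable def NC (C : Set k') : Subfield M :=
  Subfield.closure (Set.range (algebraMap L M) ∪ algebraMap k' M '' (KC k k' C : Set k'))

/-- the elements of `k'` algebraic over `k(C)`, as a type -/
def KT (C : Set k') : Type := ↥(KC k k' C)

/-- the subfield of `M` generated by `L` and `KC`, as a type -/
def NT (C : Set k') : Type := ↥(NC k k' L M C)

noncomputable instance (C : Set k') : NormedField (KT k k' C) :=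
  inferInstanceAs (NormedField ↥(KC k k' C))

noncomputable instance (C : Set k') : NormedField (NT k k' L M C) :=
  inferInstanceAs (NormedField ↥(NC k k' L M C))

/-- the inclusion -/
noncomputable def KT.val {C : Set k'} : KT k k' C →+* k' := (KC k k' C).subtype

/-- the inclusion -/
noncomputable def NT.val {C : Set k'} : NT k k' L M C →+* M := (NC k k' L M C).subtype

variable {k k' L M}

theorem KT.norm_val {C : Set k'} (x : KT k k' C) : ‖KT.val k k' x‖ = ‖x‖ := rfl

theorem NT.norm_val {C : Set k'} (x : NT k k' L M C) : ‖NT.val k k' L M x‖ = ‖x‖ := rfl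

theorem KT.val_mem {C : Set k'} (x : KT k k' C) : KT.val k k' x ∈ KC k k' C := x.2

theorem NT.val_mem {C : Set k'} (x : NT k k' L M C) : NT.val k k' L M x ∈ NC k k' L M C := x.2

theorem mem_KC {C : Set k'} {x : k'} :
    x ∈ KC k k' C ↔ IsAlgebraic (IntermediateField.adjoin k C) x := mem_algebraicClosure_iff

theorem KC_const {C : Set k'} (x : k) : algebraMap k k' x ∈ KC k k' C :=
  mem_KC.2 (isAlgebraic_algebraMap (⟨_, (IntermediateField.adjoin k C).algebraMap_mem x⟩ :
    IntermediateField.adjoin k C))

theorem KC_mono {C D : Set k'} (h : C ⊆ D) : KC k k' C ≤ KC k k' D := by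
  intro x hx
  rw [mem_KC] at hx ⊢
  have h1 : IntermediateField.adjoin k C ≤ IntermediateField.adjoin k D :=
    IntermediateField.adjoin.mono _ _ _ h
  obtain ⟨p, hp, hpx⟩ := hx
  refine ⟨p.map (IntermediateField.inclusion h1).toRingHom, ?_, ?_⟩
  · rw [Polynomial.map_ne_zero_iff (IntermediateField.inclusion h1).toRingHom.injective]
    exact hp
  · rw [Polynomial.aeval_def, Polynomial.eval₂_map]
    exact hpx

theorem NC_mono {C D : Set k'} (h : C ⊆ D) : NC k k' L M C ≤ NC k k' L M D := by
  refine Subfield.closure_mono (Set.union_subset_union_right _ (Set.image_mono ?_))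
  exact KC_mono h

instance (C : Set k') [IsUltrametricDist k'] : IsUltrametricDist (KT k k' C) :=
  ⟨fun x y z => IsUltrametricDist.dist_triangle_max (X := k') (KT.val k k' x) (KT.val k k' y)
    (KT.val k k' z)⟩

instance (C : Set k') [IsUltrametricDist M] : IsUltrametricDist (NT k k' L M C) :=
  ⟨fun x y z => IsUltrametricDist.dist_triangle_max (X := M) (NT.val k k' L M x)
    (NT.val k k' L M y) (NT.val k k' L M z)⟩

/-- `k → KT` -/
noncomputable def KT.ofk (C : Set k') : k →+* KT k k' C :=
  (algebraMap k k').codRestrict (KC k k' C) KC_const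

/-- `L → NT` -/
noncomputable def NT.ofL (C : Set k') : L →+* NT k k' L M C :=
  (algebraMap L M).codRestrict (NC k k' L M C) fun x =>
    Subfield.subset_closure (Or.inl ⟨x, rfl⟩)

/-- `KT → NT` -/
noncomputable def NT.ofK (C : Set k') : KT k k' C →+* NT k k' L M C :=
  ((algebraMap k' M).comp (KT.val k k')).codRestrict (NC k k' L M C) fun x =>
    Subfield.subset_closure (Or.inr ⟨_, KT.val_mem x, rfl⟩)

/-- `KT → KT` -/
noncomputable def KT.incl {C D : Set k'} (h : C ⊆ D) : KT k k' C →+* KT k k' D :=
  (KT.val k k').codRestrict (KC k k' D) fun x => KC_mono h (KT.val_mem x)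

/-- `NT → NT` -/
noncomputable def NT.incl {C D : Set k'} (h : C ⊆ D) : NT k k' L M C →+* NT k k' L M D :=
  (NT.val k k' L M).codRestrict (NC k k' L M D) fun x => NC_mono h (NT.val_mem x)

noncomputable instance (C : Set k') : NormedAlgebra k (KT k k' C) :=
  nalg (KT.ofk C) fun x => norm_algebraMap' k' x

noncomputable instance (C : Set k') : NormedAlgebra L (NT k k' L M C) :=
  nalg (NT.ofL C) fun x => norm_algebraMap' M x

noncomputable instance (C : Set k') : NormedAlgebra (KT k k' C) (NT k k' L M C) :=
  nalg (NT.ofK C) fun x => norm_algebraMap' M (KT.val k k' x)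

noncomputable instance (C : Set k') : NontriviallyNormedField (KT k k' C) :=
  { (inferInstance : NormedField (KT k k' C)) with
    non_trivial := by
      obtain ⟨x, hx⟩ := NormedField.exists_one_lt_norm k
      refine ⟨KT.ofk C x, ?_⟩
      have : ‖KT.ofk C x‖ = ‖x‖ := norm_algebraMap' k' x
      rw [this]
      exact hx }

end

/-- `M` is the canonical lift of the normed extension `L / k` to the immediate extension `k'` of `k`. -/
structure Lift (k k' L M : Type) [NontriviallyNormedField k] [NormedField k'] [NormedAlgebra k k']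
    [NormedField L] [NormedAlgebra k L] [NormedField M] [NormedAlgebra k' M]
    [NormedAlgebra L M] : Prop where
  comm : ∀ x : k, algebraMap k' M (algebraMap k k' x) = algebraMap L M (algebraMap k L x)
  imm : ∀ x : k', x ≠ 0 → ∃ b : k, ‖x - algebraMap k k' b‖ < ‖x‖
  gen : IntermediateField.adjoin k' (Set.range (algebraMap L M)) = ⊤
  orth : ∀ (n : ℕ) (l : Fin n → L) (α : ℝ), 0 < α →
    (∀ (b : Fin n → k) (i : Fin n),
      α * (‖b i‖ * ‖l i‖) ≤ ‖∑ j, algebraMap k L (b j) * l j‖) →
    ∀ (b : Fin n → k') (i : Fin n),
      α * (‖b i‖ * ‖l i‖) ≤ ‖∑ j, algebraMap k' M (b j) * algebraMap L M (l j)‖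

end TR
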