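import Pool.Agent.Lib.TR.Defs

/-!
# Module TR.D2: transcendence degrees in one step
-/

open Polynomial MP1a953e IsLocalRing DA Filter

namespace TR
open Pool.Agent.Lib.MP_3029eb_ag Pool.Agent.Lib.MP_3029eb_ag.Abh CS

section
variable {k k1 L M1 : Type} [NontriviallyNormedField k] [IsUltrametricDist k]
    [IsAlgClosed k] [NormedField k1] [IsUltrametricDist k1] [IsAlgClosed k1] [NormedAlgebra k k1]
    [NormedField L] [IsUltrametricDist L] [NormedAlgebra k L]
    [NormedField M1] [IsUltrametricDist M1] [NormedAlgebra k1 M1] [NormedAlgebra L M1]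
    {c : k1} {a : ℕ → k}

private theorem trdeg_one {F E : Type} [Field F] [Field E] [Algebra F E] (c : E)
    (h1 : Transcendental F c) (h2 : ∀ x : E, IsAlgebraic (IntermediateField.adjoin F {c}) x) :
    Algebra.trdeg F E = 1 := by
  have h3 : Algebra.IsAlgebraic (Algebra.adjoin F {c}) E := by
    rw [← IntermediateField.isAlgebraic_adjoin_iff_top]
    exact ⟨h2⟩
  refine le_antisymm ?_ ?_
  · refine (Algebra.IsAlgebraic.trdeg_le_cardinalMk F {c}).trans ?_
    rw [Cardinal.mk_singleton]
  · rw [Cardinal.one_le_iff_ne_zero, _root_.trdeg_ne_zero_iff]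
    exact ⟨c, h1⟩

private theorem transfer {F E F' E' : Type} [Field F] [Field E] [Algebra F E] [Field F']
    [Field E'] [Algebra F' E'] (g : F →+* F') (f : E →+* E')
    (hc : ∀ x : F, f (algebraMap F E x) = algebraMap F' E' (g x)) (c : E) (x : E)
    (h : IsAlgebraic (IntermediateField.adjoin F {c}) x) :
    IsAlgebraic (IntermediateField.adjoin F' {f c}) (f x) := by
  have hF : ∀ u ∈ IntermediateField.adjoin F {c}, f u ∈ IntermediateField.adjoin F' {f c} := by
    intro u hu
    induction hu using IntermediateField.adjoin_induction with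
    | mem w hw =>
      rw [Set.mem_singleton_iff] at hw
      subst hw
      exact IntermediateField.subset_adjoin _ _ rfl
    | algebraMap w =>
      rw [hc]
      exact (IntermediateField.adjoin F' _).algebraMap_mem _
    | add x y _ _ hx hy => rw [map_add]; exact add_mem hx hy
    | inv x _ hx => rw [map_inv₀]; exact inv_mem hx
    | mul x y _ _ hx hy => rw [map_mul]; exact mul_mem hx hy
  obtain ⟨p, hp, hpl⟩ := h
  let φ : IntermediateField.adjoin F {c} →+* IntermediateField.adjoin F' {f c} :=
    { toFun := fun u => ⟨f (u : E), hF u u.2⟩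
      map_one' := Subtype.ext (map_one _)
      map_mul' := fun _ _ => Subtype.ext (map_mul _ _ _)
      map_zero' := Subtype.ext (map_zero _)
      map_add' := fun _ _ => Subtype.ext (map_add _ _ _) }
  refine ⟨p.map φ, (Polynomial.map_ne_zero_iff φ.injective).2 hp, ?_⟩
  rw [Polynomial.aeval_def, Polynomial.eval₂_map]
  have h2 := congrArg f hpl
  rw [map_zero, Polynomial.aeval_def, Polynomial.hom_eval₂] at h2
  exact h2

/-- Proof. `c` is transcendental over `L` (`h.tr`) and `M1` is algebraic over `L(c)` (generated by `k1`, which is algebraic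
over `k(c)`). -/
theorem trdeg_M1 (h : Step k k1 L M1 c a) : Algebra.trdeg L M1 = 1 := by
  refine trdeg_one (algebraMap k1 M1 c) ?_ fun z => ?_
  · rintro ⟨P, hP, hP0⟩
    exact h.tr P hP hP0
  · have hz : z ∈ IntermediateField.adjoin k1 (Set.range (algebraMap L M1)) := by
      rw [h.gen]
      exact IntermediateField.mem_top
    induction hz using IntermediateField.adjoin_induction with
    | mem w hw =>
      obtain ⟨l, rfl⟩ := hw
      exact isAlgebraic_algebraMap (⟨_, (IntermediateField.adjoin L
        {algebraMap k1 M1 c}).algebraMap_mem l⟩ : IntermediateField.adjoin L {algebraMap k1 M1 c})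
    | algebraMap w =>
      exact transfer (algebraMap k L) (algebraMap k1 M1) h.comm c w (h.alg w)
    | add x y _ _ hx hy => exact hx.add hy
    | inv x _ hx => exact hx.inv
    | mul x y _ _ hx hy => exact hx.mul hy

/-- Proof. `trdeg k M1 = trdeg k L + trdeg L M1 = trdeg k L + 1` and `trdeg k M1 = trdeg k k1 + trdeg k1 M1 = 1 + trdeg k1 M1`
(`c` is transcendental over `k`, `k1` algebraic over `k(c)`) for the algebra structure `k → M1` (`h.comm`), and `trdeg k L`
is finite (`Cardinal` cancellation). -/
theorem trdeg_step (h : Step k k1 L M1 c a) {n : ℕ} (hn : Algebra.trdeg k L = (n : Cardinal)) :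
    Algebra.trdeg k1 M1 = (n : Cardinal) := by
  have h1 : Algebra.trdeg k k1 = 1 := by
    refine trdeg_one c ?_ h.alg
    rintro ⟨P, hP, hP0⟩
    refine h.tr (P.map (algebraMap k L))
      ((Polynomial.map_ne_zero_iff (algebraMap k L).injective).2 hP) ?_
    rw [Polynomial.aeval_def, Polynomial.eval₂_map]
    have h2 := congrArg (algebraMap k1 M1) hP0
    rw [map_zero, Polynomial.aeval_def, Polynomial.hom_eval₂] at h2
    have h3 : (algebraMap L M1).comp (algebraMap k L) = (algebraMap k1 M1).comp (algebraMap k k1) :=
      RingHom.ext fun x => (h.comm x).symm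
    rw [h3]
    exact h2
  let _ : Algebra k M1 := ((algebraMap L M1).comp (algebraMap k L)).toAlgebra
  have t1 : IsScalarTower k L M1 := IsScalarTower.of_algebraMap_eq fun _ => rfl
  have t2 : IsScalarTower k k1 M1 := IsScalarTower.of_algebraMap_eq fun x => (h.comm x).symm
  have h2 := _root_.trdeg_add_eq k L (A := M1)
  have h3 := _root_.trdeg_add_eq k k1 (A := M1)
  rw [hn, trdeg_M1 h, ← h3, h1, add_comm (1 : Cardinal)] at h2
  exact (Cardinal.add_one_inj.1 h2).symm

end

end TR
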