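import Pool.Agent.Lib.DS.Charts
import Pool.Agent.Lib.CS.ToDS

/-!
# Transfer of charts along immediate extensions of the constants: definitions

`k` is a normed field, `L` a normed extension.  `St L` is the ultrapower of `L` with respect to a nonprincipal
ultrafilter `U` on `ℕ`, `St.mk f` the class of the sequence `f`, `St.cst x` the class of a constant sequence, `St.val V` the
ultrapower of the valuation ring `V`, `St.con k L` the subfield of the classes of sequences in `k`.
-/

open Polynomial MP1a953e IsLocalRing DA Filter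

namespace TR
open Pool.Agent.Lib.MP_3029eb_ag Pool.Agent.Lib.MP_3029eb_ag.Abh CS

/-- a nonprincipal ultrafilter on `ℕ` -/
noncomputable def U : Ultrafilter ℕ := Filter.hyperfilter ℕ

/-- the ultrapower of `L` -/
def St (L : Type) : Type := Filter.Germ (U : Filter ℕ) L

section
variable {L : Type} [Field L]

noncomputable instance : Field (St L) := inferInstanceAs (Field (Filter.Germ (U : Filter ℕ) L))

/-- the class of a sequence -/
noncomputable def St.mk : (ℕ → L) →+* St L where
  toFun f := ((f : Filter.Germ (U : Filter ℕ) L) : Filter.Germ (U : Filter ℕ) L)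
  map_one' := rfl
  map_mul' _ _ := rfl
  map_zero' := rfl
  map_add' _ _ := rfl

/-- the class of a constant sequence -/
noncomputable def St.cst : L →+* St L := St.mk.comp (Pi.constRingHom ℕ L)

theorem St.cst_apply (x : L) : St.cst x = St.mk fun _ => x := rfl

theorem St.mk_surjective : Function.Surjective (St.mk : (ℕ → L) →+* St L) :=
  fun x => Filter.Germ.inductionOn x fun f => ⟨f, rfl⟩

theorem St.mk_eq {f g : ℕ → L} : St.mk f = St.mk g ↔ ∀ᶠ j in (U : Filter ℕ), f j = g j :=
  Filter.Germ.coe_eq

theorem St.mk_ne_zero {f : ℕ → L} : St.mk f ≠ 0 ↔ ∀ᶠ j in (U : Filter ℕ), f j ≠ 0 := by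
  have h : (0 : St L) = St.mk (0 : ℕ → L) := (map_zero _).symm
  rw [h, Ne, St.mk_eq, Ultrafilter.eventually_not]
  rfl

/-- `U` is not principal -/
theorem U_le : (U : Filter ℕ) ≤ Filter.atTop := by
  have h := Filter.hyperfilter_le_cofinite (α := ℕ)
  rwa [Nat.cofinite_eq_atTop] at h

theorem ev_of_atTop {p : ℕ → Prop} (h : ∀ᶠ j in Filter.atTop, p j) : ∀ᶠ j in (U : Filter ℕ), p j :=
  U_le h

/-- the ultrapower of the valuation ring `V` -/
noncomputable def St.val (V : ValuationSubring L) : ValuationSubring (St L) where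
  carrier := {x | ∃ f : ℕ → L, (∀ j, f j ∈ V) ∧ St.mk f = x}
  mul_mem' := by
    rintro _ _ ⟨f, hf, rfl⟩ ⟨g, hg, rfl⟩
    exact ⟨f * g, fun j => V.mul_mem _ _ (hf j) (hg j), map_mul _ _ _⟩
  one_mem' := ⟨1, fun _ => V.one_mem, map_one _⟩
  add_mem' := by
    rintro _ _ ⟨f, hf, rfl⟩ ⟨g, hg, rfl⟩
    exact ⟨f + g, fun j => V.add_mem _ _ (hf j) (hg j), map_add _ _ _⟩
  zero_mem' := ⟨0, fun _ => V.zero_mem, map_zero _⟩
  neg_mem' := by
    rintro _ ⟨f, hf, rfl⟩
    exact ⟨-f, fun j => V.neg_mem _ (hf j), map_neg _ _⟩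
  mem_or_inv_mem' := by
    classical
    intro x
    obtain ⟨f, rfl⟩ := St.mk_surjective x
    rcases U.em (fun j => f j ∈ V) with h | h
    · left
      refine ⟨fun j => if f j ∈ V then f j else 0, fun j => ?_, ?_⟩
      · dsimp only
        split_ifs with h1
        · exact h1
        · exact V.zero_mem
      · rw [St.mk_eq]
        exact h.mono fun j hj => if_pos hj
    · right
      refine ⟨fun j => if f j ∈ V then 0 else (f j)⁻¹, fun j => ?_, ?_⟩
      · dsimp only
        split_ifs with h1
        · exact V.zero_mem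
        · exact (V.mem_or_inv_mem (f j)).resolve_left h1
      · have h2 : (St.mk f)⁻¹ = St.mk (fun j => (f j)⁻¹) := by
          have h3 : St.mk f ≠ 0 := by
            rw [St.mk_ne_zero]
            exact h.mono fun j hj h0 => hj (h0 ▸ V.zero_mem)
          refine inv_eq_of_mul_eq_one_right ?_
          rw [← map_mul, ← map_one (St.mk (L := L)), St.mk_eq]
          exact h.mono fun j hj => mul_inv_cancel₀ fun h0 => hj (h0 ▸ V.zero_mem)
        rw [h2, St.mk_eq]
        exact h.mono fun j hj => if_neg hj

/-- the subfield of the classes of sequences in `k` -/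
noncomputable def St.con (k L : Type) [Field k] [Field L] [Algebra k L] : Subfield (St L) where
  carrier := {x | ∃ f : ℕ → k, St.mk (fun j => algebraMap k L (f j)) = x}
  mul_mem' := by
    rintro _ _ ⟨f, rfl⟩ ⟨g, rfl⟩
    exact ⟨f * g, by
      rw [← map_mul]
      congr 1
      funext j
      exact map_mul _ _ _⟩
  one_mem' := ⟨1, by
    rw [← map_one (St.mk (L := L))]
    congr 1
    funext j
    exact map_one _⟩
  add_mem' := by
    rintro _ _ ⟨f, rfl⟩ ⟨g, rfl⟩
    exact ⟨f + g, by
      rw [← map_add]
      congr 1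
      funext j
      exact map_add _ _ _⟩
  zero_mem' := ⟨0, by
    rw [← map_zero (St.mk (L := L))]
    congr 1
    funext j
    exact map_zero _⟩
  neg_mem' := by
    rintro _ ⟨f, rfl⟩
    exact ⟨-f, by
      rw [← map_neg]
      congr 1
      funext j
      exact map_neg _ _⟩
  inv_mem' := by
    rintro _ ⟨f, rfl⟩
    refine ⟨fun j => (f j)⁻¹, ?_⟩
    rcases eq_or_ne (St.mk fun j => algebraMap k L (f j)) 0 with h | h
    · rw [h, inv_zero]
      have h1 : (0 : St L) = St.mk (0 : ℕ → L) := (map_zero _).symm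
      rw [h1, St.mk_eq] at h ⊢
      refine h.mono fun j hj => ?_
      have h2 : f j = 0 := (map_eq_zero (algebraMap k L)).1 hj
      simp only [h2, inv_zero, map_zero, Pi.zero_apply]
    · symm
      refine inv_eq_of_mul_eq_one_right ?_
      rw [← map_mul, ← map_one (St.mk (L := L)), St.mk_eq]
      rw [St.mk_ne_zero] at h
      refine h.mono fun j hj => ?_
      have h2 : f j ≠ 0 := fun h0 => hj (by rw [h0, map_zero])
      show algebraMap k L (f j) * algebraMap k L (f j)⁻¹ = 1
      rw [← map_mul, mul_inv_cancel₀ h2, map_one]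

end

/-- the norms of the members of the class `x` converge to `r` -/
def StN {L : Type} [NormedField L] (x : St L) (r : ℝ) : Prop :=
  ∃ f : ℕ → L, St.mk f = x ∧ Tendsto (fun j => ‖f j‖) (U : Filter ℕ) (nhds r)

section
variable (k L : Type) [NormedField k] [IsUltrametricDist k] [NormedField L]
  [IsUltrametricDist L] [NormedAlgebra k L]

/-- all composite valuation rings of `L` have charts -/
def PC : Prop :=
  ∀ (V : ValuationSubring L) (s : ℕ), CS.VComp k V s → (∀ c : k, ‖c‖ ≤ 1 → algebraMap k L c ∈ V) →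
    ∃ d, DS.Charts k V d

end

/-- The homomorphism `Φ` of `M1` into the ultrapower of `L`: `k1` is an immediate extension of `k`, `Φ` is constant on
`L`, the elements of `k1` are classes of sequences in `k` with the same norm, the norm of `M1` is the limit of the
norms, `Φ z` in the ultrapower of `V` is congruent to an element of `V`, `M1` is generated by `k1` and `L`, the
residual transcendence degree increases by at most one, and the transcendence degree is the same. -/
structure TrData (k k1 L M1 : Type) [NontriviallyNormedField k] [IsUltrametricDist k]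
    [NormedField k1] [IsUltrametricDist k1] [NormedAlgebra k k1]
    [NormedField L] [IsUltrametricDist L] [NormedAlgebra k L]
    [NormedField M1] [IsUltrametricDist M1] [NormedAlgebra k1 M1] [NormedAlgebra L M1]
    (Φ : M1 →+* St L) : Prop where
  comm : ∀ x : k, algebraMap k1 M1 (algebraMap k k1 x) = algebraMap L M1 (algebraMap k L x)
  imm : ∀ x : k1, x ≠ 0 → ∃ b : k, ‖x - algebraMap k k1 b‖ < ‖x‖
  cst : ∀ l : L, Φ (algebraMap L M1 l) = St.cst l
  con : ∀ x : k1, ∃ b : ℕ → k, (∀ j, ‖b j‖ = ‖x‖) ∧
    Φ (algebraMap k1 M1 x) = St.mk fun j => algebraMap k L (b j)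
  nrm : ∀ x : M1, StN (Φ x) ‖x‖
  res : ∀ V : ValuationSubring L, V ≤ ball L → ∀ z : M1, Φ z ∈ St.val V →
    ∃ l ∈ V, (St.val V).valuation (Φ z - St.cst l) < 1
  gen : IntermediateField.adjoin k1 (Set.range (algebraMap L M1)) = ⊤
  dep : ∀ m, RDep k L m → RDep k1 M1 (m + 1)
  trd : Algebra.trdeg k1 M1 = Algebra.trdeg k L

/-- a multiplicative ultrametric norm on the field `N` -/
structure Nrm {N : Type} [Field N] (f : N → ℝ) : Prop where
  zero : f 0 = 0
  pos : ∀ x, x ≠ 0 → 0 < f x
  mul : ∀ x y, f (x * y) = f x * f y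
  add : ∀ x y, f (x + y) ≤ max (f x) (f y)

/-- The homomorphism `Φ` of one step. -/
structure IsPhi {k k1 L M1 : Type} [NormedField k] [NormedField k1] [NormedField L]
    [NormedAlgebra k L] [NormedField M1] [NormedAlgebra k1 M1] [NormedAlgebra L M1]
    (c : k1) (a : ℕ → k) (Φ : M1 →+* St L) : Prop where
  cst : ∀ l : L, Φ (algebraMap L M1 l) = St.cst l
  c : Φ (algebraMap k1 M1 c) = St.mk fun j => algebraMap k L (a j)
  con : ∀ x : k1, Φ (algebraMap k1 M1 x) ∈ St.con k L
  nrm : ∀ x : M1, StN (Φ x) ‖x‖

/-- the ring of constants of norm `≤ 1` adjoined the `x i` and the `v i` -/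
noncomputable def CR0 (k : Type) {L : Type} [NormedField k] [IsUltrametricDist k] [Field L]
    [Algebra k L] {d q : ℕ} (x : Fin (d + 1) → L) (v : Fin q → L) : Subalgebra (O k) L :=
  Algebra.adjoin (O k) (Set.range x ∪ Set.range v)

/-- the ring of the chart -/
noncomputable def CR (k : Type) {L : Type} [NormedField k] [IsUltrametricDist k] [Field L]
    [Algebra k L] {d q : ℕ} (x : Fin (d + 1) → L) (v : Fin q → L) (a s : L) :
    Subalgebra (O k) L :=
  Algebra.adjoin (O k) (Set.range x ∪ Set.range v ∪ {a, s⁻¹})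

/-- Data of a chart: `CR k x v a s` is standard etale over the polynomial ring in the `v i` over the semistable
model ring with coordinates `x i`. -/
structure CD (k : Type) {L : Type} [NormedField k] [IsUltrametricDist k] [Field L]
    [Algebra k L] (V : ValuationSubring L) {d q : ℕ} (ϖ : O k) (x : Fin (d + 1) → L)
    (v : Fin q → L) (a s : L) : Prop where
  ne : ϖ ≠ 0
  norm : ‖(ϖ : k)‖ < 1
  prod : ∏ i, x i = algebraMap k L (ϖ : k)
  lt : ∀ i, V.valuation (x i) < 1
  vmem : ∀ i, v i ∈ V
  amem : a ∈ V
  sval : V.valuation s = 1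
  eqn : ∃ f : Polynomial ↥(CR0 k x v), f.Monic ∧ aeval a f = 0 ∧
    ∃ t ∈ Algebra.adjoin (O k) (Set.range x ∪ Set.range v ∪ {a}),
      s = aeval a (derivative f) * t

/-- The data of one step: `k1` is an algebraically closed immediate extension of `k`, `c` an element of `k1`
such that `k1` is algebraic over `k(c)`, `M1` is generated by `k1` and `L`, `c` is transcendental over `L`, `a j` is
a sequence in `k` with limit `c` (in the sense of pseudo convergence), and the norms of the values of a polynomial
over `L` at `a j` converge to the norm of its value at `c`. -/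
structure Step (k k1 L M1 : Type) [NontriviallyNormedField k] [IsUltrametricDist k] [IsAlgClosed k]
    [NormedField k1] [IsUltrametricDist k1] [IsAlgClosed k1] [NormedAlgebra k k1]
    [NormedField L] [IsUltrametricDist L] [NormedAlgebra k L]
    [NormedField M1] [IsUltrametricDist M1] [NormedAlgebra k1 M1] [NormedAlgebra L M1]
    (c : k1) (a : ℕ → k) : Prop where
  comm : ∀ x : k, algebraMap k1 M1 (algebraMap k k1 x) = algebraMap L M1 (algebraMap k L x)
  imm : ∀ x : k1, x ≠ 0 → ∃ b : k, ‖x - algebraMap k k1 b‖ < ‖x‖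
  alg : ∀ x : k1, IsAlgebraic (IntermediateField.adjoin k {c}) x
  gen : IntermediateField.adjoin k1 (Set.range (algebraMap L M1)) = ⊤
  anti : ∀ j, ‖c - algebraMap k k1 (a (j + 1))‖ < ‖c - algebraMap k k1 (a j)‖
  lim : ∀ b : k, ∃ j, ‖c - algebraMap k k1 (a j)‖ < ‖c - algebraMap k k1 b‖
  tr : ∀ P : L[X], P ≠ 0 → aeval (algebraMap k1 M1 c) P ≠ 0
  fs : ∀ P : L[X], Tendsto (fun j => ‖P.eval (algebraMap k L (a j))‖) atTop
    (nhds ‖aeval (algebraMap k1 M1 c) P‖)

end TR
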