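import Pool.Agent.Lib.TR.E1

/-!
# Module TR.E2: limits of norms of algebraic elements
-/

open Polynomial MP1a953e IsLocalRing DA Filter

namespace TR
open Pool.Agent.Lib.MP_3029eb_ag Pool.Agent.Lib.MP_3029eb_ag.Abh CS

private theorem aux_root_bound {L : Type} [NormedField L] [IsUltrametricDist L] {n : ℕ}
    (hn : 0 < n) {γ : ℕ → L} {y : L} {B : ℝ} (hB : 1 ≤ B)
    (h1 : ∀ i ∈ Finset.range n, ‖γ i‖ ≤ B) (hn1 : γ n = 1)
    (h0 : ∑ i ∈ Finset.range (n + 1), γ i * y ^ i = 0) : ‖y‖ ≤ B := by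
  by_contra hlt
  rw [not_le] at hlt
  have hy1 : 1 ≤ ‖y‖ := hB.trans hlt.le
  have hy0 : 0 < ‖y‖ := one_pos.trans_le hy1
  rw [Finset.sum_range_succ, hn1, one_mul] at h0
  have h2 : ‖∑ i ∈ Finset.range n, γ i * y ^ i‖ ≤ B * ‖y‖ ^ (n - 1) := by
    refine IsUltrametricDist.norm_sum_le_of_forall_le_of_nonneg
      (mul_nonneg (zero_le_one.trans hB) (pow_nonneg (norm_nonneg _) _)) fun i hi => ?_
    rw [norm_mul, norm_pow]
    exact mul_le_mul (h1 i hi)
      (pow_le_pow_right₀ hy1 (Nat.le_sub_one_of_lt (Finset.mem_range.1 hi)))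
      (pow_nonneg (norm_nonneg _) _) (zero_le_one.trans hB)
  have h3 : y ^ n = -∑ i ∈ Finset.range n, γ i * y ^ i := by
    rw [eq_neg_iff_add_eq_zero, add_comm]
    exact h0
  have h4 : ‖y‖ ^ n ≤ B * ‖y‖ ^ (n - 1) := by
    rw [← norm_pow, h3, norm_neg]
    exact h2
  have h5 : ‖y‖ ^ n = ‖y‖ * ‖y‖ ^ (n - 1) := by
    rw [← pow_succ', Nat.sub_add_cancel hn]
  rw [h5] at h4
  exact absurd (le_of_mul_le_mul_right h4 (pow_pos hy0 _)) (not_le.2 hlt)

/-- Proof. Let `∑ i ≤ n, c i * x ^ i = 0`, `c n = 1`, `c 0 ≠ 0` (the minimal polynomial), `n ≥ 1`, and let `x = St.mk f`. If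
`StN (c i) (R i)` then `R i ≤ B`, `1 ≤ B`, so for almost all `j` the members of `c i` have norm `≤ B + 1` and `‖f j‖ ≤ B + 1`
(otherwise `f j ^ n` is the term of largest norm). So `x` has a limit `r` (`exists_StN`). If `r = 0` then
`c 0 = - ∑ i ≥ 1, c i x ^ i` has limit `0`, a contradiction to `StN.unique` (`StN.exists_sum`, `StN.mul`). -/
theorem exists_StN_of_algebraic {L : Type} [NormedField L] [IsUltrametricDist L]
    (F : Subfield (St L)) (hF : ∀ x ∈ F, x ≠ 0 → ∃ r, 0 < r ∧ StN x r) {x : St L}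
    (hx : IsAlgebraic F x) (hx0 : x ≠ 0) : ∃ r, 0 < r ∧ StN x r := by
  have hint : IsIntegral F x := hx.isIntegral
  set p := minpoly F x with hp
  have hmon : p.Monic := minpoly.monic hint
  have hn : 0 < p.natDegree := minpoly.natDegree_pos hint
  set n := p.natDegree with hndef
  have hc0 : p.coeff 0 ≠ 0 := minpoly.coeff_zero_ne_zero hint hx0
  have hsum : ∑ i ∈ Finset.range (n + 1), ((p.coeff i : F) : St L) * x ^ i = 0 := by
    have h1 : aeval x p = 0 := minpoly.aeval F x
    rw [aeval_eq_sum_range] at h1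
    rw [← h1]
    refine Finset.sum_congr rfl fun i _ => ?_
    rw [Algebra.smul_def]
    rfl
  have hR : ∀ i, ∃ R, StN ((p.coeff i : F) : St L) R := by
    intro i
    rcases eq_or_ne ((p.coeff i : F) : St L) 0 with h | h
    · exact ⟨0, by rw [h]; exact StN.zero⟩
    · obtain ⟨R, -, hR⟩ := hF _ (p.coeff i).2 h
      exact ⟨R, hR⟩
  choose R hR using hR
  have hγ : ∀ i, ∃ g : ℕ → L, St.mk g = ((p.coeff i : F) : St L) :=
    fun i => St.mk_surjective _
  choose γ hγ using hγ
  obtain ⟨f, hf⟩ := St.mk_surjective x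
  -- existence of the limit
  have hex : ∃ r, StN x r := by
    rw [← hf]
    refine exists_StN (B := 1 + ∑ i ∈ Finset.range n, R i) ?_
    have e1 : ∀ᶠ j in (U : Filter ℕ), ∀ i ∈ Finset.range n,
        ‖γ i j‖ ≤ 1 + ∑ i ∈ Finset.range n, R i := by
      rw [Filter.eventually_all_finset]
      intro i hi
      have h1 : Tendsto (fun j => ‖γ i j‖) (U : Filter ℕ) (nhds (R i)) := by
        rw [← StN.mk_iff, hγ i]
        exact hR i
      have h2 : R i < 1 + ∑ i ∈ Finset.range n, R i := by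
        have h3 : R i ≤ ∑ i ∈ Finset.range n, R i :=
          Finset.single_le_sum (f := R) (fun k _ => (hR k).nonneg) hi
        linarith
      exact (h1.eventually (gt_mem_nhds h2)).mono fun j hj => hj.le
    have e2 : ∀ᶠ j in (U : Filter ℕ),
        ∑ i ∈ Finset.range (n + 1), γ i j * f j ^ i = 0 := by
      have h1 : St.mk (∑ i ∈ Finset.range (n + 1), γ i * f ^ i) = St.mk (0 : ℕ → L) := by
        rw [map_sum, map_zero, ← hsum]
        refine Finset.sum_congr rfl fun i _ => ?_
        rw [map_mul, map_pow, hγ i, hf]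
      rw [St.mk_eq] at h1
      refine h1.mono fun j hj => ?_
      rw [Finset.sum_apply] at hj
      exact hj
    have e3 : ∀ᶠ j in (U : Filter ℕ), γ n j = 1 := by
      have h1 : St.mk (γ n) = St.mk (1 : ℕ → L) := by
        rw [hγ n, map_one, hndef, hmon.coeff_natDegree]
        rfl
      rw [St.mk_eq] at h1
      exact h1
    filter_upwards [e1, e2, e3] with j h1 h2 h3
    have hB : 1 ≤ 1 + ∑ i ∈ Finset.range n, R i := by
      have h4 : 0 ≤ ∑ i ∈ Finset.range n, R i := Finset.sum_nonneg fun k _ => (hR k).nonneg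
      linarith
    exact aux_root_bound hn (γ := fun i => γ i j) hB h1 h3 h2
  obtain ⟨r, hr⟩ := hex
  rcases hr.nonneg.lt_or_eq with hpos | hzero
  · exact ⟨r, hpos, hr⟩
  · exfalso
    rw [← hzero] at hr
    -- all terms with positive index have limit zero
    have hpow : ∀ i : ℕ, ∃ t, StN (x ^ i) t := by
      intro i
      induction i with
      | zero =>
        have h3 := StN.cst (1 : L)
        rw [map_one] at h3
        exact ⟨_, by rw [pow_zero]; exact h3⟩
      | succ i ih =>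
        obtain ⟨t, ht⟩ := ih
        exact ⟨t * 0, by rw [pow_succ]; exact ht.mul hr⟩
    have hterm : ∀ i ∈ Finset.range n,
        StN (((p.coeff (i + 1) : F) : St L) * x ^ i * x) ((fun _ => (0 : ℝ)) i) := by
      intro i _
      obtain ⟨t, ht⟩ := hpow i
      have h4 := ((hR (i + 1)).mul ht).mul hr
      rwa [mul_zero] at h4
    obtain ⟨t, ht0, ht⟩ := StN.exists_sum (Finset.range n) (le_refl (0 : ℝ)) hterm
      fun i _ => le_refl _
    rw [Finset.sum_range_succ', pow_zero, mul_one] at hsum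
    have h5 : ((p.coeff 0 : F) : St L) =
        St.cst (-1 : L) * ∑ i ∈ Finset.range n, ((p.coeff (i + 1) : F) : St L) * x ^ i * x := by
      rw [map_neg, map_one, neg_one_mul, eq_neg_iff_add_eq_zero, add_comm, ← hsum]
      congr 1
      refine Finset.sum_congr rfl fun i _ => ?_
      rw [pow_succ, mul_assoc]
    have h6 : ((p.coeff 0 : F) : St L) ≠ 0 := fun h => hc0 (Subtype.ext h)
    obtain ⟨r0, hr0, hr0'⟩ := hF _ (p.coeff 0).2 h6
    rw [h5] at hr0'
    have h7 := (StN.cst (-1 : L)).mul ht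
    have h8 := hr0'.unique h7
    rw [norm_neg, norm_one, one_mul] at h8
    linarith

end TR
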