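import Pool.Agent.Lib.TR.E1

/-!
# Module TR.E3: the embedding of `L(c)` in the ultrapower
-/

open Polynomial MP1a953e IsLocalRing DA Filter

namespace TR
open Pool.Agent.Lib.MP_3029eb_ag Pool.Agent.Lib.MP_3029eb_ag.Abh CS

private theorem aux_eval₂_mk {L : Type} [Field L] (P : L[X]) (f : ℕ → L) :
    eval₂ St.cst (St.mk f) P = St.mk fun j => P.eval (f j) := by
  rw [eval₂_eq_sum_range]
  have h1 : ∀ i ∈ Finset.range (P.natDegree + 1),
      St.cst (P.coeff i) * (St.mk f) ^ i = St.mk (fun j => P.coeff i * f j ^ i) := by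
    intro i _
    rw [St.cst_apply, ← map_pow, ← map_mul]
    rfl
  rw [Finset.sum_congr rfl h1, ← map_sum]
  congr 1
  funext j
  rw [Finset.sum_apply, eval_eq_sum_range]

/-- Proof. `g P = P(c*)`, `c* = St.mk fun j => algebraMap k L (a j)`, is a homomorphism `L[X] → St L` and
`StN (g P) ‖aeval c P‖` by `h.fs` (`St.mk` of `j ↦ P.eval (a j)`; `U_le`). Every element of `F = L(c)` is a fraction
`aeval c P / aeval c Q`, `Q ≠ 0` (`IntermediateField.mem_adjoin_simple_iff`), and `aeval c` is injective (`h.tr`), so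
`F` is the fraction field of `L[X]` (`Algebra L[X] F` by `aeval`; `IsFractionRing`, `IsFractionRing.lift` for
`g`, which is injective because `‖aeval c P‖ ≠ 0`). -/
theorem exists_phi0 {k k1 L M1 : Type} [NontriviallyNormedField k] [IsUltrametricDist k]
    [IsAlgClosed k] [NormedField k1] [IsUltrametricDist k1] [IsAlgClosed k1] [NormedAlgebra k k1]
    [NormedField L] [IsUltrametricDist L] [NormedAlgebra k L]
    [NormedField M1] [IsUltrametricDist M1] [NormedAlgebra k1 M1] [NormedAlgebra L M1]
    {c : k1} {a : ℕ → k} (h : Step k k1 L M1 c a) :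
    ∃ φ : ↥(IntermediateField.adjoin L {algebraMap k1 M1 c}) →+* St L,
      (∀ l : L, φ (algebraMap L _ l) = St.cst l) ∧
      φ ⟨algebraMap k1 M1 c, IntermediateField.mem_adjoin_simple_self L _⟩ =
        St.mk (fun j => algebraMap k L (a j)) ∧
      ∀ x, StN (φ x) ‖(x : M1)‖ := by
  -- the generator
  let c' : ↥(IntermediateField.adjoin L {algebraMap k1 M1 c}) :=
    ⟨algebraMap k1 M1 c, IntermediateField.mem_adjoin_simple_self L _⟩
  let g : L[X] →+* St L := eval₂RingHom St.cst (St.mk fun j => algebraMap k L (a j))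
  have hg : ∀ P : L[X], g P = St.mk fun j => P.eval (algebraMap k L (a j)) :=
    fun P => aux_eval₂_mk P _
  have hgN : ∀ P : L[X], StN (g P) ‖aeval (algebraMap k1 M1 c) P‖ := by
    intro P
    rw [hg P, StN.mk_iff]
    exact (h.fs P).mono_left U_le
  have hginj : Function.Injective g := by
    rw [injective_iff_map_eq_zero]
    intro P hP
    by_contra hP0
    have h1 := hgN P
    rw [hP] at h1
    exact h.tr P hP0 (norm_eq_zero.1 (StN.zero.unique h1).symm)
  let alg : Algebra L[X] ↥(IntermediateField.adjoin L {algebraMap k1 M1 c}) :=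
    (aeval c').toRingHom.toAlgebra
  have halg : ∀ P : L[X],
      algebraMap L[X] ↥(IntermediateField.adjoin L {algebraMap k1 M1 c}) P = aeval c' P :=
    fun _ => rfl
  have hcoe : ∀ P : L[X],
      ((aeval c' P : ↥(IntermediateField.adjoin L {algebraMap k1 M1 c})) : M1) =
        aeval (algebraMap k1 M1 c) P := fun P =>
    (aeval_algHom_apply (IntermediateField.adjoin L {algebraMap k1 M1 c}).val c' P).symm
  have hinj : Function.Injective
      (algebraMap L[X] ↥(IntermediateField.adjoin L {algebraMap k1 M1 c})) := by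
    rw [injective_iff_map_eq_zero]
    intro P hP
    by_contra hP0
    refine h.tr P hP0 ?_
    rw [← hcoe, ← halg, hP]
    rfl
  have : FaithfulSMul L[X] ↥(IntermediateField.adjoin L {algebraMap k1 M1 c}) :=
    (faithfulSMul_iff_algebraMap_injective _ _).2 hinj
  have hsurj : ∀ z : ↥(IntermediateField.adjoin L {algebraMap k1 M1 c}), ∃ P Q : L[X],
      z = algebraMap _ _ P / algebraMap _ _ Q := by
    intro z
    obtain ⟨P, Q, hPQ⟩ := (IntermediateField.mem_adjoin_simple_iff L _).1 z.2
    refine ⟨P, Q, Subtype.ext ?_⟩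
    rw [halg, halg, hPQ, ← hcoe, ← hcoe]
    rfl
  have : IsFractionRing L[X] ↥(IntermediateField.adjoin L {algebraMap k1 M1 c}) :=
    IsFractionRing.of_field _ _ hsurj
  refine ⟨IsFractionRing.lift hginj, fun l => ?_, ?_, fun x => ?_⟩
  · have h1 : algebraMap L ↥(IntermediateField.adjoin L {algebraMap k1 M1 c}) l =
        algebraMap L[X] _ (C l) := by
      rw [halg, aeval_C]
    rw [h1, IsFractionRing.lift_algebraMap]
    exact eval₂_C _ _
  · have h1 : (⟨algebraMap k1 M1 c, IntermediateField.mem_adjoin_simple_self L _⟩ :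
        ↥(IntermediateField.adjoin L {algebraMap k1 M1 c})) = algebraMap L[X] _ X := by
      rw [halg, aeval_X]
    rw [h1, IsFractionRing.lift_algebraMap]
    exact eval₂_X _ _
  · obtain ⟨P, Q, rfl⟩ := hsurj x
    rcases eq_or_ne Q 0 with rfl | hQ
    · rw [map_zero, div_zero, map_zero, ZeroMemClass.coe_zero, norm_zero]
      exact StN.zero
    · have hQ0 : 0 < ‖aeval (algebraMap k1 M1 c) Q‖ := norm_pos_iff.2 (h.tr Q hQ)
      have h2 := (hgN P).mul ((hgN Q).inv hQ0)
      rw [map_div₀, IsFractionRing.lift_algebraMap, IsFractionRing.lift_algebraMap,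
        div_eq_mul_inv]
      have h3 : ‖((algebraMap L[X] ↥(IntermediateField.adjoin L {algebraMap k1 M1 c}) P /
          algebraMap L[X] _ Q :
            ↥(IntermediateField.adjoin L {algebraMap k1 M1 c})) : M1)‖ =
          ‖aeval (algebraMap k1 M1 c) P‖ * ‖aeval (algebraMap k1 M1 c) Q‖⁻¹ := by
        rw [halg, halg, ← hcoe, ← hcoe, ← norm_inv, ← norm_mul, ← div_eq_mul_inv]
        rfl
      rw [h3]
      exact h2

end TR
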