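import Pool.Agent.Lib.TR.Defs

/-!
# Module TR.G3: the ultrapower of an algebraically closed field is algebraically closed
-/

open Polynomial MP1a953e IsLocalRing DA Filter

namespace TR
open Pool.Agent.Lib.MP_3029eb_ag Pool.Agent.Lib.MP_3029eb_ag.Abh CS

/-- Proof. `IsAlgClosed.of_exists_root`: a monic (irreducible) polynomial `X ^ n + ∑ i < n, c i X ^ i`, `n ≥ 1`, over
`St.con k L`; let `c i` be the class of the sequence `b i j` in `k`. For all `j` the polynomial
`X ^ n + ∑ i < n, b i j X ^ i` has a root `t j` in `k`; the class of `t` is a root. -/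
theorem isAlgClosed_con (k L : Type) [Field k] [IsAlgClosed k] [Field L] [Algebra k L] :
    IsAlgClosed (St.con k L) := by
  refine IsAlgClosed.of_exists_root _ fun p hmon hirr => ?_
  have hn : 0 < p.natDegree := hirr.natDegree_pos
  set n := p.natDegree with hndef
  have hb : ∀ i, ∃ b : ℕ → k, St.mk (fun j => algebraMap k L (b j)) = (p.coeff i : St L) :=
    fun i => (p.coeff i).2
  choose b hb using hb
  have hroot : ∀ j : ℕ, ∃ t : k, t ^ n + ∑ i : Fin n, b i j * t ^ (i : ℕ) = 0 := by
    intro j
    have hdeg : degree (X ^ n + ∑ i : Fin n, C (b i j) * X ^ (i : ℕ)) ≠ 0 := by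
      have hlt : degree (∑ i : Fin n, C (b i j) * X ^ (i : ℕ)) < (n : WithBot ℕ) :=
        degree_sum_fin_lt fun i : Fin n => b i j
      rw [degree_add_eq_left_of_degree_lt (by rwa [degree_X_pow]), degree_X_pow]
      exact_mod_cast hn.ne'
    obtain ⟨t, ht⟩ := IsAlgClosed.exists_root _ hdeg
    refine ⟨t, ?_⟩
    rw [IsRoot.def, eval_add, eval_pow, eval_X, eval_finsetSum] at ht
    rw [← ht]
    congr 1
    refine Finset.sum_congr rfl fun i _ => ?_
    rw [eval_mul, eval_C, eval_pow, eval_X]
  choose t ht using hroot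
  refine ⟨⟨St.mk fun j => algebraMap k L (t j), ⟨t, rfl⟩⟩, ?_⟩
  refine Subtype.ext ?_
  have hcoe : ∀ z : St.con k L, ((p.eval z : St.con k L) : St L) =
      ∑ i ∈ Finset.range (n + 1), (p.coeff i : St L) * (z : St L) ^ i := by
    intro z
    rw [eval_eq_sum_range, ← Subfield.subtype_apply, map_sum]
    refine Finset.sum_congr rfl fun i _ => ?_
    rw [map_mul, map_pow]
    rfl
  rw [hcoe]
  show ∑ i ∈ Finset.range (n + 1), (p.coeff i : St L) *
    (St.mk fun j => algebraMap k L (t j)) ^ i = 0
  have hlead : (p.coeff n : St L) = 1 := by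
    rw [hndef, hmon.coeff_natDegree]
    rfl
  rw [Finset.sum_range_succ, hlead, one_mul, ← map_zero (St.mk (L := L))]
  have h1 : ∀ i ∈ Finset.range n, (p.coeff i : St L) *
      (St.mk fun j => algebraMap k L (t j)) ^ i =
        St.mk (fun j => algebraMap k L (b i j * t j ^ i)) := by
    intro i _
    rw [← hb i, ← map_pow, ← map_mul]
    congr 1
    funext j
    show algebraMap k L (b i j) * (algebraMap k L (t j)) ^ i = _
    rw [map_mul, map_pow]
  rw [Finset.sum_congr rfl h1, ← map_sum, ← map_pow, ← map_add]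
  congr 1
  funext j
  have h2 := congrArg (algebraMap k L) (ht j)
  rw [map_zero, map_add, map_pow, map_sum, ← Finset.sum_range
    (fun i => algebraMap k L (b i j * t j ^ i))] at h2
  rw [Pi.add_apply, Finset.sum_apply, Pi.pow_apply, Pi.zero_apply, ← h2, add_comm]

end TR
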