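import Pool.Agent.Lib.TR.E2
import Pool.Agent.Lib.TR.E3
import Pool.Agent.Lib.TR.G3

/-!
# Module TR.E4: the embedding of `M1` in the ultrapower, not isometric
-/

open Polynomial MP1a953e IsLocalRing DA Filter

namespace TR
open Pool.Agent.Lib.MP_3029eb_ag Pool.Agent.Lib.MP_3029eb_ag.Abh CS

private theorem e4_top {k k1 L M1 : Type} [NontriviallyNormedField k] [IsUltrametricDist k]
    [IsAlgClosed k] [NormedField k1] [IsUltrametricDist k1] [IsAlgClosed k1] [NormedAlgebra k k1]
    [NormedField L] [IsUltrametricDist L] [NormedAlgebra k L]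
    [NormedField M1] [IsUltrametricDist M1] [NormedAlgebra k1 M1] [NormedAlgebra L M1]
    {c : k1} {a : ℕ → k} (h : Step k k1 L M1 c a)
    (T : Subfield M1) (h1 : ∀ x : k1, algebraMap k1 M1 x ∈ T)
    (h2 : ∀ l : L, algebraMap L M1 l ∈ T) (x : M1) : x ∈ T := by
  have h3 : (IntermediateField.adjoin k1 (Set.range (algebraMap L M1))).toSubfield ≤ T := by
    refine IntermediateField.adjoin_le_subfield k1 _ ?_ ?_
    · rintro _ ⟨y, rfl⟩
      exact h1 y
    · rintro _ ⟨y, rfl⟩
      exact h2 y
  apply h3
  rw [h.gen]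
  exact trivial

private theorem e4_mem {k k1 L M1 : Type} [NontriviallyNormedField k] [IsUltrametricDist k]
    [IsAlgClosed k] [NormedField k1] [IsUltrametricDist k1] [IsAlgClosed k1] [NormedAlgebra k k1]
    [NormedField L] [IsUltrametricDist L] [NormedAlgebra k L]
    [NormedField M1] [IsUltrametricDist M1] [NormedAlgebra k1 M1] [NormedAlgebra L M1]
    {c : k1} {a : ℕ → k} (h : Step k k1 L M1 c a)
    (T : Subfield M1) (h1 : ∀ x : k, algebraMap L M1 (algebraMap k L x) ∈ T)
    (h2 : algebraMap k1 M1 c ∈ T) (z : ↥(IntermediateField.adjoin k {c})) :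
    algebraMap k1 M1 (z : k1) ∈ T := by
  have h3 : (IntermediateField.adjoin k {c}).toSubfield ≤ T.comap (algebraMap k1 M1) := by
    refine IntermediateField.adjoin_le_subfield k _ ?_ ?_
    · rintro _ ⟨y, rfl⟩
      show algebraMap k1 M1 (algebraMap k k1 y) ∈ T
      rw [h.comm]
      exact h1 y
    · rintro _ rfl
      exact h2
  exact h3 z.2

private theorem e4_iota {k k1 L M1 : Type} [NontriviallyNormedField k] [IsUltrametricDist k]
    [IsAlgClosed k] [NormedField k1] [IsUltrametricDist k1] [IsAlgClosed k1] [NormedAlgebra k k1]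
    [NormedField L] [IsUltrametricDist L] [NormedAlgebra k L]
    [NormedField M1] [IsUltrametricDist M1] [NormedAlgebra k1 M1] [NormedAlgebra L M1]
    {c : k1} {a : ℕ → k} (h : Step k k1 L M1 c a) :
    ∃ ι : ↥(IntermediateField.adjoin k {c}) →+*
      ↥(IntermediateField.adjoin L {algebraMap k1 M1 c}),
      ∀ z, ((ι z : ↥(IntermediateField.adjoin L {algebraMap k1 M1 c})) : M1) =
        algebraMap k1 M1 (z : k1) := by
  have h1 : ∀ z : ↥(IntermediateField.adjoin k {c}), algebraMap k1 M1 (z : k1) ∈
      IntermediateField.adjoin L {algebraMap k1 M1 c} := fun z =>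
    e4_mem h (IntermediateField.adjoin L {algebraMap k1 M1 c}).toSubfield
      (fun x => (IntermediateField.adjoin L {algebraMap k1 M1 c}).algebraMap_mem _)
      (IntermediateField.mem_adjoin_simple_self L _) z
  exact ⟨RingHom.codRestrict ((algebraMap k1 M1).comp
    (algebraMap ↥(IntermediateField.adjoin k {c}) k1))
    (IntermediateField.adjoin L {algebraMap k1 M1 c}) h1, fun z => rfl⟩

private theorem e4_normal {k k1 L M1 : Type} [NontriviallyNormedField k] [IsUltrametricDist k]
    [IsAlgClosed k] [NormedField k1] [IsUltrametricDist k1] [IsAlgClosed k1] [NormedAlgebra k k1]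
    [NormedField L] [IsUltrametricDist L] [NormedAlgebra k L]
    [NormedField M1] [IsUltrametricDist M1] [NormedAlgebra k1 M1] [NormedAlgebra L M1]
    {c : k1} {a : ℕ → k} (h : Step k k1 L M1 c a) :
    Normal ↥(IntermediateField.adjoin L {algebraMap k1 M1 c}) M1 := by
  obtain ⟨ι, hι⟩ := e4_iota h
  have hcomp : (algebraMap ↥(IntermediateField.adjoin L {algebraMap k1 M1 c}) M1).comp ι =
      (algebraMap k1 M1).comp (algebraMap ↥(IntermediateField.adjoin k {c}) k1) := by
    ext z
    exact hι z
  have key : ∀ y ∈ Set.range (algebraMap k1 M1),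
      IsIntegral ↥(IntermediateField.adjoin L {algebraMap k1 M1 c}) y ∧
      ((minpoly ↥(IntermediateField.adjoin L {algebraMap k1 M1 c}) y).map
        (algebraMap ↥(IntermediateField.adjoin L {algebraMap k1 M1 c}) M1)).Splits := by
    rintro _ ⟨x, rfl⟩
    have hx : IsIntegral ↥(IntermediateField.adjoin k {c}) x := (h.alg x).isIntegral
    set m := minpoly ↥(IntermediateField.adjoin k {c}) x with hm
    have hmon : m.Monic := minpoly.monic hx
    have hev : eval₂ (algebraMap ↥(IntermediateField.adjoin L {algebraMap k1 M1 c}) M1)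
        (algebraMap k1 M1 x) (m.map ι) = 0 := by
      rw [eval₂_map, hcomp, ← hom_eval₂]
      have h0 : eval₂ (algebraMap ↥(IntermediateField.adjoin k {c}) k1) x m = 0 :=
        minpoly.aeval _ _
      rw [h0, map_zero]
    refine ⟨⟨m.map ι, hmon.map ι, hev⟩, ?_⟩
    have hsp : ((m.map ι).map
        (algebraMap ↥(IntermediateField.adjoin L {algebraMap k1 M1 c}) M1)).Splits := by
      rw [Polynomial.map_map, hcomp, ← Polynomial.map_map]
      exact IsAlgClosed.splits_domain _
    refine hsp.of_dvd ?_ ?_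
    · exact ((hmon.map ι).map _).ne_zero
    · exact Polynomial.map_dvd _ (minpoly.dvd _ _ hev)
  have htop : ∀ x : M1, x ∈ IntermediateField.adjoin
      ↥(IntermediateField.adjoin L {algebraMap k1 M1 c}) (Set.range (algebraMap k1 M1)) := by
    intro x
    refine e4_top h (IntermediateField.adjoin
      ↥(IntermediateField.adjoin L {algebraMap k1 M1 c}) (Set.range (algebraMap k1 M1))).toSubfield
      (fun y => ?_) (fun l => ?_) x
    · exact IntermediateField.subset_adjoin _ _ ⟨y, rfl⟩
    · have h1 : algebraMap L M1 l ∈ IntermediateField.adjoin L {algebraMap k1 M1 c} :=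
        (IntermediateField.adjoin L {algebraMap k1 M1 c}).algebraMap_mem _
      exact (IntermediateField.adjoin ↥(IntermediateField.adjoin L {algebraMap k1 M1 c})
        (Set.range (algebraMap k1 M1))).algebraMap_mem ⟨_, h1⟩
  have halg : Algebra.IsAlgebraic ↥(IntermediateField.adjoin L {algebraMap k1 M1 c})
      ↥(IntermediateField.adjoin ↥(IntermediateField.adjoin L {algebraMap k1 M1 c})
        (Set.range (algebraMap k1 M1))) :=
    IntermediateField.isAlgebraic_adjoin fun y hy => (key y hy).1
  refine normal_iff.2 fun x => ⟨?_, IntermediateField.splits_of_mem_adjoin _ _ key (htop x)⟩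
  have h1 := (halg.isAlgebraic ⟨x, htop x⟩).isIntegral
  exact h1.map (IntermediateField.adjoin ↥(IntermediateField.adjoin L {algebraMap k1 M1 c})
        (Set.range (algebraMap k1 M1))).val

/-- an element integral over an algebraically closed field -/
private theorem e4_root {A B C : Type} [Field A] [Field B] [IsAlgClosed B] [Field C]
    (ρ : A →+* B) (j : B →+* C) (m : A[X]) (hm : m.Monic) (y : C)
    (hy : eval₂ (j.comp ρ) y m = 0) : ∃ b, j b = y := by
  letI : Algebra B C := j.toAlgebra
  have hint : IsIntegral B y := ⟨m.map ρ, hm.map ρ, by rw [eval₂_map]; exact hy⟩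
  exact minpoly.mem_range_of_degree_eq_one B y
    (IsAlgClosed.degree_eq_one_of_irreducible B (minpoly.irreducible hint))

private theorem e4_alg {A B C : Type} [Field A] [Field B] [Field C] [Algebra A B] (f : A →+* C)
    (g : B →+* C) (hg : ∀ a, g (algebraMap A B a) = f a) {x : B} (hx : IsAlgebraic A x) :
    IsAlgebraic f.fieldRange (g x) := by
  obtain ⟨p, hp, hpx⟩ := hx
  refine ⟨p.map f.rangeRestrictField, ?_, ?_⟩
  · exact (Polynomial.map_ne_zero_iff f.rangeRestrictField.injective).2 hp
  · rw [aeval_def, eval₂_map]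
    have h1 : (algebraMap f.fieldRange C).comp f.rangeRestrictField =
        g.comp (algebraMap A B) := by
      ext a
      exact (hg a).symm
    rw [h1, ← hom_eval₂]
    have h0 : eval₂ (algebraMap A B) x p = 0 := hpx
    rw [h0, map_zero]

/-- Proof. `F = L(c)`. `M1` is algebraic over `F`: it is generated by `L` and `k1` (`h.gen`), and `k1` is algebraic
over `k(c)` (`h.alg`; `h.comm`). So `φ` extends to `Φ : M1 → Ω = AlgebraicClosure (St L)` (`IsAlgClosed.lift`, with
`Algebra F Ω` given by `φ`). The elements of `k1` are algebraic over `k(c)`, and `φ` maps `k(c)` to `St.con k L` (`h.comm`,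
`φ c`), so `Φ` maps `k1` to elements of `Ω` algebraic over the algebraically closed field `St.con k L` (`isAlgClosed_con`),
so to `St.con k L` (`IsAlgClosed.algebraMap_bijective_of_isIntegral` or a root argument), and `M1`, which is generated by `L`
and `k1`, to `St L`. The limits exist by `exists_StN_of_algebraic` for the image of `F`. -/
theorem exists_phi1 {k k1 L M1 : Type} [NontriviallyNormedField k] [IsUltrametricDist k]
    [IsAlgClosed k] [NormedField k1] [IsUltrametricDist k1] [IsAlgClosed k1] [NormedAlgebra k k1]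
    [NormedField L] [IsUltrametricDist L] [NormedAlgebra k L]
    [NormedField M1] [IsUltrametricDist M1] [NormedAlgebra k1 M1] [NormedAlgebra L M1]
    {c : k1} {a : ℕ → k} (h : Step k k1 L M1 c a)
    (φ : ↥(IntermediateField.adjoin L {algebraMap k1 M1 c}) →+* St L)
    (hφL : ∀ l : L, φ (algebraMap L _ l) = St.cst l)
    (hφc : φ ⟨algebraMap k1 M1 c, IntermediateField.mem_adjoin_simple_self L _⟩ =
        St.mk (fun j => algebraMap k L (a j)))
    (hφ : ∀ x, StN (φ x) ‖(x : M1)‖) :
    ∃ Φ : M1 →+* St L, (∀ x : ↥(IntermediateField.adjoin L {algebraMap k1 M1 c}),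
        Φ (x : M1) = φ x) ∧
      (∀ x : k1, Φ (algebraMap k1 M1 x) ∈ St.con k L) ∧
      ∀ x : M1, x ≠ 0 → ∃ r, 0 < r ∧ StN (Φ x) r := by
  classical
  have hN := e4_normal h
  have halg : Algebra.IsAlgebraic ↥(IntermediateField.adjoin L {algebraMap k1 M1 c}) M1 :=
    hN.toIsAlgebraic
  obtain ⟨ι, hι⟩ := e4_iota h
  let Ω := AlgebraicClosure (St L)
  let e : St L →+* Ω := algebraMap (St L) Ω
  letI : Algebra ↥(IntermediateField.adjoin L {algebraMap k1 M1 c}) Ω := (e.comp φ).toAlgebra
  let Φ0 : M1 →ₐ[↥(IntermediateField.adjoin L {algebraMap k1 M1 c})] Ω := IsAlgClosed.lift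
  have hΦ0 : ∀ x : ↥(IntermediateField.adjoin L {algebraMap k1 M1 c}),
      Φ0 (x : M1) = e (φ x) := fun x => Φ0.commutes x
  have hcl : IsAlgClosed (St.con k L) := isAlgClosed_con k L
  -- `φ` maps `k(c)` to `St.con k L`
  have hρ : ∀ z : ↥(IntermediateField.adjoin k {c}), φ (ι z) ∈ St.con k L := by
    intro z
    have h1 := e4_mem h (((St.con k L).comap φ).map
      (algebraMap ↥(IntermediateField.adjoin L {algebraMap k1 M1 c}) M1)) (fun x => ?_) ?_ z
    · obtain ⟨w, hw, hw2⟩ := h1
      have h2 : ι z = w := by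
        apply Subtype.ext
        rw [hι z]
        exact hw2.symm
      rw [h2]
      exact hw
    · refine ⟨algebraMap L _ (algebraMap k L x), ?_, rfl⟩
      show φ (algebraMap L _ (algebraMap k L x)) ∈ St.con k L
      rw [hφL]
      exact ⟨fun _ => x, rfl⟩
    · refine ⟨⟨algebraMap k1 M1 c, IntermediateField.mem_adjoin_simple_self L _⟩, ?_, rfl⟩
      show φ ⟨algebraMap k1 M1 c, IntermediateField.mem_adjoin_simple_self L _⟩ ∈ St.con k L
      rw [hφc]
      exact ⟨a, rfl⟩
  let ρ : ↥(IntermediateField.adjoin k {c}) →+* St.con k L :=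
    RingHom.codRestrict (φ.comp ι) (St.con k L) hρ
  have hcon : ∀ x : k1, ∃ s : St.con k L, e (s : St L) = Φ0 (algebraMap k1 M1 x) := by
    intro x
    have hx : IsIntegral ↥(IntermediateField.adjoin k {c}) x := (h.alg x).isIntegral
    refine e4_root ρ (e.comp (St.con k L).subtype)
      (minpoly ↥(IntermediateField.adjoin k {c}) x) (minpoly.monic hx) _ ?_
    have h1 : (e.comp (St.con k L).subtype).comp ρ =
        ((Φ0 : M1 →+* Ω).comp (algebraMap k1 M1)).comp
          (algebraMap ↥(IntermediateField.adjoin k {c}) k1) := by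
      ext z
      show e (φ (ι z)) = Φ0 (algebraMap k1 M1 (z : k1))
      rw [← hι z, hΦ0]
    rw [h1]
    have h2 : Φ0 (algebraMap k1 M1 x) = ((Φ0 : M1 →+* Ω).comp (algebraMap k1 M1)) x := rfl
    rw [h2, ← hom_eval₂]
    have h0 : eval₂ (algebraMap ↥(IntermediateField.adjoin k {c}) k1) x
        (minpoly ↥(IntermediateField.adjoin k {c}) x) = 0 := minpoly.aeval _ _
    rw [h0, map_zero]
  have hrange : ∀ x : M1, ∃ s : St L, e s = Φ0 x := by
    intro x
    refine e4_top h ((e.fieldRange).comap (Φ0 : M1 →+* Ω)) (fun y => ?_) (fun l => ?_) x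
    · obtain ⟨s, hs⟩ := hcon y
      exact ⟨(s : St L), hs⟩
    · exact ⟨φ (algebraMap L _ l), (hΦ0 (algebraMap L _ l)).symm⟩
  have hinj : Function.Injective e := e.injective
  choose g hg using hrange
  let Φ : M1 →+* St L :=
    { toFun := g
      map_one' := hinj (by rw [hg, map_one, map_one])
      map_mul' := fun x y => hinj (by rw [hg, map_mul, map_mul, hg, hg])
      map_zero' := hinj (by rw [hg, map_zero, map_zero])
      map_add' := fun x y => hinj (by rw [hg, map_add, map_add, hg, hg]) }
  have hΦ : ∀ x, e (Φ x) = Φ0 x := hg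
  have hΦφ : ∀ x : ↥(IntermediateField.adjoin L {algebraMap k1 M1 c}), Φ (x : M1) = φ x :=
    fun x => hinj (by rw [hΦ, hΦ0])
  refine ⟨Φ, hΦφ, fun x => ?_, fun x hx => ?_⟩
  · obtain ⟨s, hs⟩ := hcon x
    have h1 : Φ (algebraMap k1 M1 x) = (s : St L) := hinj (by rw [hΦ, hs])
    rw [h1]
    exact s.2
  · have hx1 : IsAlgebraic φ.fieldRange (Φ x) :=
      e4_alg φ Φ (fun z => hΦφ z) (halg.isAlgebraic x)
    refine exists_StN_of_algebraic φ.fieldRange ?_ hx1 ?_
    · rintro _ ⟨w, rfl⟩ hw
      refine ⟨‖(w : M1)‖, norm_pos_iff.2 ?_, hφ w⟩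
      rintro h0
      apply hw
      have h1 : w = 0 := Subtype.ext h0
      rw [h1, map_zero]
    · intro h0
      exact hx ((map_eq_zero Φ).1 h0)

/-- `M1` is normal over `L(c)`. Proof. It is generated over `F = L(c)` by `k1`, and an element of `k1` is a root of its minimal
polynomial over `k(c)`, which splits in `k1` (`IsAlgClosed k1`); `Normal` of the adjunction of the set of all roots
(`IntermediateField.normal_iSup`, `normal_iff`, `Algebra.IsAlgebraic`, or `IsSplittingField`...). -/
theorem normal_step {k k1 L M1 : Type} [NontriviallyNormedField k] [IsUltrametricDist k]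
    [IsAlgClosed k] [NormedField k1] [IsUltrametricDist k1] [IsAlgClosed k1] [NormedAlgebra k k1]
    [NormedField L] [IsUltrametricDist L] [NormedAlgebra k L]
    [NormedField M1] [IsUltrametricDist M1] [NormedAlgebra k1 M1] [NormedAlgebra L M1]
    {c : k1} {a : ℕ → k} (h : Step k k1 L M1 c a) :
    Normal ↥(IntermediateField.adjoin L {algebraMap k1 M1 c}) M1 := by
  exact e4_normal h

end TR
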