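import Pool.Agent.Lib.TR.H1

/-!
# Module TR.H2: norms on a normal algebraic extension are conjugate
-/

open Polynomial MP1a953e IsLocalRing DA Filter

namespace TR
open Pool.Agent.Lib.MP_3029eb_ag Pool.Agent.Lib.MP_3029eb_ag.Abh CS

private noncomputable def h2Abs {N : Type} [Field N] {f : N → ℝ} (hf : Nrm f) :
    AbsoluteValue N ℝ where
  toFun := f
  map_mul' := hf.mul
  nonneg' x := by
    by_cases hx : x = 0
    · subst hx; exact hf.zero.ge
    · exact (hf.pos x hx).le
  eq_zero' x := by
    constructor
    · intro h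
      by_contra hx
      exact (hf.pos x hx).ne' h
    · rintro rfl; exact hf.zero
  add_le' x y := by
    have h0 : ∀ x, 0 ≤ f x := by
      intro x
      by_cases hx : x = 0
      · subst hx; exact hf.zero.ge
      · exact (hf.pos x hx).le
    exact (hf.add x y).trans (max_le_add_of_nonneg (h0 x) (h0 y))

private lemma h2_emb {F N : Type} [NontriviallyNormedField F] [IsUltrametricDist F] [Field N]
    [Algebra F N] [Algebra.IsAlgebraic F N] {f : N → ℝ} (hf : Nrm f)
    (hFf : ∀ x : F, f (algebraMap F N x) = ‖x‖) :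
    ∃ ι : N →+* AlgebraicClosure (UniformSpace.Completion F),
      (∀ x : F, ι (algebraMap F N x) =
        algebraMap (UniformSpace.Completion F) (AlgebraicClosure (UniformSpace.Completion F))
          (x : UniformSpace.Completion F)) ∧
      ∀ x, spectralNorm (UniformSpace.Completion F)
        (AlgebraicClosure (UniformSpace.Completion F)) (ι x) = f x := by
  letI i1 : NormedField N := (h2Abs hf).toNormedField
  have hn : ∀ x : N, ‖x‖ = f x := fun _ => rfl
  haveI i2 : IsUltrametricDist N :=
    IsUltrametricDist.isUltrametricDist_of_isNonarchimedean_norm (fun x y => hf.add x y)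
  letI i3 : NormedAlgebra F N :=
    { (inferInstance : Algebra F N) with
      norm_smul_le := by
        intro r x
        rw [Algebra.smul_def, hn, hn, hf.mul, hFf] }
  exact exists_emb (F := F) (N := N)

private lemma h2_conj {F N Ω : Type} [Field F] [Field N] [Field Ω] [Algebra F N] [Normal F N]
    (ι₁ ι₂ : N →+* Ω) (h : ∀ x : F, ι₁ (algebraMap F N x) = ι₂ (algebraMap F N x)) :
    ∃ τ : N ≃ₐ[F] N, ∀ x, ι₁ (τ x) = ι₂ x := by
  letI a1 : Algebra F Ω := (ι₁.comp (algebraMap F N)).toAlgebra
  letI a2 : Algebra N Ω := ι₁.toAlgebra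
  haveI : IsScalarTower F N Ω := IsScalarTower.of_algebraMap_eq fun _ => rfl
  let φ : N →ₐ[F] Ω := { ι₂ with commutes' := fun x => (h x).symm }
  refine ⟨AlgHom.restrictNormal' φ N, fun x => ?_⟩
  have := AlgHom.restrictNormal_commutes φ N x
  exact this

/-- Proof. Make `F` a nontrivially normed field (norm `f (algebraMap F N x)`), and `N` a normed field in two ways
(`f` and `g`), both ultrametric (`IsUltrametricDist.isUltrametricDist_of_isNonarchimedean_norm` or directly). `exists_emb`
gives embeddings `ι₁, ι₂ : N → Ω` which agree on `F`, with `spectralNorm (ι₁ x) = f x`, `spectralNorm (ι₂ x) = g x`. Since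
`N / F` is normal, they have the same image (`AlgHom.fieldRange_of_normal`, or: every element of `N` is a root of a
polynomial over `F` which splits in `N`), so `τ = ι₁⁻¹ ∘ ι₂` is an automorphism of `N` over `F`
(`AlgHom.restrictNormal'`, `AlgEquiv.ofBijective`) with `ι₁ (τ x) = ι₂ x`, so `f (τ x) = g x`. -/
theorem exists_conj {F N : Type} [Field F] [Field N] [Algebra F N] [Normal F N] {f g : N → ℝ}
    (hf : Nrm f) (hg : Nrm g)
    (hfg : ∀ x : F, f (algebraMap F N x) = g (algebraMap F N x))
    (hnt : ∃ x : F, 1 < f (algebraMap F N x)) :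
    ∃ τ : N ≃ₐ[F] N, ∀ x, f (τ x) = g x := by
  have hF : Nrm (fun x : F => f (algebraMap F N x)) :=
    { zero := by simp [hf.zero]
      pos := fun x hx => hf.pos _ (by simpa using hx)
      mul := fun x y => by rw [map_mul]; exact hf.mul _ _
      add := fun x y => by rw [map_add]; exact hf.add _ _ }
  letI i0 : NormedField F := (h2Abs hF).toNormedField
  have hn : ∀ x : F, ‖x‖ = f (algebraMap F N x) := fun _ => rfl
  haveI i2 : IsUltrametricDist F :=
    IsUltrametricDist.isUltrametricDist_of_isNonarchimedean_norm (fun x y => hF.add x y)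
  letI i1 : NontriviallyNormedField F := { i0 with non_trivial := hnt }
  obtain ⟨ι₁, h1, s1⟩ := h2_emb (F := F) hf (fun x => (hn x).symm)
  obtain ⟨ι₂, h2, s2⟩ := h2_emb (F := F) hg (fun x => ((hn x).trans (hfg x)).symm)
  obtain ⟨τ, hτ⟩ := h2_conj ι₁ ι₂ (fun x => (h1 x).trans (h2 x).symm)
  refine ⟨τ, fun x => ?_⟩
  rw [← s1, hτ, s2]

end TR
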