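import Pool.Agent.Lib.TR.E4
import Pool.Agent.Lib.TR.H2

/-!
# Module TR.E5: the isometric embedding of `M1` in the ultrapower
-/

open Polynomial MP1a953e IsLocalRing DA Filter

namespace TR
open Pool.Agent.Lib.MP_3029eb_ag Pool.Agent.Lib.MP_3029eb_ag.Abh CS

/-- Proof. `exists_phi0`, `exists_phi1`: `Φ'`. Let `f x = ‖x‖` and `g x` the number with `StN (Φ' x) (g x)` (`0` for `x = 0`);
both are `Nrm` (`StN.mul`, `StN.exists_add`, `StN.add_le`, `StN.unique`) and agree on `F = L(c)`. By `normal_step` and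
`exists_conj` there is `τ` with `g (τ x) = f x` (`k` has an element of norm `> 1`); take `Φ = Φ' ∘ τ`. `τ` fixes `F`, and it
maps `k1` to itself (an element of `k1` is a root of a polynomial over `k(c) ⊆ F` which splits in `k1`). -/
theorem exists_phi {k k1 L M1 : Type} [NontriviallyNormedField k] [IsUltrametricDist k]
    [IsAlgClosed k] [NormedField k1] [IsUltrametricDist k1] [IsAlgClosed k1] [NormedAlgebra k k1]
    [NormedField L] [IsUltrametricDist L] [NormedAlgebra k L]
    [NormedField M1] [IsUltrametricDist M1] [NormedAlgebra k1 M1] [NormedAlgebra L M1]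
    {c : k1} {a : ℕ → k} (h : Step k k1 L M1 c a) :
    ∃ Φ : M1 →+* St L, IsPhi (k := k) c a Φ := by
  classical
  obtain ⟨φ, hφL, hφc, hφ⟩ := exists_phi0 h
  obtain ⟨Φ', hF, hcon, hpos⟩ := exists_phi1 h φ hφL hφc hφ
  haveI := normal_step h
  have hex : ∀ x : M1, ∃ r, StN (Φ' x) r ∧ (x ≠ 0 → 0 < r) := by
    intro x
    by_cases hx : x = 0
    · exact ⟨0, by rw [hx, map_zero]; exact StN.zero, fun h0 => absurd hx h0⟩
    · obtain ⟨r, hr, hr'⟩ := hpos x hx
      exact ⟨r, hr', fun _ => hr⟩
  choose g hg hgpos using hex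
  have hNg : Nrm g :=
    { zero := StN.unique (hg 0) (by rw [map_zero]; exact StN.zero)
      pos := fun x hx => hgpos x hx
      mul := fun x y => StN.unique (hg (x * y)) (by rw [map_mul]; exact (hg x).mul (hg y))
      add := fun x y => StN.add_le (hg x) (hg y) (by rw [← map_add]; exact hg (x + y)) }
  have hNn : Nrm (fun x : M1 => ‖x‖) :=
    { zero := norm_zero
      pos := fun x hx => norm_pos_iff.2 hx
      mul := fun x y => norm_mul x y
      add := fun x y => IsUltrametricDist.norm_add_le_max x y }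
  have hgF : ∀ x : ↥(IntermediateField.adjoin L {algebraMap k1 M1 c}),
      g (algebraMap _ M1 x) = ‖(algebraMap _ M1 x : M1)‖ := by
    intro x
    refine StN.unique (hg _) ?_
    have h1 : Φ' (algebraMap _ M1 x) = φ x := hF x
    rw [h1]
    exact hφ x
  obtain ⟨a0, ha0⟩ := NormedField.exists_one_lt_norm k
  obtain ⟨τ, hτ⟩ := exists_conj hNg hNn hgF
    ⟨algebraMap L _ (algebraMap k L a0), by
      rw [hgF]
      have h1 : (algebraMap ↥(IntermediateField.adjoin L {algebraMap k1 M1 c}) M1
          (algebraMap L _ (algebraMap k L a0))) = algebraMap L M1 (algebraMap k L a0) := rfl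
      rw [h1, norm_algebraMap', norm_algebraMap']
      exact ha0⟩
  have hK0 : ∀ x ∈ IntermediateField.adjoin k {c},
      algebraMap k1 M1 x ∈ IntermediateField.adjoin L {algebraMap k1 M1 c} := by
    intro x hx
    induction hx using IntermediateField.adjoin_induction with
    | mem x hx =>
      rw [Set.mem_singleton_iff.1 hx]
      exact IntermediateField.mem_adjoin_simple_self L _
    | algebraMap x =>
      rw [h.comm]
      exact IntermediateField.algebraMap_mem _ _
    | add x y _ _ h1 h2 => rw [map_add]; exact add_mem h1 h2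
    | inv x _ h1 => rw [map_inv₀]; exact inv_mem h1
    | mul x y _ _ h1 h2 => rw [map_mul]; exact mul_mem h1 h2
  have hτk1 : ∀ x : k1, ∃ z : k1, τ (algebraMap k1 M1 x) = algebraMap k1 M1 z := by
    intro x
    obtain ⟨p, hp0, hp⟩ := h.alg x
    let φ1 : ↥(IntermediateField.adjoin k {c}) →+* M1 :=
      (algebraMap k1 M1).comp (algebraMap ↥(IntermediateField.adjoin k {c}) k1)
    have hφ1 : (τ : M1 →+* M1).comp φ1 = φ1 := by
      apply RingHom.ext
      intro y
      have h2 := τ.commutes ⟨algebraMap k1 M1 (y : k1), hK0 y y.2⟩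
      exact h2
    have h3 : eval₂ φ1 (algebraMap k1 M1 x) p = 0 := by
      have h4 := congrArg (algebraMap k1 M1) hp
      rw [map_zero, aeval_def, Polynomial.hom_eval₂] at h4
      exact h4
    have h5 : eval₂ φ1 (τ (algebraMap k1 M1 x)) p = 0 := by
      have h6 := congrArg (τ : M1 →+* M1) h3
      rw [map_zero, Polynomial.hom_eval₂, hφ1] at h6
      exact h6
    have h7 : IsIntegral k1 (τ (algebraMap k1 M1 x)) := by
      refine isAlgebraic_iff_isIntegral.1 ⟨p.map (algebraMap ↥(IntermediateField.adjoin k {c}) k1), ?_, ?_⟩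
      · exact (Polynomial.map_ne_zero_iff (algebraMap ↥(IntermediateField.adjoin k {c}) k1).injective).2 hp0
      · rw [aeval_def, Polynomial.eval₂_map]
        exact h5
    obtain ⟨z, hz⟩ := minpoly.mem_range_of_degree_eq_one k1 _
      (IsAlgClosed.degree_eq_one_of_irreducible k1 (minpoly.irreducible h7))
    exact ⟨z, hz.symm⟩
  refine ⟨Φ'.comp (τ : M1 →+* M1), ⟨fun l => ?_, ?_, fun x => ?_, fun x => ?_⟩⟩
  · have h1 := τ.commutes (algebraMap L _ l)
    show Φ' (τ (algebraMap L M1 l)) = _
    have h2 : τ (algebraMap L M1 l) = algebraMap L M1 l := h1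
    rw [h2, ← hφL l]
    exact hF (algebraMap L _ l)
  · have h1 := τ.commutes ⟨algebraMap k1 M1 c, IntermediateField.mem_adjoin_simple_self L _⟩
    show Φ' (τ (algebraMap k1 M1 c)) = _
    have h2 : τ (algebraMap k1 M1 c) = algebraMap k1 M1 c := h1
    rw [h2, ← hφc]
    exact hF ⟨algebraMap k1 M1 c, IntermediateField.mem_adjoin_simple_self L _⟩
  · obtain ⟨z, hz⟩ := hτk1 x
    show Φ' (τ (algebraMap k1 M1 x)) ∈ _
    rw [hz]
    exact hcon z
  · show StN (Φ' (τ x)) _
    rw [← hτ x]
    exact hg (τ x)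

end TR
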