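import Pool.Agent.Lib.TR.Defs

/-!
# Module TR.G1: the ultrapower of a valuation ring
-/

open Polynomial MP1a953e IsLocalRing DA Filter

namespace TR
open Pool.Agent.Lib.MP_3029eb_ag Pool.Agent.Lib.MP_3029eb_ag.Abh CS

section
variable {L : Type} [Field L] {V V' : ValuationSubring L}

/-- Proof. `Ultrafilter.eventually_or`/`U.em`: if `f j ∈ V` for almost all `j`, change the other members to `0`
(`St.mk_eq`). Conversely two sequences with the same class are equal almost everywhere. -/
theorem St.mem_val {f : ℕ → L} : St.mk f ∈ St.val V ↔ ∀ᶠ j in (U : Filter ℕ), f j ∈ V := by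
  classical
  constructor
  · rintro ⟨g, hg, h⟩
    rw [St.mk_eq] at h
    exact h.mono fun j hj => hj ▸ hg j
  · intro h
    refine ⟨fun j => if f j ∈ V then f j else 0, fun j => ?_, ?_⟩
    · dsimp only
      split_ifs with h1
      · exact h1
      · exact V.zero_mem
    · rw [St.mk_eq]
      exact h.mono fun j hj => if_pos hj

private theorem mk_inv {f : ℕ → L} : (St.mk f)⁻¹ = St.mk (fun j => (f j)⁻¹) := by
  by_cases h0 : St.mk f = 0
  · rw [h0, inv_zero]
    have h1 : (0 : St L) = St.mk (0 : ℕ → L) := (map_zero _).symm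
    rw [h1, St.mk_eq] at h0
    rw [h1, St.mk_eq]
    refine h0.mono fun j hj => ?_
    simp only [hj, Pi.zero_apply, inv_zero]
  · refine inv_eq_of_mul_eq_one_right ?_
    rw [← map_mul, ← map_one (St.mk (L := L)), St.mk_eq]
    rw [← Ne, St.mk_ne_zero] at h0
    exact h0.mono fun j hj => mul_inv_cancel₀ hj

private theorem val_lt_one_iff {K : Type} [Field K] (W : ValuationSubring K) (x : K) :
    W.valuation x < 1 ↔ x = 0 ∨ x⁻¹ ∉ W := by
  rcases eq_or_ne x 0 with h | h
  · simp [h]
  · rw [← W.valuation_le_one_iff, map_inv₀, not_le, one_lt_inv₀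
      (zero_lt_iff.2 ((Valuation.ne_zero_iff _).2 h))]
    simp [h]

/-- Proof. `V.valuation x < 1` if and only if `x = 0` or `x⁻¹ ∉ V` (`ValuationSubring.valuation_le_one_iff`,
`Ultrafilter.eventually_not`, `Ultrafilter.eventually_or`, and `(St.mk f)⁻¹ = St.mk fun j => (f j)⁻¹` if `St.mk f ≠ 0`,
`St.mk_ne_zero`). -/
theorem St.val_lt {f : ℕ → L} :
    (St.val V).valuation (St.mk f) < 1 ↔ ∀ᶠ j in (U : Filter ℕ), V.valuation (f j) < 1 := by
  rw [val_lt_one_iff, mk_inv, St.mem_val, ← Ultrafilter.eventually_not]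
  have h1 : (0 : St L) = St.mk (0 : ℕ → L) := (map_zero _).symm
  rw [h1, St.mk_eq, ← Ultrafilter.eventually_or]
  refine eventually_congr (Eventually.of_forall fun j => ?_)
  rw [val_lt_one_iff]
  rfl

/-- `St.mem_val` (`V.valuation x ≤ 1 ↔ x ∈ V`) and `St.val_lt` -/
theorem St.val_eq_one {f : ℕ → L} :
    (St.val V).valuation (St.mk f) = 1 ↔ ∀ᶠ j in (U : Filter ℕ), V.valuation (f j) = 1 := by
  have h : ∀ {K : Type} [Field K] (W : ValuationSubring K) (x : K),
      W.valuation x = 1 ↔ x ∈ W ∧ ¬ W.valuation x < 1 := by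
    intro K _ W x
    rw [← W.valuation_le_one_iff, not_lt]
    exact ⟨fun h => ⟨h.le, h.ge⟩, fun h => le_antisymm h.1 h.2⟩
  rw [h, St.mem_val, St.val_lt, ← Ultrafilter.eventually_not, ← Filter.eventually_and]
  exact eventually_congr (Eventually.of_forall fun j => (h V (f j)).symm)

theorem St.val_mono (h : V ≤ V') : St.val V ≤ St.val V' := by
  rintro x ⟨f, hf, rfl⟩
  exact ⟨f, fun j => h (hf j), rfl⟩

/-- Proof. Divide (`St.mk g ≠ 0` or not), `St.mem_val`. -/
theorem St.val_le {f g : ℕ → L} :
    (St.val V).valuation (St.mk f) ≤ (St.val V).valuation (St.mk g) ↔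
      ∀ᶠ j in (U : Filter ℕ), V.valuation (f j) ≤ V.valuation (g j) := by
  have key : ∀ {K : Type} [Field K] (W : ValuationSubring K) (x y : K),
      W.valuation x ≤ W.valuation y ↔ (y = 0 ∧ x = 0) ∨ (y ≠ 0 ∧ x * y⁻¹ ∈ W) := by
    intro K _ W x y
    rcases eq_or_ne y 0 with h | h
    · simp [h]
    · rw [← W.valuation_le_one_iff, map_mul, map_inv₀]
      have h1 : 0 < W.valuation y := zero_lt_iff.2 ((Valuation.ne_zero_iff _).2 h)
      rw [← div_eq_mul_inv, div_le_one₀ h1]
      simp [h]
  rw [key, mk_inv, ← map_mul, St.mem_val, St.mk_ne_zero]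
  have h1 : (0 : St L) = St.mk (0 : ℕ → L) := (map_zero _).symm
  rw [h1, St.mk_eq, St.mk_eq, ← Filter.eventually_and, ← Filter.eventually_and,
    ← Ultrafilter.eventually_or]
  refine eventually_congr (Eventually.of_forall fun j => ?_)
  rw [key]
  rfl

theorem St.val_lt_iff {f g : ℕ → L} :
    (St.val V).valuation (St.mk f) < (St.val V).valuation (St.mk g) ↔
      ∀ᶠ j in (U : Filter ℕ), V.valuation (f j) < V.valuation (g j) := by
  rw [← not_le, St.val_le, ← Ultrafilter.eventually_not]
  exact eventually_congr (Eventually.of_forall fun j => not_le)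

theorem St.cst_mem {x : L} : St.cst x ∈ St.val V ↔ x ∈ V := by
  rw [St.cst_apply, St.mem_val, Filter.eventually_const]

theorem St.cst_lt {x : L} : (St.val V).valuation (St.cst x) < 1 ↔ V.valuation x < 1 := by
  rw [St.cst_apply, St.val_lt, Filter.eventually_const]

theorem St.cst_le {x y : L} :
    (St.val V).valuation (St.cst x) ≤ (St.val V).valuation (St.cst y) ↔
      V.valuation x ≤ V.valuation y := by
  rw [St.cst_apply, St.cst_apply, St.val_le, Filter.eventually_const]

theorem St.cst_eq_one {x : L} : (St.val V).valuation (St.cst x) = 1 ↔ V.valuation x = 1 := by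
  rw [St.cst_apply, St.val_eq_one, Filter.eventually_const]

/-- elements of the maximal ideal of a larger valuation ring are in the maximal ideal of the smaller one -/
theorem val_lt_of_le {K : Type} [Field K] {W W' : ValuationSubring K} (h : W ≤ W') {x : K}
    (hx : W'.valuation x < 1) : W.valuation x < 1 := by
  rw [val_lt_one_iff] at hx ⊢
  exact hx.imp id fun h1 h2 => h1 (h h2)

end

section
variable {K K' : Type} [Field K] [Field K'] (W : ValuationSubring K') (f : K →+* K')

theorem comap_le_iff {x y : K} :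
    (W.comap f).valuation x ≤ (W.comap f).valuation y ↔
      W.valuation (f x) ≤ W.valuation (f y) := by
  have key : ∀ {K : Type} [Field K] (W : ValuationSubring K) (x y : K),
      W.valuation x ≤ W.valuation y ↔ (y = 0 ∧ x = 0) ∨ (y ≠ 0 ∧ x * y⁻¹ ∈ W) := by
    intro K _ W x y
    rcases eq_or_ne y 0 with h | h
    · simp [h]
    · rw [← W.valuation_le_one_iff, map_mul, map_inv₀]
      have h1 : 0 < W.valuation y := zero_lt_iff.2 ((Valuation.ne_zero_iff _).2 h)
      rw [← div_eq_mul_inv, div_le_one₀ h1]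
      simp [h]
  rw [key, key, ValuationSubring.mem_comap, map_mul, map_inv₀, Ne, Ne, map_eq_zero, map_eq_zero]

theorem comap_lt_iff {x y : K} :
    (W.comap f).valuation x < (W.comap f).valuation y ↔
      W.valuation (f x) < W.valuation (f y) := by
  rw [← not_le, ← not_le, comap_le_iff]

theorem comap_lt_one {x : K} : (W.comap f).valuation x < 1 ↔ W.valuation (f x) < 1 := by
  have h := comap_lt_iff W f (x := x) (y := 1)
  rwa [map_one, map_one, map_one] at h

theorem comap_eq_one {x : K} : (W.comap f).valuation x = 1 ↔ W.valuation (f x) = 1 := by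
  have h1 := comap_le_iff W f (x := x) (y := 1)
  have h2 := comap_le_iff W f (x := 1) (y := x)
  rw [map_one, map_one, map_one] at h1 h2
  rw [le_antisymm_iff, le_antisymm_iff, h1, h2]

theorem comap_eq_iff {x y : K} :
    (W.comap f).valuation x = (W.comap f).valuation y ↔
      W.valuation (f x) = W.valuation (f y) := by
  rw [le_antisymm_iff, le_antisymm_iff, comap_le_iff, comap_le_iff]

end

end TR
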