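import Pool.Agent.Lib.TR.G1

/-!
# Module TR.G2: the residue field of `V` is relatively algebraically closed in the residue field of the ultrapower
-/

open Polynomial MP1a953e IsLocalRing DA Filter

namespace TR
open Pool.Agent.Lib.MP_3029eb_ag Pool.Agent.Lib.MP_3029eb_ag.Abh CS

/-- Proof. Let `z = St.mk f`; almost all `f j` are in `V` (`St.mem_val`) and satisfy `V.valuation (Q.eval (f j)) < 1`
(`eval₂ St.cst (St.mk f) Q = St.mk fun j => Q.eval (f j)` by induction on `Q`, `St.val_lt`). The reduction `q` of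
`Q` in the residue field of `V` is not zero, so it has finitely many roots, and for almost all `j` the residue of `f j`
is a root of `q`. By the ultrafilter property (`Ultrafilter.eventually_exists_mem_iff` or
`Ultrafilter.finite_biUnion_mem_iff`) there is one root `ζ` such that the residue of `f j` is `ζ` for almost all `j`.
Let `l ∈ V` have residue `ζ`. -/
theorem exists_residue {L : Type} [Field L] {V : ValuationSubring L} (Q : L[X])
    (hQ : ∀ i, Q.coeff i ∈ V) (hQ1 : ∃ i, V.valuation (Q.coeff i) = 1) {z : St L}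
    (hz : z ∈ St.val V) (h : (St.val V).valuation (eval₂ St.cst z Q) < 1) :
    ∃ l ∈ V, (St.val V).valuation (z - St.cst l) < 1 := by
  obtain ⟨f, hf, rfl⟩ := hz
  have heval : eval₂ St.cst (St.mk f) Q = St.mk fun j => Q.eval (f j) := by
    rw [eval₂_eq_sum_range]
    have h1 : ∀ i ∈ Finset.range (Q.natDegree + 1),
        St.cst (Q.coeff i) * (St.mk f) ^ i = St.mk (fun j => Q.coeff i * f j ^ i) := by
      intro i _
      rw [St.cst_apply, ← map_pow, ← map_mul]
      rfl
    rw [Finset.sum_congr rfl h1, ← map_sum]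
    congr 1
    funext j
    rw [Finset.sum_apply, eval_eq_sum_range]
  rw [heval, St.val_lt] at h
  -- the lift of `Q` to `V`
  have hlift : Q ∈ lifts (algebraMap V L) := by
    rw [lifts_iff_coeff_lifts]
    intro i
    exact ⟨⟨Q.coeff i, hQ i⟩, rfl⟩
  obtain ⟨Q', hQ'⟩ := hlift
  have hQ'' : Q'.map (algebraMap V L) = Q := hQ'
  set q : (ResidueField V)[X] := Q'.map (residue V) with hq
  have hq0 : q ≠ 0 := by
    obtain ⟨i, hi⟩ := hQ1
    intro h0
    have h1 : q.coeff i = 0 := by rw [h0, coeff_zero]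
    rw [hq, coeff_map, residue_eq_zero_iff, V.valuation_lt_one_iff] at h1
    have h2 : ((Q'.coeff i : V) : L) = Q.coeff i := by
      rw [← hQ'', coeff_map]
      rfl
    rw [h2, hi] at h1
    exact lt_irrefl _ h1
  have hev : ∀ᶠ j in (U : Filter ℕ), ∃ ζ ∈ {ζ | q.IsRoot ζ}, residue V ⟨f j, hf j⟩ = ζ := by
    refine h.mono fun j hj => ⟨_, ?_, rfl⟩
    show q.eval (residue V ⟨f j, hf j⟩) = 0
    rw [hq, eval_map_apply, residue_eq_zero_iff, V.valuation_lt_one_iff]
    have h2 : ((Q'.eval (⟨f j, hf j⟩ : V) : V) : L) = Q.eval (f j) := by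
      have h3 := eval_map_apply (algebraMap V L) (p := Q') (⟨f j, hf j⟩ : V)
      rw [hQ''] at h3
      exact h3.symm
    rwa [h2]
  rw [Ultrafilter.eventually_exists_mem_iff (finite_setOfPred_isRoot hq0)] at hev
  obtain ⟨ζ, -, hζ⟩ := hev
  obtain ⟨l, hl⟩ := residue_surjective ζ
  refine ⟨l, l.2, ?_⟩
  rw [St.cst_apply, ← map_sub, St.val_lt]
  refine hζ.mono fun j hj => ?_
  have h4 : residue V (⟨f j, hf j⟩ - l) = 0 := by
    rw [map_sub, hj, hl, sub_self]
  rw [residue_eq_zero_iff, V.valuation_lt_one_iff] at h4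
  exact h4

end TR
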