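import Pool.Agent.Lib.TR.Defs

/-!
# Module TR.H1: isometric embeddings in the algebraic closure of the completion
-/

open Polynomial MP1a953e IsLocalRing DA Filter UniformSpace

namespace TR
open Pool.Agent.Lib.MP_3029eb_ag Pool.Agent.Lib.MP_3029eb_ag.Abh CS

private theorem emb_aux {K M N : Type} [NontriviallyNormedField K] [IsUltrametricDist K]
    [CompleteSpace K] [NormedField M] [Field N] (φ : K →+* M) (hφ : ∀ x, ‖φ x‖ = ‖x‖)
    (j : N →+* M) (hj : ∀ x : N, ∃ P : Polynomial K, P ≠ 0 ∧ eval₂ φ (j x) P = 0) :
    ∃ ι : N →+* AlgebraicClosure K,
      (∀ (x : N) (y : K), j x = φ y → ι x = algebraMap K (AlgebraicClosure K) y) ∧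
      ∀ x, spectralNorm K (AlgebraicClosure K) (ι x) = ‖j x‖ := by
  letI : Algebra K M := φ.toAlgebra
  have hmem : ∀ x, j x ∈ algebraicClosure K M := fun x => by
    rw [mem_algebraicClosure_iff]
    obtain ⟨P, h1, h2⟩ := hj x
    exact ⟨P, h1, h2⟩
  let g : algebraicClosure K M →ₐ[K] AlgebraicClosure K := IsAlgClosed.lift
  let j' : N →+* algebraicClosure K M := j.codRestrict (algebraicClosure K M) hmem
  refine ⟨g.toRingHom.comp j', ?_, ?_⟩
  · intro x y hxy
    have h1 : j' x = algebraMap K (algebraicClosure K M) y := Subtype.ext hxy
    show g (j' x) = _
    rw [h1, g.commutes]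
  · intro x
    have h1 : minpoly K (g (j' x)) = minpoly K (j' x) := minpoly.algHom_eq g g.injective _
    let f : AbsoluteValue (algebraicClosure K M) ℝ :=
      { toFun := fun z => ‖(z : M)‖
        map_mul' := fun a b => norm_mul (a : M) (b : M)
        nonneg' := fun a => norm_nonneg _
        eq_zero' := fun a => by simp
        add_le' := fun a b => norm_add_le (a : M) (b : M) }
    have h2 : f (j' x) = spectralNorm K (algebraicClosure K M) (j' x) :=
      spectralNorm_unique_field_norm_ext (f := f) (fun y => hφ y) _
    show spectralValue (minpoly K (g (j' x))) = _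
    rw [h1]
    exact h2.symm

/-- Let `N` be an algebraic normed extension of `F`. There is an embedding of `N` in the algebraic closure of the completion of
`F` over `F` such that the norm is the spectral norm.
Proof. The completion `N^` of `N` is a normed field (`Completion`), `F → N` extends to an isometric homomorphism
`F^ → N^` (`UniformSpace.Completion.mapRingHom`, `Completion.extensionHom`), so `N^` is a normed algebra over `F^`.
Let `A` be the algebraic closure of `F^` in `N^` (`algebraicClosure F^ N^`, an intermediate field with the norm of
`N^`); the image of `N` is in `A` because `N / F` is algebraic. `F^` is complete and ultrametric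
(density), so the norm of `A` is the spectral norm (`spectralNorm_unique_field_norm_ext`). Compose `N → A` with an embedding
`IsAlgClosed.lift : A →ₐ[F^] AlgebraicClosure F^`; the spectral norm depends only on the minimal polynomial
(`spectralNorm`, `minpoly.algHom_eq`). -/
theorem exists_emb {F N : Type} [NontriviallyNormedField F] [IsUltrametricDist F] [NormedField N]
    [IsUltrametricDist N] [NormedAlgebra F N] [Algebra.IsAlgebraic F N] :
    ∃ ι : N →+* AlgebraicClosure (Completion F),
      (∀ x : F, ι (algebraMap F N x) =
        algebraMap (Completion F) (AlgebraicClosure (Completion F)) (x : Completion F)) ∧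
      ∀ x, spectralNorm (Completion F) (AlgebraicClosure (Completion F)) (ι x) = ‖x‖ := by
  letI : NontriviallyNormedField (Completion F) :=
    { (inferInstance : NormedField (Completion F)) with
      non_trivial := by
        obtain ⟨x, hx⟩ := NontriviallyNormedField.non_trivial (α := F)
        exact ⟨(x : Completion F), by rw [Completion.norm_coe]; exact hx⟩ }
  haveI : IsUltrametricDist (Completion F) := by
    refine IsUltrametricDist.isUltrametricDist_of_forall_norm_add_le_max_norm fun x y => ?_
    induction x, y using Completion.induction_on₂ with
    | hp =>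
      apply isClosed_le
      · fun_prop
      · fun_prop
    | ih x y =>
      rw [← Completion.coe_add, Completion.norm_coe, Completion.norm_coe, Completion.norm_coe]
      exact IsUltrametricDist.norm_add_le_max x y
  have hcont : Continuous (algebraMap F N) := continuous_algebraMap F N
  let φ : Completion F →+* Completion N := Completion.mapRingHom (algebraMap F N) hcont
  have hφc : ∀ x : F, φ (x : Completion F) = ((algebraMap F N x : N) : Completion N) :=
    fun x => Completion.mapRingHom_coe hcont x
  have hφcont : Continuous φ := Completion.continuous_map
  have hφ : ∀ x, ‖φ x‖ = ‖x‖ := by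
    intro x
    induction x using Completion.induction_on with
    | hp => exact isClosed_eq (hφcont.norm) continuous_norm
    | ih x => rw [hφc, Completion.norm_coe, Completion.norm_coe, norm_algebraMap']
  obtain ⟨ι, h1, h2⟩ := emb_aux (K := Completion F) φ hφ
    (Completion.coeRingHom : N →+* Completion N) (fun x => by
      obtain ⟨P, hP, hx⟩ := Algebra.IsAlgebraic.isAlgebraic (R := F) x
      refine ⟨P.map (Completion.coeRingHom : F →+* Completion F),
        (Polynomial.map_ne_zero_iff (RingHom.injective _)).2 hP, ?_⟩
      rw [eval₂_map]
      have h3 : φ.comp (Completion.coeRingHom : F →+* Completion F) =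
          (Completion.coeRingHom : N →+* Completion N).comp (algebraMap F N) :=
        RingHom.ext fun y => hφc y
      rw [h3, ← hom_eval₂, ← aeval_def, hx, map_zero])
  refine ⟨ι, fun x => h1 _ _ (hφc x).symm, fun x => ?_⟩
  rw [h2]
  exact Completion.norm_coe x

end TR
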