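import Pool.Agent.Lib.TR.Defs

/-!
# Module TR.K1: Kaplansky's dichotomy
-/

open Polynomial MP1a953e IsLocalRing DA Filter

namespace TR
open Pool.Agent.Lib.MP_3029eb_ag Pool.Agent.Lib.MP_3029eb_ag.Abh CS

private theorem k1_norm_sum_lt {L : Type} [NormedField L] [IsUltrametricDist L] (s : Finset ℕ)
    (f : ℕ → L) {T : ℝ} (hT : 0 < T) (h : ∀ i ∈ s, ‖f i‖ < T) : ‖∑ i ∈ s, f i‖ < T := by
  classical
  induction s using Finset.induction_on with
  | empty => simpa using hT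
  | insert b s hb ih =>
    rw [Finset.sum_insert hb]
    refine lt_of_le_of_lt (IsUltrametricDist.norm_add_le_max _ _) (max_lt ?_ ?_)
    · exact h b (Finset.mem_insert_self _ _)
    · exact ih fun i hi => h i (Finset.mem_insert_of_mem hi)

private theorem k1_rho_pos {L : Type} [NormedField L] {a : ℕ → L} {ρ : ℕ → ℝ}
    (hρ : StrictAnti ρ) (ha : ∀ i j, j < i → ‖a i - a j‖ = ρ j) (j : ℕ) : 0 < ρ j := by
  have h1 : ρ (j + 1) < ρ j := hρ (Nat.lt_succ_self j)
  have h2 : 0 ≤ ρ (j + 1) := by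
    rw [← ha (j + 2) (j + 1) (Nat.lt_succ_self _)]
    exact norm_nonneg _
  exact lt_of_le_of_lt h2 h1

private theorem k1_lt_or {ρ : ℕ → ℝ} (hρ : StrictAnti ρ) (hpos : ∀ j, 0 < ρ j) {g g' : ℝ}
    (_hg : 0 < g) (hg' : 0 < g') {m m' : ℕ} (hm : m < m') :
    (∀ᶠ j in atTop, g * ρ j ^ m < g' * ρ j ^ m') ∨
      ∀ᶠ j in atTop, g' * ρ j ^ m' < g * ρ j ^ m := by
  obtain ⟨d, rfl⟩ : ∃ d, m' = m + (d + 1) := ⟨m' - m - 1, by lia⟩
  have key : ∀ j, g' * ρ j ^ (m + (d + 1)) = (g' * ρ j ^ (d + 1)) * ρ j ^ m := fun j => by ring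
  by_cases h : ∃ j0, g' * ρ j0 ^ (d + 1) ≤ g
  · right
    obtain ⟨j0, hj0⟩ := h
    filter_upwards [eventually_gt_atTop j0] with j hj
    rw [key]
    refine mul_lt_mul_of_pos_right ?_ (pow_pos (hpos j) m)
    refine lt_of_lt_of_le ?_ hj0
    refine mul_lt_mul_of_pos_left ?_ hg'
    exact pow_lt_pow_left₀ (hρ hj) (hpos j).le (Nat.succ_ne_zero d)
  · left
    push Not at h
    refine Filter.Eventually.of_forall fun j => ?_
    rw [key]
    exact mul_lt_mul_of_pos_right (h j) (pow_pos (hpos j) m)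

private theorem k1_dom {ρ : ℕ → ℝ} (hρ : StrictAnti ρ) (hpos : ∀ j, 0 < ρ j) (γ : ℕ → ℝ)
    (S : Finset ℕ) (hS : S.Nonempty) (hγ : ∀ m ∈ S, 0 < γ m) :
    ∃ m0 ∈ S, ∀ m ∈ S, m ≠ m0 → ∀ᶠ j in atTop, γ m * ρ j ^ m < γ m0 * ρ j ^ m0 := by
  classical
  induction hS using Finset.Nonempty.cons_induction with
  | singleton b =>
    refine ⟨b, Finset.mem_singleton_self b, fun m hm hne => ?_⟩
    exact absurd (Finset.mem_singleton.1 hm) hne
  | cons b s hb hs ih =>
    obtain ⟨m0, hm0, h0⟩ := ih fun m hm => hγ m (Finset.mem_cons_of_mem hm)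
    have hbm : b ≠ m0 := fun e => hb (e ▸ hm0)
    have hgb : 0 < γ b := hγ b (Finset.mem_cons_self b s)
    have hg0 : 0 < γ m0 := hγ m0 (Finset.mem_cons_of_mem hm0)
    have hor : (∀ᶠ j in atTop, γ b * ρ j ^ b < γ m0 * ρ j ^ m0) ∨
        ∀ᶠ j in atTop, γ m0 * ρ j ^ m0 < γ b * ρ j ^ b := by
      rcases lt_or_gt_of_ne hbm with h | h
      · exact k1_lt_or hρ hpos hgb hg0 h
      · exact (k1_lt_or hρ hpos hg0 hgb h).symm
    rcases hor with h | h
    · refine ⟨m0, Finset.mem_cons_of_mem hm0, fun m hm hne => ?_⟩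
      rcases Finset.mem_cons.1 hm with rfl | hm
      · exact h
      · exact h0 m hm hne
    · refine ⟨b, Finset.mem_cons_self b s, fun m hm hne => ?_⟩
      rcases Finset.mem_cons.1 hm with rfl | hm
      · exact absurd rfl hne
      · rcases eq_or_ne m m0 with rfl | hmm
        · exact h
        · filter_upwards [h0 m hm hmm, h] with j h1 h2
          exact h1.trans h2

private theorem norm_sub_le_max_k1 {L : Type} [NormedField L] [IsUltrametricDist L] (x y : L) :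
    ‖x - y‖ ≤ max ‖x‖ ‖y‖ := by
  rw [sub_eq_add_neg, ← norm_neg y]
  exact IsUltrametricDist.norm_add_le_max _ _

/-- Taylor expansion. Let `P` be a polynomial of degree `n ≥ 1` such that the norms of the values at `a j` of all
Hasse derivatives `hasseDeriv m P`, `1 ≤ m ≤ n`, are eventually constant, `= γ m`. Then there is `m ≥ 1` with `γ m > 0` such
that eventually `‖P(a i) - P(a j)‖ = γ m * ρ j ^ m` for all `i > j`.
Proof. `P(a i) - P(a j) = ∑ m ≥ 1, (hasseDeriv m P)(a j) * (a i - a j) ^ m` (`Polynomial.taylor`,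
`Polynomial.taylor_coeff`), the terms have the norms `γ m * ρ j ^ m`. `γ n > 0`. For `m ≠ m'` with `γ m, γ m' > 0` the
inequality `γ m * ρ j ^ m < γ m' * ρ j ^ m'` is eventually true or eventually false and equality holds for at most one
`j`, because `ρ` is strictly decreasing and positive. So eventually one term is larger than all others
(`norm_sum` of the ultrametric inequality, strict maximum). -/
theorem kap_taylor {L : Type} [NormedField L] [IsUltrametricDist L] (a : ℕ → L) (ρ : ℕ → ℝ)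
    (hρ : StrictAnti ρ) (ha : ∀ i j, j < i → ‖a i - a j‖ = ρ j) (P : L[X])
    (hP : 0 < P.natDegree) (γ : ℕ → ℝ)
    (hγ : ∀ m, 0 < m → ∀ᶠ j in atTop, ‖(hasseDeriv m P).eval (a j)‖ = γ m) :
    ∃ m, 0 < m ∧ 0 < γ m ∧ ∀ᶠ j in atTop, ∀ i, j < i → ‖P.eval (a i) - P.eval (a j)‖ =
      γ m * ρ j ^ m := by
  have hpos := k1_rho_pos hρ ha
  set n := P.natDegree with hn
  have hγ0 : ∀ m, 0 < m → 0 ≤ γ m := fun m hm => by
    obtain ⟨j, hj⟩ := (hγ m hm).exists
    rw [← hj]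
    exact norm_nonneg _
  have hγn : 0 < γ n := by
    obtain ⟨j, hj⟩ := (hγ n hP).exists
    rw [← hj, ← taylor_coeff, coeff_taylor_natDegree, norm_pos_iff, Ne, leadingCoeff_eq_zero]
    rintro rfl
    simp [hn] at hP
  obtain ⟨m0, hm0, hdom⟩ := k1_dom hρ hpos γ ((Finset.Icc 1 n).filter fun m => 0 < γ m)
    ⟨n, Finset.mem_filter.2 ⟨Finset.mem_Icc.2 ⟨hP, le_rfl⟩, hγn⟩⟩
    (fun m hm => (Finset.mem_filter.1 hm).2)
  obtain ⟨hm0I, hm0g⟩ := Finset.mem_filter.1 hm0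
  have hm1 : 0 < m0 := (Finset.mem_Icc.1 hm0I).1
  refine ⟨m0, hm1, hm0g, ?_⟩
  have hdom' : ∀ᶠ j in atTop, ∀ m ∈ (Finset.Icc 1 n).erase m0,
      γ m * ρ j ^ m < γ m0 * ρ j ^ m0 := by
    rw [Filter.eventually_all_finset]
    intro m hm
    obtain ⟨hne, hmI⟩ := Finset.mem_erase.1 hm
    by_cases hg : 0 < γ m
    · exact hdom m (Finset.mem_filter.2 ⟨hmI, hg⟩) hne
    · have hz : γ m = 0 := le_antisymm (not_lt.1 hg) (hγ0 m (Finset.mem_Icc.1 hmI).1)
      refine Filter.Eventually.of_forall fun j => ?_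
      rw [hz, zero_mul]
      exact mul_pos hm0g (pow_pos (hpos j) _)
  have hγ' : ∀ᶠ j in atTop, ∀ m ∈ Finset.Icc 1 n, ‖(hasseDeriv m P).eval (a j)‖ = γ m := by
    rw [Filter.eventually_all_finset]
    intro m hm
    exact hγ m (Finset.mem_Icc.1 hm).1
  filter_upwards [hdom', hγ'] with j h1 h2 i hij
  have hexp : P.eval (a i) - P.eval (a j) =
      ∑ m ∈ Finset.Icc 1 n, (hasseDeriv m P).eval (a j) * (a i - a j) ^ m := by
    have e1 : P.eval (a i) = (taylor (a j) P).eval (a i - a j) := by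
      rw [taylor_eval, sub_add_cancel]
    rw [e1, eval_eq_sum_range, natDegree_taylor, ← hn, Finset.range_eq_Ico,
      Finset.sum_eq_sum_Ico_succ_bot (Nat.succ_pos n), taylor_coeff_zero, pow_zero, mul_one,
      add_sub_cancel_left]
    refine Finset.sum_congr ?_ fun m _ => by rw [taylor_coeff]
    ext m
    simp only [Finset.mem_Ico, Finset.mem_Icc]
    lia
  have hterm : ∀ m ∈ Finset.Icc 1 n,
      ‖(hasseDeriv m P).eval (a j) * (a i - a j) ^ m‖ = γ m * ρ j ^ m := fun m hm => by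
    rw [norm_mul, norm_pow, ha i j hij, h2 m hm]
  rw [hexp, ← Finset.add_sum_erase _ _ hm0I]
  have hT : 0 < γ m0 * ρ j ^ m0 := mul_pos hm0g (pow_pos (hpos j) _)
  have hrest : ‖∑ m ∈ (Finset.Icc 1 n).erase m0, (hasseDeriv m P).eval (a j) *
      (a i - a j) ^ m‖ < γ m0 * ρ j ^ m0 := by
    refine k1_norm_sum_lt _ _ hT fun m hm => ?_
    rw [hterm m (Finset.mem_of_mem_erase hm)]
    exact h1 m hm
  have hm0t := hterm m0 hm0I
  have hne : ‖(hasseDeriv m0 P).eval (a j) * (a i - a j) ^ m0‖ ≠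
      ‖∑ m ∈ (Finset.Icc 1 n).erase m0, (hasseDeriv m P).eval (a j) * (a i - a j) ^ m‖ := by
    rw [hm0t]
    exact hrest.ne'
  rw [IsUltrametricDist.norm_add_eq_max_of_norm_ne_norm hne, hm0t]
  exact max_eq_left hrest.le

/-- Proof. If there is a polynomial `P` for which `‖P(a j)‖` is not eventually constant, take one of minimal degree; then
`kap_taylor` applies, and eventually `‖P(a j)‖ = γ m * ρ j ^ m`: otherwise, for a fixed large `j`, `‖P(a i)‖` for `i > j` is the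
maximum of `‖P(a j)‖` and `γ m * ρ j ^ m`, so it is constant. If there is no such polynomial: `P` constant is trivial;
otherwise `kap_taylor` and `‖P(a j)‖ = γ₀` eventually; `γ m * ρ j ^ m = ‖P(a i) - P(a j)‖ ≤ γ₀` eventually, and the left side is
strictly decreasing, so it is `< γ₀` eventually. -/
theorem kaplansky {L : Type} [NormedField L] [IsUltrametricDist L] (a : ℕ → L) (ρ : ℕ → ℝ)
    (hρ : StrictAnti ρ) (ha : ∀ i j, j < i → ‖a i - a j‖ = ρ j) :
    (∃ P : L[X], 0 < P.natDegree ∧ ∃ (γ : ℝ) (m : ℕ), 0 < γ ∧ 0 < m ∧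
      ∀ᶠ j in atTop, ‖P.eval (a j)‖ = γ * ρ j ^ m) ∨
    ∀ P : L[X], P ≠ 0 → ∀ᶠ j in atTop, ∀ i, j < i →
      ‖P.eval (a i) - P.eval (a j)‖ < ‖P.eval (a j)‖ := by
  classical
  have hpos := k1_rho_pos hρ ha
  by_cases hc : ∃ P : L[X], ¬ ∃ γ : ℝ, ∀ᶠ j in atTop, ‖P.eval (a j)‖ = γ
  · left
    obtain ⟨P, hP, hmin⟩ : ∃ P : L[X], (¬ ∃ γ : ℝ, ∀ᶠ j in atTop, ‖P.eval (a j)‖ = γ) ∧
        ∀ Q : L[X], Q.natDegree < P.natDegree → ∃ γ : ℝ, ∀ᶠ j in atTop, ‖Q.eval (a j)‖ = γ := by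
      have hex : ∃ n : ℕ, ∃ P : L[X], (¬ ∃ γ : ℝ, ∀ᶠ j in atTop, ‖P.eval (a j)‖ = γ) ∧
          P.natDegree = n := by
        obtain ⟨P, hP⟩ := hc
        exact ⟨_, P, hP, rfl⟩
      obtain ⟨P, hP, hPn⟩ := Nat.find_spec hex
      refine ⟨P, hP, fun Q hQ => ?_⟩
      by_contra hQ'
      exact Nat.find_min hex (hPn ▸ hQ) ⟨Q, hQ', rfl⟩
    have hdeg : 0 < P.natDegree := by
      rcases Nat.eq_zero_or_pos P.natDegree with h0 | h0
      · exfalso
        refine hP ⟨‖P.coeff 0‖, Filter.Eventually.of_forall fun j => ?_⟩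
        rw [eq_C_of_natDegree_eq_zero h0, eval_C, coeff_C_zero]
      · exact h0
    have hD : ∀ m, ∃ γ : ℝ, 0 < m → ∀ᶠ j in atTop, ‖(hasseDeriv m P).eval (a j)‖ = γ := by
      intro m
      by_cases hm : 0 < m
      · obtain ⟨γ, hγ⟩ := hmin (hasseDeriv m P)
          (lt_of_le_of_lt (natDegree_hasseDeriv_le P m) (by lia))
        exact ⟨γ, fun _ => hγ⟩
      · exact ⟨0, fun h => absurd h hm⟩
    choose γ hγ using hD
    obtain ⟨m, hm, hgm, hev⟩ := kap_taylor a ρ hρ ha P hdeg γ hγ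
    refine ⟨P, hdeg, γ m, m, hgm, hm, ?_⟩
    by_contra hcon
    rw [Filter.not_eventually] at hcon
    obtain ⟨j, hj1, hj2⟩ := (hcon.and_eventually hev).exists
    refine hP ⟨max ‖P.eval (a j)‖ (γ m * ρ j ^ m), ?_⟩
    filter_upwards [eventually_gt_atTop j] with i hi
    have e : P.eval (a i) = P.eval (a j) + (P.eval (a i) - P.eval (a j)) := by ring
    have hne : ‖P.eval (a j)‖ ≠ ‖P.eval (a i) - P.eval (a j)‖ := by
      rw [hj2 i hi]
      exact hj1
    rw [e, IsUltrametricDist.norm_add_eq_max_of_norm_ne_norm hne, hj2 i hi]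
  · right
    push Not at hc
    intro P hP0
    rcases Nat.eq_zero_or_pos P.natDegree with h0 | hdeg
    · have hPc := eq_C_of_natDegree_eq_zero h0
      have hc0 : P.coeff 0 ≠ 0 := fun h => hP0 (by rw [hPc, h, C_0])
      refine Filter.Eventually.of_forall fun j i _ => ?_
      rw [hPc, eval_C, eval_C, sub_self, norm_zero]
      exact norm_pos_iff.2 hc0
    · choose γ' hγ' using hc
      obtain ⟨m, hm, hgm, hev⟩ := kap_taylor a ρ hρ ha P hdeg (fun m => γ' (hasseDeriv m P))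
        (fun m _ => hγ' (hasseDeriv m P))
      obtain ⟨J, hJ⟩ := Filter.eventually_atTop.1 (hev.and (hγ' P))
      filter_upwards [eventually_gt_atTop J] with j hj i hij
      obtain ⟨k, rfl⟩ : ∃ k, j = k + 1 := ⟨j - 1, by lia⟩
      have hk : J ≤ k := by lia
      rw [(hJ (k + 1) hj.le).1 i hij, (hJ (k + 1) hj.le).2]
      have h1 : γ' (hasseDeriv m P) * ρ k ^ m ≤ γ' P := by
        rw [← (hJ k hk).1 (k + 1) (Nat.lt_succ_self k)]
        refine le_trans (norm_sub_le_max_k1 _ _) ?_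
        rw [(hJ (k + 1) hj.le).2, (hJ k hk).2, max_self]
      refine lt_of_lt_of_le ?_ h1
      refine mul_lt_mul_of_pos_left ?_ hgm
      exact pow_lt_pow_left₀ (hρ (Nat.lt_succ_self k)) (hpos _).le hm.ne'

end TR
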