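import Pool.Agent.Lib.TR.E1

/-!
# Module TR.N1: norms of constants are exact
-/

open Polynomial MP1a953e IsLocalRing DA Filter

namespace TR
open Pool.Agent.Lib.MP_3029eb_ag Pool.Agent.Lib.MP_3029eb_ag.Abh CS

/-- Proof. `x = 0`: `b = 0`. Otherwise `‖x - b₀‖ < ‖x‖` with `b₀ ∈ k`; `Φ x = St.mk fun j => b' j` with `b' j ∈ k` (`h.con`), and
`StN (Φ x - St.cst b₀) ‖x - b₀‖` (`h.nrm`, `h.cst`, `hcomm`), so `‖b' j - b₀‖ < ‖x‖ = ‖b₀‖` for almost all `j`, so `‖b' j‖ = ‖b₀‖`
for almost all `j`; change the other members to `b₀` (`St.mk_eq`). -/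
theorem exists_exact {k k1 L M1 : Type} [NontriviallyNormedField k] [IsUltrametricDist k]
    [NormedField k1] [IsUltrametricDist k1] [NormedAlgebra k k1]
    [NormedField L] [IsUltrametricDist L] [NormedAlgebra k L]
    [NormedField M1] [IsUltrametricDist M1] [NormedAlgebra k1 M1] [NormedAlgebra L M1]
    {c : k1} {a : ℕ → k} {Φ : M1 →+* St L} (h : IsPhi (k := k) c a Φ)
    (hcomm : ∀ x : k, algebraMap k1 M1 (algebraMap k k1 x) = algebraMap L M1 (algebraMap k L x))
    (himm : ∀ x : k1, x ≠ 0 → ∃ b : k, ‖x - algebraMap k k1 b‖ < ‖x‖) (x : k1) :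
    ∃ b : ℕ → k, (∀ j, ‖b j‖ = ‖x‖) ∧
      Φ (algebraMap k1 M1 x) = St.mk fun j => algebraMap k L (b j) := by
  classical
  rcases eq_or_ne x 0 with rfl | hx
  · refine ⟨fun _ => 0, fun _ => by rw [norm_zero, norm_zero], ?_⟩
    rw [map_zero, map_zero, ← map_zero (St.mk (L := L))]
    congr 1
    funext j
    exact (map_zero _).symm
  obtain ⟨b0, hb0⟩ := himm x hx
  have hb0n : ‖b0‖ = ‖x‖ := by
    have h1 : ‖algebraMap k k1 b0‖ = ‖x‖ := by
      have h2 : ‖x - algebraMap k k1 b0‖ < max ‖x‖ ‖algebraMap k k1 b0‖ :=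
        hb0.trans_le (le_max_left _ _)
      by_contra hne
      have h3 := IsUltrametricDist.norm_add_eq_max_of_norm_ne_norm
        (x := x) (y := -algebraMap k k1 b0) (by rw [norm_neg]; exact Ne.symm hne)
      rw [← sub_eq_add_neg, norm_neg] at h3
      exact absurd h3 h2.ne
    rwa [norm_algebraMap'] at h1
  obtain ⟨b', hb'⟩ := h.con x
  have hN := h.nrm (algebraMap k1 M1 x - algebraMap L M1 (algebraMap k L b0))
  rw [map_sub, h.cst, ← hb', St.cst_apply, ← map_sub, StN.mk_iff, ← hcomm, ← map_sub,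
    norm_algebraMap'] at hN
  have hev : ∀ᶠ j in (U : Filter ℕ), ‖b' j‖ = ‖x‖ := by
    refine (hN.eventually (gt_mem_nhds hb0)).mono fun j hj => ?_
    have h1 : ‖b' j - b0‖ < ‖x‖ := by
      have h2 : ‖algebraMap k L (b' j) - algebraMap k L b0‖ < ‖x‖ := hj
      rwa [← map_sub, norm_algebraMap'] at h2
    by_contra hne
    have h3 := IsUltrametricDist.norm_add_eq_max_of_norm_ne_norm
      (x := b' j) (y := -b0) (by rw [norm_neg, hb0n]; exact hne)
    rw [← sub_eq_add_neg, norm_neg] at h3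
    rw [h3, hb0n] at h1
    exact absurd (le_max_right _ _) (not_le.2 h1)
  refine ⟨fun j => if ‖b' j‖ = ‖x‖ then b' j else b0, fun j => ?_, ?_⟩
  · dsimp only
    split_ifs with h1
    · exact h1
    · exact hb0n
  · rw [← hb', St.mk_eq]
    refine hev.mono fun j hj => ?_
    show algebraMap k L (b' j) = algebraMap k L (if ‖b' j‖ = ‖x‖ then b' j else b0)
    rw [if_pos hj]

end TR
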