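import Pool.Agent.Lib.TR.G1

/-!
# Module TR.R1: residues of elements of `L(w)`, the value of `w` being independent
-/

open Polynomial MP1a953e IsLocalRing DA Filter

namespace TR
open Pool.Agent.Lib.MP_3029eb_ag Pool.Agent.Lib.MP_3029eb_ag.Abh CS

private theorem r1_one_add {K : Type} [Field K] {W : ValuationSubring K} {η : K}
    (h : W.valuation η < 1) : W.valuation (1 + η) = 1 := by
  have h1 := W.valuation.map_add_eq_of_lt_left (x := 1) (y := η) (by rwa [map_one])
  rw [h1, map_one]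

private theorem r1_div {K : Type} [Field K] {W : ValuationSubring K} {t1 t2 η1 η2 : K}
    (h1 : W.valuation η1 < 1) (h2 : W.valuation η2 < 1) :
    ∃ η, W.valuation η < 1 ∧ t1 * (1 + η1) / (t2 * (1 + η2)) = t1 / t2 * (1 + η) := by
  have h3 := r1_one_add h2
  have h4 : (1 + η2) ≠ 0 := by
    intro h
    rw [h, map_zero] at h3
    exact zero_ne_one h3
  refine ⟨(η1 - η2) / (1 + η2), ?_, ?_⟩
  · rw [map_div₀, h3, div_one]
    exact (W.valuation.map_sub _ _).trans_lt (max_lt h1 h2)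
  · field_simp
    ring

private theorem r1_poly {L : Type} [NormedField L] [IsUltrametricDist L] {w : St L}
    (hw : ∀ n : ℤ, n ≠ 0 → ∀ l : L,
      (St.val (ball L)).valuation (w ^ n) ≠ (St.val (ball L)).valuation (St.cst l))
    (D : L[X]) (hD : D ≠ 0) :
    ∃ (l : L) (n : ℕ) (η : St L), l ≠ 0 ∧ (St.val (ball L)).valuation η < 1 ∧
      eval₂ St.cst w D = St.cst l * w ^ n * (1 + η) := by
  have hw0 : w ≠ 0 := by
    intro h
    refine hw 1 one_ne_zero 0 ?_
    rw [h, map_zero, zpow_one]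
  have hc0 : ∀ l : L, l ≠ 0 → St.cst l ≠ 0 := fun l hl => (_root_.map_ne_zero St.cst).2 hl
  obtain ⟨i, hi, hmax⟩ := Finset.exists_max_image D.support
    (fun i => (St.val (ball L)).valuation (St.cst (D.coeff i) * w ^ i))
    (support_nonempty.2 hD)
  have hdi : D.coeff i ≠ 0 := mem_support_iff.1 hi
  have ht : St.cst (D.coeff i) * w ^ i ≠ 0 := mul_ne_zero (hc0 _ hdi) (pow_ne_zero _ hw0)
  refine ⟨D.coeff i, i, (∑ j ∈ D.support.erase i, St.cst (D.coeff j) * w ^ j) /
    (St.cst (D.coeff i) * w ^ i), hdi, ?_, ?_⟩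
  · rw [map_div₀]
    have hv : 0 < (St.val (ball L)).valuation (St.cst (D.coeff i) * w ^ i) :=
      zero_lt_iff.2 ((Valuation.ne_zero_iff _).2 ht)
    rw [div_lt_one₀ hv]
    refine Valuation.map_sum_lt _ hv.ne' ?_
    intro j hj
    obtain ⟨hji, hj⟩ := Finset.mem_erase.1 hj
    refine lt_of_le_of_ne (hmax j hj) ?_
    intro h
    have hdj : D.coeff j ≠ 0 := mem_support_iff.1 hj
    refine hw ((j : ℤ) - i) (sub_ne_zero.2 (by exact_mod_cast hji)) (D.coeff i / D.coeff j) ?_
    rw [zpow_sub₀ hw0, zpow_natCast, zpow_natCast, map_div₀, map_div₀, map_div₀]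
    rw [map_mul, map_mul] at h
    rw [div_eq_div_iff ((Valuation.ne_zero_iff _).2 (pow_ne_zero _ hw0))
      ((Valuation.ne_zero_iff _).2 (hc0 _ hdj)), mul_comm, h]
  · rw [mul_add, mul_one, mul_div_cancel₀ _ ht, eval₂_eq_sum, sum_def,
      Finset.add_sum_erase _ (fun j => St.cst (D.coeff j) * w ^ j) hi]

/-- Proof. `w ≠ 0` (`n = 1`, `l = 0`). An element `u` of the subfield generated by `L` and `w` is a fraction `D(w) / E(w)` of
polynomials over `L` (or show that the fractions form a subfield containing the generators). Let `O` be the ultrapower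
of the unit ball. The nonzero terms of `D(w) = ∑ d i * w ^ i` have different `O`-values, so `D(w) = d i * w ^ i * (1 + η)`
for one `i` with `O.valuation η < 1`, and the same for `E`. So `u = 0` or `u = l * w ^ n * (1 + η)`, `l ∈ L`, `l ≠ 0`, `n : ℤ`,
`O.valuation η < 1`. `u ∈ St.val V ⊆ O`. If `n ≠ 0` then the `O`-value of `u` is not one (`hw`: `w ^ n` has not the value of
`l⁻¹`), so it is `< 1`, and the `V`-value is `< 1` (`val_lt_of_le`, `St.val_mono`), `l = 0`. If `n = 0` then `u - l = l * η`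
has `O`-value `< 1` (the `O`-value of `l` is that of `u`), so `V`-value `< 1`, and `l = u - l * η` is in `V` (`St.cst_mem`). -/
theorem caseA {L : Type} [NormedField L] [IsUltrametricDist L] {w : St L}
    (hw : ∀ n : ℤ, n ≠ 0 → ∀ l : L,
      (St.val (ball L)).valuation (w ^ n) ≠ (St.val (ball L)).valuation (St.cst l))
    {V : ValuationSubring L} (hV : V ≤ ball L) {u : St L}
    (hu : u ∈ Subfield.closure (Set.range (St.cst (L := L)) ∪ {w})) (huV : u ∈ St.val V) :
    ∃ l ∈ V, (St.val V).valuation (u - St.cst l) < 1 := by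
  have hw0 : w ≠ 0 := by
    intro h
    refine hw 1 one_ne_zero 0 ?_
    rw [h, map_zero, zpow_one]
  have hle : St.val V ≤ St.val (ball L) := St.val_mono hV
  have hpol : ∀ y ∈ Subring.closure (Set.range (St.cst (L := L)) ∪ {w}),
      ∃ D : L[X], eval₂ St.cst w D = y := by
    have h : Subring.closure (Set.range (St.cst (L := L)) ∪ {w}) ≤
        (eval₂RingHom St.cst w).range := by
      rw [Subring.closure_le]
      rintro _ (⟨l, rfl⟩ | rfl)
      · exact ⟨C l, eval₂_C _ _⟩
      · exact ⟨X, eval₂_X _ _⟩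
    intro y hy
    obtain ⟨D, hD⟩ := h hy
    exact ⟨D, hD⟩
  obtain ⟨y, hy, z, hz, rfl⟩ := Subfield.mem_closure_iff.1 hu
  obtain ⟨D, rfl⟩ := hpol y hy
  obtain ⟨E, rfl⟩ := hpol z hz
  have zero_case : ∀ x : St L, x = 0 →
      ∃ l ∈ V, (St.val V).valuation (x - St.cst l) < 1 := by
    rintro x rfl
    exact ⟨0, V.zero_mem, by rw [map_zero, sub_zero, map_zero]; exact zero_lt_one⟩
  by_cases hD : D = 0
  · exact zero_case _ (by rw [hD, eval₂_zero, zero_div])
  by_cases hE : E = 0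
  · exact zero_case _ (by rw [hE, eval₂_zero, div_zero])
  obtain ⟨l1, n1, η1, hl1, hη1, e1⟩ := r1_poly hw D hD
  obtain ⟨l2, n2, η2, hl2, hη2, e2⟩ := r1_poly hw E hE
  obtain ⟨η, hη, e3⟩ := r1_div (t1 := St.cst l1 * w ^ n1) (t2 := St.cst l2 * w ^ n2) hη1 hη2
  rw [e1, e2, e3] at huV ⊢
  have e4 : St.cst l1 * w ^ n1 / (St.cst l2 * w ^ n2) =
      St.cst (l1 / l2) * w ^ ((n1 : ℤ) - n2) := by
    rw [zpow_sub₀ hw0, zpow_natCast, zpow_natCast, map_div₀]
    field_simp
  rw [e4] at huV ⊢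
  obtain ⟨l, hl⟩ : ∃ l, l = l1 / l2 := ⟨_, rfl⟩
  obtain ⟨n, hn⟩ : ∃ n : ℤ, n = (n1 : ℤ) - n2 := ⟨_, rfl⟩
  have hl0 : l ≠ 0 := by rw [hl]; exact div_ne_zero hl1 hl2
  rw [← hl, ← hn] at huV ⊢
  have huO := hle huV
  rw [← ValuationSubring.valuation_le_one_iff, map_mul, r1_one_add hη, mul_one] at huO
  have hcl : (St.val (ball L)).valuation (St.cst l) ≠ 0 :=
    (Valuation.ne_zero_iff _).2 ((_root_.map_ne_zero St.cst).2 hl0)
  by_cases hn0 : n = 0
  · rw [hn0, zpow_zero, mul_one] at huO huV ⊢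
    have h1 : (St.val V).valuation (St.cst l * (1 + η) - St.cst l) < 1 := by
      refine val_lt_of_le hle ?_
      have h2 : St.cst l * (1 + η) - St.cst l = St.cst l * η := by ring
      rw [h2, map_mul]
      exact mul_lt_one_of_nonneg_of_lt_one_right huO zero_le hη
    refine ⟨l, ?_, h1⟩
    rw [← St.cst_mem]
    have h3 : St.cst l = St.cst l * (1 + η) - (St.cst l * (1 + η) - St.cst l) := by ring
    rw [h3]
    exact sub_mem huV ((ValuationSubring.valuation_le_one_iff _ _).1 h1.le)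
  · refine ⟨0, V.zero_mem, ?_⟩
    rw [map_zero, sub_zero]
    refine val_lt_of_le hle ?_
    rw [map_mul, r1_one_add hη, mul_one]
    refine lt_of_le_of_ne huO ?_
    intro h
    refine hw n hn0 l⁻¹ ?_
    rw [map_inv₀, map_inv₀]
    rw [map_mul] at h
    exact eq_inv_of_mul_eq_one_right h

end TR
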