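import Pool.Agent.Lib.TR.G1

/-!
# Module TR.R2: residues of elements of `L(w)`, immediate case
-/

open Polynomial MP1a953e IsLocalRing DA Filter

namespace TR
open Pool.Agent.Lib.MP_3029eb_ag Pool.Agent.Lib.MP_3029eb_ag.Abh CS

private theorem r2_frac {L : Type} [NormedField L] [IsUltrametricDist L] {w u : St L}
    (hu : u ∈ Subfield.closure (Set.range (St.cst (L := L)) ∪ {w})) :
    ∃ D E : L[X], u = eval₂ St.cst w D / eval₂ St.cst w E := by
  rw [Subfield.mem_closure_iff] at hu
  obtain ⟨y, hy, z, hz, rfl⟩ := hu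
  have hle : Subring.closure (Set.range (St.cst (L := L)) ∪ {w}) ≤
      (eval₂RingHom (St.cst (L := L)) w).range := by
    rw [Subring.closure_le]
    rintro x (⟨l, rfl⟩ | hx)
    · exact ⟨C l, by simp⟩
    · rw [Set.mem_singleton_iff] at hx
      exact ⟨X, by rw [hx]; simp⟩
  obtain ⟨D, hD⟩ := hle hy
  obtain ⟨E, hE⟩ := hle hz
  exact ⟨D, E, by rw [← hD, ← hE]; rfl⟩

/-- Proof. An element `u ≠ 0` of the subfield generated by `L` and `w` is a fraction `D(w) / E(w)`, `D, E ≠ 0`, and by `hw`
`D(w) = d * (1 + η)`, `E(w) = e * (1 + η')`, with `d, e ∈ L` not zero and `η, η'` of value `< 1` in the ultrapower `O` of the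
unit ball, so `u = (d / e) * (1 + η'')`. With `l = d / e`: the `O`-value of `l` is that of `u`, `≤ 1`, so `u - l` has
`O`-value `< 1`, so `V`-value `< 1` (`val_lt_of_le`, `St.val_mono`), and `l ∈ V` (`St.cst_mem`). -/
theorem caseB {L : Type} [NormedField L] [IsUltrametricDist L] {w : St L}
    (hw : ∀ P : L[X], P ≠ 0 → ∃ l : L, (St.val (ball L)).valuation
      (eval₂ St.cst w P - St.cst l) < (St.val (ball L)).valuation (eval₂ St.cst w P))
    {V : ValuationSubring L} (hV : V ≤ ball L) {u : St L}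
    (hu : u ∈ Subfield.closure (Set.range (St.cst (L := L)) ∪ {w})) (huV : u ∈ St.val V) :
    ∃ l ∈ V, (St.val V).valuation (u - St.cst l) < 1 := by
  rcases eq_or_ne u 0 with h0 | h0
  · refine ⟨0, V.zero_mem, ?_⟩
    rw [h0, map_zero, sub_zero, map_zero]
    exact zero_lt_one
  obtain ⟨D, E, huDE⟩ := r2_frac hu
  set y : St L := eval₂ St.cst w D with hy
  set z : St L := eval₂ St.cst w E with hz
  have hy0 : y ≠ 0 := by rintro h; exact h0 (by rw [huDE, h, zero_div])
  have hz0 : z ≠ 0 := by rintro h; exact h0 (by rw [huDE, h, div_zero])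
  have hD0 : D ≠ 0 := by rintro rfl; exact hy0 (by rw [hy, eval₂_zero])
  have hE0 : E ≠ 0 := by rintro rfl; exact hz0 (by rw [hz, eval₂_zero])
  obtain ⟨d, hd⟩ := hw D hD0
  obtain ⟨e, he⟩ := hw E hE0
  set v := (St.val (ball L)).valuation with hv
  rw [← hy] at hd
  rw [← hz] at he
  have hvd : v (St.cst d) = v y := by
    have h1 : v (y - (y - St.cst d)) = v y := v.map_sub_eq_of_lt_left hd
    rwa [sub_sub_cancel] at h1
  have hve : v (St.cst e) = v z := by
    have h1 : v (z - (z - St.cst e)) = v z := v.map_sub_eq_of_lt_left he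
    rwa [sub_sub_cancel] at h1
  have hvy0 : v y ≠ 0 := (v.ne_zero_iff).2 hy0
  have hvz0 : v z ≠ 0 := (v.ne_zero_iff).2 hz0
  have he0 : (St.cst e : St L) ≠ 0 := by
    intro h
    rw [h, map_zero] at hve
    exact hvz0 hve.symm
  have hmain : v (u - St.cst (d / e)) < v u := by
    have h1 : u - St.cst (d / e) =
        ((y - St.cst d) * St.cst e - St.cst d * (z - St.cst e)) / (z * St.cst e) := by
      rw [huDE, map_div₀]
      field_simp
      ring
    have h2 : v ((y - St.cst d) * St.cst e - St.cst d * (z - St.cst e)) < v y * v z := by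
      refine v.map_sub_lt ?_ ?_
      · rw [map_mul, hve]
        exact mul_lt_mul_of_pos_right hd (zero_lt_iff.2 hvz0)
      · rw [map_mul, hvd]
        exact mul_lt_mul_of_pos_left he (zero_lt_iff.2 hvy0)
    rw [h1, map_div₀, map_mul, hve, huDE, map_div₀]
    have h3 : v y / v z = v y * v z / (v z * v z) := by
      rw [mul_div_mul_right _ _ hvz0]
    rw [h3]
    exact div_lt_div_of_pos_right h2 (zero_lt_iff.2 (mul_ne_zero hvz0 hvz0))
  have hu1 : v u ≤ 1 := ((St.val (ball L)).valuation_le_one_iff _).2 (St.val_mono hV huV)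
  have hlt : (St.val V).valuation (u - St.cst (d / e)) < 1 :=
    val_lt_of_le (St.val_mono hV) (hmain.trans_le hu1)
  refine ⟨d / e, ?_, hlt⟩
  rw [← St.cst_mem (V := V)]
  have h4 : u - St.cst (d / e) ∈ St.val V := ((St.val V).valuation_le_one_iff _).1 hlt.le
  have h5 : St.cst (d / e) = u - (u - St.cst (d / e)) := by ring
  rw [h5]
  exact sub_mem huV h4

end TR
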