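import Pool.Agent.Lib.TR.G2

/-!
# Module TR.R3: residues of algebraic elements
-/

open Polynomial MP1a953e IsLocalRing DA Filter

namespace TR
open Pool.Agent.Lib.MP_3029eb_ag Pool.Agent.Lib.MP_3029eb_ag.Abh CS

/-- Proof. Let `∑ c i * z ^ i = 0`, `c i ∈ F` not all zero; divide by the coefficient of largest `St.val V`-value: all `c i` are
in `St.val V` and one is `1`. By `hF` there are `l i ∈ V` with `c i - l i` of value `< 1`; for the coefficient `1` take
`l i` of value one (it is congruent to `1`). `Q = ∑ l i X ^ i` satisfies the hypotheses of `exists_residue`: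
`Q(z) = ∑ (l i - c i) * z ^ i` has value `< 1` because `z ∈ St.val V`. -/
theorem residue_of_algebraic {L : Type} [Field L] {V : ValuationSubring L}
    (F : Subfield (St L)) (hF : ∀ u ∈ F, u ∈ St.val V →
      ∃ l ∈ V, (St.val V).valuation (u - St.cst l) < 1) {z : St L} (hz : z ∈ St.val V)
    (halg : IsAlgebraic F z) : ∃ l ∈ V, (St.val V).valuation (z - St.cst l) < 1 := by
  classical
  obtain ⟨p, hp0, hp⟩ := halg
  have hne : p.support.Nonempty := by
    rw [Finset.nonempty_iff_ne_empty]
    intro h
    exact hp0 (Polynomial.support_eq_empty.1 h)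
  obtain ⟨m, hm, hmax⟩ := Finset.exists_max_image p.support
    (fun i => (St.val V).valuation ((p.coeff i : F) : St L)) hne
  have hm0 : ((p.coeff m : F) : St L) ≠ 0 := by
    intro h
    have : p.coeff m = 0 := by
      apply Subtype.ext
      simpa using h
    exact (Polynomial.mem_support_iff.1 hm) this
  set v := (St.val V).valuation with hv
  have hvm : v ((p.coeff m : F) : St L) ≠ 0 := by
    rw [hv]
    exact (_root_.map_ne_zero _).2 hm0
  -- the normalised coefficients
  let c : ℕ → St L := fun i => ((p.coeff i : F) : St L) / ((p.coeff m : F) : St L)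
  have hcF : ∀ i, c i ∈ F := fun i => F.div_mem (p.coeff i).2 (p.coeff m).2
  have hcV : ∀ i, c i ∈ St.val V := by
    intro i
    rw [← ValuationSubring.valuation_le_one_iff]
    by_cases hi : i ∈ p.support
    · have h1 := hmax i hi
      show v (((p.coeff i : F) : St L) / ((p.coeff m : F) : St L)) ≤ 1
      rw [map_div₀]
      exact div_le_one_of_le₀ h1 zero_le
    · have h0 : p.coeff i = 0 := Polynomial.notMem_support_iff.1 hi
      have : c i = 0 := by simp [c, h0]
      rw [this, map_zero]
      exact zero_le
  have hcm : c m = 1 := div_self hm0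
  have hsum : ∑ i ∈ p.support, c i * z ^ i = 0 := by
    have h1 : ∑ i ∈ p.support, ((p.coeff i : F) : St L) * z ^ i = 0 := by
      have := hp
      rw [Polynomial.aeval_eq_sum_range, ] at this
      rw [Polynomial.aeval_def, Polynomial.eval₂_eq_sum, Polynomial.sum_def] at hp
      exact hp
    have h2 : ∑ i ∈ p.support, c i * z ^ i
        = (∑ i ∈ p.support, ((p.coeff i : F) : St L) * z ^ i) / ((p.coeff m : F) : St L) := by
      rw [Finset.sum_div]
      refine Finset.sum_congr rfl fun i _ => ?_
      simp only [c]
      ring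
    rw [h2, h1, zero_div]
  choose l hlV hl using fun i => hF (c i) (hcF i) (hcV i)
  let Q : L[X] := ∑ i ∈ p.support, Polynomial.monomial i (l i)
  have hQc : ∀ i, Q.coeff i = if i ∈ p.support then l i else 0 := by
    intro i
    simp only [Q, Polynomial.finsetSum_coeff, Polynomial.coeff_monomial]
    rw [Finset.sum_ite_eq']
  refine exists_residue Q ?_ ?_ hz ?_
  · intro i
    rw [hQc]
    split_ifs
    · exact hlV i
    · exact V.zero_mem
  · refine ⟨m, ?_⟩
    rw [hQc, if_pos hm, ← St.cst_eq_one]
    have h1 : v (1 - St.cst (l m)) < 1 := by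
      have := hl m
      rw [hcm] at this
      exact this
    have h2 : St.cst (l m) = 1 - (1 - St.cst (l m)) := by ring
    rw [h2]
    have h3 : v (1 - St.cst (l m)) < v 1 := by rw [map_one]; exact h1
    rw [Valuation.map_sub_eq_of_lt_left _ h3, map_one]
  · have hev : eval₂ St.cst z Q = ∑ i ∈ p.support, (St.cst (l i) - c i) * z ^ i := by
      have h1 : eval₂ St.cst z Q = ∑ i ∈ p.support, St.cst (l i) * z ^ i := by
        simp only [Q, Polynomial.eval₂_finsetSum, Polynomial.eval₂_monomial]
      rw [h1]
      have h2 : ∑ i ∈ p.support, (St.cst (l i) - c i) * z ^ i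
          = ∑ i ∈ p.support, St.cst (l i) * z ^ i - ∑ i ∈ p.support, c i * z ^ i := by
        rw [← Finset.sum_sub_distrib]
        refine Finset.sum_congr rfl fun i _ => ?_
        ring
      rw [h2, hsum, sub_zero]
    rw [hev]
    refine Valuation.map_sum_lt _ one_ne_zero ?_
    intro i _
    rw [map_mul, map_pow]
    have h1 : v (St.cst (l i) - c i) < 1 := by
      rw [Valuation.map_sub_swap]
      exact hl i
    have h2 : v z ≤ 1 := (ValuationSubring.valuation_le_one_iff _ _).2 hz
    have h3 : v z ^ i ≤ 1 := pow_le_one' h2 i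
    calc v (St.cst (l i) - c i) * v z ^ i ≤ v (St.cst (l i) - c i) * 1 := by gcongr
      _ < 1 := by rw [mul_one]; exact h1

end TR
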