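import Pool.Agent.Lib.TR.R1
import Pool.Agent.Lib.TR.R2
import Pool.Agent.Lib.TR.R3
import Pool.Agent.Lib.TR.K1
import Pool.Agent.Lib.TR.E1

/-!
# Module TR.R4: residues of the elements of `M1`
-/

open Polynomial MP1a953e IsLocalRing DA Filter

namespace TR
open Pool.Agent.Lib.MP_3029eb_ag Pool.Agent.Lib.MP_3029eb_ag.Abh CS

private theorem r4_ball_le {L : Type} [NormedField L] [IsUltrametricDist L] {x y : L} :
    (ball L).valuation x ≤ (ball L).valuation y ↔ ‖x‖ ≤ ‖y‖ := by
  rcases eq_or_ne y 0 with rfl | hy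
  · rw [map_zero, norm_zero, le_zero_iff, map_eq_zero, norm_le_zero_iff]
  · have hv : (ball L).valuation y ≠ 0 := (_root_.map_ne_zero _).2 hy
    have h1 : (ball L).valuation x ≤ (ball L).valuation y ↔ (ball L).valuation (x / y) ≤ 1 := by
      rw [map_div₀, div_le_one₀ (zero_lt_iff.2 hv)]
    rw [h1, ValuationSubring.valuation_le_one_iff, mem_ball, norm_div,
      div_le_one₀ (norm_pos_iff.2 hy)]

private theorem r4_ball_lt {L : Type} [NormedField L] [IsUltrametricDist L] {x y : L} :
    (ball L).valuation x < (ball L).valuation y ↔ ‖x‖ < ‖y‖ := by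
  rw [← not_le, ← not_le, r4_ball_le]

private theorem r4_add {L : Type} [NormedField L] [IsUltrametricDist L] {x y : L}
    (h : ‖y‖ < ‖x‖) : ‖x + y‖ = ‖x‖ := by
  rw [IsUltrametricDist.norm_add_eq_max_of_norm_ne_norm h.ne', max_eq_left h.le]

private theorem r4_eval {L : Type} [Field L] (f : ℕ → L) (P : L[X]) :
    eval₂ St.cst (St.mk f) P = St.mk fun j => P.eval (f j) := by
  have h1 := hom_eval₂ P (Pi.constRingHom ℕ L) (St.mk (L := L)) f
  have h2 : eval₂ (Pi.constRingHom ℕ L) f P = fun j => P.eval (f j) := by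
    funext j
    have h3 := hom_eval₂ P (Pi.constRingHom ℕ L) (Pi.evalRingHom (fun _ => L) j) f
    have h4 : (Pi.evalRingHom (fun _ : ℕ => L) j).comp (Pi.constRingHom ℕ L) = RingHom.id L :=
      RingHom.ext fun x => rfl
    rw [h4] at h3
    exact h3
  rw [h2] at h1
  exact h1.symm

section
variable {k k1 L M1 : Type} [NontriviallyNormedField k] [IsUltrametricDist k]
    [IsAlgClosed k] [NormedField k1] [IsUltrametricDist k1] [IsAlgClosed k1] [NormedAlgebra k k1]
    [NormedField L] [IsUltrametricDist L] [NormedAlgebra k L]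
    [NormedField M1] [IsUltrametricDist M1] [NormedAlgebra k1 M1] [NormedAlgebra L M1]
    {c : k1} {a : ℕ → k} {Φ : M1 →+* St L}

/-- `M1` is algebraic over `L(P(c))` for every nonconstant polynomial `P` over `L`. Proof. `c` is algebraic over `L(P(c))`, the
elements of `k1` are algebraic over `k(c)` (`h.alg`, `h.comm`), and `M1` is generated by `L` and `k1` (`h.gen`). (Also `P = X`.)
The statement is about the images in `St L`: the elements `Φ z` are algebraic over the subfield generated by the
constants and `Φ (P(c))`. -/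
theorem algebraic_over (h : Step k k1 L M1 c a) (hΦ : IsPhi (k := k) c a Φ) (P : L[X])
    (hP : 0 < P.natDegree) (z : M1) :
    IsAlgebraic (Subfield.closure (Set.range (St.cst (L := L)) ∪
      {Φ (aeval (algebraMap k1 M1 c) P)})) (Φ z) := by
  set F : Subfield (St L) := Subfield.closure (Set.range (St.cst (L := L)) ∪
      {Φ (aeval (algebraMap k1 M1 c) P)}) with hF
  have hcst : ∀ l : L, St.cst l ∈ F := fun l =>
    Subfield.subset_closure (Or.inl ⟨l, rfl⟩)
  have hw : Φ (aeval (algebraMap k1 M1 c) P) ∈ F :=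
    Subfield.subset_closure (Or.inr rfl)
  -- the relative algebraic closure
  let A : IntermediateField F (St L) := algebraicClosure F (St L)
  have hA : ∀ x : St L, x ∈ A ↔ IsAlgebraic F x := fun x => mem_algebraicClosure_iff
  have hAc : ∀ x : St L, IsAlgebraic A x → IsAlgebraic F x := fun x hx => by
    have h1 : Algebra.IsAlgebraic F A := algebraicClosure.isAlgebraic F (St L)
    exact IsAlgebraic.restrictScalars F hx
  -- images of constants
  have hL : ∀ l : L, Φ (algebraMap L M1 l) ∈ A := fun l => by
    rw [hΦ.cst]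
    exact A.algebraMap_mem ⟨St.cst l, hcst l⟩
  -- the image of `c`
  have hc : Φ (algebraMap k1 M1 c) ∈ A := by
    rw [hA]
    let ι : L →+* F := (St.cst (L := L)).codRestrict F hcst
    refine ⟨P.map ι - C ⟨_, hw⟩, ?_, ?_⟩
    · intro h0
      have h1 : (P.map ι).natDegree = 0 := by
        rw [sub_eq_zero.1 h0, natDegree_C]
      rw [natDegree_map] at h1
      omega
    · rw [map_sub, aeval_C, aeval_def, eval₂_map, sub_eq_zero]
      have h2 : (algebraMap F (St L)).comp ι = St.cst := RingHom.ext fun x => rfl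
      rw [h2]
      have h3 := hom_eval₂ P (algebraMap L M1) Φ (algebraMap k1 M1 c)
      have h4 : Φ.comp (algebraMap L M1) = St.cst := RingHom.ext fun x => hΦ.cst x
      rw [h4] at h3
      rw [← h3]
      rfl
  -- the images of `k`
  have hk : ∀ y : k, Φ (algebraMap k1 M1 (algebraMap k k1 y)) ∈ A := fun y => by
    rw [h.comm]
    exact hL _
  -- the images of `k(c)`
  let S : Subfield M1 := A.toSubfield.comap Φ
  have hS : ∀ x : M1, x ∈ S ↔ Φ x ∈ A := fun x => Iff.rfl
  have hkc : ∀ y : k1, y ∈ IntermediateField.adjoin k {c} → Φ (algebraMap k1 M1 y) ∈ A := by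
    intro y hy
    let T : IntermediateField k k1 :=
      (S.comap (algebraMap k1 M1)).toIntermediateField fun x => hk x
    have hT : IntermediateField.adjoin k {c} ≤ T := by
      rw [IntermediateField.adjoin_le_iff, Set.singleton_subset_iff]
      exact hc
    exact hT hy
  -- the images of `k1`
  have hk1 : ∀ x : k1, Φ (algebraMap k1 M1 x) ∈ A := by
    intro x
    rw [hA]
    refine hAc _ ?_
    obtain ⟨p, hp, hpx⟩ := h.alg x
    let ψ : IntermediateField.adjoin k {c} →+* A :=
      ((Φ.comp (algebraMap k1 M1)).comp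
        (algebraMap (IntermediateField.adjoin k {c}) k1)).codRestrict A fun y => hkc y y.2
    refine ⟨p.map ψ, (Polynomial.map_ne_zero_iff ψ.injective).2 hp, ?_⟩
    rw [aeval_def, eval₂_map]
    have h1 : (algebraMap A (St L)).comp ψ = (Φ.comp (algebraMap k1 M1)).comp
        (algebraMap (IntermediateField.adjoin k {c}) k1) := RingHom.ext fun y => rfl
    rw [h1]
    have h2 := hom_eval₂ p (algebraMap (IntermediateField.adjoin k {c}) k1)
      (Φ.comp (algebraMap k1 M1)) x
    rw [aeval_def] at hpx
    rw [hpx, map_zero] at h2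
    exact h2.symm
  -- everything
  have hall : (⊤ : IntermediateField k1 M1) ≤ S.toIntermediateField hk1 := by
    rw [← h.gen, IntermediateField.adjoin_le_iff]
    rintro _ ⟨l, rfl⟩
    exact hL l
  have hz : z ∈ S.toIntermediateField hk1 := hall trivial
  exact (hA _).1 hz

/-- Proof. `kaplansky` for the sequence `algebraMap k L (a j)` and `ρ j = ‖c - a j‖` (strictly decreasing by `h.anti`;
`‖a i - a j‖ = ρ j` for `j < i`). In the first case let `w = Φ (P(c)) = St.mk fun j => P.eval (a j)`; its powers are not of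
constant value: `‖P(a j)‖ ^ n = ‖l‖` for almost all `j` contradicts that `γ * ρ j ^ m` takes every value at most once
(`St.val_le`, `ball`). So `caseA` holds for `w`; the elements `Φ z` are algebraic over the subfield generated by `L` and `w`
(`algebraic_over`), and `residue_of_algebraic` applies. In the second case `w = St.mk fun j => a j`, `hw` of `caseB` holds
with `l = P.eval (a j)` for one large `j`; `algebraic_over` for `P = X`. -/
theorem lemmaR (h : Step k k1 L M1 c a) (hΦ : IsPhi (k := k) c a Φ) (V : ValuationSubring L)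
    (hV : V ≤ ball L) (z : M1) (hz : Φ z ∈ St.val V) :
    ∃ l ∈ V, (St.val V).valuation (Φ z - St.cst l) < 1 := by
  have hρ0 : StrictAnti fun j => ‖c - algebraMap k k1 (a j)‖ := strictAnti_nat_of_succ_lt h.anti
  have hρpos : ∀ j, 0 < ‖c - algebraMap k k1 (a j)‖ := fun j =>
    (norm_nonneg _).trans_lt (h.anti j)
  have hdist : ∀ i j, j < i → ‖algebraMap k L (a i) - algebraMap k L (a j)‖ =
      ‖c - algebraMap k k1 (a j)‖ := by
    intro i j hij
    have h1 : ‖algebraMap k L (a i) - algebraMap k L (a j)‖ =
        ‖algebraMap k k1 (a i) - algebraMap k k1 (a j)‖ := by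
      rw [← map_sub, ← map_sub, norm_algebraMap', norm_algebraMap']
    rw [h1, show algebraMap k k1 (a i) - algebraMap k k1 (a j) =
      (c - algebraMap k k1 (a j)) - (c - algebraMap k k1 (a i)) by ring]
    have h2 := hρ0 hij
    rw [sub_eq_add_neg]
    exact r4_add (by rw [norm_neg]; exact h2)
  have hcΦ := hΦ.c
  rcases kaplansky (fun j => algebraMap k L (a j)) (fun j => ‖c - algebraMap k k1 (a j)‖) hρ0
    hdist with ⟨P, hP, γ, m, hγ, hm, hev⟩ | hcase
  · have hwdef : Φ (aeval (algebraMap k1 M1 c) P) =
        St.mk fun j => P.eval (algebraMap k L (a j)) := by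
      have h3 := hom_eval₂ P (algebraMap L M1) Φ (algebraMap k1 M1 c)
      have h4 : Φ.comp (algebraMap L M1) = St.cst := RingHom.ext fun x => hΦ.cst x
      rw [h4, hcΦ, r4_eval] at h3
      exact h3
    have hanti : StrictAnti fun j => γ * ‖c - algebraMap k k1 (a j)‖ ^ m := by
      intro i j hij
      exact mul_lt_mul_of_pos_left (pow_lt_pow_left₀ (hρ0 hij) (norm_nonneg _) hm.ne') hγ
    have hpos : ∀ j, 0 < γ * ‖c - algebraMap k k1 (a j)‖ ^ m := fun j =>
      mul_pos hγ (pow_pos (hρpos j) m)
    have key : ∀ n : ℕ, n ≠ 0 → ∀ l : L,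
        (St.val (ball L)).valuation (Φ (aeval (algebraMap k1 M1 c) P) ^ n) ≠
          (St.val (ball L)).valuation (St.cst l) := by
      intro n hn l heq
      rw [hwdef, ← map_pow, St.cst_apply] at heq
      have e1 := St.val_le.1 heq.le
      have e2 := St.val_le.1 heq.ge
      have e3 : ∀ᶠ j in (U : Filter ℕ), (γ * ‖c - algebraMap k k1 (a j)‖ ^ m) ^ n = ‖l‖ := by
        filter_upwards [e1, e2, ev_of_atTop hev] with j h1 h2 h3
        rw [r4_ball_le] at h1 h2
        have h4 : ‖(P.eval (algebraMap k L (a j))) ^ n‖ = ‖l‖ := le_antisymm h1 h2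
        rw [norm_pow, h3] at h4
        exact h4
      obtain ⟨j0, hj0⟩ := e3.exists
      obtain ⟨j1, hj1, hlt⟩ := (e3.and (ev_of_atTop (eventually_gt_atTop j0))).exists
      have h5 := pow_lt_pow_left₀ (hanti hlt) (hpos j1).le hn
      simp only at h5
      rw [hj0, hj1] at h5
      exact lt_irrefl _ h5
    have hw : ∀ n : ℤ, n ≠ 0 → ∀ l : L,
        (St.val (ball L)).valuation (Φ (aeval (algebraMap k1 M1 c) P) ^ n) ≠
          (St.val (ball L)).valuation (St.cst l) := by
      intro n hn l
      rcases le_total 0 n with h0 | h0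
      · obtain ⟨N, rfl⟩ := Int.eq_ofNat_of_zero_le h0
        rw [zpow_natCast]
        exact key N (by exact_mod_cast hn) l
      · obtain ⟨N, hN⟩ := Int.eq_ofNat_of_zero_le (neg_nonneg.2 h0)
        have hn' : n = -(N : ℤ) := by linarith
        subst hn'
        intro heq
        rw [zpow_neg, zpow_natCast, map_inv₀] at heq
        refine key N (by rintro rfl; exact hn (by simp)) l⁻¹ ?_
        rw [map_inv₀, map_inv₀, ← heq, inv_inv]
    exact residue_of_algebraic _ (fun u hu huV => caseA hw hV hu huV) hz
      (algebraic_over h hΦ P hP z)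
  · have hw : ∀ P : L[X], P ≠ 0 → ∃ l : L, (St.val (ball L)).valuation
        (eval₂ St.cst (Φ (algebraMap k1 M1 c)) P - St.cst l) <
          (St.val (ball L)).valuation (eval₂ St.cst (Φ (algebraMap k1 M1 c)) P) := by
      intro P hP
      obtain ⟨j, hj⟩ := (hcase P hP).exists
      refine ⟨P.eval (algebraMap k L (a j)), ?_⟩
      rw [hcΦ, r4_eval, St.cst_apply, ← map_sub, St.val_lt_iff]
      refine ev_of_atTop ?_
      filter_upwards [eventually_gt_atTop j] with i hi
      have h1 := hj i hi
      rw [r4_ball_lt]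
      have h2 : ‖P.eval (algebraMap k L (a i))‖ = ‖P.eval (algebraMap k L (a j))‖ := by
        have h3 : P.eval (algebraMap k L (a i)) = P.eval (algebraMap k L (a j)) +
          (P.eval (algebraMap k L (a i)) - P.eval (algebraMap k L (a j))) := by ring
        rw [h3]
        exact r4_add h1
      rw [h2]
      exact h1
    have halg := algebraic_over h hΦ X (by rw [natDegree_X]; exact one_pos) z
    rw [aeval_X] at halg
    exact residue_of_algebraic _ (fun u hu huV => caseB hw hV hu huV) hz halg

end

end TR
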