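import Pool.Agent.Lib.TR.G1

/-!
# Module TR.S1: elements of finitely generated rings in the ultrapower
-/

open Polynomial MP1a953e IsLocalRing DA Filter

namespace TR
open Pool.Agent.Lib.MP_3029eb_ag Pool.Agent.Lib.MP_3029eb_ag.Abh CS

section
variable {k k1 L M1 : Type} [NontriviallyNormedField k] [IsUltrametricDist k]
    [NormedField k1] [IsUltrametricDist k1] [NormedAlgebra k k1]
    [NormedField L] [IsUltrametricDist L] [NormedAlgebra k L]
    [NormedField M1] [IsUltrametricDist M1] [NormedAlgebra k1 M1] [NormedAlgebra L M1]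
    {Φ : M1 →+* St L}

/-- Proof. `Algebra.adjoin_induction`; constants: `h.con`. -/
theorem exists_seq_adjoin (h : TrData k k1 L M1 Φ) {ι : Type} (x : ι → M1) (X : ι → ℕ → L)
    (hX : ∀ i, Φ (x i) = St.mk (X i)) {r : M1}
    (hr : r ∈ Algebra.adjoin (O k1) (Set.range x)) :
    ∃ f : ℕ → L, (∀ j, f j ∈ Algebra.adjoin (O k) (Set.range fun i => X i j)) ∧
      Φ r = St.mk f := by
  induction hr using Algebra.adjoin_induction with
  | mem y hy =>
    obtain ⟨i, rfl⟩ := hy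
    exact ⟨X i, fun j => Algebra.subset_adjoin ⟨i, rfl⟩, hX i⟩
  | algebraMap c =>
    obtain ⟨b, hb, hb'⟩ := h.con (c : k1)
    refine ⟨fun j => algebraMap k L (b j), fun j => ?_, hb'⟩
    have h1 : ‖b j‖ ≤ 1 := by
      rw [hb j]
      exact mem_O.1 c.2
    exact Subalgebra.algebraMap_mem (Algebra.adjoin (O k) (Set.range fun i => X i j))
      (⟨b j, mem_O.2 h1⟩ : O k)
  | add y z _ _ hy hz =>
    obtain ⟨f, hf, hf'⟩ := hy
    obtain ⟨g, hg, hg'⟩ := hz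
    exact ⟨f + g, fun j => Subalgebra.add_mem _ (hf j) (hg j), by rw [map_add, map_add, hf', hg']⟩
  | mul y z _ _ hy hz =>
    obtain ⟨f, hf, hf'⟩ := hy
    obtain ⟨g, hg, hg'⟩ := hz
    exact ⟨f * g, fun j => Subalgebra.mul_mem _ (hf j) (hg j), by rw [map_mul, map_mul, hf', hg']⟩

private theorem s1_gen (h : TrData k k1 L M1 Φ) {ι : Type} (x : ι → M1) (X : ι → ℕ → L)
    (hX : ∀ i, Φ (x i) = St.mk (X i)) {G : Set M1} (hG : G = Set.range x) {G' : ℕ → Set L}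
    (hG' : ∀ j, G' j = Set.range fun i => X i j) {r : M1}
    (hr : r ∈ Algebra.adjoin (O k1) G) :
    ∃ f : ℕ → L, (∀ j, f j ∈ Algebra.adjoin (O k) (G' j)) ∧ Φ r = St.mk f := by
  subst hG
  obtain ⟨f, hf, hf'⟩ := exists_seq_adjoin h x X hX hr
  exact ⟨f, fun j => by rw [hG' j]; exact hf j, hf'⟩

private theorem s1_inv (f : ℕ → L) : (St.mk f)⁻¹ = St.mk (fun j => (f j)⁻¹) := rfl

/-- the same with the set `Set.range x ∪ Set.range v` -/
theorem exists_seq_CR0 (h : TrData k k1 L M1 Φ) {d q : ℕ} (x : Fin (d + 1) → M1)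
    (v : Fin q → M1) (X : Fin (d + 1) → ℕ → L) (Y : Fin q → ℕ → L)
    (hX : ∀ i, Φ (x i) = St.mk (X i)) (hY : ∀ i, Φ (v i) = St.mk (Y i)) {r : M1}
    (hr : r ∈ CR0 k1 x v) :
    ∃ f : ℕ → L, (∀ j, f j ∈ CR0 k (fun i => X i j) (fun i => Y i j)) ∧ Φ r = St.mk f := by
  refine s1_gen h (Sum.elim x v) (Sum.elim X Y) ?_ (Set.Sum.elim_range x v).symm ?_ hr
  · rintro (i | i)
    · exact hX i
    · exact hY i
  · intro j
    ext y
    constructor
    · rintro (⟨i, rfl⟩ | ⟨i, rfl⟩)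
      · exact ⟨Sum.inl i, rfl⟩
      · exact ⟨Sum.inr i, rfl⟩
    · rintro ⟨i | i, rfl⟩
      · exact Or.inl ⟨i, rfl⟩
      · exact Or.inr ⟨i, rfl⟩

/-- the same with one more generator -/
theorem exists_seq_CR1 (h : TrData k k1 L M1 Φ) {d q : ℕ} (x : Fin (d + 1) → M1)
    (v : Fin q → M1) (a : M1) (X : Fin (d + 1) → ℕ → L) (Y : Fin q → ℕ → L) (A : ℕ → L)
    (hX : ∀ i, Φ (x i) = St.mk (X i)) (hY : ∀ i, Φ (v i) = St.mk (Y i))
    (hA : Φ a = St.mk A) {r : M1}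
    (hr : r ∈ Algebra.adjoin (O k1) (Set.range x ∪ Set.range v ∪ {a})) :
    ∃ f : ℕ → L, (∀ j, f j ∈ Algebra.adjoin (O k) ((Set.range fun i => X i j) ∪
      (Set.range fun i => Y i j) ∪ {A j})) ∧ Φ r = St.mk f := by
  refine s1_gen h (Sum.elim (Sum.elim x v) (fun _ : Unit => a))
    (Sum.elim (Sum.elim X Y) (fun _ : Unit => A)) ?_ ?_ ?_ hr
  · rintro ((i | i) | i)
    · exact hX i
    · exact hY i
    · exact hA
  · ext y
    constructor
    · rintro ((⟨i, rfl⟩ | ⟨i, rfl⟩) | hy)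
      · exact ⟨Sum.inl (Sum.inl i), rfl⟩
      · exact ⟨Sum.inl (Sum.inr i), rfl⟩
      · exact ⟨Sum.inr (), (Set.mem_singleton_iff.1 hy).symm⟩
    · rintro ⟨(i | i) | i, rfl⟩
      · exact Or.inl (Or.inl ⟨i, rfl⟩)
      · exact Or.inl (Or.inr ⟨i, rfl⟩)
      · exact Or.inr rfl
  · intro j
    ext y
    constructor
    · rintro ((⟨i, rfl⟩ | ⟨i, rfl⟩) | hy)
      · exact ⟨Sum.inl (Sum.inl i), rfl⟩
      · exact ⟨Sum.inl (Sum.inr i), rfl⟩
      · exact ⟨Sum.inr (), (Set.mem_singleton_iff.1 hy).symm⟩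
    · rintro ⟨(i | i) | i, rfl⟩
      · exact Or.inl (Or.inl ⟨i, rfl⟩)
      · exact Or.inl (Or.inr ⟨i, rfl⟩)
      · exact Or.inr rfl

/-- the same for the ring of the chart -/
theorem exists_seq_CR (h : TrData k k1 L M1 Φ) {d q : ℕ} (x : Fin (d + 1) → M1)
    (v : Fin q → M1) (a s : M1) (X : Fin (d + 1) → ℕ → L) (Y : Fin q → ℕ → L) (A S : ℕ → L)
    (hX : ∀ i, Φ (x i) = St.mk (X i)) (hY : ∀ i, Φ (v i) = St.mk (Y i))
    (hA : Φ a = St.mk A) (hS : Φ s = St.mk S) {r : M1} (hr : r ∈ CR k1 x v a s) :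
    ∃ f : ℕ → L, (∀ j, f j ∈ CR k (fun i => X i j) (fun i => Y i j) (A j) (S j)) ∧
      Φ r = St.mk f := by
  refine s1_gen h (Sum.elim (Sum.elim x v) (fun b : Bool => cond b a s⁻¹))
    (Sum.elim (Sum.elim X Y) (fun b : Bool => cond b A (fun j => (S j)⁻¹))) ?_ ?_ ?_ hr
  · rintro ((i | i) | (_ | _))
    · exact hX i
    · exact hY i
    · show Φ s⁻¹ = St.mk (fun j => (S j)⁻¹)
      rw [map_inv₀, hS, s1_inv]
    · exact hA
  · ext y
    constructor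
    · rintro ((⟨i, rfl⟩ | ⟨i, rfl⟩) | (hy | hy))
      · exact ⟨Sum.inl (Sum.inl i), rfl⟩
      · exact ⟨Sum.inl (Sum.inr i), rfl⟩
      · exact ⟨Sum.inr true, hy.symm⟩
      · exact ⟨Sum.inr false, (Set.mem_singleton_iff.1 hy).symm⟩
    · rintro ⟨(i | i) | (_ | _), rfl⟩
      · exact Or.inl (Or.inl ⟨i, rfl⟩)
      · exact Or.inl (Or.inr ⟨i, rfl⟩)
      · exact Or.inr (Or.inr rfl)
      · exact Or.inr (Or.inl rfl)
  · intro j
    ext y
    constructor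
    · rintro ((⟨i, rfl⟩ | ⟨i, rfl⟩) | (hy | hy))
      · exact ⟨Sum.inl (Sum.inl i), rfl⟩
      · exact ⟨Sum.inl (Sum.inr i), rfl⟩
      · exact ⟨Sum.inr true, hy.symm⟩
      · exact ⟨Sum.inr false, (Set.mem_singleton_iff.1 hy).symm⟩
    · rintro ⟨(i | i) | (_ | _), rfl⟩
      · exact Or.inl (Or.inl ⟨i, rfl⟩)
      · exact Or.inl (Or.inr ⟨i, rfl⟩)
      · exact Or.inr (Or.inr rfl)
      · exact Or.inr (Or.inl rfl)

/-- a constant `c ≠ 0` of `k1` is the class of a sequence of nonzero constants of `k` -/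
theorem exists_seq_const (h : TrData k k1 L M1 Φ) (c : k1) : ∃ b : ℕ → k,
    (∀ j, ‖b j‖ = ‖c‖) ∧ Φ (algebraMap k1 M1 c) = St.mk fun j => algebraMap k L (b j) :=
  h.con c

end

end TR
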