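import Pool.Agent.Lib.TR.Defs
import Pool.Agent.Lib.DS.Co

/-!
# Module TR.S2: the data of a chart
-/

open Polynomial MP1a953e IsLocalRing DA Filter

namespace TR
open Pool.Agent.Lib.MP_3029eb_ag Pool.Agent.Lib.MP_3029eb_ag.Abh CS

/-- standard etale coordinates, with the homomorphism of the polynomial ring -/
private theorem s2_main {k L : Type} [NormedField k] [IsUltrametricDist k] [Field L] [Algebra k L]
    {B : Subalgebra (O k) L} {d : ℕ} {ϖ : O k} (φ : DS.SS d ϖ →ₐ[O k] B)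
    (hsm : φ.toRingHom.Smooth) (q : Ideal B) [q.IsPrime] :
    ∃ b : B, b ∉ q ∧ ∃ (n : ℕ) (ψ : DS.QQ d n ϖ →ₐ[O k] ↥(DS.adj1 B (b : L)⁻¹)),
      ψ.toRingHom.Etale ∧ (∀ x, (ψ (MvPolynomial.C x) : L) = φ x) ∧
      ∃ (F G : Polynomial (DS.QQ d n ϖ)) (α : ↥(DS.adj1 B (b : L)⁻¹)), F.Monic ∧
        F.eval₂ ψ.toRingHom α = 0 ∧ IsUnit (G.eval₂ ψ.toRingHom α) ∧
        IsUnit (F.derivative.eval₂ ψ.toRingHom α) ∧
        ∀ y, ∃ (p : Polynomial (DS.QQ d n ϖ)) (m : ℕ),
          y * (G.eval₂ ψ.toRingHom α) ^ m = p.eval₂ ψ.toRingHom α := by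
  let _ : Algebra (DS.SS d ϖ) B := φ.toRingHom.toAlgebra
  have hsm' : Algebra.Smooth (DS.SS d ϖ) B := hsm
  have : Algebra.FinitePresentation (DS.SS d ϖ) B := hsm'.finitePresentation
  have : Algebra.FormallySmooth (DS.SS d ϖ) B := hsm'.formallySmooth
  have : Algebra.IsSmoothAt (DS.SS d ϖ) q := by
    infer_instance
  obtain ⟨b, hb, n, alg, tow, hE⟩ :=
    Algebra.IsSmoothAt.exists_isStandardEtale_mvPolynomial (R := DS.SS d ϖ) (S := B) (p := q)
  have hb0 : (b : L) ≠ 0 := by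
    intro h
    apply hb
    have : b = 0 := Subtype.ext h
    rw [this]
    exact q.zero_mem
  have hmul : (b : L) * (b : L)⁻¹ = 1 := mul_inv_cancel₀ hb0
  let algB : Algebra B ↥(DS.adj1 B (b : L)⁻¹) :=
    (Subalgebra.inclusion (DS.le_adj1 B (b : L)⁻¹)).toRingHom.toAlgebra
  have hloc : IsLocalization.Away b ↥(DS.adj1 B (b : L)⁻¹) := DS.loc_adj1 B b hmul
  let e : Localization.Away b ≃ₐ[B] ↥(DS.adj1 B (b : L)⁻¹) :=
    IsLocalization.algEquiv (Submonoid.powers b) _ _
  have hC : ∀ x : DS.SS d ϖ, e (algebraMap (DS.QQ d n ϖ) (Localization.Away b)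
      (MvPolynomial.C x)) = algebraMap B ↥(DS.adj1 B (b : L)⁻¹) (φ x) := by
    intro x
    have h1 : algebraMap (DS.QQ d n ϖ) (Localization.Away b) (MvPolynomial.C x) =
        algebraMap B (Localization.Away b) (φ x) := by
      have h2 : algebraMap (DS.SS d ϖ) (Localization.Away b) x =
          algebraMap (DS.QQ d n ϖ) (Localization.Away b)
            (algebraMap (DS.SS d ϖ) (DS.QQ d n ϖ) x) :=
        IsScalarTower.algebraMap_apply _ _ _ x
      have h3 : algebraMap (DS.SS d ϖ) (Localization.Away b) x =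
          algebraMap B (Localization.Away b) (algebraMap (DS.SS d ϖ) B x) :=
        IsScalarTower.algebraMap_apply _ _ _ x
      exact h2.symm.trans h3
    rw [h1]
    exact e.commutes (φ x)
  let ψ0 : DS.QQ d n ϖ →+* ↥(DS.adj1 B (b : L)⁻¹) :=
    e.toRingEquiv.toRingHom.comp (algebraMap (DS.QQ d n ϖ) (Localization.Away b))
  let ψ : DS.QQ d n ϖ →ₐ[O k] ↥(DS.adj1 B (b : L)⁻¹) :=
    { ψ0 with
      commutes' := fun a => by
        have h1 : algebraMap (O k) (DS.QQ d n ϖ) a =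
          MvPolynomial.C (algebraMap (O k) (DS.SS d ϖ) a) := rfl
        have h2 : ψ0 (algebraMap (O k) (DS.QQ d n ϖ) a) =
            algebraMap B ↥(DS.adj1 B (b : L)⁻¹) (φ (algebraMap (O k) (DS.SS d ϖ) a)) := by
          rw [h1]
          exact hC _
        have h3 : φ (algebraMap (O k) (DS.SS d ϖ) a) = algebraMap (O k) B a := φ.commutes a
        rw [h3] at h2
        exact h2 }
  refine ⟨b, hb, n, ψ, ?_, ?_, ?_⟩
  · have h1 : Algebra.Etale (DS.QQ d n ϖ) (Localization.Away b) := by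
      infer_instance
    let _ : Algebra (DS.QQ d n ϖ) ↥(DS.adj1 B (b : L)⁻¹) := ψ0.toAlgebra
    let e' : Localization.Away b ≃ₐ[DS.QQ d n ϖ] ↥(DS.adj1 B (b : L)⁻¹) :=
      { e.toRingEquiv with commutes' := fun r => rfl }
    exact Algebra.Etale.of_equiv e'
  · intro x
    have := hC x
    have h4 : ψ (MvPolynomial.C x) = algebraMap B ↥(DS.adj1 B (b : L)⁻¹) (φ x) := this
    rw [h4]
    rfl
  · obtain ⟨P⟩ := hE.nonempty_standardEtalePresentation
    have hev : ∀ p : Polynomial (DS.QQ d n ϖ), p.eval₂ ψ.toRingHom (e P.x) =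
        e (aeval P.x p) := by
      intro p
      rw [Polynomial.aeval_def]
      exact (Polynomial.hom_eval₂ p (algebraMap (DS.QQ d n ϖ) (Localization.Away b))
        (e.toRingEquiv.toRingHom) P.x).symm
    refine ⟨P.f, P.g, e P.x, P.monic_f, ?_, ?_, ?_, ?_⟩
    · rw [hev, P.hasMap.1, map_zero]
    · rw [hev]
      exact P.hasMap.2.map e
    · rw [hev]
      exact P.hasMap.isUnit_derivative_f.map e
    · intro y
      obtain ⟨z, rfl⟩ := e.surjective y
      obtain ⟨p, m, hp⟩ := P.exists_mul_aeval_x_g_pow_eq_aeval_x z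
      refine ⟨p, m, ?_⟩
      rw [hev, hev, ← hp, map_mul, map_pow]


private theorem s2_mem {k L : Type} [NormedField k] [IsUltrametricDist k] [Field L] [Algebra k L]
    {d n : ℕ} {ϖ : O k} (F : DS.QQ d n ϖ →ₐ[O k] L) (p : DS.QQ d n ϖ) :
    F p ∈ CR0 k (fun i => F (MvPolynomial.C (DS.SS.x i))) (fun i => F (MvPolynomial.X i)) := by
  set R := CR0 k (fun i => F (MvPolynomial.C (DS.SS.x i))) (fun i => F (MvPolynomial.X i)) with hR
  have hx : ∀ i, F (MvPolynomial.C (DS.SS.x i)) ∈ R := fun i =>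
    Algebra.subset_adjoin (Or.inl ⟨i, rfl⟩)
  have hv : ∀ i, F (MvPolynomial.X i) ∈ R := fun i => Algebra.subset_adjoin (Or.inr ⟨i, rfl⟩)
  have hC : ∀ a : DS.SS d ϖ, F (MvPolynomial.C a) ∈ R := by
    intro a
    obtain ⟨y, rfl⟩ := DS.SS.mk_surjective d ϖ a
    induction y using MvPolynomial.induction_on with
    | C c =>
      have h1 : DS.SS.mk d ϖ (MvPolynomial.C c) = algebraMap (O k) (DS.SS d ϖ) c :=
        (DS.SS.mk d ϖ).commutes c
      have h2 : (MvPolynomial.C (DS.SS.mk d ϖ (MvPolynomial.C c)) : DS.QQ d n ϖ) =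
          algebraMap (O k) _ c := by
        rw [h1]
        rfl
      rw [h2, F.commutes]
      exact R.algebraMap_mem c
    | add p q hp hq =>
      rw [map_add, map_add, map_add]
      exact add_mem hp hq
    | mul_X p i hp =>
      rw [map_mul, map_mul, map_mul, DS.SS.mk_X]
      exact mul_mem hp (hx i)
  induction p using MvPolynomial.induction_on with
  | C a => exact hC a
  | add p q hp hq =>
    rw [map_add]
    exact add_mem hp hq
  | mul_X p i hp =>
    rw [map_mul]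
    exact mul_mem hp (hv i)

private theorem s2_unit {k L : Type} [NormedField k] [IsUltrametricDist k] [Field L] [Algebra k L]
    {D : Subalgebra (O k) L} {u : D} (hu : IsUnit u) : (u : L) ≠ 0 ∧ (u : L)⁻¹ ∈ D := by
  obtain ⟨w, hw⟩ := hu.exists_right_inv
  have h1 : (u : L) * (w : L) = 1 := congrArg Subtype.val hw
  have h2 : (u : L) ≠ 0 := left_ne_zero_of_mul_eq_one h1
  refine ⟨h2, ?_⟩
  rw [inv_eq_of_mul_eq_one_right h1]
  exact w.2

private theorem s2_cr {k L : Type} [NormedField k] [IsUltrametricDist k] [Field L] [Algebra k L]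
    {D : Subalgebra (O k) L} {d n : ℕ} {ϖ : O k} (ψ : DS.QQ d n ϖ →ₐ[O k] D)
    (x : Fin (d + 1) → L) (hx : ∀ i, (ψ (MvPolynomial.C (DS.SS.x i)) : L) = x i)
    {F G : Polynomial (DS.QQ d n ϖ)} {α : D} (hmon : F.Monic)
    (hF : F.eval₂ ψ.toRingHom α = 0) (hG : IsUnit (G.eval₂ ψ.toRingHom α))
    (hF' : IsUnit (F.derivative.eval₂ ψ.toRingHom α))
    (hsurj : ∀ y, ∃ (p : Polynomial (DS.QQ d n ϖ)) (m : ℕ),
          y * (G.eval₂ ψ.toRingHom α) ^ m = p.eval₂ ψ.toRingHom α) :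
    ∃ (v : Fin n → L) (a s : L) (f : Polynomial ↥(CR0 k x v)),
      f.Monic ∧ aeval a f = 0 ∧
      (∃ t ∈ Algebra.adjoin (O k) (Set.range x ∪ Set.range v ∪ {a}),
        s = aeval a (derivative f) * t) ∧ s ≠ 0 ∧ CR k x v a s = D := by
  let Ψ : DS.QQ d n ϖ →ₐ[O k] L := D.val.comp ψ
  let v : Fin n → L := fun i => Ψ (MvPolynomial.X i)
  have hmem : ∀ p, Ψ p ∈ CR0 k x v := by
    intro p
    have h1 := s2_mem Ψ p
    have h2 : (fun i => Ψ (MvPolynomial.C (DS.SS.x i))) = x := funext hx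
    rw [h2] at h1
    exact h1
  let Ψ0 : DS.QQ d n ϖ →+* ↥(CR0 k x v) := Ψ.toRingHom.codRestrict (CR0 k x v).toSubring hmem
  have hev : ∀ p : Polynomial (DS.QQ d n ϖ), aeval (α : L) (p.map Ψ0) =
      ((p.eval₂ ψ.toRingHom α : D) : L) := by
    intro p
    rw [Polynomial.aeval_def, Polynomial.eval₂_map]
    exact (Polynomial.hom_eval₂ p ψ.toRingHom D.val.toRingHom α).symm
  set R1 : Subalgebra (O k) L := Algebra.adjoin (O k) (Set.range x ∪ Set.range v ∪ {(α : L)})
    with hR1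
  have h01 : CR0 k x v ≤ R1 := Algebra.adjoin_mono Set.subset_union_left
  have hR1mem : ∀ p : Polynomial (DS.QQ d n ϖ), ((p.eval₂ ψ.toRingHom α : D) : L) ∈ R1 := by
    intro p
    rw [← hev, Polynomial.aeval_def, Polynomial.eval₂_eq_sum_range]
    refine R1.sum_mem fun i _ => R1.mul_mem ?_ (R1.pow_mem (Algebra.subset_adjoin (Or.inr rfl)) _)
    exact h01 (Subtype.mem _)
  have hu1 := s2_unit hG
  have hu2 := s2_unit hF'
  refine ⟨v, α, aeval (α : L) (derivative (F.map Ψ0)) * ((G.eval₂ ψ.toRingHom α : D) : L),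
    F.map Ψ0, hmon.map _, ?_, ⟨_, hR1mem G, rfl⟩, ?_, ?_⟩
  · rw [hev, hF]
    rfl
  · rw [Polynomial.derivative_map, hev]
    exact mul_ne_zero hu2.1 hu1.1
  · rw [Polynomial.derivative_map, hev]
    set u : L := ((F.derivative.eval₂ ψ.toRingHom α : D) : L) with hu
    set g : L := ((G.eval₂ ψ.toRingHom α : D) : L) with hg
    refine le_antisymm ?_ ?_
    · refine Algebra.adjoin_le ?_
      rintro y ((⟨i, rfl⟩ | ⟨i, rfl⟩) | hy | hy)
      · rw [← hx i]
        exact (ψ _).2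
      · exact (ψ (MvPolynomial.X i)).2
      · rw [hy]
        exact α.2
      · rw [Set.mem_singleton_iff] at hy
        rw [hy, mul_inv]
        exact mul_mem hu2.2 hu1.2
    · intro y hy
      have hle : R1 ≤ CR k x v α (u * g) := by
        refine Algebra.adjoin_mono (Set.union_subset_union_right _ ?_)
        intro z hz
        rw [Set.mem_singleton_iff] at hz
        rw [hz]
        exact Or.inl rfl
      have hs : (u * g)⁻¹ ∈ CR k x v α (u * g) :=
        Algebra.subset_adjoin (Or.inr (Or.inr rfl))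
      have hginv : g⁻¹ ∈ CR k x v α (u * g) := by
        have h1 : g⁻¹ = u * (u * g)⁻¹ := by
          rw [mul_inv, ← mul_assoc, mul_inv_cancel₀ hu2.1, one_mul]
        rw [h1]
        exact mul_mem (hle (hR1mem _)) hs
      obtain ⟨p, m, hp⟩ := hsurj ⟨y, hy⟩
      have hp' : y * g ^ m = ((p.eval₂ ψ.toRingHom α : D) : L) := by
        rw [← hp]
        rfl
      have h2 : y = ((p.eval₂ ψ.toRingHom α : D) : L) * g⁻¹ ^ m := by
        rw [← hp', mul_assoc, ← mul_pow, mul_inv_cancel₀ hu1.1, one_pow, mul_one]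
      rw [h2]
      exact mul_mem (hle (hR1mem _)) (pow_mem hginv m)

private theorem s2_std {k L : Type} [NormedField k] [IsUltrametricDist k] [Field L] [Algebra k L]
    {B : Subalgebra (O k) L} {d : ℕ} {ϖ : O k} (φ : DS.SS d ϖ →ₐ[O k] B)
    (hsm : φ.toRingHom.Smooth) (q : Ideal B) [q.IsPrime] :
    ∃ b : B, b ∉ q ∧ ∃ (n : ℕ) (ψ : DS.QQ d n ϖ →ₐ[O k] ↥(DS.adj1 B (b : L)⁻¹)),
      ψ.toRingHom.Etale ∧ (∀ x, (ψ (MvPolynomial.C x) : L) = φ x) ∧
      ∃ (v : Fin n → L) (a s : L) (f : Polynomial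
        ↥(CR0 k (fun i => (φ (DS.SS.x i) : L)) v)),
      f.Monic ∧ aeval a f = 0 ∧
      (∃ t ∈ Algebra.adjoin (O k) (Set.range (fun i => (φ (DS.SS.x i) : L)) ∪ Set.range v ∪ {a}),
        s = aeval a (derivative f) * t) ∧ s ≠ 0 ∧
      CR k (fun i => (φ (DS.SS.x i) : L)) v a s = DS.adj1 B (b : L)⁻¹ := by
  obtain ⟨b, hb, n, ψ, het, hψφ, F, G, α, hmon, hF, hG, hF', hsurj⟩ := s2_main φ hsm q
  exact ⟨b, hb, n, ψ, het, hψφ,
    s2_cr ψ (fun i => (φ (DS.SS.x i) : L)) (fun i => hψφ _) hmon hF hG hF' hsurj⟩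

/-- Standard etale coordinates at a prime. Proof. As `DS.exists_coord` (Pool/Agent/Lib/DS/Co.lean):
`Algebra.IsSmoothAt.exists_isStandardEtale_mvPolynomial` gives `b ∉ q` such that `B[1/b]` is standard etale over
`QQ d n ϖ = (SS d ϖ)[X 1, …, X n]`; a standard etale presentation (`StandardEtalePresentation`) gives `a ∈ B[1/b]`, a
monic polynomial `P.f` over `QQ d n ϖ` with `P.f(a) = 0` and `P.g(a)`, `P.f'(a)` units, and every element of `B[1/b]` times
a power of `P.g(a)` is a polynomial in `a` (`exists_mul_aeval_x_g_pow_eq_aeval_x`). The image of `QQ d n ϖ` in `L` is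
`CR0 k x v` with `x i = φ (SS.x i)`, `v i` the image of `X i`; `f` is the image of `P.f`. Let `s = f'(a) * g(a)`. Then
`B[1/b] = CR k x v a s` (both inclusions). -/
theorem exists_std {k L : Type} [NormedField k] [IsUltrametricDist k] [Field L] [Algebra k L]
    {B : Subalgebra (O k) L} {d : ℕ} {ϖ : O k} (φ : DS.SS d ϖ →ₐ[O k] B)
    (hsm : φ.toRingHom.Smooth) (q : Ideal B) [q.IsPrime] :
    ∃ b : B, b ∉ q ∧ ∃ (n : ℕ) (v : Fin n → L) (a s : L) (f : Polynomial
        ↥(CR0 k (fun i => (φ (DS.SS.x i) : L)) v)),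
      f.Monic ∧ aeval a f = 0 ∧
      (∃ t ∈ Algebra.adjoin (O k) (Set.range (fun i => (φ (DS.SS.x i) : L)) ∪ Set.range v ∪ {a}),
        s = aeval a (derivative f) * t) ∧ s ≠ 0 ∧
      (CR k (fun i => (φ (DS.SS.x i) : L)) v a s : Set L) = (DS.adj1 B (b : L)⁻¹ : Set L) := by
  obtain ⟨b, hb, n, ψ, -, -, v, a, s, f, h1, h2, h3, h4, h5⟩ := s2_std φ hsm q
  exact ⟨b, hb, n, v, a, s, f, h1, h2, h3, h4, by rw [h5]⟩

open scoped IntermediateField.algebraAdjoinAdjoin in
private theorem s2_alg (k : Type) {K : Type} [Field k] [Field K] [Algebra k K] (S : Set K)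
    (halg : Algebra.IsAlgebraic (IntermediateField.adjoin k S) K) :
    Algebra.IsAlgebraic (Algebra.adjoin k S) K :=
  (IsFractionRing.comap_isAlgebraic_iff (A := Algebra.adjoin k S)
    (K := IntermediateField.adjoin k S) (C := K)).mpr halg

private theorem s2_card {k L : Type} [NormedField k] [IsUltrametricDist k] [Field L] [Algebra k L]
    {D : Subalgebra (O k) L} (hfr : ∀ x : L, ∃ m ∈ D, ∃ s ∈ D, s ≠ 0 ∧ x * s = m) {d n : ℕ}
    {ϖ : O k} (hϖ : ϖ ≠ 0) (ψ : DS.QQ d n ϖ →ₐ[O k] D) (hψ : ψ.toRingHom.Etale) {N : ℕ}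
    (hN : Algebra.trdeg k L = (N : Cardinal)) : d + n = N := by
  have hdom := DS.isDomain_ss (k := k) d hϖ
  have hfrac : IsFractionRing D L :=
    DS.isFractionRing_of_le (k := k) (R := L) (K := L) (A := D) (D := D) le_rfl hfr
  have hDfg : D.FG := by
    have h1 : ψ.toRingHom.FinitePresentation :=
      ((RingHom.etale_iff_formallyUnramified_and_smooth _).1 hψ).2.finitePresentation
    let _ : Algebra (DS.QQ d n ϖ) ↥D := ψ.toRingHom.toAlgebra
    have : IsScalarTower (O k) (DS.QQ d n ϖ) ↥D :=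
      IsScalarTower.of_algebraMap_eq fun a => (ψ.commutes a).symm
    have := DS.finitePresentation_qq (k := k) d n ϖ
    have : Algebra.FinitePresentation (DS.QQ d n ϖ) ↥D := h1
    have h2 : Algebra.FinitePresentation (O k) ↥D :=
      Algebra.FinitePresentation.trans (O k) (DS.QQ d n ϖ) ↥D
    have h3 : Algebra.FiniteType (O k) ↥D := inferInstance
    exact (Subalgebra.fg_iff_finiteType _).2 h3
  have hKfg : (⊤ : IntermediateField k L).FG := DS.fg_of_frac (R := L) (K := L) hDfg hfr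
  let F : DS.QQ d n ϖ →ₐ[O k] L := D.val.comp ψ
  have hun : ((algebraMap D (Localization.Away (1 : D))).comp
      ψ.toRingHom).FormallyUnramified := by
    have h1 : ψ.toRingHom.FormallyUnramified :=
      ((RingHom.etale_iff_formallyUnramified_and_smooth _).1 hψ).1
    refine RingHom.FormallyUnramified.comp h1 ?_
    rw [RingHom.formallyUnramified_algebraMap]
    exact Algebra.FormallyUnramified.of_isLocalization (Submonoid.powers (1 : D))
  have halg : Algebra.IsAlgebraic (IntermediateField.adjoin k (Set.range (DS.fam F))) L :=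
    DS.alg_of_unramified hKfg ψ.toRingHom (r := (1 : D)) one_ne_zero hun _
      (fun x => DS.mem_adjoin_fam hϖ F x)
  have hinj : Function.Injective F := fun x y hxy =>
    DS.injective_of_etale ψ.toRingHom hψ (Subtype.ext hxy)
  have hind := DS.algebraicIndependent_fam hϖ F hinj
  have halg' := s2_alg k (Set.range (DS.fam F)) halg
  have hcard : Cardinal.mk (Fin d ⊕ Fin n) = ((d + n : ℕ) : Cardinal) := by
    rw [Cardinal.mk_fintype, Fintype.card_sum, Fintype.card_fin, Fintype.card_fin]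
  have h1 := DS.card_le_trdeg hind
  rw [← Cardinal.mk_fintype, hcard, hN] at h1
  have h2 : Algebra.trdeg k L ≤ Cardinal.mk (Set.range (DS.fam F)) :=
    Algebra.IsAlgebraic.trdeg_le_cardinalMk k (Set.range (DS.fam F))
  have h3 := h2.trans Cardinal.mk_range_le
  rw [hcard, hN] at h3
  exact le_antisymm (Nat.cast_le.1 h1) (Nat.cast_le.1 h3)

/-- The number of coordinates. Proof. `SS d ϖ → B` is smooth and `B[1/b]` is etale over the polynomial ring `QQ d n ϖ`, which is
a domain (`DS.isDomain_ss`), so flat, so `QQ d n ϖ → L` is injective: `x 1, …, x d, v` are algebraically independent over `k`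
(use `DS.fam`, `DS.injective_of_fam` and the lemmas around them for the translation); `L` is algebraic over the field they
generate, because `L` is the fraction field of `B` and `a` is algebraic. -/
theorem card_std {k L : Type} [NormedField k] [IsUltrametricDist k] [Field L] [Algebra k L]
    {B : Subalgebra (O k) L} (hfr : ∀ x : L, ∃ y ∈ B, ∃ z ∈ B, z ≠ 0 ∧ x = y / z) {d : ℕ}
    {ϖ : O k} (hϖ : ϖ ≠ 0) (hϖ1 : ‖(ϖ : k)‖ < 1) (φ : DS.SS d ϖ →ₐ[O k] B)
    {b : B} (hb : b ≠ 0) {n : ℕ} (ψ : DS.QQ d n ϖ →ₐ[O k] ↥(DS.adj1 B (b : L)⁻¹))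
    (hψ : ψ.toRingHom.Etale) (hψφ : ∀ x, (ψ (MvPolynomial.C x) : L) = φ x) {N : ℕ}
    (hN : Algebra.trdeg k L = (N : Cardinal)) : d + n = N := by
  have hle : B ≤ DS.adj1 B (b : L)⁻¹ := DS.le_adj1 B _
  refine s2_card ?_ hϖ ψ hψ hN
  intro x
  obtain ⟨y, hy, z, hz, hz0, rfl⟩ := hfr x
  exact ⟨y, hle hy, z, hle hz, hz0, div_mul_cancel₀ y hz0⟩

/-- Proof. `exists_std` and `card_std` for the prime ideal of the elements of `B` of value `< 1`. (State `exists_std` with
the homomorphism `ψ` if necessary; it can be extended by the prover.) `CR ⊆ V` because `b` has value one. -/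
theorem exists_CD {k L : Type} [NormedField k] [IsUltrametricDist k] [Field L] [Algebra k L]
    {V : ValuationSubring L} {N : ℕ} (hN : Algebra.trdeg k L = (N : Cardinal))
    {B : Subalgebra (O k) L} (hBV : ∀ b ∈ B, b ∈ V)
    (hfr : ∀ x : L, ∃ y ∈ B, ∃ z ∈ B, z ≠ 0 ∧ x = y / z) {d : ℕ} {ϖ : O k} (hϖ : ϖ ≠ 0)
    (hϖ1 : ‖(ϖ : k)‖ < 1) (φ : DS.SS d ϖ →ₐ[O k] B) (hsm : φ.toRingHom.Smooth)
    (hlt : ∀ i, V.valuation (φ (DS.SS.x i) : L) < 1) :
    ∃ (q : ℕ) (v : Fin q → L) (a s : L), CD k V ϖ (fun i => (φ (DS.SS.x i) : L)) v a s ∧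
      d + q = N ∧ ∃ b : B, V.valuation (b : L) = 1 ∧
        (CR k (fun i => (φ (DS.SS.x i) : L)) v a s : Set L) = (DS.adj1 B (b : L)⁻¹ : Set L) := by
  -- the prime ideal
  let ι : B →+* V := (B.val.toRingHom).codRestrict V.toSubring (fun b => hBV b b.2)
  have hι : ∀ b : B, ((ι b : V) : L) = (b : L) := fun _ => rfl
  let q : Ideal B := (IsLocalRing.maximalIdeal V).comap ι
  have hqp : q.IsPrime := Ideal.IsPrime.comap ι
  have hmemq : ∀ b : B, b ∉ q → V.valuation (b : L) = 1 := by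
    intro b hb
    have h1 : ι b ∉ IsLocalRing.maximalIdeal V := hb
    rw [IsLocalRing.mem_maximalIdeal, mem_nonunits_iff, not_not] at h1
    exact (ValuationSubring.valuation_eq_one_iff V (ι b)).1 h1
  obtain ⟨b, hb, n, ψ, het, hψφ, v, a, s, f, hf, hfa, ⟨t, ht, hst⟩, hs0, hCR⟩ := s2_std φ hsm q
  have hb1 := hmemq b hb
  have hb0 : b ≠ 0 := by
    rintro rfl
    exact hb q.zero_mem
  have hbL : (b : L) ≠ 0 := fun h => hb0 (Subtype.ext h)
  have hbV : (b : L)⁻¹ ∈ V := by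
    rw [← ValuationSubring.valuation_le_one_iff, map_inv₀, hb1, inv_one]
  have hDV : ∀ y ∈ DS.adj1 B (b : L)⁻¹, y ∈ V := by
    intro y hy
    unfold DS.adj1 at hy
    induction hy using Algebra.adjoin_induction with
    | mem y hy =>
      rcases hy with hy | hy
      · exact hBV y hy
      · rw [Set.mem_singleton_iff] at hy
        rw [hy]
        exact hbV
    | algebraMap r => exact hBV _ (B.algebraMap_mem r)
    | add y z _ _ h1 h2 => exact add_mem h1 h2
    | mul y z _ _ h1 h2 => exact mul_mem h1 h2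
  have hCRV : ∀ y ∈ CR k (fun i => (φ (DS.SS.x i) : L)) v a s, y ∈ V := fun y hy =>
    hDV y (hCR ▸ hy)
  have hR1 : Algebra.adjoin (O k) (Set.range (fun i => (φ (DS.SS.x i) : L)) ∪ Set.range v ∪ {a})
      ≤ CR k (fun i => (φ (DS.SS.x i) : L)) v a s := by
    refine Algebra.adjoin_mono (Set.union_subset_union_right _ ?_)
    intro z hz
    rw [Set.mem_singleton_iff] at hz
    rw [hz]
    exact Or.inl rfl
  have hamem : a ∈ Algebra.adjoin (O k)
      (Set.range (fun i => (φ (DS.SS.x i) : L)) ∪ Set.range v ∪ {a}) :=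
    Algebra.subset_adjoin (Or.inr rfl)
  have h01 : CR0 k (fun i => (φ (DS.SS.x i) : L)) v ≤ Algebra.adjoin (O k)
      (Set.range (fun i => (φ (DS.SS.x i) : L)) ∪ Set.range v ∪ {a}) :=
    Algebra.adjoin_mono Set.subset_union_left
  have hsmem : s ∈ Algebra.adjoin (O k)
      (Set.range (fun i => (φ (DS.SS.x i) : L)) ∪ Set.range v ∪ {a}) := by
    rw [hst]
    refine mul_mem ?_ ht
    rw [Polynomial.aeval_def, Polynomial.eval₂_eq_sum_range]
    refine Subalgebra.sum_mem _ fun i _ => Subalgebra.mul_mem _ ?_ (Subalgebra.pow_mem _ hamem _)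
    exact h01 (Subtype.mem _)
  have hsinv : s⁻¹ ∈ CR k (fun i => (φ (DS.SS.x i) : L)) v a s :=
    Algebra.subset_adjoin (Or.inr (Or.inr rfl))
  refine ⟨n, v, a, s, ⟨hϖ, hϖ1, ?_, hlt, ?_, ?_, ?_, ?_⟩, ?_, b, hb1, ?_⟩
  · have h1 := congrArg (fun y => ((φ y : B) : L)) (DS.SS.prod_x d ϖ)
    simp only [map_prod] at h1
    rw [φ.commutes] at h1
    rw [← SubmonoidClass.coe_finsetProd] at *
    exact h1
  · intro i
    exact hCRV _ (hR1 (h01 (Algebra.subset_adjoin (Or.inr ⟨i, rfl⟩))))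
  · exact hCRV _ (hR1 hamem)
  · have h1 : V.valuation s ≤ 1 := (ValuationSubring.valuation_le_one_iff _ _).2
      (hCRV _ (hR1 hsmem))
    have h2 : V.valuation s⁻¹ ≤ 1 := (ValuationSubring.valuation_le_one_iff _ _).2
      (hCRV _ hsinv)
    rw [map_inv₀] at h2
    have h3 : V.valuation s ≠ 0 := (Valuation.ne_zero_iff _).2 hs0
    exact le_antisymm h1 ((inv_le_one₀ (zero_lt_iff.2 h3)).1 h2)
  · exact ⟨f, hf, hfa, t, ht, hst⟩
  · exact card_std hfr hϖ hϖ1 φ hb0 ψ het hψφ hN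
  · rw [hCR]

end TR
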