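import Pool.Agent.Lib.TR.E5
import Pool.Agent.Lib.TR.N1
import Pool.Agent.Lib.TR.R4
import Pool.Agent.Lib.TR.D1
import Pool.Agent.Lib.TR.D2

/-!
# Module TR.T0: one step gives transfer data
-/

open Polynomial MP1a953e IsLocalRing DA Filter

namespace TR
open Pool.Agent.Lib.MP_3029eb_ag Pool.Agent.Lib.MP_3029eb_ag.Abh CS

theorem exists_trData {k k1 L M1 : Type} [NontriviallyNormedField k] [IsUltrametricDist k]
    [IsAlgClosed k] [NormedField k1] [IsUltrametricDist k1] [IsAlgClosed k1] [NormedAlgebra k k1]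
    [NormedField L] [IsUltrametricDist L] [NormedAlgebra k L]
    [NormedField M1] [IsUltrametricDist M1] [NormedAlgebra k1 M1] [NormedAlgebra L M1]
    {c : k1} {a : ℕ → k} (h : Step k k1 L M1 c a) {n : ℕ}
    (hn : Algebra.trdeg k L = (n : Cardinal)) : ∃ Φ : M1 →+* St L, TrData k k1 L M1 Φ := by
  obtain ⟨Φ, hΦ⟩ := exists_phi h
  refine ⟨Φ, h.comm, h.imm, hΦ.cst, exists_exact hΦ h.comm h.imm, hΦ.nrm,
    lemmaR h hΦ, h.gen, fun m hm => ?_, ?_⟩
  · refine rdep_trans h.comm h.imm hm (rdep_of_trdeg ?_)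
    rw [trdeg_M1 h, Nat.cast_one]
  · rw [trdeg_step h hn, hn]

end TR
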