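import Pool.Agent.Lib.TR.G1
import Pool.Agent.Lib.TR.E1

/-!
# Module TR.X1: the valuation rings `(St.val V).comap Φ`, residual transcendence degrees
-/

open Polynomial MP1a953e IsLocalRing DA Filter

namespace TR
open Pool.Agent.Lib.MP_3029eb_ag Pool.Agent.Lib.MP_3029eb_ag.Abh CS

section
variable {K : Type} [Field K] {W : ValuationSubring K}

private theorem x1_le {x : K} (hx : x ∈ W) : W.valuation x ≤ 1 := (W.valuation_le_one_iff x).2 hx

private theorem x1_mul_congr {a b a' b' : K} (ha : a ∈ W) (hb' : b' ∈ W)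
    (h : W.valuation (a - b) < 1) (h' : W.valuation (a' - b') < 1) :
    W.valuation (a * a' - b * b') < 1 := by
  have e : a * a' - b * b' = a * (a' - b') + (a - b) * b' := by ring
  rw [e]
  refine Valuation.map_add_lt _ ?_ ?_
  · rw [map_mul, mul_comm]
    exact mul_lt_one_of_lt_of_le h' (x1_le ha)
  · rw [map_mul]
    exact mul_lt_one_of_lt_of_le h (x1_le hb')

private theorem x1_pow_congr {a b : K} (ha : a ∈ W) (hb : b ∈ W)
    (h : W.valuation (a - b) < 1) (n : ℕ) : W.valuation (a ^ n - b ^ n) < 1 := by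
  induction n with
  | zero =>
    rw [pow_zero, pow_zero, sub_self, map_zero]
    exact zero_lt_one
  | succ n ih =>
    rw [pow_succ, pow_succ]
    exact x1_mul_congr (pow_mem ha n) hb ih h

private theorem x1_prod_congr {ι : Type} (S : Finset ι) {a b : ι → K} (ha : ∀ i, a i ∈ W)
    (hb : ∀ i, b i ∈ W) (h : ∀ i, W.valuation (a i - b i) < 1) :
    W.valuation (∏ i ∈ S, a i - ∏ i ∈ S, b i) < 1 := by
  classical
  induction S using Finset.induction_on with
  | empty =>
    rw [Finset.prod_empty, Finset.prod_empty, sub_self, map_zero]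
    exact zero_lt_one
  | insert i S hi ih =>
    rw [Finset.prod_insert hi, Finset.prod_insert hi]
    exact x1_mul_congr (ha i) (W.prod_mem fun i _ => hb i) (h i) ih

private theorem x1_one_of_congr {x y : K} (hx : W.valuation x = 1) (h : W.valuation (x - y) < 1) :
    W.valuation y = 1 := by
  have h1 : W.valuation (y - x) < W.valuation x := by
    rw [hx, Valuation.map_sub_swap]
    exact h
  have h2 := Valuation.map_add_eq_of_lt_right W.valuation h1
  rw [sub_add_cancel] at h2
  rw [h2, hx]

private theorem x1_aeval_congr {k : Type} [Field k] [Algebra k K] {s : ℕ} {a b : Fin s → K}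
    (ha : ∀ i, a i ∈ W) (hb : ∀ i, b i ∈ W) (h : ∀ i, W.valuation (a i - b i) < 1)
    (P : MvPolynomial (Fin s) k) (hP : ∀ m, algebraMap k K (P.coeff m) ∈ W) :
    W.valuation (MvPolynomial.aeval a P - MvPolynomial.aeval b P) < 1 := by
  rw [MvPolynomial.aeval_def, MvPolynomial.aeval_def, MvPolynomial.eval₂_eq', MvPolynomial.eval₂_eq',
    ← Finset.sum_sub_distrib]
  refine Valuation.map_sum_lt _ one_ne_zero fun m _ => ?_
  rw [← mul_sub, map_mul, mul_comm]
  refine mul_lt_one_of_lt_of_le ?_ (x1_le (hP m))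
  exact x1_prod_congr _ (fun i => pow_mem (ha i) _) (fun i => pow_mem (hb i) _)
    fun i => x1_pow_congr (ha i) (hb i) (h i) _

private theorem x1_aeval_lt {k : Type} [Field k] [Algebra k K] {s : ℕ} {a : Fin s → K}
    (ha : ∀ i, a i ∈ W) (P : MvPolynomial (Fin s) k)
    (hP : ∀ m, W.valuation (algebraMap k K (P.coeff m)) < 1) :
    W.valuation (MvPolynomial.aeval a P) < 1 := by
  rw [MvPolynomial.aeval_def, MvPolynomial.eval₂_eq']
  refine Valuation.map_sum_lt _ one_ne_zero fun m _ => ?_
  rw [map_mul]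
  exact mul_lt_one_of_lt_of_le (hP m) (x1_le (W.prod_mem fun i _ => pow_mem (ha i) _))

end

section
variable {k k1 L M1 : Type} [NontriviallyNormedField k] [IsUltrametricDist k]
    [NormedField k1] [IsUltrametricDist k1] [NormedAlgebra k k1]
    [NormedField L] [IsUltrametricDist L] [NormedAlgebra k L]
    [NormedField M1] [IsUltrametricDist M1] [NormedAlgebra k1 M1] [NormedAlgebra L M1]
    {Φ : M1 →+* St L}

/-- Proof. `≤ ball`: `StN.le_one` and `h.nrm` (`St.val_mono`, `OvR.ball`). Constants: `h.con`, `St.mem_val`. -/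
theorem TrData.ovR (h : TrData k k1 L M1 Φ) {V : ValuationSubring L} (hV : OvR k V) :
    OvR k1 ((St.val V).comap Φ) := by
  refine ⟨fun z hz => ?_, fun x hx => ?_⟩
  · have h1 : Φ z ∈ St.val V := ValuationSubring.mem_comap.1 hz
    exact StN.le_one (h.nrm z) (St.val_mono hV.le h1)
  · obtain ⟨b, hb, he⟩ := h.con x
    rw [ValuationSubring.mem_comap, he, St.mem_val]
    exact Filter.Eventually.of_forall fun j => hV.const _ (by rw [hb j]; exact hx)

/-- constants of norm `< 1` are in the maximal ideal -/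
theorem TrData.const_lt (h : TrData k k1 L M1 Φ) {V : ValuationSubring L} (hV : OvR k V) {x : k1}
    (hx : ‖x‖ < 1) : (St.val V).valuation (Φ (algebraMap k1 M1 x)) < 1 := by
  obtain ⟨b, hb, he⟩ := h.con x
  rw [he, St.val_lt]
  exact Filter.Eventually.of_forall fun j => hV.const_lt_iff.2 (by rw [hb j]; exact hx)

/-- `Φ` maps `L` to constants -/
theorem TrData.mem_comap (h : TrData k k1 L M1 Φ) {V : ValuationSubring L} {l : L} :
    algebraMap L M1 l ∈ (St.val V).comap Φ ↔ l ∈ V := by
  rw [ValuationSubring.mem_comap, h.cst, St.cst_mem]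

theorem TrData.cst_le (h : TrData k k1 L M1 Φ) {V : ValuationSubring L} {l l' : L} :
    ((St.val V).comap Φ).valuation (algebraMap L M1 l) ≤
      ((St.val V).comap Φ).valuation (algebraMap L M1 l') ↔ V.valuation l ≤ V.valuation l' := by
  rw [comap_le_iff, h.cst, h.cst, St.cst_le]

theorem TrData.cst_eq_one (h : TrData k k1 L M1 Φ) {V : ValuationSubring L} {l : L} :
    ((St.val V).comap Φ).valuation (algebraMap L M1 l) = 1 ↔ V.valuation l = 1 := by
  rw [comap_eq_one, h.cst, St.cst_eq_one]

/-- A unit of the larger valuation ring is congruent to an element of `L`, which has the same value for the smaller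
valuation ring. Proof. `h.res` for `V1`: `z - l` has `V1`-value `< 1`, so `l` has `V1`-value one, `(z - l) / l` has
`V1`-value `< 1`, so `V`-value `< 1` (`val_lt_of_le`, `St.val_mono`), so `z` and `l` have the same `V`-value. -/
theorem TrData.exists_unit (h : TrData k k1 L M1 Φ) {V V1 : ValuationSubring L} (hle : V ≤ V1)
    (hV1 : V1 ≤ ball L) {z : M1} (hz : ((St.val V1).comap Φ).valuation z = 1) :
    ∃ l : L, V1.valuation l = 1 ∧ ((St.val V).comap Φ).valuation z =
      ((St.val V).comap Φ).valuation (algebraMap L M1 l) := by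
  rw [comap_eq_one] at hz
  have hz1 : Φ z ∈ St.val V1 := ((St.val V1).valuation_le_one_iff _).1 hz.le
  obtain ⟨l, hl, hlt⟩ := h.res V1 hV1 z hz1
  have h1 : (St.val V1).valuation (St.cst l) = 1 := x1_one_of_congr hz hlt
  refine ⟨l, St.cst_eq_one.1 h1, ?_⟩
  rw [comap_eq_iff, h.cst]
  have hne : St.cst l ≠ 0 := by
    intro h0
    rw [h0, map_zero] at h1
    exact zero_ne_one h1
  have h2 : (St.val V1).valuation ((Φ z - St.cst l) / St.cst l) < 1 := by
    rw [map_div₀, h1, div_one]
    exact hlt
  have h3 := val_lt_of_le (St.val_mono hle) h2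
  have hpos : 0 < (St.val V).valuation (St.cst l) :=
    zero_lt_iff.2 ((Valuation.ne_zero_iff _).2 hne)
  rw [map_div₀, div_lt_one₀ hpos] at h3
  have h4 := Valuation.map_add_eq_of_lt_right (St.val V).valuation h3
  rw [sub_add_cancel] at h4
  exact h4

/-- residually independent elements of `L` remain independent over `k1`. Proof. Let `P` be a polynomial over `k1` with
coefficients of norm `≤ 1`, one of norm one. For every coefficient `p` there is `p₀ ∈ k` with `‖p₀‖ ≤ 1`, `‖p - p₀‖ < 1`
(`h.imm`, `p₀ = 0` if `‖p‖ < 1`), so `P = P₀ + P₁` with `P₀` over `k`, and the coefficients of `P₁` have norm `< 1`.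
`P₀(y)` has value one (`RI k V y`), `P₁(y)` has value `< 1` (`const_lt`, `y j ∈ V`). -/
theorem TrData.ri_map (h : TrData k k1 L M1 Φ) {V : ValuationSubring L} (hV : OvR k V) {s : ℕ}
    {y : Fin s → L} (hy : ∀ i, y i ∈ V) (hR : RI k V y) :
    RI k1 ((St.val V).comap Φ) fun i => algebraMap L M1 (y i) := by
  classical
  intro P hP hP1
  obtain ⟨m1, hm1⟩ := hP1
  have hg : ∀ x : k1, ∃ b : k, (x = 0 → b = 0) ∧ (‖x‖ ≤ 1 → ‖b‖ ≤ 1 ∧ ‖x - algebraMap k k1 b‖ < 1) := by
    intro x
    by_cases hx : ‖x‖ = 1
    · have hx0 : x ≠ 0 := by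
        intro h0
        rw [h0, norm_zero] at hx
        exact zero_ne_one hx
      obtain ⟨b, hb⟩ := h.imm x hx0
      rw [hx] at hb
      refine ⟨b, fun h0 => absurd h0 hx0, fun _ => ⟨?_, hb⟩⟩
      have e : algebraMap k k1 b = x + -(x - algebraMap k k1 b) := by ring
      rw [← norm_algebraMap' k1 b, e]
      refine (IsUltrametricDist.norm_add_le_max _ _).trans (max_le hx.le ?_)
      rw [norm_neg]
      exact hb.le
    · refine ⟨0, fun _ => rfl, fun h1 => ⟨by rw [norm_zero]; exact zero_le_one, ?_⟩⟩
      rw [map_zero, sub_zero]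
      exact lt_of_le_of_ne h1 hx
  choose g hg0 hg1 using hg
  let P0 : MvPolynomial (Fin s) k := ∑ m ∈ P.support, MvPolynomial.monomial m (g (P.coeff m))
  have hc0 : ∀ m, P0.coeff m = g (P.coeff m) := fun m => by
    rw [MvPolynomial.coeff_sum]
    simp only [MvPolynomial.coeff_monomial]
    rw [Finset.sum_ite_eq']
    split_ifs with hm
    · rfl
    · rw [MvPolynomial.notMem_support_iff.1 hm, hg0 0 rfl]
  have hRI := hR P0 (fun m => by rw [hc0]; exact (hg1 _ (hP m)).1) ⟨m1, by
    rw [hc0]
    have h1 := hg1 _ (hP m1)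
    have e : algebraMap k k1 (g (P.coeff m1)) = P.coeff m1 - (P.coeff m1 - algebraMap k k1 (g (P.coeff m1))) := by
      ring
    by_contra hne
    have hlt : ‖g (P.coeff m1)‖ < 1 := lt_of_le_of_ne h1.1 hne
    have h2 : ‖P.coeff m1‖ < 1 := by
      have e2 : P.coeff m1 = (P.coeff m1 - algebraMap k k1 (g (P.coeff m1))) + algebraMap k k1 (g (P.coeff m1)) := by
        ring
      rw [e2]
      refine (IsUltrametricDist.norm_add_le_max _ _).trans_lt (max_lt h1.2 ?_)
      rw [norm_algebraMap']
      exact hlt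
    exact absurd hm1 h2.ne⟩
  have hy' : ∀ i, algebraMap L M1 (y i) ∈ (St.val V).comap Φ := fun i => h.mem_comap.2 (hy i)
  have hmap : MvPolynomial.aeval (fun i => algebraMap L M1 (y i)) (MvPolynomial.map (algebraMap k k1) P0) =
      algebraMap L M1 (MvPolynomial.aeval y P0) := by
    rw [MvPolynomial.aeval_def, MvPolynomial.eval₂_map, MvPolynomial.aeval_def, MvPolynomial.eval₂_eq',
      MvPolynomial.eval₂_eq', map_sum]
    refine Finset.sum_congr rfl fun m _ => ?_
    rw [map_mul, map_prod, RingHom.comp_apply, h.comm]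
    simp only [map_pow]
  have hsub : ((St.val V).comap Φ).valuation (MvPolynomial.aeval (fun i => algebraMap L M1 (y i))
      (MvPolynomial.map (algebraMap k k1) P0 - P)) < 1 := by
    refine x1_aeval_lt hy' _ fun m => ?_
    rw [comap_lt_one]
    refine h.const_lt hV ?_
    rw [MvPolynomial.coeff_sub, MvPolynomial.coeff_map, hc0, norm_sub_rev]
    exact (hg1 _ (hP m)).2
  rw [map_sub, hmap] at hsub
  exact x1_one_of_congr (h.cst_eq_one.2 hRI) hsub

/-- Proof. `ri_map` for the existence. Let `y : Fin (s + 1) → M1` be in the valuation ring and independent; by `h.res` there are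
`l i ∈ V` with `y i - l i` of value `< 1`; then `l` is residually independent over `k`: for `P` over `k`, `P(l)` and `P(y)`
differ by an element of value `< 1` (`P(y) - P(l)` is in the maximal ideal, e.g. by `MvPolynomial.induction_on`), contradiction. -/
theorem TrData.rtv (h : TrData k k1 L M1 Φ) {V : ValuationSubring L} (hV : OvR k V) {s : ℕ}
    (hs : RTV k V s) : RTV k1 ((St.val V).comap Φ) s := by
  have hV' := h.ovR hV
  refine ⟨?_, ?_⟩
  · obtain ⟨y, hy, hR⟩ := hs.1
    exact ⟨fun i => algebraMap L M1 (y i), fun i => h.mem_comap.2 (hy i), h.ri_map hV hy hR⟩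
  · intro y hy hR
    have hex : ∀ i, ∃ l ∈ V, (St.val V).valuation (Φ (y i) - St.cst l) < 1 := fun i =>
      h.res V hV.le (y i) (ValuationSubring.mem_comap.1 (hy i))
    choose l hl hlt using hex
    refine hs.2 l hl fun P hP hP1 => ?_
    have hc : ∀ i, ((St.val V).comap Φ).valuation (y i - algebraMap L M1 (l i)) < 1 := fun i => by
      rw [comap_lt_one, map_sub, h.cst]
      exact hlt i
    have h1 := hR (MvPolynomial.map (algebraMap k k1) P)
      (fun m => by rw [MvPolynomial.coeff_map, norm_algebraMap']; exact hP m)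
      (by
        obtain ⟨m, hm⟩ := hP1
        exact ⟨m, by rw [MvPolynomial.coeff_map, norm_algebraMap']; exact hm⟩)
    have hcm : ∀ m, algebraMap k1 M1 ((MvPolynomial.map (algebraMap k k1) P).coeff m) ∈
        (St.val V).comap Φ := fun m => hV'.const _ (by
      rw [MvPolynomial.coeff_map, norm_algebraMap']
      exact hP m)
    have h2 := x1_aeval_congr hy (fun i => h.mem_comap.2 (hl i)) hc _ hcm
    have h3 := x1_one_of_congr h1 h2
    have hmap : MvPolynomial.aeval (fun i => algebraMap L M1 (l i)) (MvPolynomial.map (algebraMap k k1) P) =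
        algebraMap L M1 (MvPolynomial.aeval l P) := by
      rw [MvPolynomial.aeval_def, MvPolynomial.eval₂_map, MvPolynomial.aeval_def, MvPolynomial.eval₂_eq',
        MvPolynomial.eval₂_eq', map_sum]
      refine Finset.sum_congr rfl fun m _ => ?_
      rw [map_mul, map_prod, RingHom.comp_apply, h.comm]
      simp only [map_pow]
    rw [hmap] at h3
    exact h.cst_eq_one.1 h3

end

end TR
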